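import Mathlib

/-! Derivations and algebraic dependence; rational decompositions. -/

set_option linter.unusedSectionVars false
set_option linter.unusedVariables false

namespace Pool.Agent.ZPT
open Finset MvPolynomial Matrix

/-- Derivations with prescribed values on a transcendence basis.
Hint: `F` is formally smooth (even etale) over `A = MvPolynomial τ k` via `aeval s`
(`A → FractionRing A` is a localisation, `FractionRing A → F` is separable algebraic:
`Algebra.FormallyEtale.of_isLocalization`, `.of_isSeparable`, `.comp`). Make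
`TrivSqZeroExt F F` an `A`-algebra by `X j ↦ inl (s j) + inr (w j)`, lift the identity of `F`
along `fstHom` (`Algebra.FormallySmooth.liftOfSurjective`, the kernel has square zero) and take
the second component. Alternatively use `KaehlerDifferential.tensorKaehlerEquivOfFormallyEtale`. -/
theorem exists_der {k F τ : Type} [Field k] [CharZero k] [Field F] [Algebra k F] {s : τ → F}
    (hs : IsTranscendenceBasis k s) (w : τ → F) : ∃ D : Derivation k F F, ∀ j, D (s j) = w j := by
  let _ : Algebra (MvPolynomial τ k) F := (aeval s : _ →ₐ[k] F).toRingHom.toAlgebra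
  have hA : ∀ p : MvPolynomial τ k, algebraMap (MvPolynomial τ k) F p = aeval s p := fun _ => rfl
  have _ : IsScalarTower k (MvPolynomial τ k) F :=
    IsScalarTower.of_algebraMap_eq fun c => by rw [hA, AlgHom.commutes]
  have hinj : Function.Injective (algebraMap (MvPolynomial τ k) F) :=
    algebraicIndependent_iff_injective_aeval.1 hs.1
  have _ : FaithfulSMul (MvPolynomial τ k) F := (faithfulSMul_iff_algebraMap_injective _ _).2 hinj
  have h1 := hs.isAlgebraic
  have _ : Algebra.IsAlgebraic (MvPolynomial τ k) F :=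
    (Algebra.isAlgebraic_ringHom_iff_of_comp_eq hs.1.aevalEquiv (RingEquiv.refl F)
      (RingHom.ext fun _ => rfl)).1 h1
  let _ : Algebra (FractionRing (MvPolynomial τ k)) F := FractionRing.liftAlgebra _ _
  have _ : IsScalarTower (MvPolynomial τ k) (FractionRing (MvPolynomial τ k)) F :=
    FractionRing.isScalarTower_liftAlgebra _ _
  have _ : Algebra.IsAlgebraic (FractionRing (MvPolynomial τ k)) F :=
    Algebra.IsAlgebraic.extendScalars (IsFractionRing.injective (MvPolynomial τ k) _)
  have _ : CharZero (FractionRing (MvPolynomial τ k)) :=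
    charZero_of_injective_algebraMap (algebraMap k _).injective
  have _ : Algebra.FormallyEtale (MvPolynomial τ k) (FractionRing (MvPolynomial τ k)) :=
    Algebra.FormallyEtale.of_isLocalization (nonZeroDivisors _)
  have _ : Algebra.FormallyEtale (FractionRing (MvPolynomial τ k)) F :=
    Algebra.FormallyEtale.of_isSeparable _ _
  have _ : Algebra.FormallyEtale (MvPolynomial τ k) F :=
    Algebra.FormallyEtale.comp _ (FractionRing (MvPolynomial τ k)) _
  let d : Derivation k (MvPolynomial τ k) F := MvPolynomial.mkDerivation k w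
  let l : KaehlerDifferential k F →ₗ[F] F :=
    (d.liftKaehlerDifferential.liftBaseChange F).comp
      (KaehlerDifferential.tensorKaehlerEquivOfFormallyEtale k (MvPolynomial τ k) F).symm.toLinearMap
  refine ⟨l.compDer (KaehlerDifferential.D k F), fun j => ?_⟩
  have e : s j = algebraMap (MvPolynomial τ k) F (X j) := by rw [hA, aeval_X]
  show (d.liftKaehlerDifferential.liftBaseChange F)
    ((KaehlerDifferential.tensorKaehlerEquivOfFormallyEtale k (MvPolynomial τ k) F).symm
      (KaehlerDifferential.D k F (s j))) = w j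
  rw [e, KaehlerDifferential.tensorKaehlerEquivOfFormallyEtale_symm_D_algebraMap,
    LinearMap.liftBaseChange_tmul, one_smul, Derivation.liftKaehlerDifferential_comp_D]
  exact MvPolynomial.mkDerivation_X k w j

section Ker
variable {k F : Type} [CommRing k] [Field F] [CharZero F] [Algebra k F] (δ : Derivation k F F)

theorem Alg_chain {q : Polynomial F} (h : ∀ i, δ (q.coeff i) = 0) (y : F) :
    δ (q.eval y) = (Polynomial.derivative q).eval y * δ y := by
  rw [Polynomial.derivative_eval, Polynomial.eval_eq_sum, Polynomial.sum_def, Polynomial.sum_def,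
    map_sum, Finset.sum_mul]
  refine Finset.sum_congr rfl fun i _ => ?_
  rw [Derivation.leibniz, Derivation.leibniz_pow, h, smul_zero, add_zero, smul_eq_mul, smul_eq_mul,
    nsmul_eq_mul]
  ring

theorem Alg_ker {y : F} (n : ℕ) : ∀ q : Polynomial F, q.natDegree ≤ n → q ≠ 0 →
    (∀ i, δ (q.coeff i) = 0) → q.eval y = 0 → δ y = 0 := by
  induction n with
  | zero =>
    intro q hn q0 _ hy
    rw [Polynomial.eq_C_of_natDegree_le_zero hn] at hy q0
    rw [Polynomial.eval_C] at hy
    exact absurd (by rw [hy, map_zero]) q0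
  | succ n ih =>
    intro q hn q0 h hy
    have h1 := Alg_chain δ h y
    rw [hy, map_zero] at h1
    rcases mul_eq_zero.1 h1.symm with h2 | h2
    · by_cases h3 : Polynomial.derivative q = 0
      · exact ih q (by rw [Polynomial.derivative_eq_zero.1 h3]; omega) q0 h hy
      · refine ih _ ?_ h3 (fun i => ?_) h2
        · have := Polynomial.natDegree_derivative_le q
          omega
        · rw [Polynomial.coeff_derivative, Derivation.leibniz, h, ← Nat.cast_succ,
            Derivation.map_natCast, smul_zero, smul_zero, add_zero]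
    · exact h2

/-- An element algebraic over constants is a constant. Hint: strong induction on `natDegree p`:
`0 = δ (p.eval₂ φ y) = (derivative p).eval₂ φ y * δ y`; if the first factor vanishes use the
induction hypothesis (`A` has characteristic zero and no zero divisors since `φ` is injective;
or first map `p` to the subfield of constants). -/
theorem ker_alg {A : Type} [CommRing A] (φ : A →+* F) (hφ : Function.Injective φ)
    (h : ∀ a, δ (φ a) = 0) {p : Polynomial A} (p0 : p ≠ 0) {y : F} (hy : p.eval₂ φ y = 0) :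
    δ y = 0 := by
  refine Alg_ker δ _ (p.map φ) le_rfl ((Polynomial.map_ne_zero_iff hφ).2 p0) (fun i => ?_) ?_
  · rw [Polynomial.coeff_map, h]
  · rwa [Polynomial.eval_map]

variable {K Ω : Type} [Field K] [Field Ω] [Algebra K Ω] [Algebra K F] (j : Ω →ₐ[K] F)

/-- Hint: `ker_alg` with `A = Algebra.adjoin K S`, `φ = j ∘ val`, `Algebra.adjoin_induction`. -/
theorem ker_of_alg (hK : ∀ c : K, δ (algebraMap K F c) = 0) {S : Set Ω}
    (hS : ∀ x ∈ S, δ (j x) = 0) {y : Ω} (hy : IsAlgebraic (Algebra.adjoin K S) y) :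
    δ (j y) = 0 := by
  obtain ⟨p, p0, hp⟩ := hy
  refine ker_alg δ ((j : Ω →+* F).comp (algebraMap (Algebra.adjoin K S) Ω))
    ((j : Ω →+* F).injective.comp Subtype.val_injective) ?_ p0 ?_
  · rintro ⟨a, ha⟩
    show δ (j a) = 0
    induction ha using Algebra.adjoin_induction with
    | mem x hx => exact hS x hx
    | algebraMap c => rw [AlgHom.commutes, hK]
    | add x y _ _ h1 h2 => rw [map_add, map_add, h1, h2, add_zero]
    | mul x y _ _ h1 h2 => rw [map_mul, Derivation.leibniz, h1, h2, smul_zero, smul_zero, add_zero]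
  · have h1 := Polynomial.hom_eval₂ p (algebraMap (Algebra.adjoin K S) Ω) (j : Ω →+* F) y
    rw [← Polynomial.aeval_def, hp, map_zero] at h1
    exact h1.symm

/-- Hint: `AlgebraicIndependent.option_iff`, `algebraicIndependent_equiv`,
`AlgebraicIndependent.isTranscendenceBasis_of_trdeg_le_of_finite`. -/
theorem basis_pair (htr : Algebra.trdeg K Ω = 2) {x y : Ω} (hx : Transcendental K x)
    (hy : ¬ IsAlgebraic (Algebra.adjoin K {x}) y) : IsTranscendenceBasis K ![x, y] := by
  have h1 : AlgebraicIndependent K fun o : Option Unit => o.elim y fun _ => x := by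
    refine AlgebraicIndependent.option_iff.2 ⟨algebraicIndependent_unique_type_iff.2 hx, ?_⟩
    rw [Set.range_const]
    exact hy
  have h2 : AlgebraicIndependent K ![x, y] := by
    have h3 := h1.comp ![some (), none] (by decide)
    convert h3 using 1
    funext i
    fin_cases i <;> rfl
  exact h2.isTranscendenceBasis_of_trdeg_le_of_finite (by rw [htr]; simp)

/-- Hint: otherwise `![x, y]` is a transcendence basis, so `ker_of_alg` kills `j w`. -/
theorem alg_of_ker (htr : Algebra.trdeg K Ω = 2) (hK : ∀ c : K, δ (algebraMap K F c) = 0)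
    {w : Ω} (hw : δ (j w) ≠ 0) {x y : Ω} (hx : Transcendental K x) (h1 : δ (j x) = 0)
    (h2 : δ (j y) = 0) : IsAlgebraic (Algebra.adjoin K {x}) y := by
  by_contra hy
  refine hw (ker_of_alg δ j hK (S := Set.range ![x, y]) ?_
    ((basis_pair htr hx hy).isAlgebraic.isAlgebraic w))
  rintro _ ⟨i, rfl⟩
  fin_cases i
  · exact h1
  · exact h2

end Ker

section Int
variable {K Ω τ : Type} [Field K] [NumberField K] [Field Ω] [Algebra K Ω] {t : τ → Ω}

/-- Hint: `AlgebraicIndependent.restrictScalars`. -/
theorem ind_int (ht : AlgebraicIndependent K t) (g : MvPolynomial τ ℤ) (h : aeval t g = 0) :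
    g = 0 := by
  exact algebraicIndependent_iff.1 (ht.restrictScalars (RingHom.injective_int _)) g h

/-- An integer relation with nonvanishing derivative. Hint: `A₀ = Algebra.adjoin ℤ (range t)`;
`Algebra.adjoin K (range t)` is algebraic over `A₀` (constants are algebraic over `ℤ`), so `x` is
algebraic over `A₀` (`IsAlgebraic.restrictScalars`, or `Algebra.IsAlgebraic.trans`); lift the
coefficients to `MvPolynomial τ ℤ`; take a nonzero relation of minimal `natDegree` as in `minrel`
of the file AlgA (its degree is positive by `ind_int`). -/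
theorem min_int (ht : AlgebraicIndependent K t) {x : Ω}
    (hx : IsAlgebraic (Algebra.adjoin K (Set.range t)) x) :
    ∃ m : Polynomial (MvPolynomial τ ℤ), m.eval₂ (aeval t : _ →ₐ[ℤ] Ω) x = 0 ∧
      (Polynomial.derivative m).eval₂ (aeval t : _ →ₐ[ℤ] Ω) x ≠ 0 := by
  have _ : CharZero Ω := charZero_of_injective_algebraMap (algebraMap K Ω).injective
  let _ : Algebra (MvPolynomial τ ℤ) Ω := (aeval t : _ →ₐ[ℤ] Ω).toRingHom.toAlgebra
  have hA : ∀ p : MvPolynomial τ ℤ, algebraMap (MvPolynomial τ ℤ) Ω p = aeval t p := fun _ => rfl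
  have _ : IsScalarTower ℤ (MvPolynomial τ ℤ) Ω :=
    IsScalarTower.of_algebraMap_eq fun c => by rw [hA, AlgHom.commutes]
  have h1 : ∀ a ∈ Algebra.adjoin K (Set.range t),
      a ∈ Subalgebra.algebraicClosure (MvPolynomial τ ℤ) Ω := by
    intro a ha
    induction ha using Algebra.adjoin_induction with
    | mem x hx =>
      obtain ⟨i, rfl⟩ := hx
      have := (Subalgebra.algebraicClosure (MvPolynomial τ ℤ) Ω).algebraMap_mem (X i)
      rwa [hA, aeval_X] at this
    | algebraMap c =>
      have h2 : IsAlgebraic ℤ c :=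
        (IsFractionRing.isAlgebraic_iff ℤ ℚ K).2 (Algebra.IsAlgebraic.isAlgebraic c)
      exact (h2.algebraMap (A := Ω)).extendScalars (RingHom.injective_int _)
    | add x y _ _ h1 h2 => exact add_mem h1 h2
    | mul x y _ _ h1 h2 => exact mul_mem h1 h2
  have h2 : IsAlgebraic (Subalgebra.algebraicClosure (MvPolynomial τ ℤ) Ω) x :=
    hx.ringHom_of_comp_eq ((algebraMap (Algebra.adjoin K (Set.range t)) Ω).codRestrict
      (Subalgebra.algebraicClosure (MvPolynomial τ ℤ) Ω) fun a => h1 a.1 a.2) (RingHom.id Ω)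
      (fun a b h => Subtype.ext (Subtype.ext_iff.1 h :)) (RingHom.ext fun _ => rfl)
  obtain ⟨p, p0, hp⟩ := h2.restrictScalars (MvPolynomial τ ℤ)
  have key : ∀ n : ℕ, ∀ m : Polynomial (MvPolynomial τ ℤ), m.natDegree ≤ n → m ≠ 0 →
      m.eval₂ (aeval t : _ →ₐ[ℤ] Ω) x = 0 →
      ∃ m : Polynomial (MvPolynomial τ ℤ), m.eval₂ (aeval t : _ →ₐ[ℤ] Ω) x = 0 ∧
        (Polynomial.derivative m).eval₂ (aeval t : _ →ₐ[ℤ] Ω) x ≠ 0 := by
    intro n
    induction n with
    | zero =>
      intro m hn m0 hm
      rw [Polynomial.eq_C_of_natDegree_le_zero hn] at hm m0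
      rw [Polynomial.eval₂_C] at hm
      exact absurd (by rw [ind_int ht _ hm, map_zero]) m0
    | succ n ih =>
      intro m hn m0 hm
      by_cases h3 : (Polynomial.derivative m).eval₂ (aeval t : _ →ₐ[ℤ] Ω) x = 0
      · by_cases h4 : Polynomial.derivative m = 0
        · exact ih m (by rw [Polynomial.derivative_eq_zero.1 h4]; omega) m0 hm
        · refine ih _ ?_ h4 h3
          have := Polynomial.natDegree_derivative_le m
          omega
      · exact ⟨m, hm, h3⟩
  exact key _ p le_rfl p0 hp

end Int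

/-- A vector is a combination of integer vectors satisfying the same integer equations.
Hint: basis `r'` of `Submodule.span ℚ (range φ)`, coordinates, one common denominator
(`IsLocalization.exist_integer_multiples_of_finite`). -/
theorem rat_dec {F ι : Type} [Field F] [CharZero F] [Fintype ι] (φ : ι → F) :
    ∃ (J : Type) (_ : Fintype J) (r : J → F) (y : J → ι → ℤ), (∀ i, φ i = ∑ j, r j * y j i) ∧
      ∀ j (n : ι → ℤ), ∑ i, φ i * n i = 0 → ∑ i, y j i * n i = 0 := by
  have _ : FiniteDimensional ℚ (Submodule.span ℚ (Set.range φ)) :=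
    FiniteDimensional.span_of_finite ℚ (Set.finite_range φ)
  let b := Module.finBasis ℚ (Submodule.span ℚ (Set.range φ))
  let v : ι → Submodule.span ℚ (Set.range φ) := fun i => ⟨φ i, Submodule.subset_span ⟨i, rfl⟩⟩
  obtain ⟨N, hN⟩ := IsLocalization.exist_integer_multiples_of_finite (nonZeroDivisors ℤ)
    (S := ℚ) fun p : ι × _ => b.repr (v p.1) p.2
  choose y hy using hN
  have hy' : ∀ i j, ((y (i, j) : ℤ) : ℚ) = ((N : ℤ) : ℚ) * b.repr (v i) j := fun i j => by
    have := hy (i, j)
    rwa [zsmul_eq_mul] at this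
  have N0 : ((N : ℤ) : F) ≠ 0 := Int.cast_ne_zero.2 (nonZeroDivisors.coe_ne_zero N)
  refine ⟨_, inferInstance, fun j => (b j : F) / ((N : ℤ) : F), fun j i => y (i, j), fun i => ?_,
    fun j n hn => ?_⟩
  · have h1 := congrArg Subtype.val (b.sum_repr (v i))
    rw [Submodule.coe_sum] at h1
    refine h1.symm.trans (Finset.sum_congr rfl fun j _ => ?_)
    have h2 : ((y (i, j) : ℤ) : F) = ((N : ℤ) : F) * (b.repr (v i) j : F) := by
      have := congrArg (fun q : ℚ => (q : F)) (hy' i j)
      simpa using this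
    rw [Submodule.coe_smul, Rat.smul_def, h2]
    field_simp
  · have h1 : ∑ i, (n i : ℚ) • v i = 0 := by
      apply Subtype.ext
      rw [Submodule.coe_sum, Submodule.coe_zero, ← hn]
      refine Finset.sum_congr rfl fun i _ => ?_
      rw [Submodule.coe_smul, Rat.smul_def, Rat.cast_intCast, mul_comm]
    have h2 := congrArg (fun u => b.repr u j) h1
    simp only [map_sum, map_smul, Finsupp.finsetSum_apply, Finsupp.smul_apply, smul_eq_mul,
      map_zero, Finsupp.zero_apply] at h2
    have h3 : ((∑ i, y (i, j) * n i : ℤ) : ℚ) = 0 := by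
      push_cast
      simp only [hy']
      rw [← mul_zero ((N : ℤ) : ℚ), ← h2, Finset.mul_sum]
      exact Finset.sum_congr rfl fun i _ => by ring
    exact_mod_cast h3

/-- Hint: if `γ = 0` take two unit vectors; otherwise let `|γ k|` be maximal and take
`e_i - (γ i / γ k) e_k` for the two indices `i ≠ k` (three symmetric cases). -/
theorem perp (γ : Fin 3 → ℝ) : ∃ e e' : Fin 3 → ℝ, e ⬝ᵥ γ = 0 ∧ e' ⬝ᵥ γ = 0 ∧ ‖e‖ ≤ 1 ∧ ‖e'‖ ≤ 1 ∧
    1 ≤ ‖e ⨯₃ e'‖ ∧ ∃ c : ℝ, γ = c • e ⨯₃ e' := by
  have h1 : ∃ (k : Fin 3) (c : ℝ) (u : Fin 3 → ℝ), γ = c • u ∧ u k = 1 ∧ ∀ i, |u i| ≤ 1 := by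
    obtain ⟨k, -, hk⟩ := Finset.exists_max_image Finset.univ (fun i => |γ i|) Finset.univ_nonempty
    by_cases h0 : γ k = 0
    · refine ⟨0, 0, fun _ => 1, ?_, rfl, fun _ => abs_one.le⟩
      funext i
      have := hk i (Finset.mem_univ i)
      rw [h0, abs_zero, abs_nonpos_iff] at this
      simp [this]
    · refine ⟨k, γ k, fun i => γ i / γ k, ?_, div_self h0, fun i => ?_⟩
      · funext i
        rw [Pi.smul_apply, smul_eq_mul, mul_div_cancel₀ _ h0]
      · rw [abs_div, div_le_one (abs_pos.2 h0)]
        exact hk i (Finset.mem_univ i)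
  obtain ⟨k, c, u, rfl, hk, hu⟩ := h1
  have key : ∀ e e' : Fin 3 → ℝ, (∀ i, |e i| ≤ 1) → (∀ i, |e' i| ≤ 1) → e ⨯₃ e' = u →
      ∃ e e' : Fin 3 → ℝ, e ⬝ᵥ c • u = 0 ∧ e' ⬝ᵥ c • u = 0 ∧ ‖e‖ ≤ 1 ∧ ‖e'‖ ≤ 1 ∧
        1 ≤ ‖e ⨯₃ e'‖ ∧ ∃ c' : ℝ, c • u = c' • e ⨯₃ e' := by
    intro e e' h1 h2 h3
    refine ⟨e, e', ?_, ?_, (pi_norm_le_iff_of_nonneg zero_le_one).2 h1,
      (pi_norm_le_iff_of_nonneg zero_le_one).2 h2, ?_, c, by rw [h3]⟩
    · rw [dotProduct_smul, ← h3, dot_self_cross, smul_zero]
    · rw [dotProduct_smul, ← h3, dot_cross_self, smul_zero]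
    · have := norm_le_pi_norm u k
      rwa [hk, norm_one, ← h3] at this
  have a0 := hu 0
  have a1 := hu 1
  have a2 := hu 2
  fin_cases k
  · refine key ![-u 1, 1, 0] ![-u 2, 0, 1] (fun i => ?_) (fun i => ?_) ?_
    · fin_cases i <;> simp [a1]
    · fin_cases i <;> simp [a2]
    · have hk' : u 0 = 1 := hk
      funext i
      fin_cases i <;> simp [cross_apply, hk']
  · refine key ![0, -u 2, 1] ![1, -u 0, 0] (fun i => ?_) (fun i => ?_) ?_
    · fin_cases i <;> simp [a2]
    · fin_cases i <;> simp [a0]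
    · have hk' : u 1 = 1 := hk
      funext i
      fin_cases i <;> simp [cross_apply, hk']
  · refine key ![1, 0, -u 0] ![0, 1, -u 1] (fun i => ?_) (fun i => ?_) ?_
    · fin_cases i <;> simp [a0]
    · fin_cases i <;> simp [a1]
    · have hk' : u 2 = 1 := hk
      funext i
      fin_cases i <;> simp [cross_apply, hk']

end Pool.Agent.ZPT
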