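import Pool.Agent.P.MP_4fdccb_ag.S.AmzA

/-! Small relations between large monomials on the base curve. -/

set_option linter.unusedSectionVars false
set_option linter.unusedVariables false

namespace Pool.Agent.ZPT
open Finset Filter Height Real
open PowerSeries hiding log

variable {K : Type} [Field K] [NumberField K] [Algebra K ℂ] {B : Type} [Fintype B] [DecidableEq B]
  {𝔮 : Ideal (MvPolynomial B K)} [𝔮.IsPrime] {E : Type} [Field E] [Algebra K E] {q : B → E}

section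
variable {A B σ τ : Type} [CommRing A] [CommRing B] [SetLike σ (A × B)] [SubringClass σ (A × B)]
  {S : σ} [i : Algebra ℤ B] {x : τ → A} {y : τ → B}

theorem pr_aeval' (h : ∀ i, (x i, y i) ∈ S) (p : MvPolynomial τ ℤ) :
    (MvPolynomial.aeval x p, MvPolynomial.aeval y p) ∈ S := by
  obtain rfl : i = Ring.toIntAlgebra B := Subsingleton.elim _ _
  exact pr_aeval h p

theorem pr_eval₂' (h : ∀ i, (x i, y i) ∈ S) {a : A} {b : B} (h' : (a, b) ∈ S)
    (m : Polynomial (MvPolynomial τ ℤ)) : (m.eval₂ (MvPolynomial.aeval x : _ →ₐ[ℤ] A) a,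
      m.eval₂ (MvPolynomial.aeval y : _ →ₐ[ℤ] B) b) ∈ S := by
  obtain rfl : i = Ring.toIntAlgebra B := Subsingleton.elim _ _
  exact pr_eval₂ h h' m

theorem SN.aeval' {N : B → ℝ} (h : SN N) (y : τ → B) {ρ : ℝ} (hρ : 1 ≤ ρ) (hx : ∀ i, N (y i) ≤ ρ)
    (p : MvPolynomial τ ℤ) {e : ℕ} (he : p.totalDegree ≤ e) :
    N (MvPolynomial.aeval y p) ≤ nz p * ρ ^ e := by
  obtain rfl : i = Ring.toIntAlgebra B := Subsingleton.elim _ _
  exact h.aeval y hρ hx p he

end

theorem zpow_split {L : Type} [Field L] (x : L) (e : ℤ) :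
    x ^ e = x ^ e.toNat * x⁻¹ ^ (-e).toNat := by
  obtain ⟨m, rfl | rfl⟩ := e.eq_nat_or_neg <;> simp

/-- uniform bounds for the expansions of finitely many algebraic functions -/
theorem hensels {I : Type} [Fintype I] (m : I → Polynomial (MvPolynomial Unit ℤ)) :
    ∃ (A : ℝ) (e : ℕ), 1 ≤ A ∧ ∀ (L : Type) [Field L] (t₀ : L) (x₀ Δ : I → L) (f : I → L⟦X⟧),
      (∀ i, constantCoeff (f i) = x₀ i) → (∀ i, (m i).eval₂
        (MvPolynomial.aeval fun _ : Unit => C t₀ + X : _ →ₐ[ℤ] L⟦X⟧) (f i) = 0) →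
      (∀ i, (Polynomial.derivative (m i)).eval₂
        (MvPolynomial.aeval fun _ : Unit => t₀ : _ →ₐ[ℤ] L) (x₀ i) = Δ i ∧ Δ i ≠ 0) →
      ∀ (v : AbsoluteValue L ℝ) (P : ℝ), 1 ≤ P → v t₀ ≤ P →
        (∀ i, x₀ i ≠ 0 ∧ v (x₀ i) ≤ P ∧ v (x₀ i)⁻¹ ≤ P ∧ v (Δ i)⁻¹ ≤ P) →
        ∀ k i, tn v (((A * P ^ e) ^ 2)⁻¹) k (f i) ≤ 2 * v (x₀ i) := by
  choose A e A1 h using fun i => hensel (m i)
  have A0 : ∀ i, A i ≤ ∑ i, A i + 1 := fun i => (single_le_sum (f := A)
    (fun i _ => zero_le_one.trans (A1 i)) (mem_univ i)).trans (by simp)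
  have A2 : 1 ≤ ∑ i, A i + 1 := by simpa using sum_nonneg fun i _ => zero_le_one.trans (A1 i)
  refine ⟨∑ i, A i + 1, 2 * univ.sup e + 1, A2, fun L _ t₀ x₀ Δ f h1 h2 h3 v P P1 h4 h5 k i => ?_⟩
  set T := (∑ i, A i + 1) * P ^ (2 * univ.sup e + 1) with hT
  have T1 : P ≤ T := (le_self_pow₀ P1 (by omega)).trans (le_mul_of_one_le_left (by positivity) A2)
  have T0 : 0 < T := by linarith
  have h6 := h i L t₀ _ _ _ (h1 i) (h2 i) (h3 i).1 (h3 i).2 v T⁻¹ (T ^ 2)⁻¹ (by positivity)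
    (by positivity) (inv_pow T 2).ge (by
      rw [inv_mul_le_one₀ T0, hT, pow_succ, pow_mul, ← mul_assoc]
      have := A1 i
      refine mul_le_mul (mul_le_mul (A0 i) ?_ (by positivity) (by positivity))
        (max_le (h5 i).2.2.2 P1) (by positivity) (by positivity)
      refine (pow_le_pow_left₀ (by positivity) ?_ _).trans
        (pow_le_pow_right₀ (one_le_pow₀ P1) (le_sup (mem_univ i)))
      rw [sq]
      exact mul_le_mul (max_le h4 P1) (max_le (h5 i).2.1 P1) (by positivity) (by positivity)) k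
  have h7 : T⁻¹ ≤ v (x₀ i) := inv_le_of_inv_le₀ (v.pos (h5 i).1)
    ((map_inv₀ v _).ge.trans ((h5 i).2.2.1.trans T1))
  have h8 := ((sn_abs v).tn (r := (T ^ 2)⁻¹) (by positivity) k).add (f i - C (x₀ i)) (C (x₀ i))
  have h9 := (sn_abs v).tn_C (r := (T ^ 2)⁻¹) (by positivity) k (x₀ i)
  rw [sub_add_cancel] at h8
  linarith

theorem amz (hq : Gen 𝔮 q) (j₀ : B) : ∃ (C₁ : ℝ) (s₀ : ℕ), 0 ≤ C₁ ∧ ∀ s : ℕ, s₀ ≤ s →
    ∃ C : ℝ, 0 ≤ C ∧ ∀ᶠ p in gen 𝔮, 2 * p.D ≤ logHeight₁ (p.z j₀) →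
      ∀ (n : ℕ) (e : Fin s → B → ℤ) (lam : Fin s → p.L), 1 ≤ n → (∀ m j, (e m j).natAbs ≤ n) →
        Function.Injective lam → ∃ (β : Type) (_ : Fintype β) (w : β → Fin s) (c : β → p.L),
          ∑ o, c o = 0 ∧ ∑ o, lam (w o) * c o ≠ 0 ∧
          Hb (fun v => ∑ o, v (c o / ∏ j, p.z j ^ e (w o) j))
            (C₁ * n * logHeight₁ (p.z j₀) / s + C * (n * p.D + logHeight₁ (p.z j₀))) := by
  have hg := hq.gn
  have : CharZero E := charZero_of_injective_algebraMap (algebraMap K E).injective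
  have ht := ((algebraicIndependent_unique_type_iff (x := fun _ : Unit => q j₀)).2
    (hq.trans₁ j₀)).isTranscendenceBasis_of_trdeg_le_of_finite (by simpa using hq.tr)
  obtain ⟨δ, hδ⟩ := exists_der ht fun _ => 1
  obtain ⟨d, b, hb⟩ := exists_bas hq.top ht
  obtain ⟨J, _, κ, C₁, s₀, k0, hrel⟩ := amz_rel δ (hδ ()) hb hq.nz
  let x : B ⊕ B → E := Sum.elim q fun j => (q j)⁻¹
  choose m m1 m2 using fun i => min_int ht.1 (ht.isAlgebraic.isAlgebraic (x i))
  obtain ⟨A, e₀, A1, hA⟩ := hensels m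
  let y : (B ⊕ B) ⊕ (B ⊕ B) ⊕ J → E := Sum.elim x (Sum.elim (fun i => ((Polynomial.derivative
    (m i)).eval₂ (MvPolynomial.aeval fun _ : Unit => q j₀ : _ →ₐ[ℤ] E) (x i))⁻¹) κ)
  choose Cy c0 hy using fun i => hg.ht_alg₁ ((alg_t hq.tr (hq.trans₁ j₀)).isAlgebraic (y i))
  have c1 : 0 ≤ ∑ i, Cy i := sum_nonneg fun i _ => c0 i
  refine ⟨C₁, s₀ + 1, by positivity, fun s hs => ?_⟩
  obtain ⟨C, C1, hC⟩ := hrel s (by omega)
  have s1 : (1 : ℝ) ≤ s := by exact_mod_cast (by omega : 1 ≤ s)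
  have l1 := log_nonneg C1
  have l2 := log_nonneg A1
  have l3 : 0 ≤ log (s * (Fintype.card J + 1)) :=
    log_nonneg (one_le_mul_of_one_le_of_one_le s1 (by simp))
  set T := log A + e₀ * ∑ i, Cy i with hT
  have T0 : 0 ≤ T := by positivity
  refine ⟨log (s * (Fintype.card J + 1)) + log C + Fintype.card B + C₁ + 3 * T * (s + 4 * log C) +
    2 * ∑ i, Cy i, by positivity, ?_⟩
  filter_upwards [hg.tay δ, hg.regs κ, hg.regs b, eventually_all.2 fun i => hg.ne (m2 i),
    eventually_all.2 hy] with p ⟨S, S0, S1, S2⟩ ⟨κ₀, k1⟩ ⟨b₀, b1⟩ h1 h2 h3 n e lam n1 he hl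
  obtain ⟨r, w, A', F, ν, P, r0, w1, a1, f1, f2, v0, v1, v2⟩ := hC n e n1 he
  set t₀ := p.z j₀
  let x₀ : B ⊕ B → p.L := Sum.elim p.z fun j => (p.z j)⁻¹
  have x1 : ∀ i, (x i, x₀ i) ∈ Gr K q p.z := fun i => by
    rcases i with j | j
    exacts [gr_X j, hg.inv p.on (gr_X j) (p.on.1 j)]
  let Δ : B ⊕ B → p.L := fun i => (Polynomial.derivative (m i)).eval₂
    (MvPolynomial.aeval fun _ : Unit => t₀ : _ →ₐ[ℤ] p.L) (x₀ i)
  have d1 := fun i => pr_eval₂ (fun _ : Unit => gr_X (K := K) (ξ := q) (z := p.z) j₀) (x1 i)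
    (Polynomial.derivative (m i))
  let y₀ : (B ⊕ B) ⊕ (B ⊕ B) ⊕ J → p.L := Sum.elim x₀ (Sum.elim (fun i => (Δ i)⁻¹) κ₀)
  have y1 : ∀ i, (y i, y₀ i) ∈ Gr K q p.z := fun i => by
    rcases i with i | i | i
    exacts [x1 i, hg.inv p.on (d1 i) (h1 i _ (d1 i)), k1 i]
  choose f g1 g2 using fun i => (S2 _ _).1 (x1 i)
  choose b' b2 b3 using fun i => (S2 _ _).1 (b1 i)
  have t1 : (q j₀, PowerSeries.C t₀ + X) ∈ S := by
    have := tay_lin S0 S1 (g1 (.inl j₀)) (n := 1) (by simpa [x] using hδ ())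
    rw [g2, Nat.cast_one, one_mul] at this
    exact this ▸ g1 (.inl j₀)
  have k2 : ∀ j, (κ j, PowerSeries.C (κ₀ j)) ∈ S := fun j => by
    obtain ⟨g, a, a'⟩ := (S2 _ _).1 (k1 j)
    have := tay_lin S0 S1 a (n := 0) (by simpa using k0 j)
    rw [a', Nat.cast_zero, zero_mul, add_zero] at this
    exact this ▸ a
  let F' : Option (Fin r) → p.L⟦X⟧ := fun o =>
    (∑ j, MvPolynomial.aeval (fun _ => PowerSeries.C t₀ + X) (A' o j) * PowerSeries.C (κ₀ j)) *
      ∏ j, f (.inl j) ^ (e (w o) j).toNat * f (.inr j) ^ (-e (w o) j).toNat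
  have F1 : ∀ o, (F o, F' o) ∈ S := fun o => by
    rw [f1, prod_congr rfl fun j _ => zpow_split (q j) _]
    exact pr_mul (pr_sum fun j _ => pr_mul (pr_aeval' (fun _ => t1) _) (k2 j))
      (pr_prod fun j _ => pr_mul (pr_pow (g1 (.inl j)) _) (pr_pow (g1 (.inr j)) _))
  have F2 : ∑ o, F' o = 0 := S0 _ (f2 ▸ pr_sum fun o _ => F1 o)
  have F3 : ∀ j o, (δ^[j] (F o), (d⁄dX p.L)^[j] (F' o)) ∈ S := fun j o => by
    induction j with
    | zero => exact F1 o
    | succ j ih => rw [Function.iterate_succ_apply', Function.iterate_succ_apply']; exact S1 _ _ ih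
  obtain ⟨j, j1, j2⟩ := zero_est h3 (fun i => F' (some i))
    (μ := fun i => lam (w (some i)) - lam (w none)) (fun h => by
      simpa using w1 (hl (sub_eq_zero.1 (congrFun h ⟨0, r0⟩)))) v0 v1
    ⟨_, pr_eq S0 (pr_aeval' (fun _ => t1) ν) (v2 ▸ pr_mul (pr_det fun j i : Fin r => F3 j (some i))
      (pr_sum fun k _ => pr_mul (pr_aeval' (fun _ => t1) (P k)) (b2 k)))⟩
  have F4 : ∑ o, coeff j (F' o) = 0 := by rw [← map_sum, F2, map_zero]
  refine ⟨_, inferInstance, w, fun o => coeff j (F' o), F4, fun h => j1 ?_, ?_⟩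
  · rw [Fintype.sum_option] at h F4
    simp only [sub_mul, sum_sub_distrib, ← mul_sum]
    linear_combination h - lam (w none) * F4
  set N := C₁ * n / s with hN
  let Q : AbsoluteValue p.L ℝ → ℝ := fun v => ∏ i, max (v (y₀ i)) 1
  have Q1 : ∀ v, 1 ≤ Q v := fun v => Finset.one_le_prod fun _ _ => le_max_right _ _
  have Q2 : ∀ v i, v (y₀ i) ≤ Q v := fun v i => by
    classical
    rw [show Q v = _ from (mul_prod_erase _ _ (mem_univ i)).symm]
    exact (le_max_left _ 1).trans (le_mul_of_one_le_right (by positivity)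
      (Finset.one_le_prod fun _ _ => le_max_right _ _))
  have Q3 : Hb Q ((∑ i, Cy i) * (logHeight₁ t₀ + p.D)) :=
    (hb_prod univ (fun i _ => hb_max (y₀ i)) fun _ _ _ => by positivity).mono (fun _ => le_rfl)
      (by rw [sum_mul]; exact sum_le_sum fun i _ => h2 i _ _ (gr_X j₀) (y1 i))
  have Q0 : ∀ v, 0 ≤ Q v := fun v => zero_le_one.trans (Q1 v)
  have c2 : (1 : ℝ) ≤ s * (Fintype.card J + 1) * C ^ n * 2 ^ (Fintype.card B * n) * 2 ^ N :=
    one_le_mul_of_one_le_of_one_le (one_le_mul_of_one_le_of_one_le (one_le_mul_of_one_le_of_one_le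
      (one_le_mul_of_one_le_of_one_le s1 (by simp)) (one_le_pow₀ C1)) (one_le_pow₀ one_le_two))
      (one_le_pow₀ one_le_two)
  refine ((((hb_const c2).mul ((((hb_const A1).mul (Q3.pow Q0 e₀) fun v => by
    have := Q0 v; positivity).pow (fun v => by have := Q0 v; positivity) 2).pow
    (fun v => by positivity) j) fun v => by positivity).mul ((hb_max t₀).pow
    (fun v => by positivity) N) fun v => by positivity).mul Q3 Q0).mono (fun v => ?_) ?_
  · set ρ := ((A * Q v ^ e₀) ^ 2)⁻¹ with hρ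
    have q0 := Q1 v
    have ρ0 : 0 < ρ := by positivity
    have ρ1 : ρ ≤ 1 := inv_le_one_of_one_le₀
      (one_le_pow₀ (one_le_mul_of_one_le_of_one_le A1 (one_le_pow₀ q0)))
    have sn := (sn_abs v).tn ρ0.le (j + 1)
    have u1 := hA p.L t₀ x₀ Δ f g2 (fun i => S0 _ (m1 i ▸ pr_eval₂' (fun _ => t1) (g1 i) (m i)))
      (fun i => ⟨rfl, h1 i _ (d1 i)⟩) v (Q v) q0 (Q2 v (.inl (.inl j₀))) (fun i => ⟨by
        rcases i with i | i
        exacts [p.on.1 i, inv_ne_zero (p.on.1 i)], Q2 v (.inl i), by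
        rcases i with i | i
        exacts [Q2 v (.inl (.inr i)), (congrArg v (inv_inv _)).trans_le (Q2 v (.inl (.inl i)))],
        Q2 v (.inr (.inl i))⟩) (j + 1)
    have r1 : (Fintype.card (Option (Fin r)) : ℝ) ≤ s := by
      exact_mod_cast (Fintype.card_le_of_injective w w1).trans (by simp)
    refine (sum_le_card_nsmul _ _ ((Fintype.card J + 1) * C ^ n * 2 ^ (Fintype.card B * n) * 2 ^ N *
      ρ⁻¹ ^ j * max (v t₀) 1 ^ N * Q v) fun o _ => ?_).trans ?_
    · have z0 := v.pos (prod_ne_zero_iff.2 fun j (_ : j ∈ univ) =>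
        zpow_ne_zero (e (w o) j) (p.on.1 j))
      have u2 : tn v ρ (j + 1) (∏ j, f (.inl j) ^ (e (w o) j).toNat *
          f (.inr j) ^ (-e (w o) j).toNat) ≤ 2 ^ (Fintype.card B * n) * v (∏ j, p.z j ^ e (w o) j) := by
        rw [map_prod, mul_comm _ n, pow_mul, ← card_univ, ← prod_const, ← prod_mul_distrib]
        refine (sn.prod _ _).trans (prod_le_prod (fun _ _ => sn.nonneg _) fun i _ =>
          (sn.mul_le (sn.pow_le (u1 _) _) (sn.pow_le (u1 _) _)).trans ?_)
        rw [zpow_split (p.z i), map_mul, map_pow, map_pow, mul_pow, mul_pow, mul_mul_mul_comm,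
          ← pow_add]
        exact mul_le_mul_of_nonneg_right (pow_le_pow_right₀ one_le_two
          (by have := he (w o) i; omega)) (by positivity)
      have u3 : ∀ i, tn v ρ (j + 1) (MvPolynomial.aeval (fun _ => PowerSeries.C t₀ + X) (A' o i) *
          PowerSeries.C (κ₀ i)) ≤ C ^ n * (2 * max (v t₀) 1) ^ N * Q v := fun i => by
        have := le_max_left (v t₀) 1
        have := le_max_right (v t₀) 1
        refine sn.mul_le ((sn.aeval' _ (ρ := 2 * max (v t₀) 1) (e := N) (by linarith)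
          (fun _ => (sn.add _ _).trans ((add_le_add ((sn_abs v).tn_C ρ0.le _ _)
            ((sn_abs v).tn_X ρ0.le _)).trans (by linarith))) _ ((Nat.le_div_iff_mul_le
            (by omega)).2 (mul_comm s _ ▸ (a1 o i).1))).trans (mul_le_mul_of_nonneg_right (a1 o i).2
            (by positivity))) (((sn_abs v).tn_C ρ0.le _ _).trans (Q2 v (.inr (.inr i))))
      have u4 := ((sn_abs v).tn_coeff ρ0.le j.lt_succ_self (F' o)).trans (sn.mul_le
        ((sn.sum _ _).trans (sum_le_card_nsmul _ _ _ fun i _ => u3 i)) u2)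
      rw [map_div₀, div_le_iff₀ z0]
      rw [← le_div_iff₀ (by positivity), nsmul_eq_mul, card_univ] at u4
      refine u4.trans ?_
      rw [div_eq_mul_inv, ← inv_pow, mul_pow]
      have : 0 ≤ C ^ n * 2 ^ (Fintype.card B * n) * 2 ^ N * ρ⁻¹ ^ j * max (v t₀) 1 ^ N * Q v *
        v (∏ j, p.z j ^ e (w o) j) := by positivity
      linarith
    · rw [nsmul_eq_mul, card_univ, hρ, inv_inv]
      refine (mul_le_mul_of_nonneg_right r1 (by positivity)).trans (le_of_eq (by ring))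
  · have D0 := p.D_pos
    have n1' : (1 : ℝ) ≤ n := by exact_mod_cast n1
    have N1 : (N : ℝ) ≤ C₁ * n / s := by exact_mod_cast Nat.cast_div_le (α := ℝ)
    have N2 : (N : ℝ) ≤ C₁ * n := N1.trans (div_le_self (by positivity) s1)
    have r1 : (r : ℝ) ≤ s := by
      exact_mod_cast ((Fintype.card_le_of_injective w w1).trans' (by simp)).trans (by simp)
    have l4 : log 2 ≤ 1 := by have := log_two_lt_d9; linarith
    rw [log_mul (by positivity) (by positivity), log_mul (by positivity) (by positivity),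
      log_mul (by positivity) (by positivity), log_pow, log_pow, log_pow]
    rw [log_pow] at j2
    change 2 * p.D ≤ _ at h3
    change _ ≤ _ + 4 * p.D * _ at j2
    change p.D * _ + j * ((2 : ℕ) * (p.D * _ + _)) + _ + _ ≤ _
    set h := logHeight₁ t₀
    set D := p.D
    have e1 : N * h ≤ C₁ * n * h / s := by
      rw [mul_div_right_comm]; exact mul_le_mul_of_nonneg_right N1 (by linarith)
    have e2 : D * log A + e₀ * ((∑ i, Cy i) * (h + D)) ≤ T * (3 / 2 * h) := by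
      have : 0 ≤ (e₀ : ℝ) * ∑ i, Cy i := by positivity
      rw [hT]; nlinarith
    have e3 : j * h ≤ (s + 4 * log C) * (n * D + h) := by
      have : r * h ≤ s * h := by gcongr
      have : 0 ≤ s * (n * D) := by positivity
      have : 0 ≤ log C * h := mul_nonneg l1 (by linarith)
      nlinarith
    have e4 := mul_le_mul_of_nonneg_left e2 (show (0 : ℝ) ≤ 2 * j by positivity)
    have e5 := mul_le_mul_of_nonneg_left e3 (show (0 : ℝ) ≤ 3 * T by positivity)
    have e6 : (∑ i, Cy i) * (h + D) ≤ 2 * (∑ i, Cy i) * (n * D + h) := by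
      have : 0 ≤ n * D := by positivity
      nlinarith
    have e7 : D * (log (s * (Fintype.card J + 1)) + n * log C +
        (Fintype.card B * n : ℕ) * log 2 + N * log 2) ≤
        (log (s * (Fintype.card J + 1)) + log C + Fintype.card B + C₁) * (n * D + h) := by
      have a1 : (Fintype.card B * n : ℕ) * log 2 ≤ n * Fintype.card B := by
        push_cast; rw [mul_comm (n : ℝ)]; exact mul_le_of_le_one_right (by positivity) l4
      have a2 : N * log 2 ≤ C₁ * n := (mul_le_of_le_one_right (by positivity) l4).trans N2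
      have a3 := le_mul_of_one_le_left l3 n1'
      refine le_trans ?_ (mul_le_mul_of_nonneg_left (le_add_of_nonneg_right (by linarith))
        (by positivity))
      rw [← mul_assoc, mul_comm _ D]
      exact mul_le_mul_of_nonneg_left (by linarith) D0.le
    push_cast at e7 ⊢
    linarith

end Pool.Agent.ZPT
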