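import Pool.Agent.P.MP_4fdccb_ag.S.Def
import Pool.Agent.P.MP_4fdccb_ag.S.Alg

/-! Coordinates in a basis over a rational function field, with degree and size control. -/

set_option linter.unusedSectionVars false
set_option linter.unusedVariables false

namespace Pool.Agent.ZPT
open Finset MvPolynomial

variable {Ω τ : Type} [Field Ω] {d : ℕ} {t : τ → Ω} {b : Fin d → Ω} {g : MvPolynomial τ ℤ}
  {c n n' : ℕ} {B B' : ℝ} {α β : Ω}

/-- Hint: `R = MvPolynomial τ ℤ` acts on `Ω` through `aeval t` (injective by `ind_int`),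
`K₀ = FractionRing R` with `FractionRing.liftAlgebra`; `Ω` is generated over `K₀` by the `ξ i` and
a `ℚ`-basis of `K`, all algebraic (`min_int` gives a nonzero relation), hence finite over `K₀`;
take `Module.finBasis`, `LinearIndependent.iff_fractionRing`,
`IsLocalization.exist_integer_multiples_of_finite`. -/
theorem exists_bas {K ι : Type} [Field K] [NumberField K] [Algebra K Ω] [Fintype ι] {ξ : ι → Ω}
    (htop : IntermediateField.adjoin K (Set.range ξ) = ⊤) (ht : IsTranscendenceBasis K t) :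
    ∃ (d : ℕ) (b : Fin d → Ω), Bas t b := by
  classical
  letI : Algebra (MvPolynomial τ ℤ) Ω := (aeval t : _ →ₐ[ℤ] Ω).toRingHom.toAlgebra
  have ea : ∀ p : MvPolynomial τ ℤ, algebraMap _ Ω p = aeval t p := fun _ => rfl
  haveI : FaithfulSMul (MvPolynomial τ ℤ) Ω := (faithfulSMul_iff_algebraMap_injective _ _).2
    ((injective_iff_map_eq_zero _).2 (ind_int ht.1))
  letI := FractionRing.liftAlgebra (MvPolynomial τ ℤ) Ω
  haveI := FractionRing.isScalarTower_liftAlgebra (MvPolynomial τ ℤ) Ω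
  have h1 : ∀ x : Ω, IsIntegral (FractionRing (MvPolynomial τ ℤ)) x := fun x => by
    obtain ⟨m, m1, m2⟩ := min_int ht.1 (ht.isAlgebraic.isAlgebraic x)
    have m0 : m ≠ 0 := fun e => m2 (by simp [e])
    exact (IsAlgebraic.extendScalars (IsFractionRing.injective (MvPolynomial τ ℤ) _)
      ⟨m, m0, m1⟩).isIntegral
  let e := Module.finBasis ℚ K
  let S : Set Ω := Set.range ξ ∪ Set.range fun i => algebraMap K Ω (e i)
  have h2 : IntermediateField.adjoin (FractionRing (MvPolynomial τ ℤ)) S = ⊤ := by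
    refine eq_top_iff.2 fun x _ => ?_
    have hx : x ∈ IntermediateField.adjoin K (Set.range ξ) := htop ▸ IntermediateField.mem_top
    refine (Subfield.closure_le (t := (IntermediateField.adjoin
      (FractionRing (MvPolynomial τ ℤ)) S).toSubfield)).2 ?_ hx
    rintro y (⟨a, rfl⟩ | hy)
    · rw [← e.sum_repr a, map_sum]
      refine sum_mem fun i _ => ?_
      rw [Rat.smul_def, map_mul, map_ratCast]
      exact mul_mem (SubfieldClass.ratCast_mem _ _)
        (IntermediateField.subset_adjoin _ _ (Or.inr ⟨i, rfl⟩))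
    · exact IntermediateField.subset_adjoin _ _ (Or.inl hy)
  haveI : FiniteDimensional (FractionRing (MvPolynomial τ ℤ)) Ω := by
    haveI : Finite S := ((Set.finite_range _).union (Set.finite_range _)).to_subtype
    have := IntermediateField.finiteDimensional_adjoin (S := S) fun x _ => h1 x
    rw [h2] at this
    exact IntermediateField.topEquiv.toLinearEquiv.finiteDimensional
  let b := Module.finBasis (FractionRing (MvPolynomial τ ℤ)) Ω
  refine ⟨_, b, ind_int ht.1, fun P hP => funext ?_, fun x => ?_⟩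
  · refine Fintype.linearIndependent_iff.1 ((LinearIndependent.iff_fractionRing (MvPolynomial τ ℤ)
      (FractionRing (MvPolynomial τ ℤ))).2 b.linearIndependent) P ?_
    simpa only [Algebra.smul_def, ea] using hP
  · obtain ⟨g, hg⟩ := IsLocalization.exist_integer_multiples_of_finite
      (nonZeroDivisors (MvPolynomial τ ℤ)) fun k => b.repr x k
    choose P hP using hg
    refine ⟨g, nonZeroDivisors.coe_ne_zero g, P, ?_⟩
    conv_lhs => rw [← b.sum_repr x, mul_sum]
    refine sum_congr rfl fun k _ => ?_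
    rw [← ea, ← ea, ← Algebra.smul_def, ← Algebra.smul_def, ← smul_assoc, ← hP,
      algebraMap_smul]

theorem Bas.common (h : Bas t b) {J : Type} [Fintype J] (y : J → Ω) :
    ∃ g : MvPolynomial τ ℤ, g ≠ 0 ∧ ∃ P : J → Fin d → MvPolynomial τ ℤ,
      ∀ j, aeval t g * y j = ∑ k, aeval t (P j k) * b k := by
  classical
  choose g g0 P hP using fun j => h.span (y j)
  refine ⟨∏ j, g j, prod_ne_zero_iff.2 fun j _ => g0 j,
    fun j k => (∏ i ∈ univ.erase j, g i) * P j k, fun j => ?_⟩
  rw [← prod_erase_mul _ _ (mem_univ j), map_mul, mul_assoc, hP, mul_sum]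
  simp only [map_mul, mul_assoc]

theorem Bas_sum {f : Fin d → MvPolynomial τ ℤ} (h : ∀ k, nz (f k) ≤ B) :
    nz (∑ k, f k) ≤ d * B :=
  (sn_nz.sum _ _).trans ((sum_le_card_nsmul _ _ B fun k _ => h k).trans (by simp))

/-- Hint: common denominator for `1`, the `y j` and the products `b k * b l`; take `c` larger than
all degrees, than `d`, and than `(d + 1) ^ 2` times all sizes. -/
theorem Bas.sz (h : Bas t b) {J : Type} [Fintype J] (y : J → Ω) :
    ∃ g c, SzOK t b g c ∧ ∀ j, Sz t b g c 1 c (y j) := by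
  obtain ⟨g, g0, P, hP⟩ := h.common (J := Option J ⊕ Fin d × Fin d)
    (Sum.elim (fun o => o.elim 1 y) fun p => b p.1 * b p.2)
  obtain ⟨T, hT⟩ := Finite.exists_le fun x : (Option J ⊕ Fin d × Fin d) × Fin d =>
    (P x.1 x.2).totalDegree + ⌈nz (P x.1 x.2)⌉₊
  obtain ⟨c, c1, c2, c3, c4, c5⟩ : ∃ c : ℕ, T ≤ c ∧ d * (d * T) ≤ c ∧ g.totalDegree < c ∧
      ⌈nz g⌉₊ ≤ c ∧ d ≤ c :=
    ⟨T + d * (d * T) + g.totalDegree + ⌈nz g⌉₊ + d + 1, by omega, by omega, by omega, by omega,
      by omega⟩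
  have t1 : ∀ j k, (P j k).totalDegree ≤ c := fun j k => by
    have := hT (j, k)
    dsimp only at this
    omega
  have t2 : ∀ j k, nz (P j k) ≤ T := fun j k => Nat.ceil_le.1 (by
    have := hT (j, k)
    dsimp only at this
    omega)
  have c1' : (T : ℝ) ≤ c := by exact_mod_cast c1
  have c2' : (d : ℝ) * (d * T) ≤ c := by exact_mod_cast c2
  have key : ∀ o : Option J, Sz t b g c 1 c (o.elim 1 y) := fun o =>
    ⟨P (Sum.inl o), by rw [pow_one]; exact hP (Sum.inl o), fun k =>
      ⟨by rw [mul_one]; exact t1 _ k, (t2 _ k).trans c1'⟩⟩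
  refine ⟨g, c, ⟨g0, c3, Nat.ceil_le.1 c4, c5, key none, ?_⟩, fun j => key (some j)⟩
  rintro n n' B B' α β ⟨A, a1, a2⟩ ⟨A', b1, b2⟩
  refine ⟨fun m => ∑ k, ∑ l, A k * A' l * P (Sum.inr (k, l)) m, ?_, fun m => ⟨?_, ?_⟩⟩
  · have e : aeval t g ^ (n + n' + 1) * (α * β) =
        aeval t g * ((aeval t g ^ n * α) * (aeval t g ^ n' * β)) := by ring
    rw [e, a1, b1, sum_mul_sum]
    simp only [map_sum, map_mul, sum_mul, mul_sum]
    rw [sum_comm (f := fun m k => ∑ l, aeval t (A k) * aeval t (A' l) *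
      aeval t (P (Sum.inr (k, l)) m) * b m)]
    refine sum_congr rfl fun k _ => ?_
    rw [sum_comm]
    refine sum_congr rfl fun l _ => ?_
    have := hP (Sum.inr (k, l))
    simp only [Sum.elim_inr] at this
    simp only [mul_assoc, ← mul_sum, ← this]
    ring
  · refine totalDegree_finsetSum_le fun k _ => totalDegree_finsetSum_le fun l _ => ?_
    have h1 := totalDegree_mul (A k * A' l) (P (Sum.inr (k, l)) m)
    have h2 := totalDegree_mul (A k) (A' l)
    have := (a2 k).1
    have := (b2 l).1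
    have := t1 (Sum.inr (k, l)) m
    rw [mul_add, mul_add]
    omega
  · have B0 : 0 ≤ B * B' := mul_nonneg ((sn_nz.nonneg _).trans (a2 m).2)
      ((sn_nz.nonneg _).trans (b2 m).2)
    refine (Bas_sum fun k => Bas_sum fun l =>
      sn_nz.mul_le (sn_nz.mul_le (a2 k).2 (b2 l).2) (t2 _ m)).trans ?_
    have := mul_le_mul_of_nonneg_right c2' B0
    linarith

theorem Sz.mono (h : Sz t b g c n B α) (h' : B ≤ B') : Sz t b g c n B' α := by
  obtain ⟨P, h1, h2⟩ := h
  exact ⟨P, h1, fun k => ⟨(h2 k).1, (h2 k).2.trans h'⟩⟩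

theorem sz_zero (h : 0 ≤ B) : Sz t b g c n B 0 := by
  exact ⟨0, by simp, fun k => ⟨by simp, sn_nz.zero.le.trans h⟩⟩

theorem Sz.add (h : Sz t b g c n B α) (h' : Sz t b g c n B' β) :
    Sz t b g c n (B + B') (α + β) := by
  obtain ⟨P, h1, h2⟩ := h
  obtain ⟨Q, h3, h4⟩ := h'
  refine ⟨P + Q, ?_, fun k => ⟨(totalDegree_add _ _).trans (max_le (h2 k).1 (h4 k).1),
    (nz_add _ _).trans (add_le_add (h2 k).2 (h4 k).2)⟩⟩
  simp only [mul_add, h1, h3, Pi.add_apply, map_add, add_mul, sum_add_distrib]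

theorem Sz.zsmul (h : Sz t b g c n B α) (x : ℤ) : Sz t b g c n (|(x : ℝ)| * B) (x * α) := by
  obtain ⟨P, h1, h2⟩ := h
  refine ⟨fun k => x • P k, ?_, fun k => ⟨(totalDegree_smul_le _ _).trans (h2 k).1,
    (nz_smul _ _).trans (mul_le_mul_of_nonneg_left (h2 k).2 (abs_nonneg _))⟩⟩
  rw [mul_left_comm, h1, mul_sum]
  simp only [zsmul_eq_mul, map_mul, map_intCast, mul_assoc]

theorem sz_sum {J : Type} (s : Finset J) {f : J → Ω} (h0 : 0 ≤ B)
    (h : ∀ j ∈ s, Sz t b g c n B (f j)) : Sz t b g c n (#s * B) (∑ j ∈ s, f j) := by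
  classical
  induction s using Finset.induction_on with
  | empty => simpa using sz_zero le_rfl
  | insert a s ha ih =>
    rw [sum_insert ha, card_insert_of_notMem ha, Nat.cast_succ, add_mul, one_mul, add_comm _ B]
    exact (h a (mem_insert_self _ _)).add (ih fun j hj => h j (mem_insert_of_mem hj))

/-- Hint: new coordinates `g ^ m * p * P k`. -/
theorem SzOK.poly (ok : SzOK t b g c) (h : Sz t b g c n B α) (p : MvPolynomial τ ℤ) {m : ℕ}
    (hp : p.totalDegree ≤ m) : Sz t b g c (n + m) (c ^ m * nz p * B) (aeval t p * α) := by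
  obtain ⟨P, h1, h2⟩ := h
  refine ⟨fun k => g ^ m * p * P k, ?_, fun k => ⟨?_,
    sn_nz.mul_le (sn_nz.mul_le (sn_nz.pow_le ok.ng m) le_rfl) (h2 k).2⟩⟩
  · have e : aeval t g ^ (n + m) * (aeval t p * α) =
        aeval t g ^ m * aeval t p * (aeval t g ^ n * α) := by ring
    rw [e, h1, mul_sum]
    simp only [map_mul, map_pow, mul_assoc]
  · have a1 := totalDegree_mul (g ^ m * p) (P k)
    have a2 := totalDegree_mul (g ^ m) p
    have a3 := totalDegree_pow g m
    have a4 := Nat.mul_le_mul_left m (Nat.succ_le_of_lt ok.dg)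
    have := (h2 k).1
    rw [Nat.mul_succ, mul_comm m c] at a4
    rw [mul_add]
    beta_reduce
    omega

theorem Bas_up (ok : SzOK t b g c) (h : Sz t b g c n B α) (m : ℕ) :
    Sz t b g c (n + m) (c ^ m * B) α := by
  have h1 : nz (1 : MvPolynomial τ ℤ) = 1 := (nz_monomial 0 1).trans (by simp)
  have := ok.poly h 1 (m := m) (by simp)
  rwa [h1, mul_one, map_one, one_mul] at this

theorem Bas_one (ok : SzOK t b g c) : (1 : ℝ) ≤ c := by
  exact_mod_cast Nat.one_le_of_lt ok.dg

theorem SzOK.up (ok : SzOK t b g c) (h : Sz t b g c n B α) (h0 : 0 ≤ B) (h' : n ≤ n') :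
    Sz t b g c n' (c ^ n' * B) α := by
  obtain ⟨m, rfl⟩ := Nat.exists_eq_add_of_le h'
  exact (Bas_up ok h m).mono (mul_le_mul_of_nonneg_right
    (pow_le_pow_right₀ (Bas_one ok) (Nat.le_add_left _ _)) h0)

theorem SzOK.bas (ok : SzOK t b g c) (k : Fin d) : Sz t b g c 1 c (b k) := by
  refine ⟨Pi.single k g, ?_, fun l => ?_⟩
  · rw [pow_one, sum_eq_single k (fun l _ hl => by simp [hl]) (by simp), Pi.single_eq_same]
  · by_cases e : l = k
    · rw [e, Pi.single_eq_same, mul_one]
      exact ⟨ok.dg.le, ok.ng⟩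
    · rw [Pi.single_eq_of_ne e]
      exact ⟨by simp, sn_nz.zero.le.trans (Nat.cast_nonneg _)⟩

theorem SzOK.prod (ok : SzOK t b g c) {J : Type} (s : Finset J) {f : J → Ω}
    (h : ∀ j ∈ s, Sz t b g c n B (f j)) :
    Sz t b g c (#s * (n + 1) + 1) (c * (c * B) ^ #s) (∏ j ∈ s, f j) := by
  classical
  induction s using Finset.induction_on with
  | empty => simpa using ok.one
  | insert a s ha ih =>
    rw [prod_insert ha, card_insert_of_notMem ha]
    convert ok.mul (h a (mem_insert_self _ _)) (ih fun j hj => h j (mem_insert_of_mem hj)) using 1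
    · ring
    · ring

/-- Hint: `x ^ m` has level `2 m + 1` and size `c ^ (2 m + 1)`; raise the level to `2 n + 1` by
multiplying the coordinates with a power of `g` (size `c ^ (2 n + 1)`), then `SzOK.prod`. -/
theorem SzOK.mono (ok : SzOK t b g c) {ι : Type} [Fintype ι] {ξ : ι → Ω}
    (h : ∀ i, Sz t b g c 1 c (ξ i)) (h' : ∀ i, Sz t b g c 1 c (ξ i)⁻¹) (a : ι → ℤ)
    (ha : ∀ i, (a i).natAbs ≤ n) : Sz t b g c (Fintype.card ι * (2 * n + 2) + 1)
      (c ^ (Fintype.card ι * (2 * n + 2) + 1)) (∏ i, ξ i ^ a i) := by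
  have key : ∀ (x : Ω) (m : ℕ), Sz t b g c 1 c x → m ≤ n →
      Sz t b g c (2 * n + 1) (c ^ (2 * n + 1)) (x ^ m) := fun x m hx hm => by
    obtain ⟨l, rfl⟩ := Nat.exists_eq_add_of_le hm
    have := Bas_up ok (ok.prod (range m) fun _ _ => hx) (2 * l)
    rw [prod_const, card_range] at this
    convert this using 1
    · ring
    · ring
  have := ok.prod univ (f := fun i => ξ i ^ a i) (n := 2 * n + 1) (B := c ^ (2 * n + 1))
    fun i _ => by
      rcases Int.natAbs_eq (a i) with e | e
      · rw [e, zpow_natCast]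
        exact key _ _ (h i) (ha i)
      · rw [e, zpow_neg, zpow_natCast, ← inv_pow]
        exact key _ _ (h' i) (ha i)
  rw [card_univ] at this
  convert this using 1
  ring

theorem SzOK.det (ok : SzOK t b g c) {r : ℕ} (M : Matrix (Fin r) (Fin r) Ω) (h0 : 0 ≤ B)
    (h : ∀ i j, Sz t b g c n B (M i j)) :
    Sz t b g c (r * (n + 1) + 1) (r.factorial * (c * (c * B) ^ r)) M.det := by
  have := sz_sum (t := t) (b := b) (g := g) (c := c) (n := r * (n + 1) + 1)
    (B := c * (c * B) ^ r) univ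
    (f := fun σ : Equiv.Perm (Fin r) => ((Equiv.Perm.sign σ : ℤ) : Ω) * ∏ i, M (σ i) i)
    (by positivity) fun σ _ => by
      have h1 := (ok.prod univ fun i _ => h (σ i) i).zsmul (Equiv.Perm.sign σ)
      have h2 : |((Equiv.Perm.sign σ : ℤ) : ℝ)| = 1 := by
        rcases Int.units_eq_one_or (Equiv.Perm.sign σ) with h | h <;> simp [h]
      rwa [h2, one_mul, card_univ, Fintype.card_fin] at h1
  rwa [card_univ, Fintype.card_perm, Fintype.card_fin, ← Matrix.det_apply'] at this

/-- Elimination. Hint: `g ^ (n + 2) * α * b k = ∑ l, 𝓜 k l * b l` with `nz (𝓜 k l) ≤ c * B * c`;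
`det 𝓜 ≠ 0` (`Matrix.exists_vecMul_eq_zero_iff`, `Bas.ind`, `Bas.inj`); multiply by the adjugate
and use `g * 1 = ∑ k, u k * b k`; `ν = g * det 𝓜`, `SN.det` for `sn_nz`. -/
theorem SzOK.elim (ok : SzOK t b g c) (hb : Bas t b) (h : Sz t b g c n B α) (h0 : α ≠ 0) :
    ∃ ν : MvPolynomial τ ℤ, ν ≠ 0 ∧ nz ν ≤ c * (d.factorial * (c * B * c) ^ d) ∧
      ∃ P : Fin d → MvPolynomial τ ℤ, aeval t ν = α * ∑ k, aeval t (P k) * b k := by
  choose M m1 m2 using fun k => ok.mul h (ok.bas k)
  obtain ⟨u, u1, -⟩ := ok.one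
  have g0 : aeval t g ≠ 0 := fun e => ok.g0 (hb.inj g e)
  have key : ∀ v : Fin d → MvPolynomial τ ℤ, aeval t g ^ (n + 1 + 1) * α *
      ∑ k, aeval t (v k) * b k = ∑ l, aeval t (Matrix.vecMul v (Matrix.of M) l) * b l := by
    intro v
    simp only [Matrix.vecMul, dotProduct, Matrix.of_apply, map_sum, map_mul, sum_mul]
    rw [sum_comm, mul_sum]
    refine sum_congr rfl fun k _ => ?_
    simp only [mul_assoc, ← mul_sum, ← m1]
    ring
  have d0 : (Matrix.of M).det ≠ 0 := fun e => by
    obtain ⟨v, v0, v1⟩ := Matrix.exists_vecMul_eq_zero_iff.2 e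
    have := key v
    simp only [v1, Pi.zero_apply, map_zero, zero_mul, sum_const_zero] at this
    exact v0 (hb.ind v ((mul_eq_zero.1 this).resolve_left (mul_ne_zero (pow_ne_zero _ g0) h0)))
  refine ⟨g * (Matrix.of M).det, mul_ne_zero ok.g0 d0, sn_nz.mul_le ok.ng ?_,
    fun k => g ^ (n + 1 + 1) * Matrix.vecMul u (Matrix.of M).adjugate k, ?_⟩
  · simpa only [Fintype.card_fin] using sn_nz.det (Matrix.of M) fun i j => (m2 i j).2
  · have := key (Matrix.vecMul u (Matrix.of M).adjugate)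
    rw [Matrix.vecMul_vecMul, Matrix.adjugate_mul, Matrix.vecMul_smul, Matrix.vecMul_one] at this
    simp only [Pi.smul_apply, smul_eq_mul, map_mul, mul_assoc, ← mul_sum, ← u1] at this
    simp only [map_mul, map_pow, mul_assoc, ← mul_sum]
    linear_combination -this

theorem Bas_der {k : Type} [CommRing k] [Algebra k Ω] (δ : Derivation k Ω Ω) {t₀ : Ω}
    (ht : δ t₀ = 1) (p : MvPolynomial Unit ℤ) :
    δ (aeval (fun _ : Unit => t₀) p) = aeval (fun _ : Unit => t₀) (pderiv () p) := by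
  induction p using MvPolynomial.induction_on with
  | C a => simp
  | add p q hp hq => simp only [map_add, hp, hq]
  | mul_X p i hp =>
    simp only [map_mul, map_add, aeval_X, Derivation.leibniz, hp, ht, smul_eq_mul, pderiv_X_self,
      map_one]

/-- Hint: `δ (aeval t p) = aeval t (pderiv () p)`; differentiate `g ^ n * α = ∑ P k * b k` and
multiply by `g`: the new coordinates are `g * P' + P * N - n * g' * P`; `nz_pderiv`,
`deg_pderiv`. -/
theorem SzOK.der {k : Type} [CommRing k] [Algebra k Ω] (δ : Derivation k Ω Ω) {t₀ : Ω}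
    (ht : δ t₀ = 1) {g : MvPolynomial Unit ℤ} (ok : SzOK (fun _ : Unit => t₀) b g c)
    (hb : ∀ k, Sz (fun _ : Unit => t₀) b g c 1 c (δ (b k)))
    (h : Sz (fun _ : Unit => t₀) b g c n B α) :
    Sz (fun _ : Unit => t₀) b g c (n + 1) (c ^ 2 * (2 * n + 1) * B) (δ α) := by
  obtain ⟨P, h1, h2⟩ := h
  choose N n1 n2 using hb
  have e := congrArg δ h1
  simp only [map_sum, Derivation.leibniz, Derivation.leibniz_pow, Bas_der δ ht, smul_eq_mul,
    nsmul_eq_mul] at e
  refine ⟨fun l => g * pderiv () (P l) + ∑ j, P j * N j l - n * (pderiv () g * P l), ?_,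
    fun l => ⟨?_, ?_⟩⟩
  · have e1 : (n : Ω) * (aeval (fun _ : Unit => t₀) g * aeval (fun _ : Unit => t₀) g ^ (n - 1)) =
        n * aeval (fun _ : Unit => t₀) g ^ n := by
      rcases n with _ | n
      · simp
      · rw [Nat.add_sub_cancel, pow_succ']
    have e2 : ∑ l, (∑ j, aeval (fun _ : Unit => t₀) (P j) * aeval (fun _ : Unit => t₀) (N j l)) *
        b l = aeval (fun _ : Unit => t₀) g * ∑ j, aeval (fun _ : Unit => t₀) (P j) * δ (b j) := by
      simp only [sum_mul]
      rw [sum_comm, mul_sum]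
      refine sum_congr rfl fun j _ => ?_
      simp only [mul_assoc, ← mul_sum, ← n1]
      ring
    have e3 : ∑ l, aeval (fun _ : Unit => t₀) (pderiv () (P l)) * b l =
        ∑ l, b l * aeval (fun _ : Unit => t₀) (pderiv () (P l)) :=
      sum_congr rfl fun _ _ => mul_comm _ _
    simp only [map_sub, map_add, map_mul, map_sum, map_natCast, sub_mul, add_mul, sum_sub_distrib,
      sum_add_distrib, e2]
    simp only [mul_assoc, ← mul_sum, ← h1, e3]
    rw [sum_add_distrib] at e
    linear_combination aeval (fun _ : Unit => t₀) g * e -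
      α * aeval (fun _ : Unit => t₀) (pderiv () g) * e1
  · have a0 := ok.dg
    have a1 := (h2 l).1
    rw [mul_add, mul_one]
    refine (totalDegree_sub _ _).trans (max_le ((totalDegree_add _ _).trans (max_le ?_
      (totalDegree_finsetSum_le fun j _ => ?_))) ?_)
    · have := totalDegree_mul g (pderiv () (P l))
      have := deg_pderiv () (P l)
      omega
    · have := totalDegree_mul (P j) (N j l)
      have := (h2 j).1
      have := (n2 j l).1
      omega
    · rw [← nsmul_eq_mul]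
      refine (totalDegree_smul_le _ _).trans ?_
      have := totalDegree_mul (pderiv () g) (P l)
      have := deg_pderiv () g
      omega
  · have B0 : 0 ≤ B := (sn_nz.nonneg _).trans (h2 l).2
    have c0 : (0 : ℝ) ≤ c := Nat.cast_nonneg _
    have a1 : nz (pderiv () (P l)) ≤ c * n * B := (nz_pderiv _ _).trans
      (mul_le_mul (by exact_mod_cast (h2 l).1) (h2 l).2 (sn_nz.nonneg _) (by positivity))
    have a2 : nz (pderiv () g) ≤ c * c := (nz_pderiv _ _).trans
      (mul_le_mul (by exact_mod_cast ok.dg.le) ok.ng (sn_nz.nonneg _) c0)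
    have a3 := sn_nz.mul_le ok.ng a1
    have a4 := Bas_sum fun j => sn_nz.mul_le (h2 j).2 (n2 j l).2
    have a5 := sn_nz.mul_le (sn_nz.nat n) (sn_nz.mul_le a2 (h2 l).2)
    have a6 : (d : ℝ) * (B * c) ≤ c * (B * c) :=
      mul_le_mul_of_nonneg_right (by exact_mod_cast ok.dc) (by positivity)
    have a7 := sn_nz.sub (g * pderiv () (P l) + ∑ j, P j * N j l) (n * (pderiv () g * P l))
    have a8 := nz_add (g * pderiv () (P l)) (∑ j, P j * N j l)
    linarith

end Pool.Agent.ZPT
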