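import Mathlib

/-! Ring seminorms as predicates; norms on polynomials and truncated power series. -/

set_option linter.unusedSectionVars false

namespace Pool.Agent.ZPT
open Finset Real

structure SN {R : Type} [CommRing R] (N : R → ℝ) : Prop where
  nonneg : ∀ x, 0 ≤ N x
  zero : N 0 = 0
  one : N 1 ≤ 1
  neg : ∀ x, N (-x) = N x
  add : ∀ x y, N (x + y) ≤ N x + N y
  mul : ∀ x y, N (x * y) ≤ N x * N y

variable {R : Type} [CommRing R] {N : R → ℝ}

theorem SN.sum (h : SN N) {β : Type} (s : Finset β) (f : β → R) :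
    N (∑ i ∈ s, f i) ≤ ∑ i ∈ s, N (f i) :=
  le_sum_of_subadditive N h.zero.le h.add s f

theorem SN.sub (h : SN N) (x y : R) : N (x - y) ≤ N x + N y := by
  rw [sub_eq_add_neg, ← h.neg y]; exact h.add _ _

theorem SN.prod (h : SN N) {β : Type} (s : Finset β) (f : β → R) :
    N (∏ i ∈ s, f i) ≤ ∏ i ∈ s, N (f i) := by
  classical
  induction s using Finset.induction_on with
  | empty => simpa using h.one
  | insert a s ha ih =>
    rw [prod_insert ha, prod_insert ha]
    exact (h.mul _ _).trans (mul_le_mul_of_nonneg_left ih (h.nonneg _))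

theorem SN.pow (h : SN N) (x : R) (n : ℕ) : N (x ^ n) ≤ N x ^ n := by
  simpa using h.prod (range n) fun _ => x

theorem SN.pow_le (h : SN N) {x : R} {B : ℝ} (hx : N x ≤ B) (n : ℕ) : N (x ^ n) ≤ B ^ n :=
  (h.pow x n).trans (pow_le_pow_left₀ (h.nonneg _) hx n)

theorem SN.mul_le (h : SN N) {x y : R} {B B' : ℝ} (hx : N x ≤ B) (hy : N y ≤ B') :
    N (x * y) ≤ B * B' :=
  (h.mul x y).trans (mul_le_mul hx hy (h.nonneg _) ((h.nonneg _).trans hx))

theorem SN.nat (h : SN N) (n : ℕ) : N n ≤ n := by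
  have := h.sum (range n) fun _ => 1
  simp only [sum_const, card_range, nsmul_eq_mul, mul_one] at this
  exact this.trans (mul_le_of_le_one_right (by positivity) h.one)

theorem SN.int (h : SN N) (n : ℤ) : N n ≤ |(n : ℝ)| := by
  obtain ⟨m, rfl | rfl⟩ := n.eq_nat_or_neg <;> simpa [h.neg] using h.nat m

theorem SN.det (h : SN N) {n : Type} [Fintype n] [DecidableEq n] (M : Matrix n n R) {B : ℝ}
    (hB : ∀ i j, N (M i j) ≤ B) : N M.det ≤ (Fintype.card n).factorial * B ^ Fintype.card n := by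
  rw [Matrix.det_apply']
  refine (h.sum _ _).trans ((sum_le_card_nsmul _ _ (B ^ Fintype.card n) fun σ _ => ?_).trans
    (by simp [Fintype.card_perm]))
  have h1 : N ((Equiv.Perm.sign σ : ℤ) : R) ≤ 1 := (h.int _).trans (by
    rcases Int.units_eq_one_or (Equiv.Perm.sign σ) with h | h <;> simp [h])
  refine (h.mul_le h1 ((h.prod _ _).trans (prod_le_prod (fun _ _ => h.nonneg _)
    fun i _ => hB _ i))).trans (by simp)

theorem sn_abs {L : Type} [Field L] (v : AbsoluteValue L ℝ) : SN v :=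
  ⟨v.nonneg, v.map_zero, v.map_one.le, v.map_neg, v.add_le, fun x y => (v.map_mul x y).le⟩

theorem SN.comp (h : SN N) {R' : Type} [CommRing R'] (φ : R' →+* R) : SN fun x => N (φ x) :=
  ⟨fun _ => h.nonneg _, by simp [h.zero], by simpa using h.one, fun x => by simp [h.neg],
    fun x y => by simpa using h.add _ _, fun x y => by simpa using h.mul _ _⟩

section Mv
open MvPolynomial
variable {τ : Type}

/-- the sum of the absolute values of the coefficients -/
noncomputable def nz (p : MvPolynomial τ ℤ) : ℝ := ∑ μ ∈ p.support, |((coeff μ p : ℤ) : ℝ)|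

theorem nz_eq {p : MvPolynomial τ ℤ} {s : Finset (τ →₀ ℕ)} (h : p.support ⊆ s) :
    nz p = ∑ μ ∈ s, |((coeff μ p : ℤ) : ℝ)| :=
  sum_subset h fun μ _ hμ => by simp [notMem_support_iff.1 hμ]

theorem nz_monomial (μ : τ →₀ ℕ) (c : ℤ) : nz (monomial μ c) = |(c : ℝ)| := by
  classical
  rw [nz_eq support_monomial_subset]; simp

theorem nz_add (p q : MvPolynomial τ ℤ) : nz (p + q) ≤ nz p + nz q := by
  classical
  rw [nz_eq support_add, nz_eq (p := p) (s := p.support ∪ q.support) subset_union_left,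
    nz_eq (p := q) (s := p.support ∪ q.support) subset_union_right, ← sum_add_distrib]
  exact sum_le_sum fun μ _ => by rw [coeff_add, Int.cast_add]; exact abs_add_le _ _

theorem sn_nz : SN (nz : MvPolynomial τ ℤ → ℝ) := by
  have h0 : nz (0 : MvPolynomial τ ℤ) = 0 := by simp [nz]
  refine ⟨fun _ => sum_nonneg fun _ _ => abs_nonneg _, h0, ?_, fun p => by simp [nz], nz_add,
    fun p q => ?_⟩
  · exact (nz_monomial 0 1).le.trans (by simp)
  · conv_lhs => rw [p.as_sum, q.as_sum, sum_mul_sum]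
    refine (le_sum_of_subadditive nz h0.le nz_add _ _).trans ((sum_le_sum fun μ _ =>
      le_sum_of_subadditive nz h0.le nz_add _ _).trans (le_of_eq ?_))
    simp only [monomial_mul, nz_monomial, Int.cast_mul, abs_mul]
    rw [nz, nz, sum_mul_sum]

theorem nz_coeff (p : MvPolynomial τ ℤ) (μ : τ →₀ ℕ) : |((coeff μ p : ℤ) : ℝ)| ≤ nz p := by
  by_cases h : μ ∈ p.support
  · exact single_le_sum (f := fun μ => |((coeff μ p : ℤ) : ℝ)|) (fun _ _ => abs_nonneg _) h
  · simpa [notMem_support_iff.1 h] using sn_nz.nonneg p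

theorem one_le_nz {p : MvPolynomial τ ℤ} (h : p ≠ 0) : 1 ≤ nz p := by
  obtain ⟨μ, hμ⟩ := ne_zero_iff.1 h
  exact le_trans (by exact_mod_cast Int.one_le_abs hμ) (nz_coeff p μ)

theorem nz_X (i : τ) : nz (X i : MvPolynomial τ ℤ) = 1 := (nz_monomial _ 1).trans (by simp)

theorem nz_smul (c : ℤ) (p : MvPolynomial τ ℤ) : nz (c • p) ≤ |(c : ℝ)| * nz p := by
  rw [zsmul_eq_mul]; exact sn_nz.mul_le (sn_nz.int c) le_rfl

theorem SN.aeval (h : SN N) (x : τ → R) {ρ : ℝ} (hρ : 1 ≤ ρ) (hx : ∀ i, N (x i) ≤ ρ)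
    (p : MvPolynomial τ ℤ) {e : ℕ} (he : p.totalDegree ≤ e) : N (aeval x p) ≤ nz p * ρ ^ e := by
  rw [aeval_def, eval₂_eq, nz, sum_mul]
  refine (h.sum _ _).trans (sum_le_sum fun μ hμ => h.mul_le (h.int _) ?_)
  refine (h.prod _ _).trans ((prod_le_prod (fun _ _ => h.nonneg _)
    fun i _ => h.pow_le (hx i) _).trans ?_)
  rw [prod_pow_eq_pow_sum]
  exact pow_le_pow_right₀ hρ ((le_totalDegree hμ).trans he)

theorem nz_pderiv (i : τ) (p : MvPolynomial τ ℤ) : nz (pderiv i p) ≤ p.totalDegree * nz p := by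
  conv_lhs => rw [p.as_sum, map_sum]
  rw [nz.eq_1 p, mul_sum]
  refine (sn_nz.sum _ _).trans (sum_le_sum fun μ hμ => ?_)
  rw [pderiv_monomial, nz_monomial, Int.cast_mul, abs_mul, mul_comm]
  gcongr
  have := (Finsupp.le_degree i μ).trans (le_totalDegree hμ)
  rw [Int.cast_natCast, Nat.abs_cast]
  exact_mod_cast this

theorem deg_pderiv (i : τ) (p : MvPolynomial τ ℤ) : (pderiv i p).totalDegree ≤ p.totalDegree := by
  conv_lhs => rw [p.as_sum, map_sum]
  refine (totalDegree_finsetSum _ _).trans (Finset.sup_le fun μ hμ => ?_)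
  rw [pderiv_monomial]
  refine (totalDegree_monomial_le _ _).trans (le_trans ?_ (le_totalDegree hμ))
  exact Finsupp.degree_mono tsub_le_self

end Mv

section Poly
open Polynomial

/-- the sum of the sizes of the coefficients -/
noncomputable def pn (N : R → ℝ) (p : R[X]) : ℝ := ∑ j ∈ p.support, N (p.coeff j)

theorem SN.pn_eq (h : SN N) {p : R[X]} {s : Finset ℕ} (hs : p.support ⊆ s) :
    pn N p = ∑ j ∈ s, N (p.coeff j) :=
  sum_subset hs fun j _ hj => by rw [notMem_support_iff.1 hj, h.zero]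

theorem SN.pn_monomial (h : SN N) (j : ℕ) (c : R) : pn N (monomial j c) = N c := by
  rw [h.pn_eq (support_monomial_subset j c)]; simp

theorem SN.pn_add (h : SN N) (p q : R[X]) : pn N (p + q) ≤ pn N p + pn N q := by
  rw [h.pn_eq support_add, h.pn_eq (p := p) (s := p.support ∪ q.support) subset_union_left,
    h.pn_eq (p := q) (s := p.support ∪ q.support) subset_union_right, ← sum_add_distrib]
  exact sum_le_sum fun μ _ => by rw [coeff_add]; exact h.add _ _

theorem SN.pn (h : SN N) : SN (pn N) := by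
  have h0 : ZPT.pn N 0 = 0 := by simp [ZPT.pn]
  refine ⟨fun _ => sum_nonneg fun _ _ => h.nonneg _, h0, (h.pn_monomial 0 1).le.trans h.one,
    fun p => by simp [ZPT.pn, h.neg], h.pn_add, fun p q => ?_⟩
  conv_lhs => rw [p.as_sum_support, q.as_sum_support, sum_mul_sum]
  refine (le_sum_of_subadditive _ h0.le h.pn_add _ _).trans ((sum_le_sum fun μ _ =>
    le_sum_of_subadditive _ h0.le h.pn_add _ _).trans ?_)
  simp only [monomial_mul_monomial, h.pn_monomial]
  rw [ZPT.pn, ZPT.pn, sum_mul_sum]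
  exact sum_le_sum fun _ _ => sum_le_sum fun _ _ => h.mul _ _

theorem SN.pn_coeff (h : SN N) (p : R[X]) (j : ℕ) : N (p.coeff j) ≤ ZPT.pn N p := by
  by_cases hj : j ∈ p.support
  · exact single_le_sum (f := fun j => N (p.coeff j)) (fun _ _ => h.nonneg _) hj
  · rw [notMem_support_iff.1 hj, h.zero]; exact h.pn.nonneg p

theorem SN.pn_C (h : SN N) (c : R) : ZPT.pn N (C c) = N c := h.pn_monomial 0 c

theorem SN.pn_X (h : SN N) : ZPT.pn N X ≤ 1 := (h.pn_monomial 1 1).le.trans h.one

theorem pn_C_mul {L : Type} [Field L] (v : AbsoluteValue L ℝ) (a : L) (p : L[X]) :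
    pn v (C a * p) = v a * pn v p := by
  rw [(sn_abs v).pn_eq (s := p.support) (by rw [C_mul']; exact support_smul _ _), pn, mul_sum]
  simp

/-- roots of large size force large coefficients -/
theorem mult_loc {L : Type} [Field L] (v : AbsoluteValue L ℝ) (s : Multiset L) (μ : L[X]) :
    v μ.leadingCoeff * (s.map fun a => v a / 2).prod ≤ pn v ((s.map fun a => X - C a).prod * μ) := by
  have h := (sn_abs v).pn
  induction s using Multiset.induction_on generalizing μ with
  | empty =>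
    rw [Multiset.map_zero, Multiset.map_zero, Multiset.prod_zero, Multiset.prod_zero, mul_one,
      one_mul]
    exact (sn_abs v).pn_coeff μ _
  | cons a s ih =>
    have h0 : 0 ≤ (s.map fun a => v a / 2).prod := Multiset.prod_nonneg fun x hx => by
      obtain ⟨b, -, rfl⟩ := Multiset.mem_map.1 hx
      exact div_nonneg (v.nonneg b) two_pos.le
    rw [Multiset.map_cons, Multiset.map_cons, Multiset.prod_cons, Multiset.prod_cons]
    rcases le_total (v a) 2 with ha | ha
    · have := ih ((X - C a) * μ)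
      rw [leadingCoeff_mul, leadingCoeff_X_sub_C, one_mul, mul_left_comm, ← mul_assoc] at this
      refine le_trans ?_ this
      have := v.nonneg μ.leadingCoeff
      gcongr
      exact mul_le_of_le_one_left h0 (by linarith)
    · set r := (s.map fun a => X - C a).prod * μ with hr
      have h1 := h.sub (X * r) ((X - C a) * r)
      rw [show X * r - (X - C a) * r = C a * r by ring, pn_C_mul] at h1
      have h2 := h.mul_le (sn_abs v).pn_X (le_refl (pn v r))
      have h3 := h.nonneg r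
      have h4 := mul_le_mul_of_nonneg_left (ih μ) (show 0 ≤ v a / 2 by linarith)
      rw [mul_assoc (X - C a), ← hr]
      nlinarith

end Poly

section Ser
open PowerSeries

/-- weighted size of the first `k` coefficients -/
noncomputable def tn (N : R → ℝ) (r : ℝ) (k : ℕ) (f : R⟦X⟧) : ℝ :=
  ∑ n ∈ range k, N (coeff n f) * r ^ n

theorem SN.tn_mul (h : SN N) {r : ℝ} (hr : 0 ≤ r) {k k₁ k₂ : ℕ} {f g : R⟦X⟧}
    (hk : ∀ a b, a + b < k → coeff a f ≠ 0 → coeff b g ≠ 0 → a < k₁ ∧ b < k₂) :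
    tn N r k (f * g) ≤ tn N r k₁ f * tn N r k₂ g := by
  classical
  let F : ℕ × ℕ → ℝ := fun p => N (coeff p.1 f) * r ^ p.1 * (N (coeff p.2 g) * r ^ p.2)
  have F0 : ∀ p, 0 ≤ F p := fun p => mul_nonneg (mul_nonneg (h.nonneg _) (by positivity))
    (mul_nonneg (h.nonneg _) (by positivity))
  have h1 : tn N r k (f * g) ≤ ∑ n ∈ range k, ∑ p ∈ antidiagonal n, F p := by
    refine sum_le_sum fun n _ => ?_
    rw [coeff_mul]
    refine (mul_le_mul_of_nonneg_right (h.sum _ _) (by positivity)).trans ?_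
    rw [sum_mul]
    refine sum_le_sum fun p hp => ?_
    rw [← mem_antidiagonal.1 hp, pow_add]
    exact (mul_le_mul_of_nonneg_right (h.mul _ _) (by positivity)).trans (le_of_eq (by ring))
  rw [← sum_biUnion fun a _ b _ hab => disjoint_left.2 fun p h1 h2 =>
    hab ((mem_antidiagonal.1 h1).symm.trans (mem_antidiagonal.1 h2))] at h1
  rw [tn.eq_1 N r k₁, tn.eq_1 N r k₂, sum_mul_sum, ← sum_product']
  refine h1.trans ((sum_filter_ne_zero _).ge.trans (sum_le_sum_of_subset_of_nonneg (fun p hp => ?_)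
    fun p _ _ => F0 p))
  obtain ⟨h2, h3⟩ := mem_filter.1 hp
  obtain ⟨n, h4, h5⟩ := mem_biUnion.1 h2
  have := hk p.1 p.2 (mem_antidiagonal.1 h5 ▸ mem_range.1 h4)
    (fun e => h3 (by simp [F, e, h.zero])) fun e => h3 (by simp [F, e, h.zero])
  exact mem_product.2 ⟨mem_range.2 this.1, mem_range.2 this.2⟩

theorem SN.tn_monomial (h : SN N) {r : ℝ} (hr : 0 ≤ r) (k j : ℕ) (c : R) :
    tn N r k (monomial j c) ≤ N c * r ^ j := by
  have : ∀ n, N (coeff n (monomial j c)) * r ^ n = if n = j then N c * r ^ j else 0 := fun n => by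
    rw [coeff_monomial]; split_ifs with e <;> simp [e, h.zero]
  simp only [tn, this, sum_ite_eq']
  split_ifs
  exacts [le_rfl, mul_nonneg (h.nonneg _) (by positivity)]

theorem SN.tn_C (h : SN N) {r : ℝ} (hr : 0 ≤ r) (k : ℕ) (c : R) : tn N r k (C c) ≤ N c := by
  simpa using h.tn_monomial hr k 0 c

theorem SN.tn_X (h : SN N) {r : ℝ} (hr : 0 ≤ r) (k : ℕ) : tn N r k X ≤ r :=
  (h.tn_monomial hr k 1 1).trans (by simpa using mul_le_of_le_one_left hr h.one)

theorem SN.tn (h : SN N) {r : ℝ} (hr : 0 ≤ r) (k : ℕ) : SN (tn N r k) :=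
  ⟨fun _ => sum_nonneg fun _ _ => mul_nonneg (h.nonneg _) (by positivity), by simp [ZPT.tn, h.zero],
    (h.tn_C hr k 1).trans h.one, fun f => by simp [ZPT.tn, h.neg], fun f g => by
      rw [ZPT.tn, ZPT.tn, ZPT.tn, ← sum_add_distrib]
      exact sum_le_sum fun n _ => by
        rw [map_add, ← add_mul]; exact mul_le_mul_of_nonneg_right (h.add _ _) (by positivity),
    fun f g => h.tn_mul hr fun a b _ _ _ => by omega⟩

theorem SN.tn_coeff (h : SN N) {r : ℝ} (hr : 0 ≤ r) {k j : ℕ} (hj : j < k) (f : R⟦X⟧) :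
    N (coeff j f) * r ^ j ≤ ZPT.tn N r k f :=
  single_le_sum (f := fun n => N (coeff n f) * r ^ n)
    (fun _ _ => mul_nonneg (h.nonneg _) (by positivity)) (mem_range.2 hj)

end Ser

end Pool.Agent.ZPT
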