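import Pool.Agent.P.MP_4fdccb_ag.Neg
import Pool.Agent.P.MP_4fdccb_ag.S.Norm

/-! Three forms of the lemma of Siegel. -/

set_option linter.unusedSectionVars false
set_option linter.unusedVariables false

namespace Pool.Agent.ZPT
open Finset MvPolynomial

variable {I κ τ : Type} [Fintype I] [Fintype κ]

open scoped Matrix.Norms.Elementwise in
theorem Ps_core {α : Type} [Fintype α] (A : Matrix α I ℤ) {B e : ℝ} (hB : 1 ≤ B)
    (hA : ∀ a i, |(A a i : ℝ)| ≤ B) (hn : Fintype.card α < Fintype.card I) (he0 : 0 ≤ e)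
    (he : (Fintype.card α : ℝ) ≤ e * (Fintype.card I - Fintype.card α)) :
    ∃ x : I → ℤ, x ≠ 0 ∧ (∀ i, |(x i : ℝ)| ≤ (Fintype.card I * B) ^ e) ∧
      ∀ a, ∑ i, A a i * x i = 0 := by
  have h1 : (1 : ℝ) ≤ Fintype.card I := by exact_mod_cast (by omega : 1 ≤ Fintype.card I)
  rcases Nat.eq_zero_or_pos (Fintype.card α) with h0 | h0
  · obtain ⟨i⟩ := Fintype.card_pos_iff.1 (h0 ▸ hn)
    exact ⟨1, fun h => one_ne_zero (congrFun h i),
      fun _ => by simpa using Real.one_le_rpow (by nlinarith) he0,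
      fun a => (Fintype.card_eq_zero_iff.1 h0).elim a⟩
  obtain ⟨t, t0, t1, t2⟩ := Int.Matrix.exists_ne_zero_int_vec_norm_le A hn h0
  have hM : max 1 ‖A‖ ≤ B := max_le hB ((Matrix.norm_le_iff (by positivity)).2 fun a i => hA a i)
  have h6 : 1 ≤ max 1 ‖A‖ := le_max_left _ _
  refine ⟨t, t0, fun i => (Int.norm_eq_abs (t i)).ge.trans ((norm_le_pi_norm t i).trans
    (t2.trans ((Real.rpow_le_rpow_of_exponent_le (by nlinarith) ?_).trans
      (Real.rpow_le_rpow (by positivity) (by gcongr) he0)))), congrFun t1⟩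
  rwa [div_le_iff₀ (sub_pos.2 (by exact_mod_cast hn))]

/-- Hint: matrix with rows `κ × S`, `Int.Matrix.exists_ne_zero_int_vec_norm_le` (exponent at most
one), `nz_coeff`; if there is no row, all `P i k` vanish or `κ` is empty: take a unit vector. -/
theorem psiegel (P : I → κ → MvPolynomial τ ℤ) (S : Finset (τ →₀ ℕ))
    (hS : ∀ i k, (P i k).support ⊆ S) {B : ℝ} (hB : 1 ≤ B) (hP : ∀ i k, nz (P i k) ≤ B)
    (hc : 2 * (Fintype.card κ * S.card) ≤ Fintype.card I) (h0 : 0 < Fintype.card I) :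
    ∃ x : I → ℤ, x ≠ 0 ∧ (∀ i, |(x i : ℝ)| ≤ Fintype.card I * B) ∧
      ∀ k, ∑ i, x i • P i k = 0 := by
  have hm : Fintype.card (κ × S) = Fintype.card κ * S.card := by simp
  obtain ⟨x, x0, x1, x2⟩ := Ps_core (α := κ × S) (e := 1) (fun a i => coeff a.2.1 (P i a.1)) hB
    (fun a i => (nz_coeff _ _).trans (hP i a.1)) (by omega) zero_le_one (by
      rw [one_mul, le_sub_iff_add_le, hm]
      exact_mod_cast (by omega))
  refine ⟨x, x0, fun i => by simpa using x1 i, fun k => MvPolynomial.ext _ _ fun μ => ?_⟩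
  simp only [coeff_sum, coeff_smul, smul_eq_mul, coeff_zero]
  by_cases h : μ ∈ S
  · simpa only [mul_comm] using x2 (k, ⟨μ, h⟩)
  · exact sum_eq_zero fun i _ => by rw [notMem_support_iff.1 fun h' => h (hS i k h'), mul_zero]

/-- A solvable system has a small solution. Hint: the rows `(k, μ) ↦ fun i => coeff μ (P i k)`,
cast to `ℚ`; `exists_linearIndependent` gives an independent subset of rows with the same span,
of cardinality less than `card I` because the functional given by the known solution is nonzero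
and vanishes on the span; apply `Int.Matrix.exists_ne_zero_int_vec_norm_le` to these rows
(exponent at most `card I`; no row: unit vector). -/
theorem psmall (P : I → κ → MvPolynomial τ ℤ) {B : ℝ} (hB : 1 ≤ B) (hP : ∀ i k, nz (P i k) ≤ B)
    (h : ∃ x : I → ℤ, x ≠ 0 ∧ ∀ k, ∑ i, x i • P i k = 0) :
    ∃ x : I → ℤ, x ≠ 0 ∧ (∀ i, |(x i : ℝ)| ≤ (Fintype.card I * B) ^ Fintype.card I) ∧
      ∀ k, ∑ i, x i • P i k = 0 := by
  obtain ⟨y, y0, hy⟩ := h
  let v : κ × (τ →₀ ℕ) → I → ℚ := fun a i => (coeff a.2 (P i a.1) : ℤ)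
  let φ : (I → ℤ) → (I → ℚ) →ₗ[ℚ] ℚ := fun x => ∑ i, (x i : ℚ) • LinearMap.proj i
  have hφ : ∀ x a, φ x (v a) = 0 ↔ ∑ i, x i * coeff a.2 (P i a.1) = 0 := fun x a => by
    simp only [φ, v, LinearMap.sum_apply, LinearMap.smul_apply, LinearMap.proj_apply, smul_eq_mul]
    norm_cast
  obtain ⟨α, a, -, hs, hl⟩ := exists_linearIndependent' ℚ v
  have := hl.finite_of_isNoetherian
  have := Fintype.ofFinite α
  have hn : Fintype.card α < Fintype.card I := by
    rw [← finrank_span_eq_card hl, hs, ← Module.finrank_fintype_fun_eq_card ℚ]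
    refine Submodule.finrank_lt fun h => y0 (funext fun i => ?_)
    have h1 : Submodule.span ℚ (Set.range v) ≤ LinearMap.ker (φ y) := Submodule.span_le.2 (by
      rintro _ ⟨b, rfl⟩
      refine (hφ y b).2 ?_
      simpa only [coeff_sum, coeff_smul, smul_eq_mul, coeff_zero]
        using congrArg (coeff b.2) (hy b.1))
    classical
    have h2 := h1 (h ▸ Submodule.mem_top (x := Pi.single i 1))
    simpa [φ, Pi.single_apply] using LinearMap.mem_ker.1 h2
  obtain ⟨x, x0, x1, x2⟩ := Ps_core (α := α) (e := Fintype.card I)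
    (fun b i => coeff (a b).2 (P i (a b).1)) hB
    (fun b i => (nz_coeff _ _).trans (hP i _)) hn (by positivity) (by
      have : (Fintype.card α : ℝ) + 1 ≤ Fintype.card I := by exact_mod_cast hn
      have : (0 : ℝ) ≤ Fintype.card α := by positivity
      nlinarith)
  refine ⟨x, x0, fun i => by simpa using x1 i, fun k => MvPolynomial.ext _ _ fun μ => ?_⟩
  have h1 : Submodule.span ℚ (Set.range (v ∘ a)) ≤ LinearMap.ker (φ x) := Submodule.span_le.2 (by
    rintro _ ⟨b, rfl⟩
    exact (hφ x (a b)).2 (by simpa only [mul_comm] using x2 b))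
  simpa only [coeff_sum, coeff_smul, smul_eq_mul, coeff_zero]
    using (hφ x (k, μ)).1 (h1 (hs ▸ Submodule.subset_span ⟨_, rfl⟩))

/-- An integer vector almost orthogonal to the columns of a real matrix, uniformly in the size of
the entries. Hint: let `U` be the span of the columns in `EuclideanSpace ℝ I`, `w` its
`stdOrthonormalBasis` (at most `card κ` vectors, entries of size at most one); `siegel` of the file
Neg with `B = 1`, `θ = 1 / 2`. Every column is `∑ l, ⟪w l, col⟫ • w l`, so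
`ev i = ∑ j, 𝒞 i j * γ j` equals `∑ l, (∑ i', w l i' * ev i') * w l i`. If `U = 0` take a unit
vector. -/
theorem siegel_span (𝒞 : I → κ → ℝ) {u : ℝ} (hu : 0 < u) (h0 : 0 < Fintype.card I)
    (hJ : 8 * Fintype.card κ ≤ Fintype.card I) : ∃ p : I → ℤ, p ≠ 0 ∧
      (∀ i, |(p i : ℝ)| ≤ √(Fintype.card I * (u + 1))) ∧ ∀ γ : κ → ℂ,
        ‖∑ i, (p i : ℂ) * ∑ j, 𝒞 i j * γ j‖ ≤
          (∑ i, |(p i : ℝ)|) / u * Fintype.card κ * ∑ i, ‖∑ j, 𝒞 i j * γ j‖ := by
  let col : κ → EuclideanSpace ℝ I := fun j => WithLp.toLp 2 fun i => 𝒞 i j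
  let U := Submodule.span ℝ (Set.range col)
  let b := stdOrthonormalBasis ℝ U
  let w : I → Fin (Module.finrank ℝ U) → ℂ := fun i l => (((b l).1 i : ℝ) : ℂ)
  have hr : Module.finrank ℝ U ≤ Fintype.card κ := finrank_range_le_card col
  have hw : ∀ i l, ‖w i l‖ ≤ 1 := fun i l => (Complex.norm_real _).le.trans
    ((PiLp.norm_apply_le (b l).1 i).trans (b.orthonormal.1 l).le)
  have hc : ∀ i j, (𝒞 i j : ℂ) = ∑ l, (∑ i', w i' l * 𝒞 i' j) * w i l := fun i j => by
    have h1 := congrArg (fun x : U => x.1 i) (b.sum_repr' ⟨col j, Submodule.subset_span ⟨j, rfl⟩⟩)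
    simp only [Submodule.coe_sum, Submodule.coe_smul, Submodule.coe_inner, WithLp.ofLp_sum,
      WithLp.ofLp_smul, Finset.sum_apply, Pi.smul_apply, smul_eq_mul, PiLp.inner_apply, col,
      Real.inner_apply] at h1
    simp only [w]
    exact_mod_cast h1.symm
  obtain ⟨p, p0, p1, p2⟩ : ∃ p : I → ℤ, p ≠ 0 ∧ (∀ i, |(p i : ℝ)| ≤ √(Fintype.card I * (u + 1))) ∧
      ∀ l, ‖∑ i, (p i : ℂ) * w i l‖ ≤ (∑ i, |(p i : ℝ)|) / u := by
    rcases Nat.eq_zero_or_pos (Module.finrank ℝ U) with h | h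
    · obtain ⟨i⟩ := Fintype.card_pos_iff.1 h0
      have h1 : (1 : ℝ) ≤ Fintype.card I := by exact_mod_cast h0
      exact ⟨1, fun h => one_ne_zero (congrFun h i),
        fun _ => le_trans (by simp) (Real.one_le_sqrt.2 (by nlinarith)),
        fun l => absurd l.2 (by omega)⟩
    · obtain ⟨p, p0, p1, p2⟩ := siegel w (θ := 1 / 2) hu zero_le_one hw (by simpa using h)
        (by norm_num) (by
          have : (8 : ℝ) * Module.finrank ℝ U ≤ Fintype.card I := by
            exact_mod_cast (by omega)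
          rw [Fintype.card_fin]
          linarith)
      exact ⟨p, p0, fun i => by simpa only [one_mul, Real.sqrt_eq_rpow] using p1 i, p2⟩
  refine ⟨p, p0, p1, fun γ => ?_⟩
  have he : ∀ i, ∑ j, 𝒞 i j * γ j = ∑ l, (∑ i', w i' l * ∑ j, 𝒞 i' j * γ j) * w i l := fun i => by
    simp only [hc i, sum_mul, mul_sum]
    rw [sum_comm]
    refine sum_congr rfl fun l _ => ?_
    rw [sum_comm]
    exact sum_congr rfl fun _ _ => sum_congr rfl fun _ _ => by ring
  have h2 : ∑ i, (p i : ℂ) * ∑ j, 𝒞 i j * γ j =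
      ∑ l, (∑ i, (p i : ℂ) * w i l) * ∑ i', w i' l * ∑ j, 𝒞 i' j * γ j := by
    rw [sum_congr rfl fun l _ => sum_mul univ (fun i => (p i : ℂ) * w i l) _, sum_comm]
    refine sum_congr rfl fun i _ => ?_
    rw [he i, mul_sum]
    exact sum_congr rfl fun _ _ => by ring
  rw [h2]
  refine (norm_sum_le _ _).trans ((sum_le_card_nsmul _ _
    ((∑ i, |(p i : ℝ)|) / u * ∑ i, ‖∑ j, 𝒞 i j * γ j‖) fun l _ => ?_).trans ?_)
  · refine (norm_mul_le _ _).trans (mul_le_mul (p2 l) ((norm_sum_le _ _).trans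
      (sum_le_sum fun i _ => (norm_mul_le _ _).trans ?_)) (norm_nonneg _) (by positivity))
    exact mul_le_of_le_one_left (norm_nonneg _) (hw i l)
  · rw [nsmul_eq_mul, card_univ, Fintype.card_fin, ← mul_assoc, mul_comm (_ : ℝ) (_ / u)]
    gcongr

end Pool.Agent.ZPT
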