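import Pool.Agent.P.MP_4fdccb_ag.S.Tay
import Pool.Agent.P.MP_4fdccb_ag.S.Bas
import Pool.Agent.P.MP_4fdccb_ag.S.Ps

/-! An auxiliary relation on the base curve and its order of vanishing. -/

set_option linter.unusedSectionVars false
set_option linter.unusedVariables false

namespace Pool.Agent.ZPT
open Finset MvPolynomial Height Real Module

variable {k E : Type} [CommRing k] [Field E] [CharZero E] [Algebra k E] (δ : Derivation k E E)
  {t : E} {d : ℕ} {b : Fin d → E}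

theorem AmzA_hom {R S τ : Type} [CommRing R] [CommRing S] [Algebra ℤ R] [Algebra ℤ S]
    (φ : R →+* S) (x : τ → R) (p : MvPolynomial τ ℤ) :
    φ (aeval x p) = aeval (fun i => φ (x i)) p := by
  induction p using MvPolynomial.induction_on with
  | C a => simp
  | add p q hp hq => simp [hp, hq]
  | mul_X p i hp => simp [hp]

theorem AmzA_coeff {R : Type} [CommRing R] [Algebra ℤ (Polynomial R)] (p : MvPolynomial Unit ℤ)
    (n : ℕ) : (aeval (fun _ : Unit => (Polynomial.X : Polynomial R)) p).coeff n =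
      ((coeff (Finsupp.single () n) p : ℤ) : R) := by
  have h : aeval (fun _ : Unit => (Polynomial.X : Polynomial R)) p =
      (uniqueAlgEquiv ℤ Unit p).map (Int.castRingHom R) := by
    induction p using MvPolynomial.induction_on with
    | C a => simp
    | add p q hp hq => rw [map_add, map_add, Polynomial.map_add, hp, hq]
    | mul_X p i hp => rw [map_mul, map_mul, Polynomial.map_mul, hp]; simp
  rw [h, Polynomial.coeff_map, coeff_uniqueAlgEquiv]
  rfl

theorem AmzA_ext {p : MvPolynomial Unit ℤ} (h : ∀ n, coeff (Finsupp.single () n) p = 0) :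
    p = 0 := by
  ext μ
  rw [Finsupp.unique_single μ]
  exact h _

/-- the constants of a derivation -/
def AmzA_cst : Subring E where
  carrier := {x | δ x = 0}
  mul_mem' := fun {x y} hx hy => by
    have hx' : δ x = 0 := hx
    have hy' : δ y = 0 := hy
    show δ (x * y) = 0
    rw [Derivation.leibniz, hx', hy', smul_zero, smul_zero, add_zero]
  one_mem' := δ.map_one_eq_zero
  add_mem' := fun {x y} hx hy => by
    have hx' : δ x = 0 := hx
    have hy' : δ y = 0 := hy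
    show δ (x + y) = 0
    rw [map_add, hx', hy', add_zero]
  zero_mem' := map_zero δ
  neg_mem' := fun {x} hx => by
    have hx' : δ x = 0 := hx
    show δ (-x) = 0
    rw [map_neg, hx', neg_zero]

theorem AmzA_card (ht : δ t = 1) (hb : Bas (fun _ : Unit => t) b) {m : ℕ} {κ : Fin m → E}
    (h0 : ∀ j, δ (κ j) = 0) (h1 : ∀ x : Fin m → ℤ, ∑ j, x j * κ j = 0 → x = 0) : m ≤ d := by
  obtain ⟨g, g0, P, hP⟩ := hb.common κ
  have hli : LinearIndependent (MvPolynomial Unit ℤ) P := by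
    refine Fintype.linearIndependent_iff.2 fun a ha => ?_
    have e1 : ∑ j, aeval (fun _ : Unit => t) (a j) * κ j = 0 := by
      have e2 : aeval (fun _ : Unit => t) g * ∑ j, aeval (fun _ : Unit => t) (a j) * κ j = 0 := by
        have e3 : ∀ l, ∑ j, a j * P j l = 0 := fun l => by
          simpa [Finset.sum_apply] using congrFun ha l
        rw [mul_sum]
        simp only [mul_left_comm (aeval (fun _ : Unit => t) g), hP, mul_sum, ← mul_assoc,
          ← map_mul]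
        rw [sum_comm]
        simp only [← sum_mul, ← map_sum, e3, map_zero, zero_mul, sum_const_zero]
      exact (mul_eq_zero.1 e2).resolve_left fun h => g0 (hb.inj g h)
    let p : Polynomial (AmzA_cst δ) := ∑ j,
      aeval (fun _ : Unit => Polynomial.X) (a j) * Polynomial.C (⟨κ j, h0 j⟩ : AmzA_cst δ)
    have e4 : p.eval₂ (AmzA_cst δ).subtype t = 0 := by
      rw [← e1, ← Polynomial.coe_eval₂RingHom, map_sum]
      refine sum_congr rfl fun j _ => ?_
      rw [map_mul, AmzA_hom]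
      simp
    have e5 : p = 0 := by
      by_contra p0
      have := ker_alg δ (AmzA_cst δ).subtype Subtype.val_injective (fun a => a.2) p0 e4
      rw [ht] at this
      exact one_ne_zero this
    intro j
    refine AmzA_ext fun n => ?_
    have e6 := congrArg (fun q : Polynomial (AmzA_cst δ) => ((q.coeff n : AmzA_cst δ) : E)) e5
    simp only [p, Polynomial.finsetSum_coeff, Polynomial.coeff_mul_C, AmzA_coeff] at e6
    exact congrFun (h1 (fun j => coeff (Finsupp.single () n) (a j)) (by simpa using e6)) j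
  simpa using hli.fintype_card_le_finrank

/-- The constants have finite rank. -/
theorem consts (ht : δ t = 1) (hb : Bas (fun _ : Unit => t) b) :
    ∃ (J : Type) (_ : Fintype J) (κ : J → E), (∀ j, δ (κ j) = 0) ∧
      (∀ x : J → ℤ, ∑ j, x j * κ j = 0 → x = 0) ∧
      ∀ c, δ c = 0 → ∃ (N : ℤ) (x : J → ℤ), N ≠ 0 ∧ N * c = ∑ j, x j * κ j := by
  classical
  let Q : ℕ → Prop := fun m => ∃ κ : Fin m → E, (∀ j, δ (κ j) = 0) ∧
    ∀ x : Fin m → ℤ, ∑ j, x j * κ j = 0 → x = 0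
  have q0 : Q 0 := ⟨Fin.elim0, fun j => j.elim0, fun x _ => Subsingleton.elim _ _⟩
  obtain ⟨κ, h0, h1⟩ : Q (Nat.findGreatest Q d) := Nat.findGreatest_spec (Nat.zero_le d) q0
  refine ⟨_, inferInstance, κ, h0, h1, fun c hc => ?_⟩
  have hn : ¬ Q (Nat.findGreatest Q d + 1) := fun h => by
    obtain ⟨κ', a0, a1⟩ := id h
    exact Nat.findGreatest_is_greatest (Nat.lt_succ_self _) (AmzA_card δ ht hb a0 a1) h
  have h2 : ¬ ∀ x : Fin (Nat.findGreatest Q d + 1) → ℤ,
      ∑ j, x j * (Fin.cons c κ : Fin (_ + 1) → E) j = 0 → x = 0 := fun h =>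
    hn ⟨Fin.cons c κ, fun j => Fin.cases hc h0 j, h⟩
  push Not at h2
  obtain ⟨x, h3, h4⟩ := h2
  rw [Fin.sum_univ_succ] at h3
  simp only [Fin.cons_zero, Fin.cons_succ] at h3
  refine ⟨x 0, fun j => -x j.succ, fun h5 => h4 ?_, ?_⟩
  · rw [h5, Int.cast_zero, zero_mul, zero_add] at h3
    have h6 := h1 (fun j => x j.succ) h3
    funext j
    exact Fin.cases h5 (fun i => congrFun h6 i) j
  · simp only [Int.cast_neg, neg_mul, sum_neg_distrib]
    exact eq_neg_of_add_eq_zero_left h3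

/-- passing between relations and relations of the coordinates -/
theorem AmzA_rel (hb : Bas (fun _ : Unit => t) b) {I : Type} [Fintype I] {y : I → E}
    {G : MvPolynomial Unit ℤ} (G0 : G ≠ 0) {P : I → Fin d → MvPolynomial Unit ℤ}
    (hP : ∀ i, aeval (fun _ : Unit => t) G * y i = ∑ l, aeval (fun _ : Unit => t) (P i l) * b l)
    (x : I → ℤ) : ∑ i, x i * y i = 0 ↔ ∀ l, ∑ i, x i • P i l = 0 := by
  have e : aeval (fun _ : Unit => t) G * ∑ i, x i * y i =
      ∑ l, aeval (fun _ : Unit => t) (∑ i, x i • P i l) * b l := by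
    simp only [mul_sum, mul_left_comm (aeval (fun _ : Unit => t) G), hP, map_sum, sum_mul,
      zsmul_eq_mul, map_mul, map_intCast, mul_assoc]
    exact sum_comm
  refine ⟨fun h l => ?_, fun h => ?_⟩
  · rw [h, mul_zero] at e
    exact congrFun (hb.ind _ e.symm) l
  · simp only [h, map_zero, zero_mul, sum_const_zero] at e
    exact (mul_eq_zero.1 e).resolve_left fun h => G0 (hb.inj G h)

theorem AmzA_cst_sum {J : Type} [Fintype J] {κ : J → E} (h : ∀ j, δ (κ j) = 0) (x : J → ℤ) :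
    δ (∑ j, x j * κ j) = 0 :=
  (AmzA_cst δ).sum_mem fun j _ => (AmzA_cst δ).mul_mem (intCast_mem _ _) (h j)

/-- A minimal relation over the constants with small coefficients. -/
theorem circuit (hb : Bas (fun _ : Unit => t) b) {J : Type} [Fintype J] {κ : J → E}
    (hκ : (∀ j, δ (κ j) = 0) ∧ (∀ x : J → ℤ, ∑ j, x j * κ j = 0 → x = 0) ∧
      ∀ c, δ c = 0 → ∃ (N : ℤ) (x : J → ℤ), N ≠ 0 ∧ N * c = ∑ j, x j * κ j)
    {g : MvPolynomial Unit ℤ} (g0 : g ≠ 0) {c n s : ℕ} {B : ℝ} (hB : 1 ≤ B) {f : Fin s → E}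
    (h0 : f ≠ 0) (h1 : ∑ m, f m = 0)
    (h2 : ∀ m j, Sz (fun _ : Unit => t) b g c n B (κ j * f m)) :
    ∃ (r : ℕ) (w : Option (Fin r) → Fin s) (x : Option (Fin r) → J → ℤ), 0 < r ∧
      Function.Injective w ∧
      (∀ o j, |(x o j : ℝ)| ≤ ((s * Fintype.card J + 1) * B) ^ (s * Fintype.card J)) ∧
      ∑ o, (∑ j, x o j * κ j) * f (w o) = 0 ∧ ∀ c' : Fin r → E, (∀ i, δ (c' i) = 0) →
        ∑ i, c' i * ((∑ j, x (some i) j * κ j) * f (w (some i))) = 0 → c' = 0 := by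
  classical
  let Q : ℕ → Prop := fun r => ∃ w : Fin r → Fin s, Function.Injective w ∧ (∀ o, f (w o) ≠ 0) ∧
    ∃ γ : Fin r → E, (∀ o, δ (γ o) = 0) ∧ γ ≠ 0 ∧ ∑ o, γ o * f (w o) = 0
  have hQ : ∃ r, Q r := by
    let S : Finset (Fin s) := univ.filter fun m => f m ≠ 0
    obtain ⟨m₀, hm₀⟩ := Function.ne_iff.1 h0
    have hm : m₀ ∈ S := mem_filter.2 ⟨mem_univ _, hm₀⟩
    refine ⟨#S, fun o => (S.equivFin.symm o : Fin s),
      Subtype.val_injective.comp S.equivFin.symm.injective,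
      fun o => (mem_filter.1 (S.equivFin.symm o).2).2, fun _ => 1, fun _ => δ.map_one_eq_zero,
      fun h => one_ne_zero (congrFun h (S.equivFin ⟨m₀, hm⟩)), ?_⟩
    simp only [one_mul]
    rw [S.equivFin.symm.sum_comp fun m : S => f m, sum_coe_sort S f, sum_filter_ne_zero, h1]
  obtain ⟨r, hr, hmin⟩ : ∃ r, Q (r + 1) ∧ ¬ Q r := by
    have a1 := Nat.find_spec hQ
    have a2 : Nat.find hQ ≠ 0 := fun h => by
      rw [h] at a1
      obtain ⟨w, -, -, γ, -, a3, -⟩ := a1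
      exact a3 (Subsingleton.elim _ _)
    obtain ⟨r, hr⟩ := Nat.exists_eq_succ_of_ne_zero a2
    exact ⟨r, by rwa [hr] at a1, Nat.find_min hQ (hr ▸ Nat.lt_succ_self r)⟩
  obtain ⟨w, w1, w2, γ, γ1, γ2, γ3⟩ := hr
  have key : ∀ (o₀ : Fin (r + 1)) (y : Fin (r + 1) → E), (∀ o, δ (y o) = 0) →
      ∑ o, y o * f (w o) = 0 → y o₀ = 0 → y = 0 := by
    intro o₀ y a1 a2 a3
    by_contra a4
    refine hmin ⟨fun i => w (o₀.succAbove i), w1.comp Fin.succAbove_right_injective,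
      fun i => w2 _, fun i => y (o₀.succAbove i), fun i => a1 _, fun h => a4 ?_, ?_⟩
    · funext o
      rcases Fin.eq_self_or_eq_succAbove o₀ o with rfl | ⟨i, rfl⟩
      · exact a3
      · exact congrFun h i
    · rwa [Fin.sum_univ_succAbove _ o₀, a3, zero_mul, zero_add] at a2
  have hr0 : 0 < r := by
    rcases Nat.eq_zero_or_pos r with rfl | h
    · rw [Fin.sum_univ_succ, Fin.sum_univ_zero, add_zero] at γ3
      exact absurd (key 0 γ γ1 (by rwa [Fin.sum_univ_succ, Fin.sum_univ_zero, add_zero])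
        ((mul_eq_zero.1 γ3).resolve_right (w2 0))) γ2
    · exact h
  choose P hP hP' using h2
  have rel := AmzA_rel hb (y := fun i : Fin (r + 1) × J => κ i.2 * f (w i.1))
    (pow_ne_zero n g0) (P := fun i => P (w i.1) i.2) fun i => by rw [map_pow]; exact hP _ _
  have sm : ∀ x : Fin (r + 1) × J → ℤ, ∑ i, x i * (κ i.2 * f (w i.1)) =
      ∑ o, (∑ j, x (o, j) * κ j) * f (w o) := fun x => by
    simp only [Fintype.sum_prod_type, sum_mul, mul_assoc]
  choose N z hN hz using fun o => hκ.2.2 (γ o) (γ1 o)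
  have hz' : ∀ o, ∑ j, (((∏ o' ∈ univ.erase o, N o') * z o j : ℤ) : E) * κ j =
      (∏ o', N o' : ℤ) * γ o := fun o => by
    rw [← prod_erase_mul univ N (mem_univ o), Int.cast_mul, mul_assoc, hz, mul_sum]
    simp only [Int.cast_mul, mul_assoc]
  obtain ⟨x, x0, x1, x2⟩ := psmall (fun (i : Fin (r + 1) × J) l => P (w i.1) i.2 l) hB
    (fun i l => (hP' _ _ l).2) ⟨fun i => (∏ o' ∈ univ.erase i.1, N o') * z i.1 i.2, fun h => by
      refine γ2 (funext fun o => ?_)
      have a1 := hz' o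
      have a2 : ∀ j, (∏ o' ∈ univ.erase o, N o') * z o j = 0 := fun j => congrFun h (o, j)
      simp only [a2, Int.cast_zero, zero_mul, sum_const_zero] at a1
      exact (mul_eq_zero.1 a1.symm).resolve_left
        (Int.cast_ne_zero.2 (prod_ne_zero_iff.2 fun o _ => hN o)), (rel _).1 (by
      rw [sm]
      simp only [hz', mul_assoc, ← mul_sum, γ3, mul_zero])⟩
  have x3 := (rel x).2 x2
  rw [sm] at x3
  have x4 : ∀ o, ∑ j, x (o, j) * κ j ≠ 0 := fun o h => x0 (funext fun i => by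
    have a1 := key o (fun o => ∑ j, x (o, j) * κ j) (fun o => AmzA_cst_sum δ hκ.1 _) x3 h
    exact congrFun (hκ.2.1 (fun j => x (i.1, j)) (congrFun a1 i.1)) i.2)
  refine ⟨r, fun o => w ((finSuccEquiv r).symm o), fun o j => x ((finSuccEquiv r).symm o, j), hr0,
    w1.comp (finSuccEquiv r).symm.injective, fun o j => (x1 _).trans ?_, ?_, fun c' a1 a2 => ?_⟩
  · have a1 : Fintype.card (Fin (r + 1) × J) ≤ s * Fintype.card J := by
      rw [Fintype.card_prod]
      exact Nat.mul_le_mul_right _ (by simpa using Fintype.card_le_of_injective w w1)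
    have a2 : (Fintype.card (Fin (r + 1) × J) : ℝ) ≤ s * Fintype.card J + 1 := by
      exact_mod_cast a1.trans (Nat.le_succ _)
    refine (pow_le_pow_left₀ (by positivity)
      (mul_le_mul_of_nonneg_right a2 (by linarith)) _).trans (pow_le_pow_right₀ ?_ a1)
    exact one_le_mul_of_one_le_of_one_le (le_add_of_nonneg_left (by positivity)) hB
  · exact ((finSuccEquiv r).symm.sum_comp fun o => (∑ j, x (o, j) * κ j) * f (w o)).trans x3
  · simp only [finSuccEquiv_symm_some] at a2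
    have a3 := key 0 (Fin.cons 0 fun i => c' i * ∑ j, x (i.succ, j) * κ j)
      (fun o => Fin.cases (map_zero δ) (fun i => (AmzA_cst δ).mul_mem (a1 i)
        (AmzA_cst_sum δ hκ.1 _)) o)
      (by simpa [Fin.sum_univ_succ, mul_assoc] using a2) rfl
    funext i
    exact (mul_eq_zero.1 (congrFun a3 i.succ)).resolve_right (x4 _)

/-- the relation given by the lemma of Siegel -/
theorem AmzA_sieg (hb : Bas (fun _ : Unit => t) b) {g : MvPolynomial Unit ℤ} (g0 : g ≠ 0)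
    {c n s : ℕ} (hs : 4 * d + 1 ≤ s) {B : ℝ} (hB : 1 ≤ B) {Q : Fin s → E} (hQ : ∀ m, Q m ≠ 0)
    (h : ∀ m, Sz (fun _ : Unit => t) b g c n B (Q m)) :
    ∃ A : Fin s → MvPolynomial Unit ℤ, (∀ m, (A m).totalDegree ≤ 4 * d * (c * n + 1) / s ∧
      nz (A m) ≤ (4 * d * (c * n + 1) + 1 : ℕ) * (s * (4 * d * (c * n + 1) + 1 : ℕ) * B)) ∧
      (fun m => aeval (fun _ : Unit => t) (A m) * Q m) ≠ 0 ∧
      ∑ m, aeval (fun _ : Unit => t) (A m) * Q m = 0 := by
  classical
  choose P hP hP' using h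
  have s0 : 0 < s := by omega
  obtain ⟨Δ, hΔ⟩ : ∃ Δ, Δ = 4 * d * (c * n + 1) / s := ⟨_, rfl⟩
  have d1 : 4 * d * (c * n + 1) < s * (Δ + 1) := hΔ ▸ Nat.lt_mul_div_succ _ s0
  have d2 : Δ ≤ 4 * d * (c * n + 1) := hΔ ▸ Nat.div_le_self _ _
  rw [← hΔ]
  let P' : Fin s × Fin (Δ + 1) → Fin d → MvPolynomial Unit ℤ :=
    fun i l => X () ^ (i.2 : ℕ) * P i.1 l
  let S : Finset (Unit →₀ ℕ) := (range (c * n + Δ + 1)).image (Finsupp.single ())
  have hS : ∀ i l, (P' i l).support ⊆ S := fun i l μ hμ => by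
    have a1 : (P' i l).totalDegree ≤ c * n + Δ := by
      refine (totalDegree_mul _ _).trans ?_
      have a2 := (hP' i.1 l).1
      have a3 := i.2.2
      rw [totalDegree_X_pow]
      omega
    have a2 := (Finsupp.le_degree () μ).trans (le_totalDegree hμ)
    exact mem_image.2 ⟨μ (), mem_range.2 (by omega), (Finsupp.unique_single μ).symm⟩
  have nX : ∀ l : ℕ, nz (X () ^ l : MvPolynomial Unit ℤ) ≤ 1 := fun l => by
    simpa using sn_nz.pow_le (nz_X ()).le l
  have cS : #S ≤ c * n + Δ + 1 := card_image_le.trans (card_range _).le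
  obtain ⟨x, x0, x1, x2⟩ := psiegel P' S hS hB
    (fun i l => by simpa using sn_nz.mul_le (nX i.2) (hP' i.1 l).2)
    (by
      rw [Fintype.card_prod, Fintype.card_fin, Fintype.card_fin, Fintype.card_fin]
      have a1 := Nat.mul_le_mul_left d cS
      have a2 := Nat.mul_le_mul_right (Δ + 1) hs
      nlinarith)
    (by simpa using s0)
  have rel := (AmzA_rel hb (y := fun i : Fin s × Fin (Δ + 1) => t ^ (i.2 : ℕ) * Q i.1)
    (pow_ne_zero n g0) (P := P') (fun i => by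
      rw [map_pow, mul_left_comm, hP, mul_sum]
      simp only [P', map_mul, map_pow, aeval_X, mul_assoc]) x).2 x2
  have hd : ((Δ + 1 : ℕ) : ℝ) ≤ (4 * d * (c * n + 1) + 1 : ℕ) := by
    exact_mod_cast Nat.succ_le_succ d2
  refine ⟨fun m => ∑ l : Fin (Δ + 1), x (m, l) • X () ^ (l : ℕ), fun m => ⟨?_, ?_⟩, fun h => ?_, ?_⟩
  · refine (totalDegree_finsetSum _ _).trans (Finset.sup_le fun l _ => ?_)
    refine (totalDegree_smul_le _ _).trans ?_
    rw [totalDegree_X_pow]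
    exact Nat.lt_succ_iff.1 l.2
  · refine (sn_nz.sum _ _).trans ((sum_le_card_nsmul _ _
      (s * (4 * d * (c * n + 1) + 1 : ℕ) * B) fun l _ => ?_).trans ?_)
    · refine (nz_smul _ _).trans ((mul_le_of_le_one_right (abs_nonneg _) (nX l)).trans
        ((x1 _).trans ?_))
      rw [Fintype.card_prod, Fintype.card_fin, Fintype.card_fin, Nat.cast_mul]
      gcongr
    · rw [card_univ, Fintype.card_fin, nsmul_eq_mul]
      gcongr
  · refine x0 (funext fun i => ?_)
    have a1 := hb.inj _ ((mul_eq_zero.1 (congrFun h i.1)).resolve_right (hQ _))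
    have a2 := congrArg (coeff (Finsupp.single () (i.2 : ℕ))) a1
    simp only [coeff_sum, coeff_smul, X_pow_eq_monomial, coeff_monomial,
      (Finsupp.single_injective ()).eq_iff, Fin.val_inj, smul_eq_mul, mul_ite, mul_one,
      mul_zero, sum_ite_eq', mem_univ, if_true, coeff_zero] at a2
    exact a2
  · rw [← rel, Fintype.sum_prod_type]
    simp only [map_sum, zsmul_eq_mul, map_mul, map_intCast, map_pow, aeval_X, sum_mul, mul_assoc]

theorem AmzA_der (ht : δ t = 1) {g : MvPolynomial Unit ℤ} {c : ℕ}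
    (ok : SzOK (fun _ : Unit => t) b g c) (hb : ∀ l, Sz (fun _ : Unit => t) b g c 1 c (δ (b l)))
    {n s : ℕ} {B : ℝ} (hB : 0 ≤ B) {α : E} (h : Sz (fun _ : Unit => t) b g c n B α) {j : ℕ}
    (hj : j ≤ s) :
    Sz (fun _ : Unit => t) b g c (n + j) ((c ^ 2 * (2 * (n + s) + 1)) ^ j * B) (δ^[j] α) := by
  induction j with
  | zero => simpa using h
  | succ j ih =>
    rw [Function.iterate_succ_apply']
    refine (ok.der δ ht hb (ih (by omega))).mono ?_
    have a1 : ((n + j : ℕ) : ℝ) ≤ n + s := by exact_mod_cast (by omega : n + j ≤ n + s)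
    rw [pow_succ' _ j, mul_assoc _ _ B]
    gcongr

/-- the norm of the Wronskian -/
theorem AmzA_wr (ht : δ t = 1) (hb : Bas (fun _ : Unit => t) b) {g : MvPolynomial Unit ℤ} {c : ℕ}
    (ok : SzOK (fun _ : Unit => t) b g c) (hb' : ∀ l, Sz (fun _ : Unit => t) b g c 1 c (δ (b l)))
    {n s r : ℕ} (hr : r ≤ s) {B : ℝ} (hB : 1 ≤ B) {F : Fin r → E}
    (h : ∀ i, Sz (fun _ : Unit => t) b g c n B (F i))
    (hF : ∀ c' : Fin r → E, (∀ i, δ (c' i) = 0) → ∑ i, c' i * F i = 0 → c' = 0) :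
    ∃ (ν : MvPolynomial Unit ℤ) (P : Fin d → MvPolynomial Unit ℤ), ν ≠ 0 ∧
      nz ν ≤ c * (d.factorial * (c * (s.factorial * (c * (c * (c ^ (n + s) *
        ((c ^ 2 * (2 * (n + s) + 1)) ^ s * B))) ^ s)) * c) ^ d) ∧
      aeval (fun _ => t) ν = (Matrix.of fun j i : Fin r => δ^[j] (F i)).det *
        ∑ l, aeval (fun _ => t) (P l) * b l := by
  have c1 : (1 : ℝ) ≤ c := by exact_mod_cast Nat.one_le_of_lt ok.dg
  have u1 : (1 : ℝ) ≤ c ^ 2 * (2 * (n + s) + 1) :=
    one_le_mul_of_one_le_of_one_le (one_le_pow₀ c1) (le_add_of_nonneg_left (by positivity))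
  generalize hU : (c : ℝ) ^ 2 * (2 * (n + s) + 1) = U at u1
  have a1 : ∀ j i : Fin r, Sz (fun _ : Unit => t) b g c (n + s) (c ^ (n + s) * (U ^ s * B))
      ((Matrix.of fun j i : Fin r => δ^[j] (F i)) j i) := fun j i => by
    have a2 : (j : ℕ) ≤ s := j.2.le.trans hr
    have a3 := AmzA_der δ ht ok hb' (zero_le_one.trans hB) (h i) a2
    rw [hU] at a3
    refine ok.up (a3.mono ?_) (by positivity) (by omega)
    gcongr
  have u2 : 1 ≤ (c : ℝ) ^ (n + s) * (U ^ s * B) := one_le_mul_of_one_le_of_one_le (one_le_pow₀ c1)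
    (one_le_mul_of_one_le_of_one_le (one_le_pow₀ u1) hB)
  generalize (c : ℝ) ^ (n + s) * (U ^ s * B) = V at a1 u2
  have a4 := (ok.det _ (zero_le_one.trans u2) a1).mono
    (B' := s.factorial * (c * (c * V) ^ s)) (by
      have a5 : (r.factorial : ℝ) ≤ s.factorial := by exact_mod_cast Nat.factorial_le hr
      have a6 := one_le_mul_of_one_le_of_one_le c1 u2
      gcongr)
  obtain ⟨ν, n0, n1, P, n2⟩ := ok.elim hb a4 (wronskian δ F hF)
  exact ⟨ν, P, n0, n1, n2⟩

/-- at most exponential growth -/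
def AmzA_Ex (u : ℕ → ℝ) : Prop := ∃ C : ℝ, 1 ≤ C ∧ ∀ n, 1 ≤ n → |u n| ≤ C ^ n

/-- at most linear growth -/
def AmzA_Li (l : ℕ → ℕ) : Prop := ∃ C : ℕ, ∀ n, 1 ≤ n → l n ≤ C * n

theorem AmzA_Li.const (a : ℕ) : AmzA_Li fun _ => a := ⟨a, fun n hn => Nat.le_mul_of_pos_right a hn⟩

theorem AmzA_Li.id : AmzA_Li fun n => n := ⟨1, fun n _ => (one_mul n).ge⟩

theorem AmzA_Li.add {l l' : ℕ → ℕ} (h : AmzA_Li l) (h' : AmzA_Li l') :
    AmzA_Li fun n => l n + l' n :=
  let ⟨C, a⟩ := h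
  let ⟨C', a'⟩ := h'
  ⟨C + C', fun n hn => (add_le_add (a n hn) (a' n hn)).trans (add_mul _ _ _).ge⟩

theorem AmzA_Li.cmul {l : ℕ → ℕ} (h : AmzA_Li l) (a : ℕ) : AmzA_Li fun n => a * l n :=
  let ⟨C, h⟩ := h
  ⟨a * C, fun n hn => (Nat.mul_le_mul_left a (h n hn)).trans (mul_assoc _ _ _).ge⟩

theorem AmzA_Ex.const (a : ℝ) : AmzA_Ex fun _ => a :=
  ⟨max 1 |a|, le_max_left _ _, fun n hn =>
    (le_max_right 1 _).trans (le_self_pow₀ (le_max_left _ _) (by omega))⟩

theorem AmzA_Ex.mul {u u' : ℕ → ℝ} (h : AmzA_Ex u) (h' : AmzA_Ex u') :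
    AmzA_Ex fun n => u n * u' n :=
  let ⟨C, c, a⟩ := h
  let ⟨C', c', a'⟩ := h'
  ⟨C * C', one_le_mul_of_one_le_of_one_le c c', fun n hn => by
    rw [abs_mul, mul_pow]
    exact mul_le_mul (a n hn) (a' n hn) (abs_nonneg _) (by positivity)⟩

theorem AmzA_Ex.add {u u' : ℕ → ℝ} (h : AmzA_Ex u) (h' : AmzA_Ex u') :
    AmzA_Ex fun n => u n + u' n := by
  obtain ⟨C, c, a⟩ := h
  obtain ⟨C', c', a'⟩ := h'
  refine ⟨2 * (C * C'), by nlinarith [one_le_mul_of_one_le_of_one_le c c'], fun n hn => ?_⟩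
  have h1 : (2 : ℝ) ≤ 2 ^ n := le_self_pow₀ one_le_two (by omega)
  have h2 : 1 ≤ C ^ n := one_le_pow₀ c
  have h3 : 1 ≤ C' ^ n := one_le_pow₀ c'
  have h4 := le_mul_of_one_le_right (zero_le_one.trans h2) h3
  have h5 := le_mul_of_one_le_left (zero_le_one.trans h3) h2
  have h6 := mul_le_mul_of_nonneg_right h1 (show 0 ≤ C ^ n * C' ^ n by positivity)
  rw [mul_pow, mul_pow]
  linarith [abs_add_le (u n) (u' n), a n hn, a' n hn]

theorem AmzA_Ex.pow {u : ℕ → ℝ} (h : AmzA_Ex u) (m : ℕ) : AmzA_Ex fun n => u n ^ m :=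
  let ⟨C, c, a⟩ := h
  ⟨C ^ m, one_le_pow₀ c, fun n hn => by
    rw [abs_pow, ← pow_mul, mul_comm, pow_mul]
    exact pow_le_pow_left₀ (abs_nonneg _) (a n hn) m⟩

theorem AmzA_Li.exp {l : ℕ → ℕ} (h : AmzA_Li l) (a : ℝ) : AmzA_Ex fun n => a ^ l n :=
  let ⟨C, h⟩ := h
  ⟨max 1 |a| ^ C, one_le_pow₀ (le_max_left _ _), fun n hn => by
    rw [abs_pow, ← pow_mul]
    exact (pow_le_pow_left₀ (abs_nonneg _) (le_max_right 1 _) _).trans
      (pow_le_pow_right₀ (le_max_left _ _) (h n hn))⟩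

theorem AmzA_Li.cast {l : ℕ → ℕ} (h : AmzA_Li l) : AmzA_Ex fun n => l n :=
  let ⟨C, c, a⟩ := h.exp 2
  ⟨C, c, fun n hn => by
    have h1 : ((l n : ℕ) : ℝ) ≤ 2 ^ l n := by exact_mod_cast Nat.lt_two_pow_self.le
    rw [Nat.abs_cast]
    exact h1.trans ((le_abs_self _).trans (a n hn))⟩

/-- The auxiliary relation and the norm of its Wronskian. -/
theorem amz_rel (ht : δ t = 1) (hb : Bas (fun _ : Unit => t) b) {B : Type} [Fintype B] {q : B → E}
    (hq : ∀ j, q j ≠ 0) : ∃ (J : Type) (_ : Fintype J) (κ : J → E) (C₁ s₀ : ℕ),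
    (∀ j, δ (κ j) = 0) ∧ ∀ s : ℕ, s₀ ≤ s → ∃ C : ℝ, 1 ≤ C ∧ ∀ (n : ℕ) (e : Fin s → B → ℤ), 1 ≤ n →
      (∀ m j, (e m j).natAbs ≤ n) → ∃ (r : ℕ) (w : Option (Fin r) → Fin s)
        (A : Option (Fin r) → J → MvPolynomial Unit ℤ) (F : Option (Fin r) → E)
        (ν : MvPolynomial Unit ℤ) (P : Fin d → MvPolynomial Unit ℤ), 0 < r ∧
        Function.Injective w ∧ (∀ o j, s * (A o j).totalDegree ≤ C₁ * n ∧ nz (A o j) ≤ C ^ n) ∧
        (∀ o, F o = (∑ j, aeval (fun _ => t) (A o j) * κ j) * ∏ j, q j ^ e (w o) j) ∧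
        ∑ o, F o = 0 ∧ ν ≠ 0 ∧ nz ν ≤ C ^ n ∧ aeval (fun _ => t) ν =
          (Matrix.of fun j i : Fin r => δ^[j] (F (some i))).det *
            ∑ k, aeval (fun _ => t) (P k) * b k := by
  obtain ⟨J, iJ, κ, hκ⟩ := consts δ ht hb
  obtain ⟨g, c, ok, hy⟩ :=
    hb.sz (Sum.elim (Sum.elim q fun j => (q j)⁻¹) (Sum.elim κ fun l => δ (b l)))
  have c1 : (1 : ℝ) ≤ c := by exact_mod_cast Nat.one_le_of_lt ok.dg
  let n₁ : ℕ → ℕ := fun n => Fintype.card B * (2 * n + 2) + 1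
  have l1 : AmzA_Li n₁ := (((AmzA_Li.id.cmul 2).add (.const 2)).cmul _).add (.const 1)
  let D : ℕ → ℕ := fun n => 4 * d * (c * n₁ n + 1)
  have l2 : AmzA_Li D := ((l1.cmul c).add (.const 1)).cmul _
  let n₂ : ℕ → ℕ := fun n => 1 + (n₁ n + D n) + 1
  have l3 : AmzA_Li n₂ := ((AmzA_Li.const 1).add (l1.add l2)).add (.const 1)
  obtain ⟨C₁, hC₁⟩ := id l2
  refine ⟨J, iJ, κ, C₁, 4 * d + 1, hκ.1, fun s hs => ?_⟩
  let NA : ℕ → ℝ := fun n => (D n + 1 : ℕ) * (s * (D n + 1 : ℕ) * c ^ n₁ n)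
  have e1 : AmzA_Ex NA := (l2.add (.const 1)).cast.mul
    (((AmzA_Ex.const _).mul (l2.add (.const 1)).cast).mul (l1.exp _))
  let B₂ : ℕ → ℝ := fun n => c * c * (c ^ D n * NA n * c ^ n₁ n) + 1
  have e2 : AmzA_Ex B₂ :=
    ((AmzA_Ex.const _).mul (((l2.exp _).mul e1).mul (l1.exp _))).add (.const _)
  let X : ℕ → ℝ := fun n => ((s * Fintype.card J + 1) * B₂ n) ^ (s * Fintype.card J)
  have e3 : AmzA_Ex X := ((AmzA_Ex.const _).mul e2).pow _
  let B₃ : ℕ → ℝ := fun n => Fintype.card J * (X n * B₂ n) + 1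
  have e4 : AmzA_Ex B₃ := ((AmzA_Ex.const _).mul (e3.mul e2)).add (.const _)
  let B₄ : ℕ → ℝ := fun n => c * (d.factorial * (c * (s.factorial * (c * (c * (c ^ (n₂ n + s) *
    ((c ^ 2 * (2 * (n₂ n + s) + 1)) ^ s * B₃ n))) ^ s)) * c) ^ d)
  have e5 : AmzA_Ex B₄ := (AmzA_Ex.const _).mul ((AmzA_Ex.const _).mul
    ((((AmzA_Ex.const _).mul ((AmzA_Ex.const _).mul ((AmzA_Ex.const _).mul
      (((AmzA_Ex.const _).mul (((l3.add (.const s)).exp _).mul
        ((((AmzA_Ex.const _).mul (((AmzA_Ex.const _).mul (l3.cast.add (.const _))).add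
          (.const _))).pow s).mul e4))).pow s)))).mul (.const _)).pow d))
  obtain ⟨C, hC, hC'⟩ := (e3.mul e1).add e5
  refine ⟨C, hC, fun n e hn he => ?_⟩
  have p1 : 0 ≤ NA n := by positivity
  have p2 : 1 ≤ B₂ n := le_add_of_nonneg_left (by positivity)
  have p3 : 0 ≤ X n := by positivity
  have p4 : 1 ≤ B₃ n := le_add_of_nonneg_left (by positivity)
  have p5 : 0 ≤ B₄ n := by positivity
  have p6 : X n * NA n + B₄ n ≤ C ^ n := (le_abs_self _).trans (hC' n hn)
  have p7 := mul_nonneg p3 p1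
  have hQ : ∀ m, Sz (fun _ : Unit => t) b g c (n₁ n) (c ^ n₁ n) (∏ j, q j ^ e m j) := fun m =>
    ok.mono (fun j => hy (.inl (.inl j))) (fun j => hy (.inl (.inr j))) (e m) (he m)
  obtain ⟨A, hA, f0, f1⟩ := AmzA_sieg hb ok.g0 hs (one_le_pow₀ c1)
    (fun m => prod_ne_zero_iff.2 fun j _ => zpow_ne_zero _ (hq j)) hQ
  have hf : ∀ m j, Sz (fun _ : Unit => t) b g c (n₂ n) (B₂ n)
      (κ j * (aeval (fun _ : Unit => t) (A m) * ∏ j, q j ^ e m j)) := fun m j => by
    refine (ok.mul (hy (.inr (.inl j)))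
      (ok.poly (hQ m) (A m) ((hA m).1.trans (Nat.div_le_self _ _)))).mono
      (le_trans ?_ (le_add_of_nonneg_right zero_le_one))
    have a1 : nz (A m) ≤ NA n := (hA m).2
    gcongr
  obtain ⟨r, w, x, r0, w1, x1, x2, x3⟩ := circuit δ hb hκ ok.g0 p2 f0 f1 hf
  have hr : r ≤ s := by
    have := Fintype.card_le_of_injective w w1
    simp only [Fintype.card_option, Fintype.card_fin] at this
    omega
  have hF : ∀ o, Sz (fun _ : Unit => t) b g c (n₂ n) (B₃ n) ((∑ j, x o j * κ j) *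
      (aeval (fun _ : Unit => t) (A (w o)) * ∏ j, q j ^ e (w o) j)) := fun o => by
    have a1 := sz_sum univ (B := X n * B₂ n) (by positivity) fun j _ =>
      ((hf (w o) j).zsmul (x o j)).mono (mul_le_mul_of_nonneg_right (x1 o j) (by positivity))
    simp only [← mul_assoc _ (κ _), ← sum_mul] at a1
    exact a1.mono (le_add_of_nonneg_right zero_le_one)
  obtain ⟨ν, P, n0, n1, n2⟩ := AmzA_wr δ ht hb ok (fun l => hy (.inr (.inr l))) hr p4
    (fun i => hF (some i)) x3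
  refine ⟨r, w, fun o j => x o j • A (w o), fun o => (∑ j, x o j * κ j) *
    (aeval (fun _ : Unit => t) (A (w o)) * ∏ j, q j ^ e (w o) j), ν, P, r0, w1,
    fun o j => ⟨?_, ?_⟩, fun o => ?_, x2, n0, le_trans n1 (le_trans ?_ p6), n2⟩
  · exact (Nat.mul_le_mul_left s ((totalDegree_smul_le _ _).trans (hA _).1)).trans
      ((Nat.mul_div_le _ _).trans (hC₁ n hn))
  · refine (nz_smul _ _).trans (le_trans ?_ ((le_add_of_nonneg_right p5).trans p6))
    exact mul_le_mul (x1 o j) (hA _).2 (sn_nz.nonneg _) p3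
  · dsimp only
    rw [← mul_assoc, sum_mul]
    simp only [zsmul_eq_mul, map_mul, map_intCast, mul_right_comm _ (κ _)]
  · exact le_add_of_nonneg_left p7

open PowerSeries in
theorem AmzA_iter {L : Type} [Field L] {r : ℕ} (f : Fin r → L⟦X⟧) (μ : Fin r → L) (l : ℕ) :
    (d⁄dX L)^[l] (∑ i, f i * PowerSeries.C (μ i)) =
      ∑ i, (d⁄dX L)^[l] (f i) * PowerSeries.C (μ i) := by
  ext n
  simp only [coeff_iterate_derivative, map_sum, PowerSeries.coeff_mul_C, mul_sum, mul_assoc]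

open PowerSeries in
theorem AmzA_order {L : Type} [Field L] [NumberField L] {t₀ : L}
    (ht : 2 * finrank ℚ L ≤ logHeight₁ t₀) {ν : MvPolynomial Unit ℤ} (h0 : ν ≠ 0) {Λ : ℝ}
    (h1 : nz ν ≤ Λ) {e : ℕ}
    (h2 : PowerSeries.X ^ e ∣ aeval (fun _ => PowerSeries.C t₀ + PowerSeries.X) ν) :
    e * logHeight₁ t₀ ≤ 4 * finrank ℚ L * log Λ := by
  let p : Polynomial L := aeval (fun _ : Unit => Polynomial.X) ν
  have p0 : p ≠ 0 := fun h => h0 (AmzA_ext fun n => by
    have a1 := AmzA_coeff (R := L) ν n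
    rw [show aeval (fun _ : Unit => Polynomial.X) ν = p from rfl, h, Polynomial.coeff_zero] at a1
    exact_mod_cast a1.symm)
  have a2 : aeval (fun _ => PowerSeries.C t₀ + PowerSeries.X) ν =
      ((p.comp (Polynomial.X + Polynomial.C t₀) : Polynomial L) : L⟦X⟧) := by
    have a3 := AmzA_hom (Polynomial.coeToPowerSeries.ringHom.comp
      (Polynomial.compRingHom (Polynomial.X + Polynomial.C t₀ : Polynomial L)))
      (fun _ : Unit => Polynomial.X) ν
    refine Eq.trans ?_ a3.symm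
    simp [add_comm]
  have a4 : (Polynomial.X - Polynomial.C t₀) ^ e ∣ p := by
    rw [Polynomial.X_sub_C_pow_dvd_iff, Polynomial.X_pow_dvd_iff]
    intro j hj
    rw [← Polynomial.coeff_coe, ← a2]
    exact PowerSeries.X_pow_dvd_iff.1 h2 j hj
  have a5 : Hb (fun v : AbsoluteValue L ℝ => pn v p) (finrank ℚ L * log Λ) :=
    (hb_const ((one_le_nz h0).trans h1)).mono (fun v => by
      have := (sn_abs v).pn.aeval (fun _ : Unit => Polynomial.X) le_rfl
        (fun _ => (sn_abs v).pn_X) ν le_rfl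
      rw [one_pow, mul_one] at this
      exact this.trans h1) le_rfl
  have a6 := a5.root p0 a4
  have a7 := mul_le_mul_of_nonneg_left ht (Nat.cast_nonneg (α := ℝ) e)
  linarith

open PowerSeries in
/-- The zero estimate. -/
theorem zero_est {L : Type} [Field L] [NumberField L] {t₀ : L}
    (ht : 2 * finrank ℚ L ≤ logHeight₁ t₀) {r : ℕ} (f : Fin r → L⟦X⟧) {μ : Fin r → L} (hμ : μ ≠ 0)
    {ν : MvPolynomial Unit ℤ} (h0 : ν ≠ 0) {Λ : ℝ} (h1 : nz ν ≤ Λ)
    (h2 : (Matrix.of fun j i : Fin r => (d⁄dX L)^[j] (f i)).det ∣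
      aeval (fun _ => PowerSeries.C t₀ + PowerSeries.X) ν) :
    ∃ j : ℕ, ∑ i, μ i * PowerSeries.coeff j (f i) ≠ 0 ∧
      j * logHeight₁ t₀ ≤ r * logHeight₁ t₀ + 4 * finrank ℚ L * log Λ := by
  classical
  have hD : (0 : ℝ) < finrank ℚ L := by exact_mod_cast finrank_pos
  have hh : 0 < logHeight₁ t₀ := by linarith
  obtain ⟨i₁, hi⟩ := Function.ne_iff.1 hμ
  have key : ∀ j : ℕ, (∀ l < j, ∑ i, μ i * PowerSeries.coeff l (f i) = 0) →
      j * logHeight₁ t₀ ≤ r * logHeight₁ t₀ + 4 * finrank ℚ L * log Λ := by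
    intro j hj
    set M := Matrix.of fun j i : Fin r => (d⁄dX L)^[j] (f i) with hM
    have a1 : ∀ l, PowerSeries.X ^ (j - r) ∣ M.mulVec (fun i => PowerSeries.C (μ i)) l := by
      intro l
      have a2 : M.mulVec (fun i => PowerSeries.C (μ i)) l =
          (d⁄dX L)^[l] (∑ i, f i * PowerSeries.C (μ i)) := (AmzA_iter f μ l).symm
      rw [a2, PowerSeries.X_pow_dvd_iff]
      intro m hm
      have a3 := hj (m + l) (by have := l.2; omega)
      simp only [mul_comm (μ _)] at a3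
      rw [coeff_iterate_derivative, map_sum]
      simp only [PowerSeries.coeff_mul_C, a3, mul_zero]
    have a4 : PowerSeries.X ^ (j - r) ∣ M.det * PowerSeries.C (μ i₁) := by
      have a5 := congrFun (Matrix.mulVec_mulVec (fun i => PowerSeries.C (μ i)) M.adjugate M) i₁
      rw [Matrix.adjugate_mul, Matrix.smul_mulVec, Matrix.one_mulVec, Pi.smul_apply,
        smul_eq_mul] at a5
      rw [← a5]
      exact dvd_sum (s := univ) (f := fun l => M.adjugate i₁ l *
        M.mulVec (fun i => PowerSeries.C (μ i)) l) fun l _ => (a1 l).mul_left _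
    have a6 : IsUnit (PowerSeries.C (μ i₁) : L⟦X⟧) := (IsUnit.mk0 _ hi).map _
    have a7 := AmzA_order ht h0 h1 ((a6.dvd_mul_right.1 a4).trans h2)
    have a8 : (j : ℝ) ≤ r + ((j - r : ℕ) : ℝ) := by exact_mod_cast le_add_tsub
    have a9 := mul_le_mul_of_nonneg_right a8 hh.le
    linarith
  have ex : ∃ j : ℕ, ∑ i, μ i * PowerSeries.coeff j (f i) ≠ 0 := by
    by_contra hn
    push Not at hn
    obtain ⟨j, hj⟩ := exists_nat_gt
      ((r * logHeight₁ t₀ + 4 * finrank ℚ L * log Λ) / logHeight₁ t₀)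
    rw [div_lt_iff₀ hh] at hj
    exact absurd (key j fun l _ => hn l) (not_le.2 hj)
  exact ⟨Nat.find ex, Nat.find_spec ex, key _ fun l hl => not_not.1 (Nat.find_min ex hl)⟩

end Pool.Agent.ZPT
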