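import Pool.Agent.P.MP_4fdccb_ag.S.Pt
import Pool.Agent.P.MP_4fdccb_ag.S.Alg

/-! The fibred case, base point of bounded height. -/

set_option linter.unusedSectionVars false
set_option linter.unusedVariables false

namespace Pool.Agent.ZPT
open Finset MvPolynomial Filter Height Real Matrix

variable {K : Type} [Field K] [NumberField K] [Algebra K ℂ] {ι : Type} [Fintype ι]
  {𝔓 : Ideal (MvPolynomial ι K)} [𝔓.IsPrime] {Ω : Type} [Field Ω] [Algebra K Ω] {ξ : ι → Ω}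

/-- three algebraically independent elements do not fit in transcendence degree two -/
theorem pair_rel (htr : Algebra.trdeg K Ω = 2) {t : Ω} (ht : Transcendental K t) (x y : Ω) :
    ∃ (S : Finset (Fin 2 →₀ ℕ)) (γ : (Fin 2 →₀ ℕ) → Ω), S.Nonempty ∧
      (∀ μ ∈ S, γ μ ≠ 0 ∧ γ μ ∈ Algebra.adjoin K {t}) ∧
      ∑ μ ∈ S, γ μ * (x ^ μ 0 * y ^ μ 1) = 0 := by
  have h1 : ¬ AlgebraicIndependent (Algebra.adjoin K {t}) ![x, y] := fun h => by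
    have h2 : AlgebraicIndependent K fun _ : Unit => t := algebraicIndependent_unique_type_iff.2 ht
    have h3 := (h2.sumElim (y := ![x, y]) (by rwa [Set.range_const])).cardinalMk_le_trdeg
    rw [htr] at h3
    simp only [Cardinal.mk_fintype, Fintype.card_sum, Fintype.card_fin, Fintype.card_unit] at h3
    norm_cast at h3
  rw [algebraicIndependent_iff] at h1
  push Not at h1
  obtain ⟨P, h2, h3⟩ := h1
  refine ⟨P.support, fun μ => (P.coeff μ).1, support_nonempty.2 h3, fun μ hμ =>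
    ⟨fun h => mem_support_iff.1 hμ (Subtype.ext h), (P.coeff μ).2⟩, ?_⟩
  rw [← h2, aeval_def, eval₂_eq']
  exact sum_congr rfl fun μ _ => by simp [Fin.prod_univ_two]

theorem Case1_two {A : Type} [Fintype A] [Nonempty A] (m n : A → ℕ) (g : A → ℂ) {x y : ℂ}
    (hx : x ≠ 0) (hy : y ≠ 0) {c : ℝ} (h0 : ∀ a, g a ≠ 0) (h1 : ∀ a, |log ‖g a‖| ≤ c)
    (h2 : ∑ a, g a * (x ^ m a * y ^ n a) = 0) : ∃ a b, a ≠ b ∧
      |((m a : ℝ) - m b) * log ‖x‖ + ((n a : ℝ) - n b) * log ‖y‖| ≤ log (Fintype.card A) + 2 * c := by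
  obtain ⟨a, -, b, -, h3, h4⟩ := two_largest univ (fun a => g a * (x ^ m a * y ^ n a)) univ_nonempty
    (fun a _ => mul_ne_zero (h0 a) (mul_ne_zero (pow_ne_zero _ hx) (pow_ne_zero _ hy))) h2
  have e : ∀ a, log ‖g a * (x ^ m a * y ^ n a)‖ = log ‖g a‖ + (m a * log ‖x‖ + n a * log ‖y‖) :=
    fun a => by
      rw [norm_mul, norm_mul, log_mul (by simp [h0]) (by simp [hx, hy]),
        log_mul (by simp [hx]) (by simp [hy]), norm_pow, norm_pow, log_pow, log_pow]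
  refine ⟨a, b, h3, ?_⟩
  rw [e, e, card_univ, abs_le] at h4
  have a1 := abs_le.1 (h1 a)
  have a2 := abs_le.1 (h1 b)
  rw [abs_le]
  constructor <;> linarith [h4.1, h4.2, a1.1, a1.2, a2.1, a2.2]

theorem Case1_int {a b : ℕ} (h : a ≠ b) : (1 : ℝ) ≤ |(a : ℝ) - b| := by
  have h1 : (1 : ℤ) ≤ |(a : ℤ) - b| := Int.one_le_abs (sub_ne_zero.2 (by exact_mod_cast h))
  exact_mod_cast h1

theorem Case1_ratio {m m' n n' : ℕ} (h : m ≠ m' ∨ n ≠ n') {a b c : ℝ} (h1 : |b| ≤ |a|)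
    (h2 : |((m : ℝ) - m') * a + ((n : ℝ) - n') * b| ≤ c) :
    |b - a * (-((m : ℝ) - m') / ((n : ℝ) - n'))| ≤ c := by
  by_cases h3 : n = n'
  · have h4 := Case1_int (h.resolve_right fun h => h h3)
    rw [h3, sub_self, zero_mul, add_zero, abs_mul] at h2
    rw [h3, sub_self, div_zero, mul_zero, sub_zero]
    nlinarith [abs_nonneg a]
  · have h4 := Case1_int h3
    have h5 : (n : ℝ) - n' ≠ 0 := fun h => by rw [h, abs_zero] at h4; linarith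
    have h6 : ((m : ℝ) - m') * a + ((n : ℝ) - n') * b =
        ((n : ℝ) - n') * (b - a * (-((m : ℝ) - m') / ((n : ℝ) - n'))) := by
      field_simp
      ring
    rw [h6, abs_mul] at h2
    nlinarith [abs_nonneg (b - a * (-((m : ℝ) - m') / ((n : ℝ) - n')))]

theorem Case1_coef (hg : Gn 𝔓 ξ) {t : Ω} {J : Type} [Fintype J] (γ : J → Ω) (h1 : ∀ j, γ j ≠ 0)
    (h2 : ∀ j, γ j ∈ Algebra.adjoin K {t}) (h₀ : ℝ) {ρ : ℝ} (hρ : 0 < ρ) :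
    ∃ c : ℝ, 0 ≤ c ∧ ∀ᶠ p in gen 𝔓, ∃ γ₀ : J → p.L, (∀ j, (γ j, γ₀ j) ∈ Gr K ξ p.z ∧ γ₀ j ≠ 0) ∧
      ∀ t₀, (t, t₀) ∈ Gr K ξ p.z → logHeight₁ t₀ ≤ h₀ * p.D → ∀ S : Finset (p.L →ₐ[K] ℂ),
        ρ * p.D ≤ #S → ∃ S' ⊆ S, ρ / 2 * p.D ≤ #S' ∧ ∀ σ ∈ S', ∀ j, |log ‖σ (γ₀ j)‖| ≤ c := by
  choose C c0 hC using fun j => hg.ht_alg₁ (t := t) (x := γ j)
    (isAlgebraic_algebraMap (⟨γ j, h2 j⟩ : Algebra.adjoin K {t}))
  have c1 : 0 ≤ ∑ j, C j := sum_nonneg fun j _ => c0 j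
  have c2 : 0 < (∑ j, C j) * (|h₀| + 1) + 1 := by positivity
  refine ⟨4 * ((∑ j, C j) * (|h₀| + 1) + 1) / ρ, by positivity, ?_⟩
  filter_upwards [hg.regs γ, eventually_all.2 fun j => hg.ne (h1 j), eventually_all.2 hC]
    with p ⟨γ₀, a1⟩ a2 a3
  refine ⟨γ₀, fun j => ⟨a1 j, a2 j _ (a1 j)⟩, fun t₀ b1 b2 S hS => ?_⟩
  obtain ⟨S', s1, s2, s3⟩ := markov univ γ₀ c2 hρ (by
    have d0 := p.D_pos
    have b3 : logHeight₁ t₀ + p.D ≤ (|h₀| + 1) * p.D := by nlinarith [le_abs_self h₀]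
    refine (sum_le_sum fun j _ => (a3 j t₀ _ b1 (a1 j)).trans
      (mul_le_mul_of_nonneg_left b3 (c0 j))).trans ?_
    rw [← sum_mul]
    change _ ≤ _ * p.D
    nlinarith) S hS
  exact ⟨S', s1, s2, fun σ hσ j => s3 σ hσ j (mem_univ j)⟩

/-- Most conjugates are close to finitely many lines. -/
theorem lines (hg : Gn 𝔓 ξ) (htr : Algebra.trdeg K Ω = 2) {t : Ω} (ht : Transcendental K t)
    (h₀ : ℝ) {ρ : ℝ} (hρ : 0 < ρ) : ∃ (𝓛 : Finset (ι → ℝ)) (c : ℝ), 0 ≤ c ∧ ∀ᶠ p in gen 𝔓,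
      ∀ t₀, (t, t₀) ∈ Gr K ξ p.z → logHeight₁ t₀ ≤ h₀ * p.D → ∀ S : Finset (p.L →ₐ[K] ℂ),
        ρ * p.D ≤ #S → ∃ S' ⊆ S, ρ / 2 * p.D ≤ #S' ∧ ∀ σ ∈ S', ∃ ℓ ∈ 𝓛, ∃ τ : ℝ,
          ∀ i, |log ‖σ (p.z i)‖ - τ * ℓ i| ≤ c := by
  classical
  choose T γ t0 t1 t2 using fun q : ι × ι => pair_rel htr ht (ξ q.1) (ξ q.2)
  obtain ⟨c, c0, hc⟩ := Case1_coef hg (t := t) (J := Σ q : ι × ι, T q) (fun j => γ j.1 j.2)
    (fun j => (t1 _ _ j.2.2).1) (fun j => (t1 _ _ j.2.2).2) h₀ hρ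
  have l0 : ∀ q, 0 ≤ log (Fintype.card (T q) : ℝ) := fun q => log_natCast_nonneg _
  refine ⟨Fintype.piFinset fun _ => univ.biUnion fun q : ι × ι => (T q ×ˢ T q).image fun μ =>
    -((μ.1 0 : ℝ) - μ.2 0) / ((μ.1 1 : ℝ) - μ.2 1), ∑ q, log (Fintype.card (T q) : ℝ) + 2 * c,
    add_nonneg (sum_nonneg fun q _ => l0 q) (by positivity), ?_⟩
  filter_upwards [hc] with p ⟨γ₀, a1, a2⟩ t₀ b1 b2 S hS
  obtain ⟨S', s1, s2, s3⟩ := a2 t₀ b1 b2 S hS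
  refine ⟨S', s1, s2, fun σ hσ => ?_⟩
  by_cases hι : Nonempty ι
  swap
  · exact ⟨fun _ => 0, Fintype.mem_piFinset.2 fun i => (hι ⟨i⟩).elim, 0, fun i => (hι ⟨i⟩).elim⟩
  obtain ⟨i₀, -, hi⟩ := exists_max_image univ (fun i => |log ‖σ (p.z i)‖|) univ_nonempty
  have key : ∀ j, ∃ r ∈ univ.biUnion fun q : ι × ι => (T q ×ˢ T q).image fun μ =>
      -((μ.1 0 : ℝ) - μ.2 0) / ((μ.1 1 : ℝ) - μ.2 1),
      |log ‖σ (p.z j)‖ - log ‖σ (p.z i₀)‖ * r| ≤ ∑ q, log (Fintype.card (T q) : ℝ) + 2 * c := by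
    intro j
    have : Nonempty (T (i₀, j)) := (t0 _).to_subtype
    have e : ∑ a : T (i₀, j), γ₀ ⟨(i₀, j), a⟩ * (p.z i₀ ^ a.1 0 * p.z j ^ a.1 1) = 0 := by
      refine hg.fn p.on _ ?_
      rw [← t2 (i₀, j), ← sum_coe_sort]
      exact pr_sum fun a _ => pr_mul (a1 ⟨(i₀, j), a⟩).1
        (pr_mul (pr_pow (gr_X i₀) _) (pr_pow (gr_X j) _))
    obtain ⟨a, b, h1, h2⟩ := Case1_two (fun a : T (i₀, j) => a.1 0) (fun a => a.1 1)
      (fun a => σ (γ₀ ⟨(i₀, j), a⟩)) ((_root_.map_ne_zero σ).2 (p.on.1 i₀))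
      ((_root_.map_ne_zero σ).2 (p.on.1 j)) (fun a => (_root_.map_ne_zero σ).2 (a1 _).2)
      (fun a => s3 σ hσ _) (by simpa using congrArg σ e)
    refine ⟨_, mem_biUnion.2 ⟨(i₀, j), mem_univ _, mem_image.2 ⟨(a.1, b.1),
      mem_product.2 ⟨a.2, b.2⟩, rfl⟩⟩, (Case1_ratio ?_ (hi j (mem_univ j)) h2).trans ?_⟩
    · by_contra h3
      push Not at h3
      exact h1 (Subtype.ext (Finsupp.ext (Fin.forall_fin_two.2 h3)))
    · have := single_le_sum (f := fun q => log (Fintype.card (T q) : ℝ)) (fun q _ => l0 q)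
        (mem_univ (i₀, j))
      linarith
  choose ℓ h1 h2 using key
  exact ⟨ℓ, Fintype.mem_piFinset.2 h1, _, h2⟩

theorem Case1_ind {B : Type} {β : Fin 3 → B → ℝ} (hβ : LinearIndependent ℝ β) {e e' : Fin 3 → ℝ}
    (h : e ⨯₃ e' ≠ 0) : LinearIndependent ℝ ![∑ l, e l • β l, ∑ l, e' l • β l] := by
  rw [crossProduct_ne_zero_iff_linearIndependent] at h
  have h1 := LinearIndependent.pair_iff.1 h
  refine LinearIndependent.pair_iff.2 fun s t h2 => h1 s t (funext fun l => ?_)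
  refine Fintype.linearIndependent_iff.1 hβ (s • e + t • e') ?_ l
  rw [← h2, smul_sum, smul_sum, ← sum_add_distrib]
  exact sum_congr rfl fun l _ => by simp [add_smul, smul_smul]

theorem Case1_base {B : Type} [Fintype B] [DecidableEq B] {𝔮 : Ideal (MvPolynomial B K)}
    [𝔮.IsPrime] {j₀ : B} (ht : ∀ F, rename (fun _ : Unit => j₀) F ∈ 𝔮 → F = 0)
    (hb : ∀ u w : B → ℝ, LinearIndependent ℝ ![u, w] →
      {Q ∈ Tor 𝔮 | u ⬝ᵥ Lg Q = 0 ∧ w ⬝ᵥ Lg Q = 0}.Finite)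
    {β : Fin 3 → B → ℝ} (hβ : LinearIndependent ℝ β) {ρ : ℝ} (hρ : 0 < ρ) (h : ℝ) :
    ∃ ε > 0, ∃ F ∉ 𝔮, ∀ e e' : Fin 3 → ℝ, ‖e‖ ≤ 1 → ‖e'‖ ≤ 1 → 1 ≤ ‖e ⨯₃ e'‖ →
      Kills F ρ h {Q ∈ Tor 𝔮 |
        |(∑ l, e l • β l) ⬝ᵥ Lg Q| + |(∑ l, e' l • β l) ⬝ᵥ Lg Q| ≤ ε} := by
  have hc : Continuous fun ω : (Fin 3 → ℝ) × (Fin 3 → ℝ) => ω.1 ⨯₃ ω.2 := by
    simp only [cross_apply]
    fun_prop
  have hW : IsCompact {ω : (Fin 3 → ℝ) × (Fin 3 → ℝ) | ‖ω.1‖ ≤ 1 ∧ ‖ω.2‖ ≤ 1 ∧ 1 ≤ ‖ω.1 ⨯₃ ω.2‖} :=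
    (isCompact_closedBall 0 1).of_isClosed_subset
      ((isClosed_le continuous_fst.norm continuous_const).inter
        ((isClosed_le continuous_snd.norm continuous_const).inter
          (isClosed_le continuous_const hc.norm))) fun ω h => by
      simp [Prod.norm_def, h.1, h.2.1]
  obtain ⟨ε, e0, F, f0, hF⟩ := pcm (𝔓 := 𝔮) hW
    (fun ω y => |(∑ l, ω.1 l • β l) ⬝ᵥ y| + |(∑ l, ω.2 l • β l) ⬝ᵥ y|)
    (by unfold Function.uncurry; fun_prop) (fun ω hω R => by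
      have h2 := Case1_ind hβ (e := ω.1) (e' := ω.2) fun h => by
        have := hω.2.2
        rw [h, norm_zero] at this
        linarith
      refine (neg_fin j₀ ht ((hb _ _ h2).image (· j₀))).mono fun z hz => ⟨z, ⟨hz.1.1, ?_⟩, rfl⟩
      have h3 := (add_eq_zero_iff_of_nonneg (abs_nonneg _) (abs_nonneg _)).1 hz.2
      exact ⟨abs_eq_zero.1 h3.1, abs_eq_zero.1 h3.2⟩) hρ h
  exact ⟨ε, e0, F, f0, fun e e' h1 h2 h3 L _ _ _ x S a1 a2 a3 =>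
    hF (e, e') ⟨h1, h2, h3⟩ L x S a1 a2 fun σ hσ => ⟨(a3 σ hσ).1,
      (abs_of_nonneg (add_nonneg (abs_nonneg _) (abs_nonneg _))).trans_le (a3 σ hσ).2⟩⟩

theorem Case1_est {B : Type} [Fintype B] {M : B → ι → ℤ} {β : Fin 3 → B → ℝ} {ψ : Fin 3 → ι → ℝ}
    {ε c τ : ℝ} (e0 : 0 ≤ ε) (c0 : 0 ≤ c) (h1 : ∀ l i, |ψ l i - ∑ j, β l j * M j i| ≤ ε)
    {x ℓ : ι → ℝ} (h2 : ∀ l, ∑ i, ψ l i * x i = 0) (h3 : ∀ i, |x i - τ * ℓ i| ≤ c) {e : Fin 3 → ℝ}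
    (h4 : ‖e‖ ≤ 1) (h5 : e ⬝ᵥ (fun l => ∑ i, (ψ l i - ∑ j, β l j * M j i) * ℓ i) = 0) :
    |(∑ l, e l • β l) ⬝ᵥ fun j => ∑ i, M j i * x i| ≤ 3 * (Fintype.card ι * (ε * c)) := by
  have a1 : ∀ l, β l ⬝ᵥ (fun j => ∑ i, M j i * x i) =
      -(τ * ∑ i, (ψ l i - ∑ j, β l j * M j i) * ℓ i) -
        ∑ i, (ψ l i - ∑ j, β l j * M j i) * (x i - τ * ℓ i) := fun l => by
    have b1 : β l ⬝ᵥ (fun j => ∑ i, M j i * x i) = ∑ i, (∑ j, β l j * M j i) * x i := by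
      simp only [dotProduct, mul_sum, sum_mul, mul_assoc]
      exact sum_comm
    rw [b1, ← sub_zero (∑ i, (∑ j, β l j * M j i) * x i), ← h2 l, mul_sum, ← sum_neg_distrib,
      ← sum_sub_distrib, ← sum_sub_distrib]
    exact sum_congr rfl fun i _ => by ring
  have a2 : (∑ l, e l • β l) ⬝ᵥ (fun j => ∑ i, M j i * x i) =
      ∑ l, -e l * ∑ i, (ψ l i - ∑ j, β l j * M j i) * (x i - τ * ℓ i) := by
    rw [sum_dotProduct, ← add_zero (∑ l, (e l • β l) ⬝ᵥ _), ← mul_zero τ, ← h5, dotProduct, mul_sum,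
      ← sum_add_distrib]
    exact sum_congr rfl fun l _ => by rw [smul_dotProduct, a1, smul_eq_mul]; ring
  rw [a2]
  refine (abs_sum_le_sum_abs _ _).trans ((sum_le_card_nsmul _ _ (Fintype.card ι * (ε * c))
    fun l _ => ?_).trans (by simp))
  rw [abs_mul, abs_neg]
  refine (mul_le_of_le_one_left (abs_nonneg _) ((norm_le_pi_norm e l).trans h4)).trans
    ((abs_sum_le_sum_abs _ _).trans ((sum_le_card_nsmul _ _ (ε * c) fun i _ => ?_).trans (by simp)))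
  rw [abs_mul]
  exact mul_le_mul (h1 l i) (h3 i) (abs_nonneg _) e0

/-- the fibred case over base points of bounded height -/
theorem case1 {B : Type} [Fintype B] [DecidableEq B] {𝔮 : Ideal (MvPolynomial B K)} [𝔮.IsPrime]
    (hg : Gn 𝔓 ξ) (htr : Algebra.trdeg K Ω = 2) {M : B → ι → ℤ}
    (hk : ∀ g, aeval (fun j => ∏ i, ξ i ^ M j i) g = 0 ↔ g ∈ 𝔮) (j₀ : B)
    (ht : Transcendental K (∏ i, ξ i ^ M j₀ i))
    (halg : ∀ j, IsAlgebraic (Algebra.adjoin K {∏ i, ξ i ^ M j₀ i}) (∏ i, ξ i ^ M j i))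
    (hb : ∀ u w : B → ℝ, LinearIndependent ℝ ![u, w] →
      {Q ∈ Tor 𝔮 | u ⬝ᵥ Lg Q = 0 ∧ w ⬝ᵥ Lg Q = 0}.Finite)
    {β : Fin 3 → B → ℝ} (hβ : LinearIndependent ℝ β) (h₀ : ℝ) : ∃ ε > (0 : ℝ), ∀ᶠ p in gen 𝔓,
      logHeight₁ (∏ i, p.z i ^ M j₀ i) ≤ h₀ * p.D → ∀ ψ : Fin 3 → ι → ℝ,
        (∀ l i, |ψ l i - ∑ j, β l j * M j i| ≤ ε) → ¬ ∀ l, VV p.z (ψ l) := by
  classical
  have ρ0 : (0 : ℝ) < (Module.finrank ℚ K : ℝ)⁻¹ := inv_pos.2 (rank_pos K)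
  obtain ⟨𝓛, c, c0, hL⟩ := lines hg htr ht h₀ ρ0
  choose C C0 hC using fun j => hg.ht_alg₁ (halg j)
  have ht' : ∀ F, rename (fun _ : Unit => j₀) F ∈ 𝔮 → F = 0 := fun F hF => by
    have h2 : AlgebraicIndependent K fun _ : Unit => ∏ i, ξ i ^ M j₀ i :=
      algebraicIndependent_unique_type_iff.2 ht
    refine algebraicIndependent_iff.1 h2 F ?_
    have := (hk _).2 hF
    rwa [aeval_rename] at this
  obtain ⟨ε, e0, F, f0, hF⟩ := Case1_base ht' hb hβ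
    (ρ := (Module.finrank ℚ K : ℝ)⁻¹ / 2 / (#𝓛 + 1)) (by positivity) ((∑ j, C j) * (|h₀| + 1))
  have k0 : (0 : ℝ) < 6 * (Fintype.card ι * c) + 1 := by positivity
  refine ⟨ε / (6 * (Fintype.card ι * c) + 1), by positivity, ?_⟩
  filter_upwards [hL, eventually_all.2 hC, (hg.tendsto hk).eventually (gen_aeval f0)]
    with p a1 a2 a3 hh ψ h1 h2
  have d0 := p.D_pos
  have : Module.Finite K p.L := Module.Finite.of_restrictScalars_finite ℚ K p.L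
  have h6 : (Module.finrank ℚ K : ℝ)⁻¹ * p.D ≤ #(univ : Finset (p.L →ₐ[K] ℂ)) := by
    rw [card_univ, AlgHom.card, Pt.D, ← Module.finrank_mul_finrank ℚ K p.L, Nat.cast_mul,
      inv_mul_cancel_left₀ (rank_pos K).ne']
  obtain ⟨S', -, s2, s3⟩ := a1 _ (hg.mono p.on _) hh _ h6
  choose! f f1 τ f2 using s3
  have hne : 𝓛.Nonempty := by
    have : (0 : ℝ) < #S' := lt_of_lt_of_le (by positivity) s2
    obtain ⟨σ, hσ⟩ := card_pos.1 (by exact_mod_cast this : 0 < #S')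
    exact ⟨_, f1 σ hσ⟩
  obtain ⟨ℓ, -, p2⟩ := exists_le_card_fiber_of_nsmul_le_card_of_maps_to f1 hne
    (b := (Module.finrank ℚ K : ℝ)⁻¹ / 2 / (#𝓛 + 1) * p.D) (by
      refine le_trans ?_ s2
      rw [nsmul_eq_mul, ← mul_assoc, ← mul_div_assoc]
      refine mul_le_mul_of_nonneg_right ?_ d0.le
      rw [div_le_iff₀ (by positivity)]
      linarith)
  obtain ⟨e, e', g1, g2, g3, g4, g5, -⟩ :=
    perp fun l => ∑ i, (ψ l i - ∑ j, β l j * M j i) * ℓ i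
  refine a3 (hF e e' g3 g4 g5 p.L _ _ (fun j => ?_) p2 fun σ hσ => ⟨(hg.onq hk p.on).emb σ, ?_⟩)
  · have b3 : logHeight₁ (∏ i, p.z i ^ M j₀ i) + p.D ≤ (|h₀| + 1) * p.D := by
      nlinarith [le_abs_self h₀]
    refine (a2 j _ _ (hg.mono p.on _) (hg.mono p.on _)).trans ?_
    rw [mul_assoc]
    exact mul_le_mul (single_le_sum (fun j _ => C0 j) (mem_univ j)) b3
      (add_nonneg (zero_le_logHeight₁ _) d0.le) (sum_nonneg fun j _ => C0 j)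
  · obtain ⟨s4, rfl⟩ := mem_filter.1 hσ
    have b1 : (Lg fun j => σ (∏ i, p.z i ^ M j i)) = fun j => ∑ i, M j i * log ‖σ (p.z i)‖ :=
      funext fun j => log_mono p.on.1 (M j) (NumberField.place σ.toRingHom)
    have b2 : ∀ l, ∑ i, ψ l i * log ‖σ (p.z i)‖ = 0 := fun l => h2 l (NumberField.place σ.toRingHom)
    have b3 := Case1_est (by positivity) c0 h1 b2 (f2 σ s4) g3 g1
    have b4 := Case1_est (by positivity) c0 h1 b2 (f2 σ s4) g4 g2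
    have b5 : 6 * (Fintype.card ι * c) * (ε / (6 * (Fintype.card ι * c) + 1)) ≤ ε := by
      rw [← mul_div_assoc, div_le_iff₀ k0]
      nlinarith
    change |_ ⬝ᵥ Lg fun j => σ (∏ i, p.z i ^ M j i)| + |_ ⬝ᵥ Lg fun j => σ (∏ i, p.z i ^ M j i)| ≤ ε
    rw [b1]
    linarith

end Pool.Agent.ZPT
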