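import Pool.Agent.P.MP_4fdccb_ag.S.Ros

/-! A logarithmic form of the lemma of Castelnuovo and de Franchis. -/

set_option linter.unusedSectionVars false
set_option linter.unusedVariables false

namespace Pool.Agent.ZPT
open Finset IntermediateField Matrix

variable {k F ι : Type} [Field k] [CharZero k] [Field F] [Algebra k F] [Fintype ι] {ξ : ι → F}
  {s : Fin 2 → F} {D : Fin 2 → Derivation k F F}

theorem der_mono (δ : Derivation k F F) (hnz : ∀ i, ξ i ≠ 0) (a : ι → ℤ) :
    δ (∏ i, ξ i ^ a i) = (∏ i, ξ i ^ a i) * ∑ i, a i * (δ (ξ i) / ξ i) := by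
  classical
  have key : ∀ S : Finset ι,
      δ (∏ i ∈ S, ξ i ^ a i) = (∏ i ∈ S, ξ i ^ a i) * ∑ i ∈ S, a i * (δ (ξ i) / ξ i) := by
    intro S
    induction S using Finset.induction_on with
    | empty => simp
    | insert i S hi ih =>
      have := hnz i
      rw [prod_insert hi, sum_insert hi, δ.leibniz, ih, δ.leibniz_zpow, smul_eq_mul, smul_eq_mul,
        smul_eq_mul, zsmul_eq_mul, zpow_sub_one₀ this]
      field_simp
      ring
  exact key univ

/-- Hint: the commutator `⁅D 0, D 1⁆` kills `s`, so it vanishes by `ker_of_alg`. -/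
theorem der_comm (hs : IsTranscendenceBasis k s) (hD : ∀ j m, D j (s m) = if j = m then 1 else 0)
    (x : F) : D 0 (D 1 x) = D 1 (D 0 x) := by
  haveI : CharZero F := charZero_of_injective_algebraMap (algebraMap k F).injective
  have h := ker_of_alg ⁅D 0, D 1⁆ (AlgHom.id k F) (fun c => Derivation.map_algebraMap _ c)
    (S := Set.range s) (by
      rintro _ ⟨m, rfl⟩
      rw [AlgHom.id_apply, Derivation.commutator_apply, hD, hD]
      split_ifs <;> simp) (hs.isAlgebraic.isAlgebraic x)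
  rwa [AlgHom.id_apply, Derivation.commutator_apply, sub_eq_zero] at h

theorem Fib_trdeg (hs : IsTranscendenceBasis k s) : Algebra.trdeg k F = 2 := by
  rw [← hs.cardinalMk_eq_trdeg]
  simp

/-- Hint: if `φ ≠ 0`, `rat_dec` gives an integer vector `a = y j ≠ 0`; some `D j` does not kill
`∏ ξ ^ a`; `ros_vec` for `D j` with `r` the other member of `s` gives `n` with `a · n ≠ 0` and
`φ · n = 0`, a contradiction. -/
theorem noz (htop : adjoin k (Set.range ξ) = ⊤) (hnz : ∀ i, ξ i ≠ 0)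
    (hs : IsTranscendenceBasis k s) (hD : ∀ j m, D j (s m) = if j = m then 1 else 0)
    (hx : ∀ a : ι → ℤ, a ≠ 0 → ∃ j, D j (∏ i, ξ i ^ a i) ≠ 0) {φ : ι → F}
    (h1 : ∀ j i, D j (φ i) = 0) (h2 : ∀ j, ∑ i, φ i * (D j (ξ i) / ξ i) = 0) : φ = 0 := by
  haveI : CharZero F := charZero_of_injective_algebraMap (algebraMap k F).injective
  obtain ⟨J, _, r, y, hφ, hy⟩ := rat_dec φ
  have hy0 : ∀ j, y j = 0 := by
    intro j
    by_contra hne
    obtain ⟨m, hm⟩ := hx _ hne
    have hr : D m (s (m + 1)) = 0 := by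
      have : ∀ m : Fin 2, m ≠ m + 1 := by decide
      rw [hD, if_neg (this m)]
    obtain ⟨n, hn, hn'⟩ := ros_vec htop hnz (Fib_trdeg hs) (D m) hr
      (hs.1.transcendental (m + 1)) hm
    exact hn (hy j n (hn' φ (h1 m) (h2 m)))
  funext i
  rw [hφ i]
  simp [hy0]

theorem Fib_minor {u v : Fin 3 → F} (h : u ⨯₃ v = 0) (a b : Fin 3) : u a * v b = u b * v a := by
  rw [cross_apply] at h
  have h0 : u 1 * v 2 - u 2 * v 1 = 0 := congrFun h 0
  have h1 : u 2 * v 0 - u 0 * v 2 = 0 := congrFun h 1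
  have h2 : u 0 * v 1 - u 1 * v 0 = 0 := congrFun h 2
  fin_cases a <;> fin_cases b <;> simp only [Fin.zero_eta, Fin.mk_one, Fin.reduceFinMk] <;>
    first
      | rfl
      | linear_combination h0
      | linear_combination -h0
      | linear_combination h1
      | linear_combination -h1
      | linear_combination h2
      | linear_combination -h2

theorem Fib_indep (e : F →+* ℂ) {ψ : Fin 3 → ι → ℝ} (hψ : LinearIndependent ℝ ψ)
    {P : Fin 3 → ι → F} (he : ∀ l i, e (P l i) = ψ l i) {c : Fin 3 → F}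
    (hc : ∀ i, ∑ l, c l * P l i = 0) : c = 0 := by
  have h1 : ∀ i, ∑ l, e (c l) * (ψ l i : ℂ) = 0 := fun i => by
    simpa only [map_sum, map_mul, he, map_zero] using congrArg e (hc i)
  have h2 := Fintype.linearIndependent_iff.1 hψ (fun l => (e (c l)).re) (funext fun i => by
    simpa using congrArg Complex.re (h1 i))
  have h3 := Fintype.linearIndependent_iff.1 hψ (fun l => (e (c l)).im) (funext fun i => by
    simpa using congrArg Complex.im (h1 i))
  funext l
  exact (map_eq_zero e).1 (Complex.ext (h2 l) (h3 l))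

theorem Fib_closed (hnz : ∀ i, ξ i ≠ 0) (hs : IsTranscendenceBasis k s)
    (hD : ∀ j m, D j (s m) = if j = m then 1 else 0) (c : ι → k) :
    D 0 (∑ i, algebraMap k F (c i) * (D 1 (ξ i) / ξ i)) =
      D 1 (∑ i, algebraMap k F (c i) * (D 0 (ξ i) / ξ i)) := by
  rw [map_sum, map_sum]
  refine sum_congr rfl fun i _ => ?_
  simp only [Derivation.leibniz, Derivation.map_algebraMap, Derivation.leibniz_div, smul_eq_mul,
    der_comm hs hD]
  ring

/-- the lattice of the monomials killed by `δ` -/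
theorem Fib_lat (htop : adjoin k (Set.range ξ) = ⊤) (hnz : ∀ i, ξ i ≠ 0)
    (htr : Algebra.trdeg k F = 2) (δ : Derivation k F F) {r : F} (hr : δ r = 0)
    (hr' : Transcendental k r) (e : F →+* ℂ) {ψ : Fin 3 → ι → ℝ} (hψ : LinearIndependent ℝ ψ)
    {ψ' : Fin 3 → ι → k} (he : ∀ l i, e (algebraMap k F (ψ' l i)) = ψ l i)
    (h0 : ∀ l, ∑ i, algebraMap k F (ψ' l i) * (δ (ξ i) / ξ i) = 0) :
    ∃ (k' : ℕ) (M : Fin k' → ι → ℤ), 3 ≤ k' ∧
      LinearIndependent ℤ M ∧ (∀ l, ψ l ∈ Submodule.span ℝ (Set.range fun j i => (M j i : ℝ))) ∧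
      ∀ a : ι → ℤ, δ (∏ i, ξ i ^ a i) = 0 ↔ a ∈ Submodule.span ℤ (Set.range M) := by
  let Λ : Submodule ℤ (ι → ℤ) :=
    LinearMap.ker (Fintype.linearCombination ℤ fun i => δ (ξ i) / ξ i)
  have hΛ : ∀ a : ι → ℤ, δ (∏ i, ξ i ^ a i) = 0 ↔ a ∈ Λ := by
    intro a
    rw [der_mono δ hnz, mul_eq_zero,
      or_iff_right (prod_ne_zero_iff.2 fun i _ => zpow_ne_zero _ (hnz i)), LinearMap.mem_ker,
      Fintype.linearCombination_apply]
    simp only [zsmul_eq_mul]
  let b := Module.finBasis ℤ Λ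
  have hsp : Submodule.span ℤ (Set.range fun j => (b j : ι → ℤ)) = Λ := by
    have := congrArg (Submodule.map Λ.subtype) b.span_eq
    rwa [Submodule.map_span, ← Set.range_comp, Submodule.map_subtype_top] at this
  have hcast : ∀ a ∈ Λ, (fun i => (a i : ℝ)) ∈
      Submodule.span ℝ (Set.range fun j i => ((b j : ι → ℤ) i : ℝ)) := by
    intro a ha
    rw [← hsp] at ha
    induction ha using Submodule.span_induction with
    | mem x hx =>
      obtain ⟨j, rfl⟩ := hx
      exact Submodule.subset_span ⟨j, rfl⟩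
    | zero =>
      have e1 : (fun i => ((0 : ι → ℤ) i : ℝ)) = 0 := funext fun i => by simp
      rw [e1]
      exact Submodule.zero_mem _
    | add x y _ _ hx hy =>
      have e1 : (fun i => ((x + y) i : ℝ)) = (fun i => (x i : ℝ)) + fun i => (y i : ℝ) :=
        funext fun i => by simp
      rw [e1]
      exact Submodule.add_mem _ hx hy
    | smul c x _ hx =>
      have e1 : (fun i => ((c • x) i : ℝ)) = (c : ℝ) • fun i => (x i : ℝ) :=
        funext fun i => by simp
      rw [e1]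
      exact Submodule.smul_mem _ _ hx
  have hmem : ∀ l, ψ l ∈ Submodule.span ℝ (Set.range fun j i => ((b j : ι → ℤ) i : ℝ)) := by
    intro l
    obtain ⟨J, _, q, y, hφ, hy⟩ := rat_dec (ψ l)
    have h1 : ψ l = ∑ j, q j • fun i => (y j i : ℝ) := by
      funext i
      rw [hφ i, Finset.sum_apply]
      rfl
    rw [h1]
    refine Submodule.sum_mem _ fun j _ => Submodule.smul_mem _ _ (hcast _ ((hΛ _).1 ?_))
    by_contra hne
    obtain ⟨n, hn, hn'⟩ := ros_vec htop hnz htr δ hr hr' hne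
    refine hn (hy j n ?_)
    have h2 := congrArg e (hn' _ (fun i => δ.map_algebraMap _) (h0 l))
    simp only [map_sum, map_mul, he, map_zero, map_intCast] at h2
    exact_mod_cast h2
  refine ⟨_, fun j => (b j : ι → ℤ), ?_, b.linearIndependent.map' Λ.subtype Λ.ker_subtype, hmem,
    fun a => by rw [hsp]; exact hΛ a⟩
  have h3 : LinearIndependent ℝ fun l => (⟨ψ l, hmem l⟩ :
      Submodule.span ℝ (Set.range fun j i => ((b j : ι → ℤ) i : ℝ))) :=
    LinearIndependent.of_comp (Submodule.subtype _) hψ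
  haveI : Module.Finite ℝ (Submodule.span ℝ (Set.range fun j i => ((b j : ι → ℤ) i : ℝ))) :=
    Module.Finite.span_of_finite ℝ (Set.finite_range _)
  have h4 := h3.fintype_card_le_finrank.trans (finrank_range_le_card _)
  simpa using h4

/-- Hint. First, for `c : Fin 3 → F` with `∑ l, c l * algebraMap (ψ' l i) = 0` for all `i` one has
`c = 0` (apply `e`, real and imaginary parts). Step 1: `κ = 0`; otherwise `κ l₀ ≠ 0`, and
`c = κ / κ l₀` is killed by both `D m` (this is `h`), while `c ⬝ᵥ ω j = 0`, so `noz` applies to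
`φ i = ∑ l, c l * ψ' l i`. Step 2: `(α₀, α₁) = (ω 0 0, ω 1 0) ≠ 0` by `noz`;
`δ = α₁ • D 0 - α₀ • D 1` satisfies `∑ i, ψ' l i * (δ ξ i / ξ i) = 0` for all `l` (the minors
vanish). There is `r` with `ω j 1 = r * ω j 0` for both `j`. Closedness
`D 0 (ω 1 l) = D 1 (ω 0 l)` (`der_comm`) gives `δ r = 0`; some `D j r ≠ 0` (else `noz` for
`ψ' 1 - r ψ' 0`), so `r` is transcendental (`ker_alg`). Step 3: `Λ`, the `ℤ`-submodule of all `a`
with `∑ i, a i * (δ ξ i / ξ i) = 0`, is free of finite rank, `M` is `Module.finBasis ℤ Λ`.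
`rat_dec (ψ l)` over `ℝ` writes `ψ l` as a combination of integer vectors `y`; each `y` lies in `Λ`,
otherwise `ros_vec` gives `n` with `y · n ≠ 0` and `ψ' l · n = 0`. Three independent vectors in
the span give `3 ≤ k'` (`LinearIndependent.fintype_card_le_finrank`, `finrank_range_le_card`). -/
theorem fib (htop : adjoin k (Set.range ξ) = ⊤) (hnz : ∀ i, ξ i ≠ 0)
    (hs : IsTranscendenceBasis k s) (hD : ∀ j m, D j (s m) = if j = m then 1 else 0)
    (hx : ∀ a : ι → ℤ, a ≠ 0 → ∃ j, D j (∏ i, ξ i ^ a i) ≠ 0) (e : F →+* ℂ)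
    {ψ : Fin 3 → ι → ℝ} (hψ : LinearIndependent ℝ ψ) {ψ' : Fin 3 → ι → k}
    (he : ∀ l i, e (algebraMap k F (ψ' l i)) = ψ l i) {ω : Fin 2 → Fin 3 → F}
    (hω : ∀ j l, ω j l = ∑ i, algebraMap k F (ψ' l i) * (D j (ξ i) / ξ i))
    (h : ∀ m, (ω 0 ⨯₃ ω 1) ⨯₃ (fun l => D m ((ω 0 ⨯₃ ω 1) l)) = 0) :
    ∃ δ : Derivation k F F, (∃ m, δ (s m) ≠ 0) ∧ ∃ (k' : ℕ) (M : Fin k' → ι → ℤ), 3 ≤ k' ∧
      LinearIndependent ℤ M ∧ (∀ l, ψ l ∈ Submodule.span ℝ (Set.range fun j i => (M j i : ℝ))) ∧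
      ∀ a : ι → ℤ, δ (∏ i, ξ i ^ a i) = 0 ↔ a ∈ Submodule.span ℤ (Set.range M) := by
  haveI : CharZero F := charZero_of_injective_algebraMap (algebraMap k F).injective
  have hB : ∀ c : Fin 3 → F, (∀ m l, D m (c l) = 0) → (∀ j, ∑ l, c l * ω j l = 0) → c = 0 := by
    intro c h1 h2
    have := noz htop hnz hs hD hx (φ := fun i => ∑ l, c l * algebraMap k F (ψ' l i))
      (fun j i => by
        rw [map_sum]
        refine sum_eq_zero fun l _ => ?_
        rw [Derivation.leibniz, h1, Derivation.map_algebraMap, smul_zero, smul_zero, add_zero])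
      fun j => by
        rw [← h2 j]
        simp only [hω, sum_mul, mul_sum, mul_assoc]
        exact sum_comm
    exact Fib_indep e hψ he (congrFun this)
  have hκ : ω 0 ⨯₃ ω 1 = 0 := by
    funext l₀
    by_contra hne
    have hne' : (ω 0 ⨯₃ ω 1) l₀ ≠ 0 := hne
    have h3 := hB (fun l => (ω 0 ⨯₃ ω 1) l / (ω 0 ⨯₃ ω 1) l₀) (fun m l => by
      rw [Derivation.leibniz_div, smul_eq_mul, smul_eq_mul, smul_eq_mul, Fib_minor (h m) l₀ l,
        sub_self, mul_zero]) fun j => by
      have h4 : ω j ⬝ᵥ ω 0 ⨯₃ ω 1 = 0 := by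
        fin_cases j
        exacts [dot_self_cross _ _, dot_cross_self _ _]
      rw [dotProduct_comm, dotProduct] at h4
      simp only [div_mul_eq_mul_div]
      rw [← sum_div, h4, zero_div]
    exact one_ne_zero ((div_self hne').symm.trans (congrFun h3 l₀))
  have hmin := Fib_minor hκ
  have hα : ω 0 0 ≠ 0 ∨ ω 1 0 ≠ 0 := by
    by_contra hcon
    rw [not_or, not_not, not_not] at hcon
    have := hB ![1, 0, 0] (fun m l => by fin_cases l <;> simp) fun j => by
      fin_cases j <;> simp [Fin.sum_univ_three, hcon.1, hcon.2]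
    exact one_ne_zero (congrFun this 0)
  have hδ : ∀ x, (ω 1 0 • D 0 - ω 0 0 • D 1) x = ω 1 0 * D 0 x - ω 0 0 * D 1 x := fun x => rfl
  obtain ⟨r, hr0, hr1⟩ : ∃ r, ω 0 1 = r * ω 0 0 ∧ ω 1 1 = r * ω 1 0 := by
    rcases hα with h0 | h0
    · exact ⟨ω 0 1 / ω 0 0, by field_simp, by field_simp; linear_combination hmin 0 1⟩
    · exact ⟨ω 1 1 / ω 1 0, by field_simp; linear_combination -hmin 0 1, by field_simp⟩
  have hcl : ∀ l, D 0 (ω 1 l) = D 1 (ω 0 l) := fun l => by
    rw [hω, hω]; exact Fib_closed hnz hs hD _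
  have hr : (ω 1 0 • D 0 - ω 0 0 • D 1) r = 0 := by
    have h1 := hcl 1
    rw [hr0, hr1, Derivation.leibniz, Derivation.leibniz, hcl 0] at h1
    simp only [smul_eq_mul] at h1
    rw [hδ]
    linear_combination h1
  have hr' : Transcendental k r := by
    rintro ⟨p, hp, hpr⟩
    have h1 : ∀ m, D m r = 0 := fun m => ker_alg (D m) (algebraMap k F) (algebraMap k F).injective
      (fun a => Derivation.map_algebraMap _ a) hp hpr
    have := hB ![-r, 1, 0] (fun m l => by fin_cases l <;> simp [h1]) fun j => by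
      fin_cases j <;> simp [Fin.sum_univ_three, hr0, hr1]
    exact one_ne_zero (congrFun this 1)
  refine ⟨ω 1 0 • D 0 - ω 0 0 • D 1, ?_,
    Fib_lat htop hnz (Fib_trdeg hs) _ hr hr' e hψ he fun l => ?_⟩
  · rcases hα with h0 | h0
    · exact ⟨1, by simpa [hδ, hD] using h0⟩
    · exact ⟨0, by simpa [hδ, hD] using h0⟩
  · have h1 : ∑ i, algebraMap k F (ψ' l i) * ((ω 1 0 • D 0 - ω 0 0 • D 1) (ξ i) / ξ i) =
        ω 1 0 * ω 0 l - ω 0 0 * ω 1 l := by
      rw [hω 0 l, hω 1 l, mul_sum, mul_sum, ← sum_sub_distrib]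
      refine sum_congr rfl fun i _ => ?_
      rw [hδ]
      ring
    rw [h1]
    linear_combination hmin l 0

end Pool.Agent.ZPT
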