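import Pool.Agent.P.MP_4fdccb_ag.S.Tay
import Pool.Agent.P.MP_4fdccb_ag.S.Bas

/-! A root bound on the fibres, and a uniform height inequality on the base curve. -/

set_option linter.unusedSectionVars false
set_option linter.unusedVariables false

namespace Pool.Agent.ZPT
open Finset Filter Height Real PowerSeries

variable {K : Type} [Field K] [NumberField K] [Algebra K ℂ] {ι : Type} [Fintype ι]
  {𝔓 : Ideal (MvPolynomial ι K)} [𝔓.IsPrime] {Ω : Type} [Field Ω] [Algebra K Ω] {ξ : ι → Ω}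

/-- Hint: `φ` is an eigenvalue (`Matrix.exists_mulVec_eq_zero_iff` in the domain `L⟦X⟧`), so
`χ = charpoly 𝓜` has `χ.eval₂ ι φ = 0` where `ι = aeval (C u₀ + X)`. Write `χ = X ^ k * χ'` with
`χ'.coeff 0 ≠ 0` (`Polynomial.exists_eq_pow_rootMultiplicity_mul_and_not_dvd`), cancel `φ ^ k`,
take constant coefficients: `P = χ.coeff k` has the root `u₀`. Size: `SN.pn_coeff`, `SN.det` for
`pn (pn v)` and `charmatrix`. -/
theorem eigen {L : Type} [Field L] {d : ℕ} (𝓜 : Matrix (Fin d) (Fin d) (Polynomial L)) (u₀ : L)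
    {φ : L⟦X⟧} (h0 : φ ≠ 0) (h1 : constantCoeff φ = 0) {w : Fin d → L⟦X⟧} (hw : w ≠ 0)
    (h : ∀ k, ∑ l, Polynomial.aeval (C u₀ + X) (𝓜 k l) * w l = φ * w k) :
    ∃ P : Polynomial L, P ≠ 0 ∧ P.eval u₀ = 0 ∧ ∀ (v : AbsoluteValue L ℝ) (B : ℝ), 0 ≤ B →
      (∀ k l, pn v (𝓜 k l) ≤ B) → pn v P ≤ d.factorial * (1 + B) ^ d := by
  classical
  set E : Polynomial L →+* L⟦X⟧ := (Polynomial.aeval (C u₀ + X : L⟦X⟧)).toRingHom with hE
  have e1 : 𝓜.charpoly.eval₂ E φ = 0 := by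
    rw [Polynomial.eval₂_eq_eval_map, ← Matrix.charpoly_map, Matrix.eval_charpoly,
      ← Matrix.exists_mulVec_eq_zero_iff]
    refine ⟨w, hw, funext fun k => ?_⟩
    rw [Matrix.sub_mulVec, Matrix.scalar_apply, Pi.sub_apply, Matrix.mulVec_diagonal, ← h k]
    exact sub_self _
  obtain ⟨q, hq, hq'⟩ := Polynomial.exists_eq_pow_rootMultiplicity_mul_and_not_dvd 𝓜.charpoly
    𝓜.charpoly_monic.ne_zero 0
  rw [Polynomial.C_0, sub_zero] at hq hq'
  generalize Polynomial.rootMultiplicity 0 𝓜.charpoly = n at hq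
  have e2 : q.eval₂ E φ = 0 := by
    rw [hq, Polynomial.eval₂_mul, Polynomial.eval₂_X_pow] at e1
    exact (mul_eq_zero.1 e1).resolve_left (pow_ne_zero _ h0)
  have e3 : (constantCoeff (R := L)).comp E = Polynomial.evalRingHom u₀ := by
    ext <;> simp [hE]
  refine ⟨q.coeff 0, fun e => hq' (Polynomial.X_dvd_iff.2 e), ?_, fun v B hB hM => ?_⟩
  · have := congrArg (constantCoeff (R := L)) e2
    rwa [Polynomial.hom_eval₂, h1, e3, Polynomial.eval₂_at_zero, map_zero] at this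
  · have e4 : q.coeff 0 = 𝓜.charpoly.coeff (0 + n) := by rw [hq, Polynomial.coeff_X_pow_mul]
    have s1 := (sn_abs v).pn
    rw [e4]
    refine (s1.pn_coeff _ _).trans ?_
    have := s1.pn.det 𝓜.charmatrix (B := 1 + B) fun i j => by
      by_cases e : i = j
      · subst e
        rw [Matrix.charmatrix_apply_eq]
        refine (s1.pn.sub _ _).trans (add_le_add s1.pn_X ?_)
        rw [s1.pn_C]
        exact hM i i
      · rw [Matrix.charmatrix_apply_ne _ _ _ e, s1.pn.neg, s1.pn_C]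
        linarith [hM i j]
    rwa [Fintype.card_fin] at this

theorem Fibre_aeval {A B τ : Type} [CommRing A] [CommRing B] [Algebra ℤ A] (E : A →+* B)
    (x : τ → A) (P : MvPolynomial τ ℤ) :
    E (MvPolynomial.aeval x P) = MvPolynomial.aeval (fun i => E (x i)) P := by
  induction P using MvPolynomial.induction_on with
  | C c => simp
  | add p q hp hq => simp only [map_add, hp, hq]
  | mul_X p i hp => simp only [map_mul, hp, MvPolynomial.aeval_X]

theorem Fibre_der (δ : Derivation K Ω Ω) (h : ∀ i, ξ i ≠ 0) (a : ι → ℤ) (s : Finset ι) :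
    δ (∏ i ∈ s, ξ i ^ a i) = (∏ i ∈ s, ξ i ^ a i) * ∑ i ∈ s, (a i : Ω) * (δ (ξ i) / ξ i) := by
  classical
  induction s using Finset.induction_on with
  | empty => simp
  | insert i s hi ih =>
    rw [prod_insert hi, sum_insert hi, δ.leibniz, ih, δ.leibniz_zpow, zpow_sub_one₀ (h i)]
    simp only [smul_eq_mul, zsmul_eq_mul]
    ring

/-- Hint: `exists_bas` gives `d₀, b`; `Bas.common` for `1` and the products `(∏ ξ ^ a) * b k`,
`a ∈ 𝒜`, gives `g`, `U`, matrices `A a`. `Gn.tay` for `δ`, `Gn.regs` for `b`, `Gn.ne` for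
`aeval ![t, u] g`. By `tay_lin` the expansions of `t, u` are `C t₀` and `C u₀ + X`, so the expansion
of `aeval ![t, u] P` is `Polynomial.aeval (C u₀ + X) (π P)` with `π = aeval ![C t₀, X]`
(`pr_aeval`). With `f m` the expansion of `∏ ξ ^ a m` put `Φ = ∑ m, C (c m / z ^ a m) * f m`: its
constant coefficient is `∑ c = 0` and the one of its derivative is `∑ (a m · ℓ) * c m ≠ 0`
(`δ (∏ ξ ^ a) = (∏ ξ ^ a) * ∑ i, a i * (δ (ξ i) / ξ i)`, induction on integer powers through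
`Derivation.leibniz_zpow` or `logDeriv`). Apply `eigen` to `𝓜 = ∑ m, C (c m / z ^ a m) * π (A (a m))`
and `φ = (expansion of g) * Φ`; `SN.aeval` for `pn v` bounds `π P` by `nz P * max (v t₀) 1 ^ e`;
`1 + B ≤ 2 * max B 1`, `Hb.max`, `Hb.pow`, `Hb.root₁`. -/
theorem fibre (hg : Gn 𝔓 ξ) {t u : Ω} (hb : IsTranscendenceBasis K ![t, u])
    (δ : Derivation K Ω Ω) (ht : δ t = 0) (hu : δ u = 1) : ∃ d₀ : ℕ, ∀ 𝒜 : Finset (ι → ℤ),
    ∃ C : ℝ, 0 ≤ C ∧ ∀ᶠ p : Pt 𝔓 in gen 𝔓, ∀ (t₀ u₀ : p.L) (ℓ : ι → p.L), (t, t₀) ∈ Gr K ξ p.z →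
      (u, u₀) ∈ Gr K ξ p.z → (∀ i, (δ (ξ i) / ξ i, ℓ i) ∈ Gr K ξ p.z) →
      ∀ (β : Type) [Fintype β] (a : β → ι → ℤ) (c : β → p.L) (Y : ℝ), (∀ m, a m ∈ 𝒜) →
        ∑ m, c m = 0 → ∑ m, (∑ i, (a m i : p.L) * ℓ i) * c m ≠ 0 →
        Hb (fun v => ∑ m, v (c m / ∏ i, p.z i ^ a m i)) Y →
        logHeight₁ u₀ ≤ 2 * d₀ * Y + C * (logHeight₁ t₀ + p.D) := by
  classical
  obtain ⟨d, b, hB⟩ := exists_bas hg.top hb
  refine ⟨d, fun 𝒜 => ?_⟩
  obtain ⟨g, g0, P, hP⟩ := hB.common fun j : Option (𝒜 × Fin d) =>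
    j.elim 1 fun x => (∏ i, ξ i ^ x.1.1 i) * b x.2
  set Z : ℝ := ∑ j, ∑ l, nz (P j l) with hZ
  set e : ℕ := ∑ j, ∑ l, (P j l).totalDegree with he
  have z0 : ∀ j, 0 ≤ ∑ l, nz (P j l) := fun j => sum_nonneg fun l _ => sn_nz.nonneg _
  have Z0 : 0 ≤ Z := sum_nonneg fun j _ => z0 j
  have Z1 : ∀ j l, nz (P j l) ≤ Z := fun j l =>
    (single_le_sum (f := fun l => nz (P j l)) (fun _ _ => sn_nz.nonneg _) (mem_univ l)).trans
      (single_le_sum (f := fun j => ∑ l, nz (P j l)) (fun j _ => z0 j) (mem_univ j))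
  have e1 : ∀ j l, (P j l).totalDegree ≤ e := fun j l =>
    (single_le_sum (f := fun l => (P j l).totalDegree) (fun _ _ => Nat.zero_le _)
      (mem_univ l)).trans (single_le_sum (f := fun j => ∑ l, (P j l).totalDegree)
        (fun _ _ => Nat.zero_le _) (mem_univ j))
  have c1 : (1 : ℝ) ≤ d.factorial * (1 + Z) ^ d :=
    one_le_mul_of_one_le_of_one_le (by exact_mod_cast d.factorial_pos)
      (one_le_pow₀ (by linarith))
  have c2 := log_nonneg c1
  refine ⟨2 * Real.log (d.factorial * (1 + Z) ^ d) + 1 + 2 * d * e, by positivity, ?_⟩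
  filter_upwards [hg.tay δ, hg.regs b, hg.ne (mt (hB.inj g) g0)] with p ⟨S, s0, s1, s2⟩ ⟨b₀, hb₀⟩
    hne t₀ u₀ ℓ h1 h2 h3 β _ a c Y ha hc hc' hY
  choose w hw using fun k => (s2 _ _).1 (hb₀ k)
  choose f hf using fun m => (s2 _ _).1 (hg.mono p.on (a m))
  obtain ⟨ft, t1, t2⟩ := (s2 _ _).1 h1
  obtain ⟨fu, u1, u2⟩ := (s2 _ _).1 h2
  have t3 := tay_lin s0 s1 t1 (n := 0) (by rw [ht, Nat.cast_zero])
  have u3 := tay_lin s0 s1 u1 (n := 1) (by rw [hu, Nat.cast_one])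
  rw [t2, Nat.cast_zero, zero_mul, add_zero] at t3
  rw [u2, Nat.cast_one, one_mul] at u3
  subst t3 u3
  set E : Polynomial p.L →+* p.L⟦X⟧ := (Polynomial.aeval (C u₀ + X : p.L⟦X⟧)).toRingHom with hE
  set x : Fin 2 → Polynomial p.L := ![Polynomial.C t₀, Polynomial.X] with hx
  have hS : ∀ Q : MvPolynomial (Fin 2) ℤ,
      (MvPolynomial.aeval ![t, u] Q, E (MvPolynomial.aeval x Q)) ∈ S := fun Q => by
    rw [Fibre_aeval]
    refine pr_aeval (Fin.forall_fin_two.2 ⟨?_, ?_⟩) Q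
    · simpa [hE, hx] using t1
    · simpa [hE, hx] using u1
  set G := E (MvPolynomial.aeval x g) with hG
  have G0 : constantCoeff G ≠ 0 := hne _ ((s2 _ _).2 ⟨G, hS g, rfl⟩)
  have G1 : G ≠ 0 := fun h => G0 (by rw [h, map_zero])
  have k1 : ∀ m k, G * (f m * w k) =
      ∑ l, E (MvPolynomial.aeval x (P (some (⟨a m, ha m⟩, k)) l)) * w l := fun m k =>
    pr_eq s0 (pr_mul (hS g) (pr_mul (hf m).1 (hw k).1))
      ((hP (some (⟨a m, ha m⟩, k))).symm ▸ pr_sum fun l _ => pr_mul (hS _) (hw l).1)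
  have k2 : G * 1 = ∑ l, E (MvPolynomial.aeval x (P none l)) * w l :=
    pr_eq s0 (pr_mul (hS g) (one_mem S)) ((hP none).symm ▸ pr_sum fun l _ => pr_mul (hS _) (hw l).1)
  have w0 : w ≠ 0 := fun h => G1 (by simpa [h] using k2)
  have zz : ∀ m, ∏ i, p.z i ^ a m i ≠ 0 := fun m =>
    prod_ne_zero_iff.2 fun i _ => zpow_ne_zero _ (p.on.1 i)
  set Φ : p.L⟦X⟧ := ∑ m, C (c m / ∏ i, p.z i ^ a m i) * f m with hΦ
  have Φ1 : constantCoeff Φ = 0 := by
    rw [hΦ, map_sum, ← hc]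
    exact sum_congr rfl fun m _ => by
      rw [map_mul, constantCoeff_C, (hf m).2, div_mul_cancel₀ _ (zz m)]
  have Φ2 : constantCoeff (d⁄dX p.L Φ) = ∑ m, (∑ i, (a m i : p.L) * ℓ i) * c m := by
    rw [hΦ, map_sum, map_sum]
    refine sum_congr rfl fun m _ => ?_
    have q1 := (s2 _ _).2 ⟨_, s1 _ _ (hf m).1, rfl⟩
    rw [Fibre_der δ hg.nz] at q1
    have q2 := hg.eq p.on q1 (pr_mul (hg.mono p.on (a m))
      (pr_sum fun i _ => pr_mul (pr_int (a m i)) (h3 i)))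
    rw [Derivation.leibniz, derivative_C, smul_zero, add_zero, smul_eq_mul, map_mul,
      constantCoeff_C, q2, ← mul_assoc, div_mul_cancel₀ _ (zz m), mul_comm]
  have Φ0 : Φ ≠ 0 := fun h => hc' (by rw [← Φ2, h, map_zero, map_zero])
  obtain ⟨R, R0, R1, R2⟩ := eigen (fun k l => ∑ m, Polynomial.C (c m / ∏ i, p.z i ^ a m i) *
      MvPolynomial.aeval x (P (some (⟨a m, ha m⟩, k)) l)) u₀ (mul_ne_zero G1 Φ0)
    (by rw [map_mul, Φ1, mul_zero]) w0 fun k => by
      rw [hΦ, mul_sum, sum_mul]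
      simp only [map_sum, sum_mul]
      rw [sum_comm]
      refine sum_congr rfl fun m _ => ?_
      rw [show G * (C (c m / ∏ i, p.z i ^ a m i) * f m) * w k =
        C (c m / ∏ i, p.z i ^ a m i) * (G * (f m * w k)) by ring, k1, mul_sum]
      refine sum_congr rfl fun l _ => ?_
      rw [map_mul, Polynomial.aeval_C, mul_assoc]
      rfl
  have h4 := Hb.root₁ (p := R) (x := u₀)
    (((hb_const c1).mul ((hY.max.pow (fun _ => by positivity) d).mul
      (((hb_max t₀).pow (fun _ => by positivity) e).pow (fun _ => by positivity) d)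
      fun _ => by positivity) fun _ => by positivity).mono (fun v => ?_) le_rfl) R0 R1
  · have := p.D_pos
    have := zero_le_logHeight₁ t₀
    have : 0 ≤ (d : ℝ) * e * p.D := by positivity
    nlinarith
  · set F : ℝ := ∑ m, v (c m / ∏ i, p.z i ^ a m i) with hF
    have F0 : 0 ≤ F := sum_nonneg fun _ _ => v.nonneg _
    have r1 : (1 : ℝ) ≤ max (v t₀) 1 := le_max_right _ _
    have r2 : (1 : ℝ) ≤ max (v t₀) 1 ^ e := one_le_pow₀ r1
    refine (R2 v (F * (Z * max (v t₀) 1 ^ e)) (by positivity) fun k l => ?_).trans ?_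
    · rw [hF, sum_mul]
      refine ((sn_abs v).pn.sum _ _).trans (sum_le_sum fun m _ => ?_)
      rw [pn_C_mul]
      refine mul_le_mul_of_nonneg_left (((sn_abs v).pn.aeval x r1
        (Fin.forall_fin_two.2 ⟨?_, ?_⟩) _ (e1 _ _)).trans
          (mul_le_mul_of_nonneg_right (Z1 _ _) (by positivity))) (v.nonneg _)
      · exact ((sn_abs v).pn_C t₀).le.trans (le_max_left _ _)
      · exact (sn_abs v).pn_X.trans r1
    · rw [mul_assoc, ← mul_pow, ← mul_pow]
      gcongr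
      have f1 : F ≤ max F 1 := le_max_left _ _
      have f2 : 1 ≤ max F 1 := le_max_right _ _
      have f3 := one_le_mul_of_one_le_of_one_le f2 r2
      have f4 := mul_le_mul_of_nonneg_right f1 (show 0 ≤ Z * max (v t₀) 1 ^ e by positivity)
      nlinarith

/-- Hint: adapt the proof of `bmz` in the file Arith. For `β ≠ 0` apply `dirichlet` to
`β / ‖β‖`; with `|s β j / ‖β‖ - a j| ≤ 1 / M` one has
`|log (v (∏ Q ^ a))| ≤ s / ‖β‖ * g v + sz Q v / M` (`log_mono`, `sum_le_sz`), so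
`h (∏ Q ^ a) ≤ s X / ‖β‖ + 2 H / M` (`Hg.hb`, `Hb.ht`, `hg_sz`); take `M = 8 d card B + 2`. -/
theorem bmz' [DecidableEq ι] (h : Phi 𝔓) : ∃ C : ℝ, 0 ≤ C ∧ ∀ᶠ p in gen 𝔓, ∀ (β : ι → ℝ)
    (g : AbsoluteValue p.L ℝ → ℝ) (X : ℝ), Hg g X →
      (∀ v : AbsoluteValue p.L ℝ, |∑ j, β j * log (v (p.z j))| ≤ g v) →
      ‖β‖ * p.H ≤ C * (X + ‖β‖ * p.D) := by
  obtain ⟨d, h⟩ := h
  choose! e c G g1 g2 using h
  choose C c0 hC using fun a i => root_bound (e a i) d (c a i)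
  set M := 8 * d * Fintype.card ι + 2 with hM
  have hM' : (2 : ℝ) ≤ M := by exact_mod_cast (by omega : 2 ≤ M)
  set 𝒜 := (Fintype.piFinset fun _ : ι =>
    Icc (-(M ^ Fintype.card ι + 1 : ℤ)) (M ^ Fintype.card ι + 1)).erase 0 with hA
  have p0 : 0 ≤ ∑ a ∈ 𝒜, ∑ i, C a i := sum_nonneg fun _ _ => sum_nonneg fun _ _ => c0 _ _
  refine ⟨4 * Fintype.card ι * d * M ^ Fintype.card ι + 2 * ∑ a ∈ 𝒜, ∑ i, C a i, by positivity,
    ?_⟩
  filter_upwards [(eventually_all_finset 𝒜).2 fun a ha => eventually_all.2 fun i =>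
    gen_aeval (g1 a (ne_of_mem_erase ha) i)] with p hG β g X hX hβ
  have X0 := hX.nonneg
  have D0 := p.D_pos
  have H0 := p.H_nonneg
  by_cases b0 : β = 0
  · rw [b0, norm_zero, zero_mul, zero_mul, add_zero]
    positivity
  have N0 : 0 < ‖β‖ := norm_pos_iff.2 b0
  obtain ⟨k, -⟩ := Function.ne_iff.1 b0
  obtain ⟨i₁, -, h1⟩ := exists_max_image univ (fun i => ‖β i‖) ⟨k, mem_univ k⟩
  have N2 : |β i₁| = ‖β‖ := le_antisymm (norm_le_pi_norm β i₁)
    ((pi_norm_le_iff_of_nonneg (norm_nonneg _)).2 fun i => h1 i (mem_univ i))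
  have N1 : ∀ i, |β i / ‖β‖| ≤ 1 := fun i => by
    rw [abs_div, abs_of_pos N0, div_le_one N0]
    exact norm_le_pi_norm β i
  generalize ‖β‖ = N at N0 N1 N2
  obtain ⟨s, s1, s2, a, ha⟩ := dirichlet (fun i => β i / N) M (by omega)
  have s1' : (1 : ℝ) ≤ s := by exact_mod_cast s1
  have h3 : (s : ℝ) ≤ M ^ Fintype.card ι := by exact_mod_cast s2
  have m1 : (1 : ℝ) / M ≤ 1 / 2 := by gcongr
  have aA : a ∈ 𝒜 := by
    refine mem_erase.2 ⟨fun h => ?_, Fintype.mem_piFinset.2 fun i => mem_Icc.2 (abs_le.1 ?_)⟩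
    · have := ha i₁
      rw [h, Pi.zero_apply, Int.cast_zero, sub_zero, abs_mul, abs_div, N2, abs_of_pos N0,
        div_self N0.ne', abs_of_pos (by linarith)] at this
      linarith
    · have h2 : |s * (β i / N)| ≤ s := by
        rw [abs_mul, abs_of_pos (by linarith)]
        exact mul_le_of_le_one_right (by linarith) (N1 i)
      have h4 : |(a i : ℝ)| ≤ M ^ Fintype.card ι + 1 := by
        have h5 := abs_le.1 (ha i)
        have h6 := abs_le.1 h2
        rw [abs_le]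
        constructor <;> linarith [h5.1, h5.2, h6.1, h6.2]
      exact_mod_cast h4
  have k1 : logHeight₁ (∏ i, p.z i ^ a i) ≤ s / N * X + 1 / M * (2 * p.H) := by
    refine (((hX.smul (c := s / N) (by positivity)).add
      ((hg_sz p.z).smul (c := 1 / M) (by positivity))).hb.mono (fun v => le_exp_of_log ?_)
        le_rfl).ht
    have e1 : ∑ i, a i * log (v (p.z i)) = s / N * ∑ i, β i * log (v (p.z i)) -
        ∑ i, (s * (β i / N) - a i) * log (v (p.z i)) := by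
      rw [mul_sum, ← sum_sub_distrib]
      exact sum_congr rfl fun i _ => by ring
    rw [log_mono p.on.1, e1]
    refine (abs_sub _ _).trans (add_le_add ?_ (sum_le_sz p.z v ha))
    rw [abs_mul, abs_of_nonneg (by positivity)]
    exact mul_le_mul_of_nonneg_left (hβ v) (by positivity)
  have k2 : p.H ≤ Fintype.card ι * (2 * d * (s / N * X + 1 / M * (2 * p.H))) +
      (∑ i, C a i) * p.D := by
    rw [sum_mul, ← nsmul_eq_mul, ← card_univ, ← sum_const, ← sum_add_distrib]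
    refine sum_le_sum fun i _ => ?_
    obtain ⟨h2, h3⟩ := g2 a (ne_of_mem_erase aA) i p.L p.z p.on (hG a aA i)
    exact (hC a i p.L _ _ h2 h3).trans (by gcongr)
  have k3 : Fintype.card ι * (2 * d * (1 / M * (2 * p.H))) ≤ p.H / 2 := by
    rw [show Fintype.card ι * (2 * d * (1 / M * (2 * p.H))) =
      4 * d * Fintype.card ι * p.H / M by ring, div_le_div_iff₀ (by linarith) two_pos, hM]
    push_cast
    nlinarith
  have k4 : ∑ i, C a i ≤ ∑ a ∈ 𝒜, ∑ i, C a i :=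
    single_le_sum (f := fun a => ∑ i, C a i) (fun _ _ => sum_nonneg fun _ _ => c0 _ _) aA
  have k5 : N * (s / N * X) ≤ M ^ Fintype.card ι * X := by
    rw [← mul_assoc, mul_div_cancel₀ _ N0.ne']
    gcongr
  have k6 : p.H ≤ 4 * Fintype.card ι * d * (s / N * X) + 2 * (∑ a ∈ 𝒜, ∑ i, C a i) * p.D := by
    have := mul_le_mul_of_nonneg_right k4 D0.le
    linarith
  have k7 := mul_le_mul_of_nonneg_left k6 N0.le
  have k8 := mul_le_mul_of_nonneg_left k5 (show (0 : ℝ) ≤ 4 * Fintype.card ι * d by positivity)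
  have k9 : (0 : ℝ) ≤ 4 * Fintype.card ι * d * M ^ Fintype.card ι * (N * p.D) := by positivity
  have k10 := mul_nonneg p0 X0
  nlinarith

end Pool.Agent.ZPT
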