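import Pool.Agent.P.MP_4fdccb_ag.S.Amz
import Pool.Agent.P.MP_4fdccb_ag.S.Fibre
import Pool.Agent.P.MP_4fdccb_ag.S.Fib

/-! The fibred case, base point of large height. -/

set_option linter.unusedSectionVars false
set_option linter.unusedVariables false

namespace Pool.Agent.ZPT
open Finset MvPolynomial Filter Height Real

variable {K : Type} [Field K] [NumberField K] [Algebra K ℂ] {ι : Type} [Fintype ι]
  {𝔓 : Ideal (MvPolynomial ι K)} [𝔓.IsPrime] {Ω : Type} [Field Ω] [Algebra K Ω] {ξ : ι → Ω}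

theorem norm2 {x y : ι → ℝ} (h : ∀ a b : ℝ, a • x + b • y = 0 → a = 0 ∧ b = 0) :
    ∃ a b c d : ℝ, ‖a • x + b • y‖ ≤ 1 ∧ ‖c • x + d • y‖ ≤ 1 ∧ ∀ m n : ℤ, (m ≠ 0 ∨ n ≠ 0) →
      1 ≤ ‖(m : ℝ) • (a • x + b • y) + (n : ℝ) • (c • x + d • y)‖ := by
  have k : ∀ w : ι → ℝ, w ≠ 0 → ∃ i, w i ≠ 0 ∧ ‖(w i)⁻¹ • w‖ ≤ 1 := fun w hw => by
    obtain ⟨j, hj⟩ := Function.ne_iff.1 hw
    obtain ⟨i, -, hi⟩ := exists_max_image univ (fun i => |w i|) ⟨j, mem_univ j⟩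
    have h0 := (abs_pos.2 hj).trans_le (hi j (mem_univ j))
    refine ⟨i, abs_pos.1 h0, (pi_norm_le_iff_of_nonneg zero_le_one).2 fun l => ?_⟩
    rw [Pi.smul_apply, norm_smul, norm_inv]
    exact (inv_mul_le_one₀ h0).2 (hi l (mem_univ l))
  obtain ⟨i, i0, i1⟩ := k x fun e => one_ne_zero (h 1 0 (by simp [e])).1
  obtain ⟨j, j0, j1⟩ := k ((-(y i) / x i) • x + (1 : ℝ) • y) fun e => one_ne_zero (h _ _ e).2
  set r := ((-(y i) / x i) • x + (1 : ℝ) • y) j with hr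
  have e : (r⁻¹ * (-(y i) / x i)) • x + r⁻¹ • y = r⁻¹ • ((-(y i) / x i) • x + (1 : ℝ) • y) := by
    rw [smul_add, smul_smul, one_smul]
  refine ⟨(x i)⁻¹, 0, r⁻¹ * (-(y i) / x i), r⁻¹, by simpa using i1, e ▸ j1, fun m n hm => ?_⟩
  rw [e]
  by_cases m0 : m = 0
  · refine le_trans ?_ (norm_le_pi_norm _ j)
    rw [m0, Int.cast_zero, zero_smul, zero_add, Pi.smul_apply, Pi.smul_apply, ← hr, smul_eq_mul,
      smul_eq_mul, inv_mul_cancel₀ j0, mul_one]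
    rw [Real.norm_eq_abs]
    exact_mod_cast Int.one_le_abs (hm.resolve_left fun h => h m0)
  · refine le_trans ?_ (norm_le_pi_norm _ i)
    simp only [Pi.add_apply, Pi.smul_apply, smul_eq_mul, inv_mul_cancel₀ i0, div_mul_cancel₀ _ i0,
      zero_mul, add_zero, one_mul, neg_add_cancel, mul_zero, mul_one]
    rw [Real.norm_eq_abs]
    exact_mod_cast Int.one_le_abs m0

theorem cells (x y : ι → ℝ) {T R' : ℕ} (hT : 0 < T) (hR : 0 < R') :
    ∃ (m : Fin (R' * (T ^ Fintype.card ι * R')) → ℤ × ℤ) (a : Fin _ → ι → ℤ), Function.Injective m ∧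
      (∀ k, |((m k).1 : ℝ)| ≤ (T ^ Fintype.card ι * R' : ℕ) ∧
        |((m k).2 : ℝ)| ≤ (T ^ Fintype.card ι * R' : ℕ)) ∧
      ∀ k i, |a k i - ((m k).1 * x i + (m k).2 * y i)| ≤ 1 / T := by
  classical
  set R := T ^ Fintype.card ι * R' with hR
  have T0 : (0 : ℝ) < T := by exact_mod_cast hT
  let w : ℕ × ℕ → ι → ℝ := fun m i => m.1 * x i + m.2 * y i
  obtain ⟨c, -, hc⟩ := exists_le_card_fiber_of_mul_le_card_of_maps_to (s := range R ×ˢ range R)
    (t := Fintype.piFinset fun _ : ι => range T) (f := fun m i => ⌊T * Int.fract (w m i)⌋₊)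
    (n := R' * R) (fun m _ => Fintype.mem_piFinset.2 fun i => mem_range.2 (by
      rw [Nat.floor_lt (mul_nonneg T0.le (Int.fract_nonneg _))]
      exact mul_lt_of_lt_one_right T0 (Int.fract_lt_one _)))
    ⟨fun _ => 0, by simp [hT]⟩ (by simp [hR, mul_assoc])
  obtain ⟨g, hg⟩ := Function.Embedding.exists_of_card_le_finset (α := Fin (R' * R))
    ((Fintype.card_fin _).trans_le hc)
  have g1 := fun k => mem_filter.1 (mem_coe.1 (hg ⟨k, rfl⟩))
  let k₀ : Fin (R' * R) := ⟨0, by positivity⟩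
  have b : ∀ {a b : ℕ}, a ∈ range R → b ∈ range R → |(((a : ℤ) - b : ℤ) : ℝ)| ≤ R := fun ha hb => by
    have := mem_range.1 ha
    have := mem_range.1 hb
    rw [← Int.cast_abs, ← Int.cast_natCast R, Int.cast_le]
    exact abs_le.2 ⟨by omega, by omega⟩
  refine ⟨fun k => ((g k).1 - (g k₀).1, (g k).2 - (g k₀).2), fun k i => ⌊w (g k) i⌋ - ⌊w (g k₀) i⌋,
    fun k k' h => g.injective ?_, fun k => ⟨b (mem_product.1 (g1 k).1).1 (mem_product.1 (g1 k₀).1).1,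
      b (mem_product.1 (g1 k).1).2 (mem_product.1 (g1 k₀).1).2⟩, fun k i => ?_⟩
  · simp only [Prod.mk.injEq, sub_left_inj, Nat.cast_inj] at h
    exact Prod.ext h.1 h.2
  have h5 : ⌊T * Int.fract (w (g k) i)⌋₊ = ⌊T * Int.fract (w (g k₀) i)⌋₊ :=
    congrFun ((g1 k).2.trans (g1 k₀).2.symm) i
  have a1 := Nat.floor_le (mul_nonneg T0.le (Int.fract_nonneg (w (g k) i)))
  have a2 := Nat.lt_floor_add_one (T * Int.fract (w (g k) i))
  have a3 := Nat.floor_le (mul_nonneg T0.le (Int.fract_nonneg (w (g k₀) i)))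
  have a4 := Nat.lt_floor_add_one (T * Int.fract (w (g k₀) i))
  rw [h5] at a1 a2
  rw [show _ - _ = Int.fract (w (g k₀) i) - Int.fract (w (g k) i) by
    simp only [Int.fract, w]; push_cast; ring, le_div_iff₀ T0, ← abs_of_pos T0, ← abs_mul, abs_le]
  constructor <;> linarith

theorem fin_ineq {H h τ D U R₁ d C₁ Cb C CR R R' T n ε h₀ : ℝ} (R0 : 0 ≤ R₁) (d0 : 0 ≤ d)
    (c1 : 0 ≤ C₁) (cb : 0 ≤ Cb) (c0 : 0 ≤ C) (cr : 0 ≤ CR) (r1 : 1 ≤ R) (D0 : 0 < D) (n0 : 0 ≤ n)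
    (r2 : 16 * R₁ * d * C₁ * (8 * Cb + 2) < R') (t1 : 32 * R₁ * d < T)
    (h1 : 16 * R₁ * d * C * (8 * Cb * R + 2) + 1 ≤ h₀)
    (e1 : ε * (16 * R₁ * d * (C + 2) + 16 * R₁ * (CR + 1) + 1) = 1) (a1 : h₀ * D ≤ τ) (a2 : τ ≤ h)
    (a3 : h ≤ ε * H) (a4 : n * h ≤ 8 * Cb * R * H + 2 * h) (a5 : H ≤ R₁ * (τ + U + D))
    (a6 : U ≤ 2 * d * (C₁ * n * τ / (R' * R) + C * (n * D + τ) + (1 / T * (2 * H) + 2 * h)) +
      CR * (τ + D)) : False := by
  have p0 : 0 ≤ R₁ * d := by positivity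
  have p1 : 0 ≤ 16 * R₁ * d * C * (8 * Cb * R + 2) := by positivity
  have p2 : D ≤ τ := by nlinarith
  have p3 : 0 ≤ 16 * R₁ * d * (C + 2) + 16 * R₁ * (CR + 1) := by positivity
  have e0 : 0 < ε := by by_contra h; nlinarith
  have H0 : 0 < H := pos_of_mul_pos_right (by linarith : 0 < ε * H) e0.le
  have b0 : (16 * R₁ * d * (C + 2) + 16 * R₁ * (CR + 1) + 1) * h ≤ H := by nlinarith
  have b1 : h ≤ H := by nlinarith
  have b2 : n * h ≤ (8 * Cb * R + 2) * H := by linarith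
  have R1 : 0 < R' := lt_of_le_of_lt (by positivity) r2
  have T0 : 0 < T := lt_of_le_of_lt (by positivity) t1
  have b3 : 16 * (R₁ * d) * (C₁ * n * τ / (R' * R)) ≤ H := by
    rw [← mul_div_assoc, div_le_iff₀ (by positivity)]
    have f1 : n * τ ≤ (8 * Cb + 2) * (R * H) := by nlinarith
    have f2 := mul_le_mul_of_nonneg_left f1 (show 0 ≤ 16 * (R₁ * d) * C₁ by positivity)
    have f3 := mul_le_mul_of_nonneg_right r2.le (show 0 ≤ R * H by positivity)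
    linarith
  have b4 : 16 * (R₁ * d) * (1 / T * (2 * H)) ≤ H := by
    rw [one_div_mul_eq_div, ← mul_div_assoc, div_le_iff₀ T0]
    nlinarith
  have b5 : 16 * (R₁ * d) * (C * (n * D)) ≤ H := by
    have f1 : h₀ * (n * D) ≤ (8 * Cb * R + 2) * H := by nlinarith
    have f2 := mul_le_mul_of_nonneg_left f1 (show 0 ≤ 16 * (R₁ * d) * C by positivity)
    have f3 := mul_le_mul_of_nonneg_right h1 H0.le
    refine le_of_mul_le_mul_left ?_ (show 0 < h₀ by linarith)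
    linarith
  have b6 := mul_le_mul_of_nonneg_left a6 R0
  have b7 := mul_le_mul_of_nonneg_left a2 (show 0 ≤ R₁ * d * C by positivity)
  have b8 := mul_le_mul_of_nonneg_left (add_le_add a2 (p2.trans a2))
    (show 0 ≤ R₁ * (CR + 1) by positivity)
  linarith

theorem case2 {B : Type} [Fintype B] [DecidableEq B] {𝔮 : Ideal (MvPolynomial B K)} [𝔮.IsPrime]
    {E : Type} [Field E] [Algebra K E] {q : B → E} (hq : Gen 𝔮 q)
    (hg : Gn 𝔓 ξ) (htr : Algebra.trdeg K Ω = 2) {M : B → ι → ℤ}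
    (hk : ∀ g, aeval (fun j => ∏ i, ξ i ^ M j i) g = 0 ↔ g ∈ 𝔮) (j₀ : B)
    (ht : Transcendental K (∏ i, ξ i ^ M j₀ i))
    (halg : ∀ j, IsAlgebraic (Algebra.adjoin K {∏ i, ξ i ^ M j₀ i}) (∏ i, ξ i ^ M j i))
    (hM : LinearIndependent ℝ fun j i => (M j i : ℝ))
    (hsat : ∀ a : ι → ℤ, IsAlgebraic (Algebra.adjoin K {∏ i, ξ i ^ M j₀ i}) (∏ i, ξ i ^ a i) →
      a ∈ Submodule.span ℤ (Set.range M)) {β : B → ℝ} (hβ : β ≠ 0) :
    ∃ ε > (0 : ℝ), ∃ h₀ : ℝ, ∀ᶠ p in gen 𝔓, h₀ * p.D ≤ logHeight₁ (∏ i, p.z i ^ M j₀ i) →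
      ∀ ψ₀ ψ₁ : ι → ℝ, LinearIndependent ℝ ![ψ₀, ψ₁] → (∀ i, |ψ₀ i - ∑ j, β j * M j i| ≤ ε) →
        VV p.z ψ₀ → ¬ VV p.z ψ₁ := by
  classical
  obtain ⟨i₁, hi⟩ : ∃ i, ¬ IsAlgebraic (Algebra.adjoin K {∏ i, ξ i ^ M j₀ i}) (ξ i) := by
    by_contra! h
    have : Algebra.IsAlgebraic (Algebra.adjoin K {∏ i, ξ i ^ M j₀ i}) Ω := ⟨fun x =>
      ((alg_top hg.top).isAlgebraic x).adjoin_of_forall_isAlgebraic
        (by rintro _ ⟨⟨j, rfl⟩, -⟩; exact h j)⟩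
    have := Algebra.IsAlgebraic.trdeg_le_cardinalMk K ({∏ i, ξ i ^ M j₀ i} : Set Ω)
    rw [htr, Cardinal.mk_singleton] at this
    norm_num at this
  have : CharZero Ω := charZero_of_injective_algebraMap (algebraMap K Ω).injective
  have hb := basis_pair htr ht hi
  obtain ⟨δ, hδ⟩ := exists_der hb ![0, 1]
  obtain ⟨d₀, hF⟩ := fibre hg hb δ (hδ 0) (hδ 1)
  obtain ⟨Cb, cb, hB⟩ := bmz' hq.phi
  obtain ⟨C₁, s₀, c1, hA⟩ := amz hq j₀
  choose Cr cr hr using fun i => hg.ht_alg (hb.isAlgebraic.isAlgebraic (ξ i))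
  have R0 : 0 ≤ ∑ i, Cr i := sum_nonneg fun i _ => cr i
  let f := Fintype.linearCombination ℝ fun j i => (M j i : ℝ)
  have f1 : ∀ x i, f x i = ∑ j, x j * M j i := fun x i => by
    simp [f, Fintype.linearCombination_apply]
  obtain ⟨Γ, hΓ⟩ := f.exists_leftInverse_of_injective
    (LinearMap.ker_eq_bot.2 (hM.fintypeLinearCombination_injective))
  have g1 : ∀ x, Γ (f x) = x := fun x => LinearMap.congr_fun hΓ x
  let pr : (ι → ℝ) →ₗ[ℝ] ι → ℝ := LinearMap.id - f ∘ₗ Γ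
  have p1 : ∀ x, pr x = x - f (Γ x) := fun x => rfl
  have p2 : ∀ x, pr (f x) = 0 := fun x => by rw [p1, g1, sub_self]
  have p3 : ∀ x, pr (pr x) = pr x := fun x => by rw [p1 x, map_sub, p2, sub_zero, p1]
  obtain ⟨P, P0, P1, P2⟩ : ∃ P > (0 : ℝ), (∀ x, ‖pr x‖ ≤ P * ‖x‖) ∧ ∀ x, ‖Γ x‖ ≤ P * ‖x‖ :=
    ⟨‖pr.toContinuousLinearMap‖ + ‖Γ.toContinuousLinearMap‖ + 1, by positivity,
      fun x => (pr.toContinuousLinearMap.le_opNorm x).trans
        (by gcongr; linarith [norm_nonneg Γ.toContinuousLinearMap]),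
      fun x => (Γ.toContinuousLinearMap.le_opNorm x).trans
        (by gcongr; linarith [norm_nonneg pr.toContinuousLinearMap])⟩
  obtain ⟨T, hT⟩ := exists_nat_gt (32 * (∑ i, Cr i) * d₀ + 2 * P)
  obtain ⟨R', hR'⟩ := exists_nat_gt (16 * (∑ i, Cr i) * d₀ * C₁ * (8 * Cb + 2) + s₀)
  have t0 : 0 ≤ 32 * (∑ i, Cr i) * d₀ := by positivity
  have t1 : 0 ≤ 16 * (∑ i, Cr i) * d₀ * C₁ * (8 * Cb + 2) := by positivity
  have T0 : (0 : ℝ) < T := by linarith
  have T1 : 0 < T := by exact_mod_cast T0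
  have r0 : s₀ < R' := by exact_mod_cast (by linarith : (s₀ : ℝ) < R')
  set R := T ^ Fintype.card ι * R' with hR
  have r1 : 0 < R := by rw [hR]; exact Nat.mul_pos (by positivity) (by omega)
  have r2 : (1 : ℝ) ≤ R := by exact_mod_cast r1
  obtain ⟨C, c0, hC⟩ := hA (R' * R) (r0.le.trans (Nat.le_mul_of_pos_right _ r1))
  let 𝒜 := Fintype.piFinset fun _ : ι => Icc (-(2 * R + 1 : ℤ)) (2 * R + 1)
  obtain ⟨CR, cR, hCR⟩ := hF 𝒜
  set ε := (16 * (∑ i, Cr i) * d₀ * (C + 2) + 16 * (∑ i, Cr i) * (CR + 1) + 1)⁻¹ with hε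
  have e0 : 0 < ε := by positivity
  have b0 := norm_pos_iff.2 hβ
  have t2 : 0 ≤ 16 * (∑ i, Cr i) * d₀ * C * (8 * Cb * R + 2) := by positivity
  refine ⟨min (‖β‖ / (2 * P)) (ε * ‖β‖ / (8 * (Cb + 1) * P)), by positivity,
    16 * (∑ i, Cr i) * d₀ * C * (8 * Cb * R + 2) + 2 * Cb + 2, ?_⟩
  have hne : ∀ a ∈ 𝒜, ∀ a' ∈ 𝒜, ∀ᶠ p in gen 𝔓, a - a' ∉ Submodule.span ℤ (Set.range M) →
      ∀ β, (∑ i, ((a - a') i : Ω) * (δ (ξ i) / ξ i), β) ∈ Gr K ξ p.z → β ≠ 0 := fun a _ a' _ => by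
    by_cases h : a - a' ∈ Submodule.span ℤ (Set.range M)
    · exact .of_forall fun p h' => absurd h h'
    · refine (hg.ne fun e => h (hsat _ (alg_of_ker δ (AlgHom.id K Ω) htr δ.map_algebraMap
        (w := ξ i₁) ((hδ 1).trans_ne one_ne_zero) ht (hδ 0) ?_))).mono fun p h _ => h
      exact (der_mono δ hg.nz _).trans (by rw [e, mul_zero])
  filter_upwards [(hg.tendsto hk).eventually hB, (hg.tendsto hk).eventually hC, hCR,
    eventually_all.2 hr, hg.regs fun i => δ (ξ i) / ξ i, (eventually_all_finset _).2 fun a ha =>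
      (eventually_all_finset _).2 (hne a ha)] with p h1 h2 h3 h4 ⟨ℓ, h5⟩ h6 h7 ψ₀ ψ₁ h8 h9 v0 v1
  let Q : B → p.L := fun j => ∏ i, p.z i ^ M j i
  have Q0 : ∀ j, Q j ≠ 0 := (hg.onq hk p.on).1
  set h := ∑ j, logHeight₁ (Q j) with hh
  have D0 := p.D_pos
  have H0 := p.H_nonneg
  have k1 : logHeight₁ (Q j₀) ≤ h :=
    single_le_sum (f := fun j => logHeight₁ (Q j)) (fun _ _ => zero_le_logHeight₁ _) (mem_univ _)
  have k2 : (2 * Cb + 2) * p.D ≤ logHeight₁ (Q j₀) := le_trans (by gcongr; linarith) h7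
  have k3 := mul_nonneg cb D0.le
  have k4 : 0 < h := by linarith
  have l1 : ∀ φ, VV p.z φ → ∀ v : AbsoluteValue p.L ℝ,
      ∑ j, Γ φ j * log (v (Q j)) = -∑ i, pr φ i * log (v (p.z i)) := fun φ hφ v => by
    simp only [Q, log_mono p.on.1, p1, Pi.sub_apply, sub_mul, sum_sub_distrib, hφ v, f1, mul_sum,
      sum_mul, zero_sub, neg_neg, mul_assoc]
    exact sum_comm
  have l2 : ∀ φ, VV p.z φ → ‖Γ φ‖ * h ≤ 4 * Cb * ‖pr φ‖ * p.H := fun φ hφ => by
    have := h1 (Γ φ) _ _ ((hg_sz p.z).smul (norm_nonneg (pr φ))) fun v => by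
      rw [show _ = _ from l1 φ hφ v, abs_neg]
      exact sum_le_sz _ _ fun i => norm_le_pi_norm (pr φ) i
    change ‖Γ φ‖ * h ≤ Cb * (‖pr φ‖ * (2 * p.H) + ‖Γ φ‖ * p.D) at this
    have := mul_le_mul_of_nonneg_left (show 2 * (Cb * p.D) ≤ h by linarith) (norm_nonneg (Γ φ))
    linarith
  have l3 : h ≤ ε * p.H := by
    have a1 := (pi_norm_le_iff_of_nonneg (x := ψ₀ - f β) (le_min (by positivity)
      (by positivity))).2 fun i => (congrArg (|ψ₀ i - ·|) (f1 β i)).trans_le (h9 i)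
    have a2 := (P2 _).trans (mul_le_mul_of_nonneg_left (a1.trans (min_le_left _ _)) P0.le)
    have a3 := (P1 _).trans (mul_le_mul_of_nonneg_left (a1.trans (min_le_right _ _)) P0.le)
    rw [map_sub, g1, show P * _ = ‖β‖ / 2 by field_simp] at a2
    rw [map_sub, p2, sub_zero, show P * _ = ε * ‖β‖ / (8 * (Cb + 1)) by field_simp,
      le_div_iff₀ (by positivity)] at a3
    have a4 := norm_sub_norm_le β (Γ ψ₀)
    rw [norm_sub_rev] at a4
    have a5 := l2 ψ₀ v0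
    have a6 := mul_le_mul_of_nonneg_right a3 H0
    have a7 := mul_le_mul_of_nonneg_right (show ‖β‖ / 2 ≤ ‖Γ ψ₀‖ by linarith) k4.le
    have a8 := mul_nonneg (norm_nonneg (pr ψ₀)) H0
    refine le_of_mul_le_mul_left ?_ b0
    linarith
  have l4 : ∀ {φ φ'}, VV p.z φ → VV p.z φ' → ∀ a b : ℝ, VV p.z (a • φ + b • φ') :=
    fun {φ φ'} h h' a b => by
      simpa using VV.comb univ (φ := ![φ, φ']) (fun i _ => by fin_cases i <;> assumption) ![a, b]
  obtain ⟨a₁, b₁, a₂, b₂, n1, n2, n3⟩ := norm2 (x := pr ψ₀) (y := pr ψ₁) fun a b e => by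
    rw [← map_smul, ← map_smul, ← map_add] at e
    have a1 := l2 _ (l4 v0 v1 a b)
    rw [e, norm_zero, mul_zero, zero_mul] at a1
    rw [p1, norm_le_zero_iff.1 (nonpos_of_mul_nonpos_left a1 k4), map_zero, sub_zero] at e
    exact LinearIndependent.pair_iff.1 h8 a b e
  simp only [← map_smul, ← map_add] at n1 n2 n3
  set φ₁ := a₁ • ψ₀ + b₁ • ψ₁
  set φ₂ := a₂ • ψ₀ + b₂ • ψ₁
  obtain ⟨m, a, m1, m2, m3⟩ := cells (pr φ₁) (pr φ₂) T1 (show 0 < R' by omega)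
  let φ : Fin (R' * R) → ι → ℝ := fun k => ((m k).1 : ℝ) • φ₁ + ((m k).2 : ℝ) • φ₂
  have w1 : ∀ k, VV p.z (φ k) := fun k => l4 (l4 v0 v1 _ _) (l4 v0 v1 _ _) _ _
  have w2 : ∀ k i, |a k i - pr (φ k) i| ≤ 1 / T := fun k i => by simpa [φ] using m3 k i
  have w3 : ∀ k, ‖pr (φ k)‖ ≤ 2 * R := fun k => by
    rw [map_add, map_smul, map_smul, two_mul]
    refine (norm_add_le _ _).trans (add_le_add ?_ ?_) <;> rw [norm_smul]
    exacts [(mul_le_of_le_one_right (norm_nonneg _) n1).trans (m2 k).1,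
      (mul_le_of_le_one_right (norm_nonneg _) n2).trans (m2 k).2]
  have T2 : 1 / (T : ℝ) ≤ 1 := (div_le_one T0).2 (by exact_mod_cast T1)
  have w4 : ∀ k, a k ∈ 𝒜 := fun k => Fintype.mem_piFinset.2 fun i => mem_Icc.2 (abs_le.1 (by
    have := abs_sub_abs_le_abs_sub (a k i : ℝ) (pr (φ k) i)
    have := w2 k i
    have : |pr (φ k) i| ≤ _ := (norm_le_pi_norm _ i).trans (w3 k)
    exact_mod_cast (by linarith : |(a k i : ℝ)| ≤ 2 * R + 1)))
  set n := ⌈8 * Cb * R * p.H / h⌉₊ + 1 with hn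
  obtain ⟨β', _, w, c, z1, z2, z3⟩ := h2 (by change 2 * p.D ≤ logHeight₁ (Q j₀); linarith) n
    (fun k j => -round (Γ (φ k) j)) (fun k => ∑ i, a k i * ℓ i) (by omega) (fun k j => by
      have a1 : ‖Γ (φ k)‖ ≤ 8 * Cb * R * p.H / h := (le_div_iff₀ k4).2 ((l2 _ (w1 k)).trans (by
        have := mul_le_mul_of_nonneg_left (w3 k) (mul_nonneg (show 0 ≤ 4 * Cb by positivity) H0)
        linarith))
      have a2 := abs_sub_round (Γ (φ k) j)
      have a3 := abs_sub_abs_le_abs_sub (round (Γ (φ k) j) : ℝ) (Γ (φ k) j)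
      have a4 : |Γ (φ k) j| ≤ _ := (norm_le_pi_norm _ j).trans (a1.trans (Nat.le_ceil _))
      rw [abs_sub_comm] at a3
      have a5 : |(round (Γ (φ k) j) : ℝ)| ≤ n := by rw [hn]; push_cast; linarith
      rw [Int.natAbs_neg, ← Nat.cast_le (α := ℝ), Nat.cast_natAbs, Int.cast_abs]
      exact a5) fun k k' e => by
    by_contra hk'
    refine h6 _ (w4 k) _ (w4 k') (fun hs => ?_) _ (pr_sum fun i _ => pr_mul (pr_int _) (h5 i)) (by
      simpa [sub_mul, sub_eq_zero] using e)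
    obtain ⟨x, hx⟩ := (Submodule.mem_span_range_iff_exists_fun ℤ).1 hs
    have a1 : pr (φ k) - pr (φ k') = pr (pr (φ k) - pr (φ k') - f fun j => x j) := by
      rw [map_sub, map_sub, p3, p3, p2, sub_zero]
    have a2 : ‖pr (φ k) - pr (φ k') - f fun j => x j‖ ≤ 2 / T :=
      (pi_norm_le_iff_of_nonneg (by positivity)).2 fun i => by
        have a3 : ∑ j, (x j : ℝ) * M j i = a k i - a k' i := by
          have := congrFun hx i
          simp only [Finset.sum_apply, Pi.smul_apply, smul_eq_mul, Pi.sub_apply] at this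
          exact_mod_cast this
        have a4 := abs_le.1 (w2 k i)
        have a5 := abs_le.1 (w2 k' i)
        rw [Pi.sub_apply, Pi.sub_apply, f1, a3, Real.norm_eq_abs, abs_le, ← one_add_one_eq_two,
          add_div]
        constructor <;> linarith [a4.1, a4.2, a5.1, a5.2]
    have a3 := n3 ((m k).1 - (m k').1) ((m k).2 - (m k').2) (by
      by_contra! h
      exact hk' (m1 (Prod.ext (sub_eq_zero.1 h.1) (sub_eq_zero.1 h.2))))
    rw [show _ + _ = φ k - φ k' by simp only [φ]; push_cast; module, map_sub, a1] at a3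
    have a4 := a3.trans ((P1 _).trans (mul_le_mul_of_nonneg_left a2 P0.le))
    rw [← mul_div_assoc, le_div_iff₀ T0] at a4
    linarith
  have z4 := h3 _ _ ℓ (hg.mono p.on (M j₀)) (gr_X i₁) h5 β' (a ∘ w) c _ (fun o => w4 _) z1 z2
    ((z3.mul (((hg_sz p.z).smul (show 0 ≤ 1 / (T : ℝ) by positivity)).add (hg_sz Q)).hb
      fun v => (exp_pos _).le).mono (fun v => ?_) le_rfl)
  · have z5 : p.H ≤ (∑ i, Cr i) * (logHeight₁ (Q j₀) + logHeight₁ (p.z i₁) + p.D) := by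
      rw [sum_mul]
      exact sum_le_sum fun i _ => by
        simpa using h4 i ![Q j₀, p.z i₁] _ (fun j => by
          fin_cases j
          exacts [hg.mono p.on (M j₀), gr_X i₁]) (gr_X i)
    rw [Nat.cast_mul] at z4
    refine fin_ineq R0 (Nat.cast_nonneg d₀) c1 cb c0 cR r2 D0 (Nat.cast_nonneg n)
      (by linarith only [Nat.cast_nonneg (α := ℝ) s₀, hR']) (by linarith only [hT, P0])
      (by linarith only [cb])
      (inv_mul_cancel₀ (by positivity)) h7 k1 l3 ?_ z5 z4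
    have := (Nat.ceil_lt_add_one (div_nonneg (mul_nonneg
      (show 0 ≤ 8 * Cb * R by positivity) H0) k4.le)).le
    have := mul_le_mul_of_nonneg_right this k4.le
    rw [add_mul, div_mul_cancel₀ _ k4.ne'] at this
    rw [hn]
    push_cast
    linarith
  · rw [sum_mul]
    refine sum_le_sum fun o _ => ?_
    have a0 : ∀ e : B → ℤ, ∏ j, Q j ^ e j ≠ 0 := fun e =>
      prod_ne_zero_iff.2 fun j _ => zpow_ne_zero _ (Q0 j)
    change v (c o / ∏ i, p.z i ^ a (w o) i) ≤ v (c o / ∏ j, Q j ^ (-round (Γ (φ (w o)) j))) * _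
    have a1 : ∏ i, p.z i ^ a (w o) i ≠ 0 := prod_ne_zero_iff.2 fun j _ => zpow_ne_zero _ (p.on.1 j)
    rw [← div_mul_div_cancel₀ (a0 fun j => -round (Γ (φ (w o)) j)), map_mul]
    refine mul_le_mul_of_nonneg_left (le_exp_of_log ?_) (v.nonneg _)
    have a2 := sum_le_sz p.z v (w2 (w o))
    have a3 := sum_le_sz Q v (η := 1) fun j => (abs_sub_round (Γ (φ (w o)) j)).trans (by norm_num)
    rw [map_div₀, log_div (v.ne_zero (a0 _)) (v.ne_zero a1), log_mono Q0, log_mono p.on.1]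
    simp only [sub_mul, sum_sub_distrib, l1 _ (w1 _), abs_le, Int.cast_neg, neg_mul,
      sum_neg_distrib] at a2 a3 ⊢
    constructor <;> linarith [a2.1, a2.2, a3.1, a3.2]

end Pool.Agent.ZPT
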