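import Pool.Agent.P.MP_4fdccb_ag.S.Norm

/-! Definitions shared by the files on surfaces. -/

namespace Pool.Agent.ZPT
open Finset Filter Topology MvPolynomial

variable {ι : Type} [Fintype ι]

/-- derivative in the direction of a coordinate -/
noncomputable def pd (j : Fin 2) (f : (Fin 2 → ℂ) → ℂ) (x : Fin 2 → ℂ) : ℂ :=
  fderiv ℂ f x (Pi.single j 1)

/-- a nondegenerate analytic chart of logarithms -/
def NDat (Z : Set (ι → ℂ)) (φ : Fin 3 → ι → ℝ) : Prop :=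
  ∃ (l : ι → (Fin 2 → ℂ) → ℂ) (s : Fin 2 → ℂ), (∀ i, AnalyticAt ℂ (l i) s) ∧
    (∀ᶠ x in 𝓝 s, (fun i => Complex.exp (l i x)) ∈ Z) ∧
    ∑ i, φ 0 i * (l i s).re = 0 ∧ ∑ i, φ 1 i * (l i s).re = 0 ∧ 0 < ∑ i, φ 2 i * (l i s).re ∧
    (∑ i, φ 0 i * pd 0 (l i) s) * (∑ i, φ 1 i * pd 1 (l i) s) ≠
      (∑ i, φ 0 i * pd 1 (l i) s) * (∑ i, φ 1 i * pd 0 (l i) s)

/-- every point of the unit torus has many preimages at which the third monomial is large -/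
def Cov (Z : Set (ι → ℂ)) (a : Fin 3 → ι → ℤ) (N₀ : ℕ) (ρ E : ℝ) : Prop :=
  ∀ y : Fin 2 → ℂ, (∀ k, ‖y k‖ = 1) → ∃ Y : Finset (ι → ℂ), N₀ ≤ #Y ∧ ∀ z ∈ Y, z ∈ Z ∧
    (∀ i, ‖z i‖ ≤ ρ) ∧ ∏ i, z i ^ a 0 i = y 0 ∧ ∏ i, z i ^ a 1 i = y 1 ∧ E ≤ ‖∏ i, z i ^ a 2 i‖

def CovA (Z : Set (ι → ℂ)) (φ : Fin 3 → ι → ℝ) : Prop :=
  ∃ c > (0 : ℝ), ∃ δ > (0 : ℝ), ∃ (ρ : ℝ) (q₀ : ℕ), ∀ q : ℕ, q₀ ≤ q →
    Cov Z (fun k i => round (q * φ k i)) ⌈c * q ^ 2⌉₊ ρ (Real.exp (δ * q))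

section
variable {L : Type} [Field L]

def lin (c : Option ι → ℕ) (z : ι → L) : L := c none + ∑ i, c (some i) * z i

def mon (a : Fin 3 → ι → ℤ) (k : ℕ) (c : Option ι → ℕ) (z : ι → L) {A B : ℕ}
    (x : Fin A × Fin A × Fin B) : L :=
  (∏ i, z i ^ a 0 i) ^ (x.1 : ℕ) * (∏ i, z i ^ a 1 i) ^ (x.2.1 : ℕ) *
    ((∏ i, z i ^ a 2 i) ^ k * lin c z) ^ (x.2.2 : ℕ)

/-- integer Laurent polynomials of degree at most `n` in each variable -/
def Lau (ξ : ι → L) (n : ℕ) : Submodule ℤ L :=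
  Submodule.span ℤ {x | ∃ a : ι → ℤ, (∀ i, (a i).natAbs ≤ n) ∧ x = ∏ i, ξ i ^ a i}

variable {τ : Type} {d : ℕ}

/-- `b` is a basis over the field of rational functions in `t` with rational coefficients -/
structure Bas (t : τ → L) (b : Fin d → L) : Prop where
  inj : ∀ g : MvPolynomial τ ℤ, aeval t g = 0 → g = 0
  ind : ∀ P : Fin d → MvPolynomial τ ℤ, ∑ k, aeval t (P k) * b k = 0 → P = 0
  span : ∀ x : L, ∃ g : MvPolynomial τ ℤ, g ≠ 0 ∧ ∃ P : Fin d → MvPolynomial τ ℤ,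
    aeval t g * x = ∑ k, aeval t (P k) * b k

/-- coordinates with denominator `g ^ n`, degree at most `c * n` and size at most `B` -/
def Sz (t : τ → L) (b : Fin d → L) (g : MvPolynomial τ ℤ) (c n : ℕ) (B : ℝ) (α : L) : Prop :=
  ∃ P : Fin d → MvPolynomial τ ℤ, aeval t g ^ n * α = ∑ k, aeval t (P k) * b k ∧
    ∀ k, (P k).totalDegree ≤ c * n ∧ nz (P k) ≤ B

structure SzOK (t : τ → L) (b : Fin d → L) (g : MvPolynomial τ ℤ) (c : ℕ) : Prop where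
  g0 : g ≠ 0
  dg : g.totalDegree < c
  ng : nz g ≤ c
  dc : d ≤ c
  one : Sz t b g c 1 c 1
  mul : ∀ {n n' : ℕ} {B B' : ℝ} {α β : L}, Sz t b g c n B α → Sz t b g c n' B' β →
    Sz t b g c (n + n' + 1) (c * B * B') (α * β)

end

/-- the real vectors `ψ` lie in the span of the characters that are constant on the fibres of a
fibration by curves -/
structure FDat (K : Type) [Field K] {Ω : Type} [Field Ω] [Algebra K Ω] (ξ : ι → Ω)
    (ψ : Fin 3 → ι → ℝ) {k : ℕ} (M : Fin k → ι → ℤ) : Prop where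
  k3 : 3 ≤ k
  ind : LinearIndependent ℤ M
  spn : ∀ l, ψ l ∈ Submodule.span ℝ (Set.range fun j i => (M j i : ℝ))
  alg : ∀ j j', IsAlgebraic (Algebra.adjoin K {∏ i, ξ i ^ M j i}) (∏ i, ξ i ^ M j' i)
  sat : ∀ j (a : ι → ℤ), IsAlgebraic (Algebra.adjoin K {∏ i, ξ i ^ M j i}) (∏ i, ξ i ^ a i) →
    a ∈ Submodule.span ℤ (Set.range M)

/-- germs of analytic functions attached to the elements of a function field -/
structure RepOK {k : Type} [Field k] [Algebra k ℂ] (F : IntermediateField k ℂ) (s : Fin 2 → F)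
    (D : Fin 2 → Derivation k F F) (Rep : ((Fin 2 → ℂ) → ℂ) → F → Prop) : Prop where
  ex : ∀ α, ∃ f, Rep f α
  an : ∀ {f α}, Rep f α → AnalyticAt ℂ f fun j => s j
  val : ∀ {f α}, Rep f α → f (fun j => s j) = α
  congr : ∀ {f g α}, Rep f α → f =ᶠ[𝓝 fun j => (s j : ℂ)] g → Rep g α
  uniq : ∀ {f g α}, Rep f α → Rep g α → f =ᶠ[𝓝 fun j => (s j : ℂ)] g
  add : ∀ {f g α β}, Rep f α → Rep g β → Rep (fun x => f x + g x) (α + β)
  mul : ∀ {f g α β}, Rep f α → Rep g β → Rep (fun x => f x * g x) (α * β)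
  const : ∀ c : k, Rep (fun _ => algebraMap k ℂ c) (algebraMap k F c)
  der : ∀ {f α} (j : Fin 2), Rep f α → Rep (pd j f) (D j α)

end Pool.Agent.ZPT
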