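import Pool.Agent.P.MP_4fdccb_ag.AlgB
import Pool.Agent.P.MP_4fdccb_ag.S.Def
import Pool.Agent.P.MP_4fdccb_ag.S.Alg

/-! The analytic chart at a very general point. -/

set_option linter.unusedSectionVars false
set_option linter.unusedVariables false

namespace Pool.Agent.ZPT
open Finset Filter Topology MvPolynomial IntermediateField

/-- abstract chain rule -/
theorem Chart_chain {k T σ : Type} [CommRing k] [CommRing T] [Algebra k T] [Fintype σ]
    (p w : σ → T) (δ : MvPolynomial σ k → T) (h0 : ∀ c, δ (C c) = 0)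
    (h1 : ∀ A B, δ (A + B) = δ A + δ B)
    (h2 : ∀ A i, δ (A * X i) = aeval p A * w i + p i * δ A) (A : MvPolynomial σ k) :
    δ A = ∑ i, aeval p (pderiv i A) * w i := by
  classical
  induction A using MvPolynomial.induction_on with
  | C c => simp only [h0, pderiv_C, map_zero, zero_mul, sum_const_zero]
  | add A B hA hB => simp only [h1, hA, hB, map_add, add_mul, sum_add_distrib]
  | mul_X A i hA =>
    have h3 : ∀ l, aeval p (pderiv l (A * X i)) * w l =
        p i * (aeval p (pderiv l A) * w l) + if l = i then aeval p A * w i else 0 := fun l => by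
      rw [pderiv_mul, map_add, map_mul, map_mul, aeval_X]
      by_cases h : l = i
      · subst h
        rw [pderiv_X_self, map_one, if_pos rfl]
        ring
      · rw [pderiv_X_of_ne (Ne.symm h), map_zero, if_neg h]
        ring
    rw [h2, hA, sum_congr rfl fun l _ => h3 l, sum_add_distrib, ← mul_sum, sum_ite_eq' univ i,
      if_pos (mem_univ i), add_comm]

theorem Chart_der {k T σ : Type} [CommRing k] [CommRing T] [Algebra k T] [Fintype σ]
    (p : σ → T) (D : Derivation k T T) (A : MvPolynomial σ k) :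
    D (aeval p A) = ∑ i, aeval p (pderiv i A) * D (p i) :=
  Chart_chain p (fun i => D (p i)) (fun A => D (aeval p A))
    (fun c => by rw [aeval_C, D.map_algebraMap]) (fun A B => by rw [map_add, map_add])
    (fun A i => by rw [map_mul, aeval_X, D.leibniz, smul_eq_mul, smul_eq_mul]) A

theorem Chart_fder {k σ E : Type} [CommRing k] [Algebra k ℂ] [Fintype σ] [NormedAddCommGroup E]
    [NormedSpace ℂ E] {P : E → σ → ℂ} {x : E} (hP : ∀ i, AnalyticAt ℂ (P · i) x) (v : E)
    (A : MvPolynomial σ k) : fderiv ℂ (fun y => aeval (P y) A) x v =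
      ∑ i, aeval (P x) (pderiv i A) * fderiv ℂ (P · i) x v := by
  have hd : ∀ A : MvPolynomial σ k, DifferentiableAt ℂ (fun y => aeval (P y) A) x := fun A =>
    (AnalyticAt.aeval_mvPolynomial hP A).differentiableAt
  refine Chart_chain (P x) (fun i => fderiv ℂ (P · i) x v)
    (fun A => fderiv ℂ (fun y => aeval (P y) A) x v) (fun c => ?_) (fun A B => ?_) (fun A i => ?_) A
  · simp only [aeval_C, fderiv_fun_const, Pi.zero_apply, ContinuousLinearMap.zero_apply]
  · simp only [map_add]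
    rw [fderiv_fun_add (hd A) (hd B), ContinuousLinearMap.add_apply]
  · simp only [map_mul, aeval_X]
    rw [fderiv_fun_mul (hd A) (hP i).differentiableAt, ContinuousLinearMap.add_apply,
      ContinuousLinearMap.smul_apply, ContinuousLinearMap.smul_apply, smul_eq_mul, smul_eq_mul]

theorem Chart_prim {k F ι : Type} [Field k] [CharZero k] [Field F] [Algebra k F] [Fintype ι]
    {ξ : ι → F} (htop : adjoin k (Set.range ξ) = ⊤) {n : ℕ} {s : Fin n → F}
    (hs : IsTranscendenceBasis k s) :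
    ∃ θ : F, adjoin k (Set.range (Matrix.vecCons θ s)) = ⊤ := by
  have h2 := hs.isAlgebraic_field
  have h3 : FiniteDimensional (adjoin k (Set.range s)) F := by
    have h4 := finiteDimensional_adjoin (K := adjoin k (Set.range s)) (S := Set.range ξ)
      fun x _ => (h2.isAlgebraic x).isIntegral
    rw [adjoin_eq_top_of_adjoin_eq_top k htop] at h4
    exact topEquiv.toLinearEquiv.finiteDimensional
  have h5 : CharZero (adjoin k (Set.range s)) := algebraRat.charZero _
  obtain ⟨θ, hθ⟩ := Field.exists_primitive_element (adjoin k (Set.range s)) F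
  refine ⟨θ, ?_⟩
  rw [Matrix.range_cons, Set.union_comm, ← adjoin_adjoin_left, hθ, restrictScalars_top]

theorem Chart_sep {k F : Type} [Field k] [CharZero k] [Field F] [Algebra k F] {n : ℕ}
    {s : Fin n → F} (hs : AlgebraicIndependent k s) {θ : F} {m : MvPolynomial (Fin (n + 1)) k}
    (m0 : m ≠ 0) (hm : ∀ G, aeval (Matrix.vecCons θ s) G = 0 ↔ m ∣ G) :
    aeval (Matrix.vecCons θ s) (pderiv 0 m) ≠ 0 := by
  intro h
  have h1 : ∀ A : MvPolynomial (Fin (n + 1)) k, Polynomial.derivative (finSuccEquiv k n A) =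
      finSuccEquiv k n (pderiv 0 A) := fun A => by
    induction A using MvPolynomial.induction_on with
    | C c =>
      rw [pderiv_C, map_zero, ← algebraMap_eq, AlgEquiv.commutes, Polynomial.algebraMap_apply,
        Polynomial.derivative_C]
    | add A B hA hB => simp only [map_add, hA, hB]
    | mul_X A i hA =>
      rw [map_mul, Polynomial.derivative_mul, hA, pderiv_mul, map_add, map_mul, map_mul]
      refine Fin.cases ?_ (fun j => ?_) i
      · rw [pderiv_X_self, map_one, finSuccEquiv_X_zero, Polynomial.derivative_X]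
      · rw [pderiv_X_of_ne (Fin.succ_ne_zero j), map_zero, finSuccEquiv_X_succ,
          Polynomial.derivative_C]
  have h2 : finSuccEquiv k n m ∣ Polynomial.derivative (finSuccEquiv k n m) := by
    rw [h1]
    exact map_dvd _ ((hm _).1 h)
  have h3 : (finSuccEquiv k n m).natDegree = 0 := by
    by_contra hd
    exact (Polynomial.natDegree_le_of_dvd h2
      fun h => hd (Polynomial.derivative_eq_zero.1 h)).not_gt
        (Polynomial.natDegree_derivative_lt hd)
  have h4 : ∀ G : MvPolynomial (Fin (n + 1)) k, aeval (Matrix.vecCons θ s) G =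
      (finSuccEquiv k n G).eval₂ (aeval s : _ →ₐ[k] F) θ :=
    fun G => DFunLike.congr_fun (show aeval (Matrix.vecCons θ s) =
      (Polynomial.aevalTower (aeval s) θ).comp (finSuccEquiv k n).toAlgHom from
        algHom_ext fun j => by
          refine Fin.cases ?_ (fun l => ?_) j
          · simp [finSuccEquiv_X_zero]
          · simp [finSuccEquiv_X_succ]) G
  have h5 := (hm m).2 dvd_rfl
  rw [h4, Polynomial.eq_C_of_natDegree_eq_zero h3, Polynomial.eval₂_C] at h5
  have h6 := algebraicIndependent_iff.1 hs _ h5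
  apply m0
  apply (finSuccEquiv k n).injective
  rw [Polynomial.eq_C_of_natDegree_eq_zero h3, h6, map_zero, map_zero]

theorem Chart_impl {k : Type} [CommRing k] [Algebra k ℂ] {n : ℕ} {s : Fin n → ℂ} {θ : ℂ}
    {m : MvPolynomial (Fin (n + 1)) k} (h0 : aeval (Matrix.vecCons θ s) (pderiv 0 m) ≠ 0) :
    ∃ Θ : (Fin n → ℂ) → ℂ, AnalyticAt ℂ Θ s ∧ Θ s = θ ∧
      ∀ᶠ x in 𝓝 s, aeval (Matrix.vecCons (Θ x) x) m = aeval (Matrix.vecCons θ s) m := by
  have hP : ∀ i, AnalyticAt ℂ (fun v : (Fin n → ℂ) × ℂ => Matrix.vecCons v.2 v.1 i) (s, θ) :=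
    fun i => by
      refine Fin.cases ?_ (fun l => ?_) i
      · exact analyticAt_snd
      · exact ((ContinuousLinearMap.proj l : (Fin n → ℂ) →L[ℂ] ℂ).comp
          (ContinuousLinearMap.fst ℂ _ ℂ)).analyticAt _
  have hf : AnalyticAt ℂ (fun v : (Fin n → ℂ) × ℂ => aeval (Matrix.vecCons v.2 v.1) m) (s, θ) :=
    AnalyticAt.aeval_mvPolynomial (f := fun v : (Fin n → ℂ) × ℂ => Matrix.vecCons v.2 v.1) hP m
  have h1 : ContDiffAt ℂ ⊤ (fun v : (Fin n → ℂ) × ℂ => aeval (Matrix.vecCons v.2 v.1) m) (s, θ) :=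
    hf.contDiffAt
  have h2 : (fderiv ℂ (fun v : (Fin n → ℂ) × ℂ => aeval (Matrix.vecCons v.2 v.1) m) (s, θ) ∘L
      .inr ℂ (Fin n → ℂ) ℂ).IsInvertible := by
    refine ⟨ContinuousLinearEquiv.unitsEquivAut ℂ (Units.mk0 _ h0), ?_⟩
    ext
    have h3 := Chart_fder (P := fun v : (Fin n → ℂ) × ℂ => Matrix.vecCons v.2 v.1) hP (0, 1) m
    have h4 : fderiv ℂ (fun v : (Fin n → ℂ) × ℂ => Matrix.vecCons v.2 v.1 0) (s, θ) (0, 1) = 1 := by
      have h5 : (fun v : (Fin n → ℂ) × ℂ => Matrix.vecCons v.2 v.1 0) =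
        ContinuousLinearMap.snd ℂ (Fin n → ℂ) ℂ := rfl
      rw [h5, ContinuousLinearMap.fderiv]
      rfl
    have h6 : ∀ l : Fin n, fderiv ℂ (fun v : (Fin n → ℂ) × ℂ => Matrix.vecCons v.2 v.1 l.succ)
        (s, θ) (0, 1) = 0 := fun l => by
      have h5 : (fun v : (Fin n → ℂ) × ℂ => Matrix.vecCons v.2 v.1 l.succ) =
        (ContinuousLinearMap.proj l : (Fin n → ℂ) →L[ℂ] ℂ).comp
          (ContinuousLinearMap.fst ℂ _ ℂ) := rfl
      rw [h5, ContinuousLinearMap.fderiv]
      rfl
    rw [Fin.sum_univ_succ, h4] at h3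
    simp only [h6, mul_zero, sum_const_zero, add_zero, mul_one] at h3
    rw [ContinuousLinearMap.comp_apply, ContinuousLinearMap.inr_apply, h3]
    simp
  exact ⟨h1.implicitFunction (by simp) h2, (h1.contDiffAt_implicitFunction (by simp) h2).analyticAt,
    h1.implicitFunction_apply_self (by simp) h2, h1.eventually_apply_implicitFunction (by simp) h2⟩

section Rep
variable {k σ : Type} [Field k] [Algebra k ℂ] [Fintype σ] {F : IntermediateField k ℂ}
  {p : σ → F} {P : (Fin 2 → ℂ) → σ → ℂ} {s₀ : Fin 2 → ℂ}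

/-- the germ `f` is the quotient of two polynomials which represents `α` -/
def Chart_Rep (p : σ → F) (P : (Fin 2 → ℂ) → σ → ℂ) (s₀ : Fin 2 → ℂ) (f : (Fin 2 → ℂ) → ℂ)
    (α : F) : Prop :=
  ∃ A G : MvPolynomial σ k, aeval p G ≠ 0 ∧ α * aeval p G = aeval p A ∧
    f =ᶠ[𝓝 s₀] fun x => aeval (P x) A / aeval (P x) G

theorem Chart_val (h0 : ∀ i, P s₀ i = p i) (A : MvPolynomial σ k) :
    aeval (P s₀) A = ((aeval p A : F) : ℂ) := by
  have h1 : P s₀ = algebraMap F ℂ ∘ p := funext h0
  rw [h1, aeval_algebraMap_apply]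
  rfl

theorem Chart_ne (hP : ∀ i, AnalyticAt ℂ (P · i) s₀) (h0 : ∀ i, P s₀ i = p i)
    {G : MvPolynomial σ k} (hG : aeval p G ≠ 0) : ∀ᶠ x in 𝓝 s₀, aeval (P x) G ≠ 0 :=
  (AnalyticAt.aeval_mvPolynomial hP G).continuousAt.eventually_ne (by
    rw [Chart_val h0]
    exact fun h => hG (Subtype.ext h))

theorem Chart_poly (A : MvPolynomial σ k) :
    Chart_Rep p P s₀ (fun x => aeval (P x) A) (aeval p A) :=
  ⟨A, 1, by rw [map_one]; exact one_ne_zero, by rw [map_one, mul_one],
    Eventually.of_forall fun x => by simp only [map_one, div_one]⟩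

theorem Chart_congr {f g : (Fin 2 → ℂ) → ℂ} {α : F} (h : Chart_Rep p P s₀ f α)
    (e : f =ᶠ[𝓝 s₀] g) : Chart_Rep p P s₀ g α := by
  obtain ⟨A, G, h1, h2, h3⟩ := h
  exact ⟨A, G, h1, h2, e.symm.trans h3⟩

theorem Chart_add (hP : ∀ i, AnalyticAt ℂ (P · i) s₀) (h0 : ∀ i, P s₀ i = p i)
    {f g : (Fin 2 → ℂ) → ℂ} {α β : F} (hf : Chart_Rep p P s₀ f α) (hg : Chart_Rep p P s₀ g β) :
    Chart_Rep p P s₀ (fun x => f x + g x) (α + β) := by
  obtain ⟨A, G, h1, h2, h3⟩ := hf
  obtain ⟨A', G', h1', h2', h3'⟩ := hg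
  refine ⟨A * G' + G * A', G * G', by rw [map_mul]; exact mul_ne_zero h1 h1', ?_, ?_⟩
  · rw [map_add, map_mul, map_mul, map_mul, ← h2, ← h2']
    ring
  · filter_upwards [h3, h3', Chart_ne hP h0 h1, Chart_ne hP h0 h1'] with x e e' n n'
    rw [e, e', map_add, map_mul, map_mul, map_mul, div_add_div _ _ n n']

theorem Chart_mul {f g : (Fin 2 → ℂ) → ℂ} {α β : F} (hf : Chart_Rep p P s₀ f α)
    (hg : Chart_Rep p P s₀ g β) : Chart_Rep p P s₀ (fun x => f x * g x) (α * β) := by
  obtain ⟨A, G, h1, h2, h3⟩ := hf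
  obtain ⟨A', G', h1', h2', h3'⟩ := hg
  refine ⟨A * A', G * G', by rw [map_mul]; exact mul_ne_zero h1 h1', ?_, ?_⟩
  · rw [map_mul, map_mul, ← h2, ← h2']
    ring
  · filter_upwards [h3, h3'] with x e e'
    rw [e, e', map_mul, map_mul, div_mul_div_comm]

theorem Chart_sum (hP : ∀ i, AnalyticAt ℂ (P · i) s₀) (h0 : ∀ i, P s₀ i = p i) {τ : Type}
    (t : Finset τ) {f : τ → (Fin 2 → ℂ) → ℂ} {α : τ → F}
    (hf : ∀ i, Chart_Rep p P s₀ (f i) (α i)) :
    Chart_Rep p P s₀ (fun x => ∑ i ∈ t, f i x) (∑ i ∈ t, α i) := by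
  classical
  induction t using Finset.induction_on with
  | empty =>
    have h1 := Chart_poly (p := p) (P := P) (s₀ := s₀) 0
    simp only [map_zero] at h1
    simpa only [sum_empty] using h1
  | insert a t ha ih =>
    simp only [sum_insert ha]
    exact Chart_add hP h0 (hf a) ih

theorem Chart_pd_congr {f g : (Fin 2 → ℂ) → ℂ} (e : f =ᶠ[𝓝 s₀] g) (j : Fin 2) :
    pd j f =ᶠ[𝓝 s₀] pd j g := by
  filter_upwards [e.fderiv (𝕜 := ℂ)] with x hx
  rw [pd, pd, hx]

theorem Chart_pd_poly (hP : ∀ i, AnalyticAt ℂ (P · i) s₀) (j : Fin 2) (A : MvPolynomial σ k) :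
    pd j (fun y => aeval (P y) A) =ᶠ[𝓝 s₀]
      fun x => ∑ i, aeval (P x) (pderiv i A) * pd j (P · i) x := by
  filter_upwards [eventually_all.2 fun i => (hP i).eventually_analyticAt] with x hx
  exact Chart_fder hx _ A

theorem Chart_rder (hP : ∀ i, AnalyticAt ℂ (P · i) s₀) (h0 : ∀ i, P s₀ i = p i) {j : Fin 2}
    {D : Derivation k F F} (hD : ∀ i, Chart_Rep p P s₀ (pd j (P · i)) (D (p i)))
    {f : (Fin 2 → ℂ) → ℂ} {α : F} (hf : Chart_Rep p P s₀ f α) :
    Chart_Rep p P s₀ (pd j f) (D α) := by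
  have hpoly : ∀ A : MvPolynomial σ k,
      Chart_Rep p P s₀ (pd j fun y => aeval (P y) A) (D (aeval p A)) := fun A => by
    rw [Chart_der]
    exact Chart_congr (Chart_sum hP h0 univ fun i => Chart_mul (Chart_poly _) (hD i))
      (Chart_pd_poly hP j A).symm
  obtain ⟨A, G, h1, h2, h3⟩ := hf
  have hu : Chart_Rep p P s₀ (fun x => (aeval (P x) G)⁻¹) (aeval p G)⁻¹ :=
    ⟨1, G, h1, by rw [map_one, inv_mul_cancel₀ h1],
      Eventually.of_forall fun x => by simp only [map_one, one_div]⟩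
  have hneg : Chart_Rep p P s₀ (fun x => - aeval (P x) A) (- aeval p A) := by
    have h4 := Chart_poly (p := p) (P := P) (s₀ := s₀) (-A)
    simpa only [map_neg] using h4
  have h5 := Chart_add hP h0 (Chart_mul (hpoly A) hu)
    (Chart_mul (Chart_mul (Chart_mul hneg (hpoly G)) hu) hu)
  have h6 : D α = D (aeval p A) * (aeval p G)⁻¹ +
      - aeval p A * D (aeval p G) * (aeval p G)⁻¹ * (aeval p G)⁻¹ := by
    rw [← h2, D.leibniz, smul_eq_mul, smul_eq_mul]
    field_simp
    ring
  rw [h6]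
  refine Chart_congr h5 (EventuallyEq.trans ?_ (Chart_pd_congr h3 j).symm)
  filter_upwards [(AnalyticAt.aeval_mvPolynomial hP A).eventually_analyticAt,
    (AnalyticAt.aeval_mvPolynomial hP G).eventually_analyticAt, Chart_ne hP h0 h1]
    with x a1 a2 a3
  have h7 := (a1.differentiableAt.hasFDerivAt.mul
    ((hasFDerivAt_inv a3).comp x a2.differentiableAt.hasFDerivAt)).fderiv
  have h8 : (fun x => aeval (P x) A / aeval (P x) G) =
      (fun x => aeval (P x) A) * ((fun t : ℂ => t⁻¹) ∘ fun x => aeval (P x) G) :=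
    funext fun x => div_eq_mul_inv _ _
  rw [pd, pd, pd, h8, h7]
  simp only [ContinuousLinearMap.add_apply, ContinuousLinearMap.smul_apply, smul_eq_mul,
    ContinuousLinearMap.comp_apply, Function.comp_apply, ContinuousLinearMap.toSpanSingleton_apply]
  field_simp
  ring

end Rep

/-- Hint: `F` is finite over `adjoin k (range s)`; let `θ` be a primitive element and
`p = Fin.cons θ s : Fin 3 → F`, so `adjoin k (range p) = ⊤`. `princ` (file AlgB) gives `m` with
`aeval p G = 0 ↔ m ∣ G`; `aeval p (pderiv 0 m) ≠ 0` (there is a derivation with `D' θ' = ...`: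
simplest is a relation of minimal degree in the variable `0`, or: `m ∣ pderiv 0 m` forces
`pderiv 0 m = 0` by `degreeOf`, then `m` only involves `s`). Implicit function as in `branch` of the
file Loc (`ContDiffAt.implicitFunction` on `(Fin 2 → ℂ) × ℂ`): `Θ` analytic at `s`, `Θ s = θ`,
`aeval (P x) m = 0` near `s` where `P x = Fin.cons (Θ x) x`. Define `Rep f α` as: there are
`A G : MvPolynomial (Fin 3) k` with `aeval p G ≠ 0`, `α * aeval p G = aeval p A` and
`f =ᶠ fun x => aeval (P x) A / aeval (P x) G`. Uniqueness: `A G' - A' G` is divisible by `m`.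
For `der`: chain rules `D (aeval p A) = ∑ i, aeval p (pderiv i A) * D (p i)` and the analytic one
(induction on `A`); differentiating `m` gives `Rep (pd j Θ) (D j θ)`; then polynomials by
induction, then quotients (`f * G = A` near `s`). -/
theorem chart {k ι : Type} [Field k] [CharZero k] [Algebra k ℂ] [Fintype ι]
    (F : IntermediateField k ℂ) {ξ : ι → F} (htop : adjoin k (Set.range ξ) = ⊤) {s : Fin 2 → F}
    (hs : IsTranscendenceBasis k s) {D : Fin 2 → Derivation k F F}
    (hD : ∀ j m, D j (s m) = if j = m then 1 else 0) : ∃ Rep, RepOK F s D Rep := by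
  obtain ⟨θ, hθ⟩ := Chart_prim htop hs
  have htr : Algebra.trdeg k F = (2 : ℕ) := by
    rw [← hs.cardinalMk_eq_trdeg, Cardinal.mk_fin]
  obtain ⟨m, m1, hm⟩ := princ (p := Matrix.vecCons θ s) htr hθ
  have hsep := Chart_sep hs.1 m1.ne_zero hm
  have hup : ∀ G : MvPolynomial (Fin (2 + 1)) k,
      aeval (Matrix.vecCons (θ : ℂ) fun j => (s j : ℂ)) G = 0 ↔
        aeval (Matrix.vecCons θ s) G = 0 := fun G => by
    have h1 : (Matrix.vecCons (θ : ℂ) fun j => (s j : ℂ)) =
        algebraMap F ℂ ∘ Matrix.vecCons θ s := funext fun i => by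
      refine Fin.cases ?_ (fun l => ?_) i <;> rfl
    rw [h1, aeval_up]
  obtain ⟨Θ, t1, t2, t3⟩ := Chart_impl (m := m) fun h => hsep ((hup _).1 h)
  rw [(hup m).2 ((hm m).2 dvd_rfl)] at t3
  obtain ⟨P, hPdef⟩ : ∃ P : (Fin 2 → ℂ) → Fin (2 + 1) → ℂ, P = fun x => Matrix.vecCons (Θ x) x :=
    ⟨_, rfl⟩
  obtain ⟨p, hpdef⟩ : ∃ p : Fin (2 + 1) → F, p = Matrix.vecCons θ s := ⟨_, rfl⟩
  have t4 : ∀ᶠ x in 𝓝 (fun j => (s j : ℂ)), aeval (P x) m = 0 := by
    rw [hPdef]
    exact t3
  have e0 : (P · 0) = Θ := by rw [hPdef]; rfl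
  have e1 : ∀ l : Fin 2, (P · l.succ) =
      (ContinuousLinearMap.proj l : (Fin 2 → ℂ) →L[ℂ] ℂ) := fun l => by rw [hPdef]; rfl
  have p0 : p 0 = θ := by rw [hpdef]; rfl
  have p1 : ∀ l : Fin 2, p l.succ = s l := fun l => by rw [hpdef]; rfl
  rw [← hpdef] at hθ hm hsep
  have hP : ∀ i, AnalyticAt ℂ (P · i) fun j => (s j : ℂ) := fun i => by
    refine Fin.cases ?_ (fun l => ?_) i
    · rw [e0]
      exact t1
    · rw [e1]
      exact ContinuousLinearMap.analyticAt _ _
  have h0 : ∀ i, P (fun j => (s j : ℂ)) i = p i := fun i => by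
    refine Fin.cases ?_ (fun l => ?_) i
    · rw [p0, ← t2, ← e0]
    · rw [p1]
      exact congrFun (e1 l) _
  have hker : ∀ G : MvPolynomial (Fin (2 + 1)) k, aeval p G = 0 →
      ∀ᶠ x in 𝓝 (fun j => (s j : ℂ)), aeval (P x) G = 0 := fun G hG => by
    obtain ⟨H, rfl⟩ := (hm G).1 hG
    filter_upwards [t4] with x hx
    rw [map_mul, hx, zero_mul]
  have q1 : ∀ (j l : Fin 2) x, pd j (P · l.succ) x = if j = l then 1 else 0 := fun j l x => by
    rw [e1, pd, ContinuousLinearMap.fderiv, ContinuousLinearMap.proj_apply, Pi.single_apply]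
    exact if_congr eq_comm rfl rfl
  have hder : ∀ j i, Chart_Rep p P (fun j => (s j : ℂ)) (pd j (P · i)) (D j (p i)) := fun j i => by
    refine Fin.cases ?_ (fun l => ?_) i
    · refine ⟨- pderiv j.succ m, pderiv 0 m, hsep, ?_, ?_⟩
      · have h1 := Chart_der p (D j) m
        rw [(hm m).2 dvd_rfl, map_zero, Fin.sum_univ_succ] at h1
        simp only [p1, hD, mul_ite, mul_one, mul_zero, sum_ite_eq, mem_univ, if_true] at h1
        rw [map_neg, mul_comm]
        exact eq_neg_of_add_eq_zero_left h1.symm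
      · have h1 : pd j (fun y => aeval (P y) m) =ᶠ[𝓝 fun j => (s j : ℂ)] pd j fun _ => 0 :=
          Chart_pd_congr t4 j
        filter_upwards [h1, Chart_pd_poly hP j m, Chart_ne hP h0 hsep] with x a1 a2 a3
        have a4 : pd j (fun _ => 0) x = 0 := by
          simp only [pd, fderiv_fun_const, Pi.zero_apply, ContinuousLinearMap.zero_apply]
        rw [a1, a4, Fin.sum_univ_succ] at a2
        simp only [q1, mul_ite, mul_one, mul_zero, sum_ite_eq, mem_univ, if_true] at a2
        rw [map_neg, eq_div_iff a3, mul_comm]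
        exact eq_neg_of_add_eq_zero_left a2.symm
    · rw [p1, hD]
      refine ⟨if j = l then 1 else 0, 1, by rw [map_one]; exact one_ne_zero, ?_,
        Eventually.of_forall fun x => ?_⟩
      · split_ifs <;> simp only [map_one, map_zero, mul_one]
      · rw [q1]
        split_ifs <;> simp only [map_one, map_zero, div_one]
  refine ⟨Chart_Rep p P fun j => (s j : ℂ), fun α => ?_, ?_, ?_, Chart_congr, ?_, Chart_add hP h0,
    Chart_mul, fun c => ?_, fun j => Chart_rder hP h0 (hder j)⟩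
  · obtain ⟨A, G, h1⟩ := (mem_adjoin_range_iff k p α).1 (hθ ▸ mem_top)
    by_cases h2 : aeval p G = 0
    · refine ⟨_, 0, 1, by rw [map_one]; exact one_ne_zero, ?_, EventuallyEq.rfl⟩
      rw [h1, h2, div_zero, zero_mul, map_zero]
    · exact ⟨_, A, G, h2, by rw [h1, div_mul_cancel₀ _ h2], EventuallyEq.rfl⟩
  · rintro f α ⟨A, G, h1, h2, h3⟩
    exact ((AnalyticAt.aeval_mvPolynomial hP A).fun_div (AnalyticAt.aeval_mvPolynomial hP G)
      (Chart_ne hP h0 h1).self_of_nhds).congr h3.symm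
  · rintro f α ⟨A, G, h1, h2, h3⟩
    have h4 := (Chart_ne hP h0 h1).self_of_nhds
    rw [h3.self_of_nhds, div_eq_iff h4, Chart_val h0, Chart_val h0, ← h2]
    rfl
  · rintro f g α ⟨A, G, h1, h2, h3⟩ ⟨A', G', h1', h2', h3'⟩
    have h4 : aeval p (A * G' - G * A') = 0 := by
      rw [map_sub, map_mul, map_mul, ← h2, ← h2']
      ring
    filter_upwards [h3, h3', Chart_ne hP h0 h1, Chart_ne hP h0 h1', hker _ h4] with x e e' n n' z
    rw [map_sub, map_mul, map_mul, sub_eq_zero] at z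
    rw [e, e', div_eq_div_iff n n', z, mul_comm]
  · have h1 := Chart_poly (p := p) (P := P) (s₀ := fun j => (s j : ℂ)) (C c)
    simpa only [aeval_C] using h1

end Pool.Agent.ZPT
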