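import Pool.Agent.P.MP_4fdccb_ag.S.Def

/-! Many preimages under monomial maps, and lower bounds for relations. -/

set_option linter.unusedSectionVars false
set_option linter.unusedVariables false

namespace Pool.Agent.ZPT
open Finset Filter Topology

variable {ι : Type} [Fintype ι] {Z : Set (ι → ℂ)}

/-- Uniform local surjectivity. Hint: the map
`Φ (ψ, x) = (ψ, fun k => ∑ i, ψ k i * l i x)` on `(Fin 2 → ι → ℂ) × (Fin 2 → ℂ)` is analytic at
`(φ, s)` with surjective derivative (the determinant), so `HasStrictFDerivAt.map_nhds_eq_of_surj`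
shows that the image of the neighbourhood `univ ×ˢ U` is a neighbourhood. -/
theorem unif_surj {l : ι → (Fin 2 → ℂ) → ℂ} {s : Fin 2 → ℂ} (hl : ∀ i, AnalyticAt ℂ (l i) s)
    {φ : Fin 2 → ι → ℂ} (hd : (∑ i, φ 0 i * pd 0 (l i) s) * (∑ i, φ 1 i * pd 1 (l i) s) ≠
      (∑ i, φ 0 i * pd 1 (l i) s) * (∑ i, φ 1 i * pd 0 (l i) s)) {U : Set (Fin 2 → ℂ)}
    (hU : U ∈ 𝓝 s) : ∃ r > (0 : ℝ), ∀ (ψ : Fin 2 → ι → ℂ) (w : Fin 2 → ℂ),
      (∀ k i, ‖ψ k i - φ k i‖ ≤ r) → (∀ k, ‖w k - ∑ i, φ k i * l i s‖ ≤ r) →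
      ∃ x ∈ U, ∀ k, ∑ i, ψ k i * l i x = w k := by
  have h1 : ∀ (k : Fin 2) (i : ι), HasStrictFDerivAt
      (fun q : (Fin 2 → ι → ℂ) × (Fin 2 → ℂ) => q.1 k i)
      ((ContinuousLinearMap.proj i).comp ((ContinuousLinearMap.proj k).comp
        (ContinuousLinearMap.fst ℂ (Fin 2 → ι → ℂ) (Fin 2 → ℂ)))) (φ, s) := fun k i =>
    ContinuousLinearMap.hasStrictFDerivAt ((ContinuousLinearMap.proj i).comp
      ((ContinuousLinearMap.proj k).comp (ContinuousLinearMap.fst ℂ (Fin 2 → ι → ℂ) (Fin 2 → ℂ))))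
  have h2 : ∀ i, HasStrictFDerivAt (fun q : (Fin 2 → ι → ℂ) × (Fin 2 → ℂ) => l i q.2)
      ((fderiv ℂ (l i) s).comp (ContinuousLinearMap.snd ℂ _ _)) (φ, s) := fun i =>
    HasStrictFDerivAt.comp (f := Prod.snd) (φ, s) (hl i).hasStrictFDerivAt hasStrictFDerivAt_snd
  have h3 := hasStrictFDerivAt_fst.prodMk (hasStrictFDerivAt_pi.2 fun k : Fin 2 =>
    HasStrictFDerivAt.fun_sum fun i (_ : i ∈ univ) => (h1 k i).fun_mul (h2 i))
  have hlin : ∀ (i : ι) (x : Fin 2 → ℂ),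
      fderiv ℂ (l i) s x = x 0 * pd 0 (l i) s + x 1 * pd 1 (l i) s := fun i x => by
    have e : x = x 0 • (Pi.single 0 1 : Fin 2 → ℂ) + x 1 • (Pi.single 1 1 : Fin 2 → ℂ) := by
      funext j
      fin_cases j <;> simp
    conv_lhs => rw [e]
    rw [map_add, map_smul, map_smul]
    rfl
  have h4 := h3.map_nhds_eq_of_surj (LinearMap.range_eq_top.2 ?_)
  · have h5 := image_mem_map (m := fun q : (Fin 2 → ι → ℂ) × (Fin 2 → ℂ) =>
      (q.1, fun k : Fin 2 => ∑ i, q.1 k i * l i q.2))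
      (prod_mem_nhds (univ_mem (f := 𝓝 φ)) hU)
    rw [h4] at h5
    obtain ⟨r, hr, hb⟩ := Metric.nhds_basis_closedBall.mem_iff.1 h5
    refine ⟨r, hr, fun ψ w hψ hw => ?_⟩
    obtain ⟨⟨ψ', x⟩, ⟨-, hx⟩, e⟩ := hb (a := (ψ, w)) (by
      rw [Metric.mem_closedBall, Prod.dist_eq]
      refine max_le ((dist_pi_le_iff hr.le).2 fun k => (dist_pi_le_iff hr.le).2 fun i => ?_)
        ((dist_pi_le_iff hr.le).2 fun k => ?_)
      · rw [dist_eq_norm]
        exact hψ k i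
      · rw [dist_eq_norm]
        exact hw k)
    obtain ⟨e1, e2⟩ := Prod.mk.inj e
    subst e1
    exact ⟨x, hx, fun k => congrFun e2 k⟩
  · rintro ⟨ψ, w⟩
    have hdet := sub_ne_zero.2 hd
    generalize hA : ∑ i, φ 0 i * pd 0 (l i) s = A at hdet
    generalize hB : ∑ i, φ 0 i * pd 1 (l i) s = B at hdet
    generalize hC : ∑ i, φ 1 i * pd 0 (l i) s = C at hdet
    generalize hD : ∑ i, φ 1 i * pd 1 (l i) s = D at hdet
    obtain ⟨u, hu⟩ : ∃ u : Fin 2 → ℂ, u = fun k => w k - ∑ i, l i s * ψ k i := ⟨_, rfl⟩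
    refine ⟨(ψ, ![(D * u 0 - B * u 1) / (A * D - B * C), (A * u 1 - C * u 0) / (A * D - B * C)]),
      Prod.ext rfl (funext fun k => ?_)⟩
    simp only [ContinuousLinearMap.coe_coe, ContinuousLinearMap.prod_apply,
      ContinuousLinearMap.pi_apply, _root_.sum_apply, add_apply, smul_apply,
      ContinuousLinearMap.comp_apply, ContinuousLinearMap.coe_snd', ContinuousLinearMap.coe_fst',
      ContinuousLinearMap.proj_apply, smul_eq_mul, hlin, Matrix.cons_val_zero, Matrix.cons_val_one,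
      mul_add, sum_add_distrib, mul_left_comm (φ k _), ← mul_sum]
    have hw : w k = u k + ∑ i, l i s * ψ k i := by rw [hu]; ring
    rw [hw, add_left_inj]
    fin_cases k
    · simp only [Fin.zero_eta, hA, hB]
      rw [div_mul_eq_mul_div, div_mul_eq_mul_div, ← add_div, div_eq_iff hdet]
      ring
    · simp only [Fin.mk_one, hC, hD]
      rw [div_mul_eq_mul_div, div_mul_eq_mul_div, ← add_div, div_eq_iff hdet]
      ring

theorem Cov_exp (a : ι → ℤ) (u : ι → ℂ) :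
    ∏ i, Complex.exp (u i) ^ a i = Complex.exp (∑ i, a i * u i) := by
  rw [Complex.exp_sum]
  exact prod_congr rfl fun i _ => (Complex.exp_int_mul _ _).symm

theorem Cov_win {q r t θ : ℝ} {n N : ℕ} (hq : 0 < q) (hr : 0 < r) (hn : n < N)
    (hN : (N : ℝ) ≤ q * r / 7) :
    |(θ + 2 * Real.pi * (n + ⌈(q * (t - r) - θ) / (2 * Real.pi)⌉)) / q - t| ≤ r := by
  have hπ := Real.two_pi_pos
  have h1 := Int.le_ceil ((q * (t - r) - θ) / (2 * Real.pi))
  have h2 := Int.ceil_lt_add_one ((q * (t - r) - θ) / (2 * Real.pi))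
  rw [div_le_iff₀ hπ] at h1
  rw [← sub_lt_iff_lt_add, lt_div_iff₀ hπ] at h2
  have h3 : (n : ℝ) + 1 ≤ N := by exact_mod_cast hn
  have h4 : 2 * Real.pi ≤ 7 := by linarith [Real.pi_lt_d2]
  have h5 := mul_le_mul h4 (h3.trans hN) (by positivity) (by norm_num)
  have h6 : 0 ≤ 2 * Real.pi * n := by positivity
  have h7 : 0 ≤ q * r := by positivity
  rw [abs_le, le_sub_iff_add_le, le_div_iff₀ hq, sub_le_iff_le_add, div_le_iff₀ hq]
  constructor <;> linarith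

theorem Cov_log {u v : ℂ} (h : Complex.exp u = Complex.exp v) (h1 : ‖u - v‖ < 2) : u = v := by
  obtain ⟨n, hn⟩ := Complex.exp_eq_exp_iff_exists_int.1 h
  rw [hn, add_sub_cancel_left] at h1
  by_cases h0 : n = 0
  · rw [hn, h0]
    simp
  · have h2 : (1 : ℝ) ≤ ‖(n : ℂ)‖ := by
      rw [Complex.norm_intCast]
      exact_mod_cast Int.one_le_abs h0
    have h3 : ‖(2 * Real.pi * Complex.I : ℂ)‖ = 2 * Real.pi := by
      simp [abs_of_pos Real.pi_pos]
    rw [norm_mul, h3] at h1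
    nlinarith [Real.pi_gt_three]

/-- Hint: let `U` be the set of `x` with `exp (l x) ∈ Z`, `‖l i x - l i s‖ < 1` and
`2 δ < ∑ i, φ 2 i * re (l i x)`; `r` from `unif_surj`, `ψ = a / q` where `a = round (q φ)`
(`abs_sub_round`). For `y k = exp (I θ k)` and `n : Fin 2 → Fin N₁`, `N₁ = ⌊q r / 7⌋₊`, take
`w k = I (θ k + 2 π (n k + n₀ k)) / q` with the integer `n₀ k = ⌈(q (im w₀ k - r) - θ k) / (2 π)⌉`,
where `w₀ k = ∑ i, φ k i * l i s` is purely imaginary. The points `z = exp (l x)` are distinct: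
equal `z` give equal `l x` (differences of norm less than `2 < 2 π`,
`Complex.exp_eq_exp_iff_exists_int`), hence equal `w`. `N₁ ^ 2 ≥ (r / 14) ^ 2 q ^ 2` for large `q`. -/
theorem cov {φ : Fin 3 → ι → ℝ} (h : NDat Z φ) : CovA Z φ := by
  classical
  obtain ⟨l, s, hl, hZ, h0, h1, h2, hd⟩ := h
  obtain ⟨δ, hδ⟩ : ∃ δ : ℝ, δ = (∑ i, φ 2 i * (l i s).re) / 3 := ⟨_, rfl⟩
  have hδ0 : 0 < δ := by rw [hδ]; positivity
  have hU1 : ∀ᶠ x in 𝓝 s, ∀ i, ‖l i x - l i s‖ < 1 := eventually_all.2 fun i => by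
    simpa only [dist_eq_norm] using Metric.tendsto_nhds.1 (hl i).continuousAt 1 one_pos
  have hU2 : ∀ᶠ x in 𝓝 s, 2 * δ < ∑ i, φ 2 i * (l i x).re := by
    have : Tendsto (fun x => ∑ i, φ 2 i * (l i x).re) (𝓝 s) (𝓝 (∑ i, φ 2 i * (l i s).re)) :=
      tendsto_finsetSum _ fun i _ =>
        ((Complex.continuous_re.tendsto _).comp (hl i).continuousAt).const_mul _
    exact this.eventually (lt_mem_nhds (by linarith))
  obtain ⟨r, hr, H⟩ := unif_surj hl (φ := fun k i => φ k.castSucc i) hd (hZ.and (hU1.and hU2))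
  obtain ⟨R, hR⟩ : ∃ R : ℝ, R = ∑ i, (‖l i s‖ + 1) := ⟨_, rfl⟩
  refine ⟨(r / 14) ^ 2, by positivity, δ, hδ0, Real.exp R, ⌈14 / r⌉₊ + ⌈R / δ⌉₊,
    fun q hq y hy => ?_⟩
  have hq' : (⌈14 / r⌉₊ : ℝ) + ⌈R / δ⌉₊ ≤ q := by exact_mod_cast hq
  have hq1 : 14 ≤ q * r := by
    rw [← div_le_iff₀ hr]
    linarith [Nat.le_ceil (14 / r), Nat.cast_nonneg (α := ℝ) ⌈R / δ⌉₊]
  have hq2 : R ≤ q * δ := by
    rw [← div_le_iff₀ hδ0]
    linarith [Nat.le_ceil (R / δ), Nat.cast_nonneg (α := ℝ) ⌈14 / r⌉₊]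
  have hq0 : (0 : ℝ) < q := (mul_pos_iff_of_pos_right hr).1 (by linarith)
  have hqc : (q : ℂ) ≠ 0 := by exact_mod_cast hq0.ne'
  have hre : ∀ k : Fin 2, ∑ i, (φ k.castSucc i : ℂ) * l i s =
      ((∑ i, (φ k.castSucc i : ℂ) * l i s).im : ℂ) * Complex.I := fun k => by
    refine Complex.ext ?_ (by simp)
    rw [Complex.re_sum]
    simp only [Complex.re_ofReal_mul, Complex.I_re, mul_zero]
    fin_cases k
    · exact h0
    · exact h1
  have hround : ∀ t : ℝ, |(round (q * t) : ℝ) - q * t| ≤ 1 / 2 := fun t => by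
    rw [abs_sub_comm]
    exact abs_sub_round _
  choose x hx hxw using fun n : Fin 2 → Fin ⌊q * r / 7⌋₊ => H
    (fun k i => (round (q * φ k.castSucc i) : ℂ) / q)
    (fun k => (((y k).arg + 2 * Real.pi * (n k + ⌈(q * ((∑ i, (φ k.castSucc i : ℂ) * l i s).im - r)
      - (y k).arg) / (2 * Real.pi)⌉)) / q : ℝ) * Complex.I)
    (fun k i => by
      have e : (round (q * φ k.castSucc i) : ℂ) / q - φ k.castSucc i =
          (((round (q * φ k.castSucc i) - q * φ k.castSucc i) / q : ℝ) : ℂ) := by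
        push_cast
        field_simp
      rw [e, Complex.norm_real, Real.norm_eq_abs, abs_div, abs_of_pos hq0, div_le_iff₀ hq0]
      linarith [hround (φ k.castSucc i)])
    (fun k => by
      conv_lhs => rw [hre k]
      rw [← sub_mul, norm_mul, Complex.norm_I, mul_one, ← Complex.ofReal_sub, Complex.norm_real,
        Real.norm_eq_abs, ← hre k]
      exact Cov_win hq0 hr (n k).2 (Nat.floor_le (by positivity)))
  have hinj : Function.Injective fun n i => Complex.exp (l i (x n)) := by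
    intro n n' hn
    have e1 : ∀ i, l i (x n) = l i (x n') := fun i => Cov_log (congrFun hn i) (by
      have := norm_sub_le_norm_sub_add_norm_sub (l i (x n)) (l i s) (l i (x n'))
      rw [norm_sub_rev (l i s)] at this
      linarith [(hx n).2.1 i, (hx n').2.1 i])
    funext k
    have e2 := hxw n k
    simp only [e1] at e2
    have e3 := Complex.ofReal_injective (mul_right_cancel₀ Complex.I_ne_zero
      (e2.symm.trans (hxw n' k)))
    rw [div_left_inj' hq0.ne', add_right_inj, mul_right_inj' Real.two_pi_pos.ne',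
      add_left_inj] at e3
    exact Fin.ext (by exact_mod_cast e3)
  have hmon : ∀ n (k : Fin 2),
      ∏ i, Complex.exp (l i (x n)) ^ round (q * φ k.castSucc i) = y k := fun n k => by
    have e1 : ∑ i, (round (q * φ k.castSucc i) : ℂ) * l i (x n) =
        q * ∑ i, (round (q * φ k.castSucc i) : ℂ) / q * l i (x n) := by
      rw [mul_sum]
      exact sum_congr rfl fun i _ => by field_simp
    rw [Cov_exp, e1, hxw n k]
    generalize ⌈(q * ((∑ i, (φ k.castSucc i : ℂ) * l i s).im - r) - (y k).arg) / (2 * Real.pi)⌉ = m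
    have e2 : (q : ℂ) * (((((y k).arg + 2 * Real.pi * (n k + m)) / q : ℝ) : ℂ) * Complex.I) =
        (y k).arg * Complex.I + ((n k : ℕ) + m : ℤ) * (2 * Real.pi * Complex.I) := by
      push_cast
      field_simp
    have e3 := Complex.norm_mul_exp_arg_mul_I (y k)
    rw [hy k, Complex.ofReal_one, one_mul] at e3
    rw [e2, Complex.exp_add, Complex.exp_int_mul_two_pi_mul_I, mul_one, e3]
  have hnorm : ∀ n i, |(l i (x n)).re| ≤ ‖l i s‖ + 1 := fun n i => by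
    have := norm_sub_norm_le (l i (x n)) (l i s)
    linarith [(hx n).2.1 i, Complex.abs_re_le_norm (l i (x n))]
  refine ⟨univ.image fun n i => Complex.exp (l i (x n)), ?_, fun z hz => ?_⟩
  · rw [card_image_of_injective _ hinj, card_univ, Fintype.card_fun, Fintype.card_fin,
      Fintype.card_fin, Nat.ceil_le, ← mul_pow, Nat.cast_pow]
    refine pow_le_pow_left₀ (by positivity) ?_ 2
    linarith [Nat.lt_floor_add_one (q * r / 7)]
  · obtain ⟨n, -, rfl⟩ := mem_image.1 hz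
    refine ⟨(hx n).1, fun i => ?_, hmon n 0, hmon n 1, ?_⟩
    · rw [Complex.norm_exp, Real.exp_le_exp, hR]
      exact ((le_abs_self _).trans (hnorm n i)).trans
        (single_le_sum (f := fun i => ‖l i s‖ + 1) (fun i _ => by positivity) (mem_univ i))
    · rw [Cov_exp, Complex.norm_exp, Real.exp_le_exp, Complex.re_sum]
      have e1 : ∀ i, q * (φ 2 i * (l i (x n)).re) - (‖l i s‖ + 1) ≤
          ((round (q * φ 2 i) : ℂ) * l i (x n)).re := fun i => by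
        rw [← Complex.ofReal_intCast, Complex.re_ofReal_mul]
        have k1 := mul_le_mul (hround (φ 2 i)) (hnorm n i) (abs_nonneg _) (by norm_num)
        rw [← abs_mul] at k1
        have k2 := neg_abs_le ((round (q * φ 2 i) - q * φ 2 i) * (l i (x n)).re)
        have k3 : 0 ≤ ‖l i s‖ + 1 := by positivity
        linarith
      have e2 := sum_le_sum fun i (_ : i ∈ univ) => e1 i
      rw [sum_sub_distrib, ← mul_sum, ← hR] at e2
      have e3 := mul_le_mul_of_nonneg_left (hx n).2.2.le hq0.le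
      linarith

/-- Finite Fourier inversion. -/
theorem four {I : Type} [Fintype I] {M : ℕ} (e : I → Fin M) (he : Function.Injective e)
    (p : I → ℂ) (i₀ : I) {ζ : ℂ} (hζ : IsPrimitiveRoot ζ M) :
    ∃ j : Fin M, ‖p i₀‖ ≤ ‖∑ i, p i * ζ ^ ((j : ℕ) * e i)‖ := by
  classical
  have hM : M ≠ 0 := (e i₀).pos.ne'
  have hn : ‖ζ‖ = 1 := hζ.norm'_eq_one hM
  have hz : ζ ≠ 0 := hζ.ne_zero hM
  have hg : ∀ i, ∑ j : Fin M, (ζ ^ (e i : ℕ) / ζ ^ (e i₀ : ℕ)) ^ (j : ℕ) =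
      if i = i₀ then (M : ℂ) else 0 := fun i => by
    split_ifs with h
    · rw [h, div_self (pow_ne_zero _ hz)]
      simp
    · rw [Fin.sum_univ_eq_sum_range (fun j => (ζ ^ (e i : ℕ) / ζ ^ (e i₀ : ℕ)) ^ j) M,
        geom_sum_eq fun h1 => h (he (Fin.ext (hζ.pow_inj (e i).2 (e i₀).2
          ((div_eq_one_iff_eq (pow_ne_zero _ hz)).1 h1)))),
        div_pow, ← pow_mul, ← pow_mul, mul_comm _ M, mul_comm _ M, pow_mul, pow_mul,
        hζ.pow_eq_one]
      simp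
  have hs : ∑ j : Fin M, (∑ i, p i * ζ ^ ((j : ℕ) * e i)) / (ζ ^ (e i₀ : ℕ)) ^ (j : ℕ) =
      p i₀ * M := by
    simp only [sum_div]
    rw [sum_comm]
    have : ∀ i, ∑ j : Fin M, p i * ζ ^ ((j : ℕ) * e i) / (ζ ^ (e i₀ : ℕ)) ^ (j : ℕ) =
        p i * if i = i₀ then (M : ℂ) else 0 := fun i => by
      rw [← hg, mul_sum]
      exact sum_congr rfl fun j _ => by rw [div_pow, mul_comm (j : ℕ), pow_mul, mul_div_assoc]
    simp [this]
  by_contra hc
  have h1 : ∀ j : Fin M, ‖∑ i, p i * ζ ^ ((j : ℕ) * e i)‖ < ‖p i₀‖ := fun j =>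
    lt_of_not_ge fun h => hc ⟨j, h⟩
  have h2 := norm_sum_le univ fun j : Fin M =>
    (∑ i, p i * ζ ^ ((j : ℕ) * e i)) / (ζ ^ (e i₀ : ℕ)) ^ (j : ℕ)
  simp only [norm_div, norm_pow, hn, one_pow, div_one] at h2
  have h3 := sum_lt_sum_of_nonempty ⟨e i₀, mem_univ _⟩ fun j (_ : j ∈ univ) => h1 j
  rw [hs, norm_mul, Complex.norm_natCast] at h2
  rw [sum_const, card_univ, Fintype.card_fin, nsmul_eq_mul] at h3
  linarith

section
open Polynomial

theorem Cov_avoid {Q : ℂ[X]} (hQ : Q ≠ 0) {D : ℕ} (hD : Q.natDegree ≤ D) (m : ℕ) :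
    ∃ c : ℕ, m ≤ c ∧ c ≤ m + D ∧ Q.eval (c : ℂ) ≠ 0 := by
  by_contra hc
  refine hQ (eq_zero_of_natDegree_lt_card_of_eval_eq_zero Q (ι := Fin (D + 1))
    (f := fun i => ((m + i : ℕ) : ℂ)) (fun i j h => Fin.ext ?_) (fun i => ?_) ?_)
  · exact Nat.add_left_cancel (Nat.cast_injective (R := ℂ) h)
  · by_contra h
    exact hc ⟨m + i, Nat.le_add_right _ _, by have := i.2; omega, h⟩
  · rw [Fintype.card_fin]
    omega

/-- the separating polynomial -/
noncomputable def Cov_F {N : ℕ} (e : ι ≃ Fin N) (η : ℂ) (z : ι → ℂ) : ℂ[X] :=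
  C η * (X ^ N + ∑ i, monomial (e i) (z i))

theorem Cov_F_deg {N : ℕ} (e : ι ≃ Fin N) (η : ℂ) (z : ι → ℂ) : (Cov_F e η z).natDegree ≤ N :=
  (natDegree_C_mul_le _ _).trans ((natDegree_add_le _ _).trans (max_le (natDegree_X_pow_le _)
    (natDegree_sum_le_of_forall_le _ _ fun i _ => (natDegree_monomial_le _).trans (e i).2.le)))

theorem Cov_F_inj {N : ℕ} (e : ι ≃ Fin N) {η η' : ℂ} (hη : η ≠ 0) {z z' : ι → ℂ}
    (h : Cov_F e η z = Cov_F e η' z') : z = z' := by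
  classical
  have h1 : ∀ η z, (Cov_F e η z).coeff N = η := fun η z => by
    have : ∀ i, (e i : ℕ) ≠ N := fun i => (e i).2.ne
    simp [Cov_F, coeff_monomial, this]
  have h2 : ∀ η z i, (Cov_F e η z).coeff (e i) = η * z i := fun η z i => by
    have : (e i : ℕ) ≠ N := (e i).2.ne
    simp [Cov_F, coeff_monomial, this, Fin.val_inj, coeff_X_pow]
  have h3 : η = η' := by rw [← h1 η z, h, h1]
  funext i
  refine mul_left_cancel₀ hη ?_
  rw [← h2, h, h2, h3]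

theorem Cov_F_eval {N : ℕ} (e : ι ≃ Fin N) (η : ℂ) (z : ι → ℂ) (c : ℕ) :
    (Cov_F e η z).eval (c : ℂ) = η * lin (fun o => o.elim (c ^ N) fun i => c ^ (e i : ℕ)) z := by
  simp [Cov_F, lin, eval_finsetSum, mul_comm]

theorem Cov_lin {N : ℕ} (e : ι ≃ Fin N) {ρ : ℝ} {z : ι → ℂ} (hz : ∀ i, ‖z i‖ ≤ ρ) {c : ℕ}
    (hc : ⌈N * ρ⌉₊ + 1 ≤ c) : 1 ≤ ‖lin (fun o => o.elim (c ^ N) fun i => c ^ (e i : ℕ)) z‖ := by
  have hc1 : (1 : ℝ) ≤ c := by exact_mod_cast (Nat.le_add_left 1 _).trans hc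
  have hc2 : N * ρ + 1 ≤ c := by
    have : (⌈N * ρ⌉₊ : ℝ) + 1 ≤ c := by exact_mod_cast hc
    linarith [Nat.le_ceil (N * ρ)]
  have h1 : c * ‖∑ i, ((c ^ (e i : ℕ) : ℕ) : ℂ) * z i‖ ≤ N * ρ * (c : ℝ) ^ N := by
    refine (mul_le_mul_of_nonneg_left (norm_sum_le _ _) (by positivity)).trans ?_
    rw [mul_sum]
    refine (sum_le_card_nsmul _ _ (ρ * (c : ℝ) ^ N) fun i _ => ?_).trans (le_of_eq ?_)
    · rw [norm_mul, Complex.norm_natCast, Nat.cast_pow, ← mul_assoc, ← pow_succ', mul_comm]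
      exact mul_le_mul (hz i) (pow_le_pow_right₀ hc1 (e i).2) (by positivity)
        ((norm_nonneg _).trans (hz i))
    · rw [card_univ, Fintype.card_congr e, Fintype.card_fin, nsmul_eq_mul, mul_assoc]
  have h2 := norm_sub_norm_le ((c ^ N : ℕ) : ℂ) (-∑ i, ((c ^ (e i : ℕ) : ℕ) : ℂ) * z i)
  rw [sub_neg_eq_add, norm_neg, Complex.norm_natCast, Nat.cast_pow] at h2
  have h3 : (c : ℝ) ≤ (c : ℝ) ^ N * (c - N * ρ) := by
    rcases Nat.eq_zero_or_pos N with h | h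
    · simp [h]
    · have := mul_le_mul (le_self_pow₀ hc1 h.ne') (by linarith : 1 ≤ c - N * ρ) zero_le_one
        (by positivity)
      linarith
  refine le_of_mul_le_mul_left ?_ (by linarith : (0 : ℝ) < c)
  have h4 := mul_le_mul_of_nonneg_left h2 (by linarith : (0 : ℝ) ≤ c)
  have h5 : lin (fun o => o.elim (c ^ N) fun i => c ^ (e i : ℕ)) z =
    ((c ^ N : ℕ) : ℂ) + ∑ i, ((c ^ (e i : ℕ) : ℕ) : ℂ) * z i := rfl
  rw [h5]
  linarith

/-- a polynomial with many large roots -/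
theorem Cov_roots {G : ℂ[X]} (hG : 1 ≤ ‖G.leadingCoeff‖) {β : Type} (Y : Finset β) {f : β → ℂ}
    (hf : Set.InjOn f Y) (h0 : ∀ z ∈ Y, G.eval (f z) = 0) {E : ℝ} (hE : 0 ≤ E)
    (h1 : ∀ z ∈ Y, E ≤ ‖f z‖) :
    #Y ≤ G.natDegree ∧ (E / 2) ^ #Y ≤ pn (NormedField.toAbsoluteValue ℂ) G := by
  have hG0 : G ≠ 0 := fun h => by
    rw [h, leadingCoeff_zero, norm_zero] at hG
    exact absurd hG (by norm_num)
  have hle : Y.val.map f ≤ G.roots := (Multiset.le_iff_subset (Y.nodup.map_on hf)).2 fun w hw => by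
    obtain ⟨z, hz, rfl⟩ := Multiset.mem_map.1 hw
    exact (mem_roots hG0).2 (h0 z hz)
  refine ⟨?_, ?_⟩
  · have := (Multiset.card_le_card hle).trans (card_roots' G)
    rwa [Multiset.card_map] at this
  · obtain ⟨μ, hμ⟩ := (Multiset.prod_X_sub_C_dvd_iff_le_roots hG0 _).2 hle
    have h2 := mult_loc (NormedField.toAbsoluteValue ℂ) (Y.val.map f) μ
    rw [← hμ, Multiset.map_map] at h2
    rw [hμ, leadingCoeff_monic_mul (monic_multisetProd_X_sub_C _)] at hG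
    have h3 : (E / 2) ^ #Y ≤ ∏ z ∈ Y, ‖f z‖ / 2 := by
      rw [← prod_const]
      exact prod_le_prod (fun _ _ => by positivity) fun z hz => by linarith [h1 z hz]
    exact h3.trans ((le_mul_of_one_le_left (prod_nonneg fun _ _ => by positivity) hG).trans h2)

end

/-- Hint: `N = card ι`, `e : ι ≃ Fin N`, `M = A ^ 2`, `ζ` a primitive `M`-th root of unity, test
points `y j = ![ζ ^ j, ζ ^ (j A)]`, sets `Y j` of exactly `N₀` points
(`Finset.exists_subset_card_eq`). For `z ≠ z'` the polynomial in `T`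
`η z * (T ^ N + ∑ T ^ e i * z i) - η z' * (…)`, `η z = (∏ z ^ a 2) ^ k ≠ 0`, is nonzero of degree at
most `N`; so some natural `c₁` in `[⌈N ρ⌉₊ + 1, ⌈N ρ⌉₊ + 1 + N M N₀ ^ 2]` is a root of none of them
(`Polynomial.card_roots'` for the product). `c none = c₁ ^ N`, `c (some i) = c₁ ^ e i`, so
`1 ≤ ‖lin c z‖`. Given `p ≠ 0` let `γ₁` be the largest third index with a nonzero coefficient;
`four` gives `j` such that `G = ∑ x, C (p x * y₀ ^ x.1 * y₁ ^ x.2.1) * X ^ x.2.2` has degree `γ₁`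
and leading coefficient of norm at least one. It has the `N₀` distinct roots `η z * lin c z`
(`Multiset.prod_X_sub_C_dvd_iff_le_roots`), so `N₀ ≤ γ₁`, and `mult_loc` for
`NormedField.toAbsoluteValue ℂ` gives the bound since `pn G ≤ ∑ |p x|`. -/
theorem gb {a : Fin 3 → ι → ℤ} {N₀ : ℕ} {ρ E : ℝ} (hE : 0 < E) (h : Cov Z a N₀ ρ E) :
    ∃ c₀ : ℕ, ∀ k A : ℕ, ∃ c : Option ι → ℕ, (∀ o, c o ≤ (c₀ * (A + 1) ^ 2) ^ Fintype.card ι) ∧
      ∀ (B : ℕ) (p : Fin A × Fin A × Fin B → ℤ), p ≠ 0 →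
        (∀ z ∈ Z, ∑ x, (p x : ℂ) * mon a k c z x = 0) →
        N₀ < B ∧ (E ^ k / 2) ^ N₀ ≤ ∑ x, |(p x : ℝ)| := by
  classical
  obtain ⟨N, hN⟩ : ∃ N, N = Fintype.card ι := ⟨_, rfl⟩
  obtain ⟨e⟩ : Nonempty (ι ≃ Fin N) := ⟨hN ▸ Fintype.equivFin ι⟩
  rw [← hN]
  refine ⟨⌈N * ρ⌉₊ + 1 + N₀ * N₀ * N, fun k A => ?_⟩
  rcases Nat.eq_zero_or_pos A with rfl | hA
  · exact ⟨fun _ => 0, fun _ => Nat.zero_le _, fun B p hp _ => absurd (funext fun x => x.1.elim0) hp⟩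
  have hM : A * A ≠ 0 := (Nat.mul_pos hA hA).ne'
  have hζ := Complex.isPrimitiveRoot_exp (A * A) hM
  generalize Complex.exp (2 * Real.pi * Complex.I / (A * A : ℕ)) = ζ at hζ
  have hn : ‖ζ‖ = 1 := hζ.norm'_eq_one hM
  have hY : ∀ j : Fin (A * A), ∃ Y : Finset (ι → ℂ), #Y = N₀ ∧ ∀ z ∈ Y, z ∈ Z ∧ (∀ i, ‖z i‖ ≤ ρ) ∧
      ∏ i, z i ^ a 0 i = ζ ^ (j : ℕ) ∧ ∏ i, z i ^ a 1 i = ζ ^ ((j : ℕ) * A) ∧
      E ≤ ‖∏ i, z i ^ a 2 i‖ := fun j => by
    obtain ⟨Y, h1, h2⟩ := h ![ζ ^ (j : ℕ), ζ ^ ((j : ℕ) * A)] fun k => by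
      fin_cases k <;> simp [hn]
    obtain ⟨Y', h3, h4⟩ := exists_subset_card_eq h1
    exact ⟨Y', h4, fun z hz => h2 z (h3 hz)⟩
  choose Y hY1 hY2 using hY
  have hη : ∀ j, ∀ z ∈ Y j, (∏ i, z i ^ a 2 i) ^ k ≠ 0 := fun j z hz =>
    pow_ne_zero _ (norm_pos_iff.1 (hE.trans_le (hY2 j z hz).2.2.2.2))
  obtain ⟨c, hc1, hc2, hc3⟩ := Cov_avoid (Q := ∏ j, ∏ q ∈ (Y j).offDiag,
      (Cov_F e ((∏ i, q.1 i ^ a 2 i) ^ k) q.1 - Cov_F e ((∏ i, q.2 i ^ a 2 i) ^ k) q.2))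
    (prod_ne_zero_iff.2 fun j _ => prod_ne_zero_iff.2 fun q hq => sub_ne_zero.2 fun h1 =>
      (mem_offDiag.1 hq).2.2 (Cov_F_inj e (hη j _ (mem_offDiag.1 hq).1) h1))
    (D := A * A * (N₀ * N₀ * N))
    ((Polynomial.natDegree_prod_le _ _).trans ((sum_le_card_nsmul _ _ (N₀ * N₀ * N) fun j _ =>
      (Polynomial.natDegree_prod_le _ _).trans ((sum_le_card_nsmul _ _ N fun q _ =>
        (Polynomial.natDegree_sub_le _ _).trans (max_le (Cov_F_deg _ _ _) (Cov_F_deg _ _ _))).trans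
        (by
          rw [offDiag_card, hY1, smul_eq_mul]
          exact Nat.mul_le_mul_right _ (Nat.sub_le _ _)))).trans (by simp)))
    (⌈N * ρ⌉₊ + 1)
  have hc0 : 1 ≤ c := (Nat.le_add_left 1 _).trans hc1
  have hc4 : c ≤ (⌈N * ρ⌉₊ + 1 + N₀ * N₀ * N) * (A + 1) ^ 2 := by
    refine hc2.trans ?_
    rw [add_mul _ (N₀ * N₀ * N), mul_comm (A * A)]
    exact add_le_add (Nat.le_mul_of_pos_right _ (by positivity))
      (Nat.mul_le_mul_left _ (by nlinarith))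
  refine ⟨fun o => o.elim (c ^ N) fun i => c ^ (e i : ℕ), fun o => ?_, fun B p hp hrel => ?_⟩
  · refine le_trans ?_ (Nat.pow_le_pow_left hc4 N)
    cases o with
    | none => exact le_rfl
    | some i => exact Nat.pow_le_pow_right hc0 (e i).2.le
  obtain ⟨x₀, hx₀, hmax⟩ := exists_max_image (univ.filter fun x => p x ≠ 0) (fun x => x.2.2)
    (by
      obtain ⟨x, hx⟩ := Function.ne_iff.1 hp
      exact ⟨x, mem_filter.2 ⟨mem_univ _, hx⟩⟩)
  obtain ⟨j, hj⟩ := four (fun b : Fin A × Fin A => finProdFinEquiv b.swap)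
    (finProdFinEquiv.injective.comp Prod.swap_injective) (fun b => (p (b.1, b.2, x₀.2.2) : ℂ))
    (x₀.1, x₀.2.1) hζ
  obtain ⟨G, hG⟩ : ∃ G : Polynomial ℂ, G = ∑ x : Fin A × Fin A × Fin B, Polynomial.monomial x.2.2
    (p x * (ζ ^ (j : ℕ)) ^ (x.1 : ℕ) * (ζ ^ ((j : ℕ) * A)) ^ (x.2.1 : ℕ)) := ⟨_, rfl⟩
  have g1 : 1 ≤ ‖G.coeff x₀.2.2‖ := by
    have k1 : (1 : ℝ) ≤ ‖(p x₀ : ℂ)‖ := by
      rw [Complex.norm_intCast]
      exact_mod_cast Int.one_le_abs (mem_filter.1 hx₀).2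
    refine k1.trans (hj.trans (le_of_eq ?_))
    congr 1
    rw [hG, Polynomial.finsetSum_coeff, Fintype.sum_prod_type, Fintype.sum_prod_type]
    refine sum_congr rfl fun α _ => ?_
    rw [Fintype.sum_prod_type]
    refine sum_congr rfl fun β _ => ?_
    simp only [Polynomial.coeff_monomial, Fin.val_inj, sum_ite_eq', mem_univ, if_true,
      finProdFinEquiv_apply_val, Prod.fst_swap, Prod.snd_swap]
    ring
  have g2 : G.natDegree = x₀.2.2 := by
    refine le_antisymm ?_ (Polynomial.le_natDegree_of_ne_zero (norm_pos_iff.1 (by linarith)))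
    rw [hG]
    refine Polynomial.natDegree_sum_le_of_forall_le _ _ fun x _ => ?_
    by_cases hx : p x = 0
    · simp [hx]
    · exact (Polynomial.natDegree_monomial_le _).trans
        (hmax x (mem_filter.2 ⟨mem_univ _, hx⟩))
  obtain ⟨r1, r2⟩ := Cov_roots (G := G) (by rwa [Polynomial.leadingCoeff, g2]) (Y j)
    (f := fun z => (∏ i, z i ^ a 2 i) ^ k * lin (fun o => o.elim (c ^ N) fun i => c ^ (e i : ℕ)) z)
    (fun z hz z' hz' h1 => by_contra fun hne => hc3 (by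
      rw [Polynomial.eval_prod]
      refine prod_eq_zero (mem_univ j) ?_
      rw [Polynomial.eval_prod]
      refine prod_eq_zero (i := (z, z')) (mem_offDiag.2 ⟨hz, hz', hne⟩) ?_
      rw [Polynomial.eval_sub, Cov_F_eval, Cov_F_eval]
      exact sub_eq_zero.2 h1))
    (fun z hz => by
      rw [← hrel z (hY2 j z hz).1, hG, Polynomial.eval_finsetSum]
      refine sum_congr rfl fun x _ => ?_
      rw [Polynomial.eval_monomial, mon, (hY2 j z hz).2.2.1, (hY2 j z hz).2.2.2.1]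
      ring)
    (E := E ^ k) (by positivity) (fun z hz => by
      rw [norm_mul, norm_pow]
      exact (pow_le_pow_left₀ hE.le (hY2 j z hz).2.2.2.2 k).trans
        (le_mul_of_one_le_right (by positivity) (Cov_lin e (hY2 j z hz).2.1 hc1)))
  rw [hY1] at r1 r2
  refine ⟨(r1.trans g2.le).trans_lt x₀.2.2.2, r2.trans ?_⟩
  rw [hG]
  refine ((sn_abs _).pn.sum _ _).trans (sum_le_sum fun x _ => le_of_eq ?_)
  rw [(sn_abs _).pn_monomial]
  change ‖(_ : ℂ)‖ = _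
  simp [hn]

end Pool.Agent.ZPT
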