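import Pool.Agent.P.MP_4fdccb_ag.AlgB
import Pool.Agent.P.MP_4fdccb_ag.S.Def

/-! A very general complex point; separation of holomorphic and antiholomorphic parts. -/

set_option linter.unusedSectionVars false
set_option linter.unusedVariables false

namespace Pool.Agent.ZPT
open Finset Filter Topology MvPolynomial IntermediateField Matrix

theorem Emb_indep {K J : Type} [Field K] [NumberField K] [Algebra K ℂ] [Fintype J] (c : J → ℂ) :
    ∃ s' : Fin 2 → ℂ, AlgebraicIndependent (adjoin K (Set.range c)) s' := by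
  obtain ⟨t, ht⟩ := exists_isTranscendenceBasis (adjoin K (Set.range c)) ℂ
  have hK : Cardinal.mk K ≤ Cardinal.aleph0 :=
    (Algebra.IsAlgebraic.cardinalMk_le_max ℚ K).trans (by simp)
  have hk : Cardinal.mk (adjoin K (Set.range c)) ≤ Cardinal.aleph0 :=
    (IntermediateField.cardinalMk_adjoin_le K (Set.range c)).trans
      (max_le (max_le hK (Set.finite_range c).countable.le_aleph0) le_rfl)
  have hC : Cardinal.aleph0 < Cardinal.mk ℂ := by
    rw [Cardinal.mk_complex]; exact Cardinal.aleph0_lt_continuum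
  have h := IsAlgClosed.cardinal_eq_cardinal_transcendence_basis_of_aleph0_lt' _ ht hk hC
  have : Infinite t := Cardinal.aleph0_le_mk_iff.1 (h ▸ hC.le)
  exact ⟨_, ht.1.comp (fun i : Fin 2 => Infinite.natEmbedding t i) fun a b hab =>
    Fin.ext ((Infinite.natEmbedding t).injective hab)⟩

theorem Emb_lift {K Ω : Type} [Field K] [Algebra K ℂ] [Field Ω] [Algebra K Ω] {s₀ : Fin 2 → Ω}
    (h₀ : IsTranscendenceBasis K s₀) {s' : Fin 2 → ℂ} (hs : AlgebraicIndependent K s') :
    ∃ j : Ω →ₐ[K] ℂ, j ∘ s₀ = s' := by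
  let A := Algebra.adjoin K (Set.range s₀)
  let φ : A →ₐ[K] ℂ := (aeval s').comp h₀.1.aevalEquiv.symm.toAlgHom
  have hφ : Function.Injective φ :=
    (algebraicIndependent_iff_injective_aeval.1 hs).comp h₀.1.aevalEquiv.symm.injective
  let _ : Algebra A ℂ := φ.toRingHom.toAlgebra
  have : IsScalarTower K A ℂ := .of_algebraMap_eq fun x => (φ.commutes x).symm
  have : Module.IsTorsionFree A ℂ :=
    (Module.isTorsionFree_iff_algebraMap_injective).2 hφ
  have := h₀.isAlgebraic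
  let j : Ω →ₐ[A] ℂ := IsAlgClosed.lift
  refine ⟨j.restrictScalars K, funext fun i => ?_⟩
  have h1 := j.commutes (h₀.1.aevalEquiv (X i))
  rw [h₀.1.algebraMap_aevalEquiv, aeval_X] at h1
  refine h1.trans ?_
  change aeval s' (h₀.1.aevalEquiv.symm (h₀.1.aevalEquiv (X i))) = _
  simp

/-- Hint: `k = adjoin K (range c)` is countable (`IntermediateField.cardinalMk_adjoin_le`), so a
transcendence basis of `ℂ` over `k` is infinite
(`IsAlgClosed.cardinal_eq_cardinal_transcendence_basis_of_aleph0_lt'`): choose `s' : Fin 2 → ℂ`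
independent over `k`, hence over `K`. Take a transcendence basis `s₀ : Fin 2 → Ω`, map
`A = Algebra.adjoin K (range s₀)` to `ℂ` by `s₀ ↦ s'` (`AlgebraicIndependent.aevalEquiv`), extend to
`j' : Ω → ℂ` by `IsAlgClosed.lift`. `F = adjoin k (range (j' ∘ ξ))` contains the image of `j'`;
`restr` of the file AlgB gives the last claim. -/
theorem emb {K Ω ι J : Type} [Field K] [NumberField K] [Algebra K ℂ] [Field Ω] [Algebra K Ω]
    [Fintype ι] [Fintype J] {ξ : ι → Ω} (htop : adjoin K (Set.range ξ) = ⊤)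
    (htr : Algebra.trdeg K Ω = 2) (c : J → ℂ) :
    ∃ (k : IntermediateField K ℂ) (F : IntermediateField k ℂ) (j : Ω →ₐ[K] F) (s₀ : Fin 2 → Ω),
      (∀ x, c x ∈ k) ∧ IsTranscendenceBasis k (j ∘ s₀) ∧ adjoin k (Set.range (j ∘ ξ)) = ⊤ := by
  obtain ⟨s', hs'⟩ := Emb_indep (K := K) c
  set k := adjoin K (Set.range c)
  obtain ⟨t, ht⟩ := exists_isTranscendenceBasis K Ω
  have t3 := ht.cardinalMk_eq_trdeg
  rw [htr] at t3
  obtain ⟨e⟩ := Cardinal.mk_eq_nat_iff.1 (t3.trans (Nat.cast_ofNat (n := 2)).symm)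
  have h₀ := ht.comp_equiv e.symm
  set s₀ := Subtype.val ∘ e.symm
  obtain ⟨j', hj'⟩ := Emb_lift h₀ (hs'.restrictScalars (algebraMap K k).injective)
  let F := adjoin k (Set.range (j' ∘ ξ))
  have hF : ∀ x, j' x ∈ F := fun x => by
    have hx : x ∈ adjoin K (Set.range ξ) := htop ▸ mem_top
    induction hx using adjoin_induction with
    | mem x hx =>
      obtain ⟨i, rfl⟩ := hx
      exact subset_adjoin _ _ ⟨i, rfl⟩
    | algebraMap r =>
      rw [j'.commutes, IsScalarTower.algebraMap_apply K k ℂ]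
      exact F.algebraMap_mem _
    | add x y _ _ hx hy => rw [map_add]; exact add_mem hx hy
    | inv x _ hx => rw [map_inv₀]; exact inv_mem hx
    | mul x y _ _ hx hy => rw [map_mul]; exact mul_mem hx hy
  let j : Ω →ₐ[K] F :=
    { toRingHom := j'.toRingHom.codRestrict F hF
      commutes' := fun r => Subtype.ext (j'.commutes r) }
  have htop' : adjoin k (Set.range (j ∘ ξ)) = ⊤ := by
    obtain ⟨y, h1, h2⟩ := restr (F := k) (j' ∘ ξ)
    rwa [show j ∘ ξ = y from funext fun i => Subtype.ext (congrFun h1 i).symm]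
  have hind : AlgebraicIndependent k (j ∘ s₀) :=
    AlgebraicIndependent.of_comp F.val (by rw [← hj'] at hs'; exact hs')
  refine ⟨k, F, j, s₀, fun x => subset_adjoin _ _ ⟨x, rfl⟩,
    hind.isTranscendenceBasis_iff_isAlgebraic.2 ⟨fun x => ?_⟩, htop'⟩
  let B := Algebra.adjoin k (Set.range (j ∘ s₀))
  have hB : ∀ a ∈ Algebra.adjoin K (Set.range s₀), j a ∈ B := fun a ha => by
    induction ha using Algebra.adjoin_induction with
    | mem x hx =>
      obtain ⟨i, rfl⟩ := hx
      exact Algebra.subset_adjoin ⟨i, rfl⟩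
    | algebraMap r =>
      rw [j.commutes, IsScalarTower.algebraMap_apply K k F]
      exact B.algebraMap_mem _
    | add x y _ _ hx hy => rw [map_add]; exact add_mem hx hy
    | mul x y _ _ hx hy => rw [map_mul]; exact mul_mem hx hy
  let f : Algebra.adjoin K (Set.range s₀) →+* B :=
    (j.toRingHom.comp (Algebra.adjoin K (Set.range s₀)).val.toRingHom).codRestrict B
      fun a => hB a a.2
  have hf : Function.Injective f := fun a b hab =>
    Subtype.ext (j.toRingHom.injective (congrArg Subtype.val hab))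
  have halg : ∀ x, IsAlgebraic B (j x) := fun x =>
    (h₀.isAlgebraic.isAlgebraic x).ringHom_of_comp_eq f j.toRingHom hf rfl
  have hx : x ∈ adjoin k (Set.range (j ∘ ξ)) := htop' ▸ mem_top
  induction hx using adjoin_induction with
  | mem x hx =>
    obtain ⟨i, rfl⟩ := hx
    exact halg _
  | algebraMap r =>
    rw [IsScalarTower.algebraMap_apply k B F]
    exact isAlgebraic_algebraMap _
  | add x y _ _ hx hy => exact hx.add hy
  | inv x _ hx => exact hx.inv
  | mul x y _ _ hx hy => exact hx.mul hy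

/-- Hint: take real Frechet derivatives (`HasFDerivAt.restrictScalars ℝ`, `Complex.conjCLE`) of
the identity in the directions `h` and `I • h` and combine. -/
theorem sep_conj {β : Type} [Fintype β] {F : (Fin 2 → ℂ) → ℂ} {f g : β → (Fin 2 → ℂ) → ℂ}
    {s : Fin 2 → ℂ} (hF : DifferentiableAt ℂ F s) (hf : ∀ k, DifferentiableAt ℂ (f k) s)
    (hg : ∀ k, DifferentiableAt ℂ (g k) s)
    (h : ∀ᶠ x in 𝓝 s, F x + ∑ k, (starRingEnd ℂ) (f k x) * g k x = 0) (j : Fin 2) :
    ∑ k, (starRingEnd ℂ) (pd j (f k) s) * g k s = 0 ∧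
      pd j F s + ∑ k, (starRingEnd ℂ) (f k s) * pd j (g k) s = 0 := by
  have hc : ∀ k, HasFDerivAt (fun x => (starRingEnd ℂ) (f k x))
      ((Complex.conjCLE : ℂ →L[ℝ] ℂ).comp ((fderiv ℂ (f k) s).restrictScalars ℝ)) s := fun k =>
    (Complex.conjCLE : ℂ →L[ℝ] ℂ).hasFDerivAt.comp s ((hf k).hasFDerivAt.restrictScalars ℝ)
  have h1 := (hF.hasFDerivAt.restrictScalars ℝ).add (HasFDerivAt.fun_sum (u := univ) fun k _ =>
    (hc k).mul ((hg k).hasFDerivAt.restrictScalars ℝ))
  have h2 := h1.unique ((hasFDerivAt_const (0 : ℂ) s).congr_of_eventuallyEq h)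
  have h3 := DFunLike.congr_fun h2 (Pi.single j 1)
  have h4 := DFunLike.congr_fun h2 (Complex.I • Pi.single j 1)
  simp only [_root_.add_apply, ContinuousLinearMap.coe_restrictScalars',
    _root_.sum_apply, _root_.smul_apply, smul_eq_mul,
    ContinuousLinearMap.comp_apply, ContinuousLinearEquiv.coe_coe, Complex.conjCLE_apply,
    _root_.zero_apply, map_smul, map_mul, Complex.conj_I, sum_add_distrib] at h3 h4
  simp only [pd]
  have e1 : ∑ k, (starRingEnd ℂ) (f k s) * (Complex.I * fderiv ℂ (g k) s (Pi.single j 1)) =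
      Complex.I * ∑ k, (starRingEnd ℂ) (f k s) * fderiv ℂ (g k) s (Pi.single j 1) := by
    rw [mul_sum]; exact sum_congr rfl fun k _ => by ring
  have e2 : ∑ k, g k s * (-Complex.I * (starRingEnd ℂ) (fderiv ℂ (f k) s (Pi.single j 1))) =
      -Complex.I * ∑ k, (starRingEnd ℂ) (fderiv ℂ (f k) s (Pi.single j 1)) * g k s := by
    rw [mul_sum]; exact sum_congr rfl fun k _ => by ring
  have e3 : ∑ k, g k s * (starRingEnd ℂ) (fderiv ℂ (f k) s (Pi.single j 1)) =
      ∑ k, (starRingEnd ℂ) (fderiv ℂ (f k) s (Pi.single j 1)) * g k s :=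
    sum_congr rfl fun k _ => mul_comm _ _
  rw [e1, e2] at h4
  rw [e3] at h3
  constructor
  · linear_combination (1 / 2 : ℂ) * h3 + (Complex.I / 2) * h4 -
      ((fderiv ℂ F s (Pi.single j 1) + ∑ k, (starRingEnd ℂ) (f k s) *
        fderiv ℂ (g k) s (Pi.single j 1) - ∑ k, (starRingEnd ℂ)
          (fderiv ℂ (f k) s (Pi.single j 1)) * g k s) / 2) * Complex.I_mul_I
  · linear_combination (1 / 2 : ℂ) * h3 - (Complex.I / 2) * h4 +
      ((fderiv ℂ F s (Pi.single j 1) + ∑ k, (starRingEnd ℂ) (f k s) *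
        fderiv ℂ (g k) s (Pi.single j 1) - ∑ k, (starRingEnd ℂ)
          (fderiv ℂ (f k) s (Pi.single j 1)) * g k s) / 2) * Complex.I_mul_I

theorem an_pd {f : (Fin 2 → ℂ) → ℂ} {s : Fin 2 → ℂ} (h : AnalyticAt ℂ f s) (j : Fin 2) :
    AnalyticAt ℂ (pd j f) s := by
  exact (ContinuousLinearMap.apply ℂ ℂ (Pi.single j 1 : Fin 2 → ℂ)).analyticAt _ |>.comp h.fderiv

theorem Emb_par {w a : Fin 3 → ℂ} (h : w ⨯₃ a = 0) (i j : Fin 3) : w j * a i = w i * a j := by
  have a0 := congrFun h 0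
  have a1 := congrFun h 1
  have a2 := congrFun h 2
  simp only [cross_apply, cons_val_zero, cons_val_one, cons_val_two, Pi.zero_apply,
    Nat.succ_eq_add_one, Nat.reduceAdd, tail_cons, head_cons, sub_eq_zero] at a0 a1 a2
  fin_cases i <;> fin_cases j <;> simp [a0, a1, a2]

theorem Emb_cross {a b u v : Fin 3 → ℂ} (hab : a ⨯₃ b ≠ 0) (h1 : a ⬝ᵥ u = 0) (h2 : b ⬝ᵥ u = 0)
    (h3 : a ⬝ᵥ v = 0) (h4 : b ⬝ᵥ v = 0) : u ⨯₃ v = 0 := by
  have key : ∀ c : Fin 3 → ℂ, c ⬝ᵥ u = 0 → c ⬝ᵥ v = 0 → (u ⨯₃ v) ⨯₃ c = 0 := fun c hu hv => by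
    rw [cross_cross_eq_smul_sub_smul, dotProduct_comm u, dotProduct_comm v, hu, hv]
    simp
  set w := u ⨯₃ v
  have ha := Emb_par (key a h1 h3)
  have hb := Emb_par (key b h2 h4)
  obtain ⟨i, hi⟩ := Function.ne_iff.1 hab
  have hw : ∀ l p q, w l * (a p * b q - a q * b p) = 0 := fun l p q => by
    linear_combination a p * hb q l - a q * hb p l + b l * ha p q
  refine funext fun l => (mul_eq_zero.1 (?_ : w l * (a ⨯₃ b) i = 0)).resolve_right hi
  fin_cases i
  exacts [hw l 1 2, hw l 2 0, hw l 0 1]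

/-- Hint: `2 re w = w + conj w`; the first part of `sep_conj` at all points near `s`
(`eventually_eventually_nhds`, `AnalyticAt.eventually_analyticAt`) gives
`∑ k, conj (pd j (Λ k) x) * κ x k = 0`; the second part with `F = 0` gives the same with
`pd m κ` at `s`. With `a j = conj (pd j Λ s)` one has `a 0 ⨯₃ a 1 = conj (κ s)`; two vectors
orthogonal to `a 0` and `a 1` are parallel when `a 0 ⨯₃ a 1 ≠ 0` (`cross_cross_eq_smul_sub_smul`). -/
theorem stepA {Λ : Fin 3 → (Fin 2 → ℂ) → ℂ} {s : Fin 2 → ℂ} (hΛ : ∀ k, AnalyticAt ℂ (Λ k) s)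
    {κ : (Fin 2 → ℂ) → Fin 3 → ℂ}
    (hκ : ∀ x, κ x = (fun k => pd 0 (Λ k) x) ⨯₃ fun k => pd 1 (Λ k) x)
    (h : ∀ᶠ x in 𝓝 s, ∑ k, ((Λ k x).re : ℂ) * κ x k = 0) (m : Fin 2) :
    κ s ⨯₃ (fun k => pd m (fun x => κ x k) s) = 0 := by
  have hκa : ∀ {x}, (∀ k, AnalyticAt ℂ (Λ k) x) → ∀ k, AnalyticAt ℂ (fun x => κ x k) x := by
    intro x hx k
    have h0 := fun j k => an_pd (hx k) j
    simp only [hκ]
    fin_cases k
    exacts [((h0 0 1).mul (h0 1 2)).sub ((h0 0 2).mul (h0 1 1)),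
      ((h0 0 2).mul (h0 1 0)).sub ((h0 0 0).mul (h0 1 2)),
      ((h0 0 0).mul (h0 1 1)).sub ((h0 0 1).mul (h0 1 0))]
  have h1 : ∀ᶠ x in 𝓝 s, ∑ k, Λ k x * κ x k + ∑ k, (starRingEnd ℂ) (Λ k x) * κ x k = 0 :=
    h.mono fun x hx => by
      rw [← sum_add_distrib, ← mul_zero (2 : ℂ), ← hx, mul_sum]
      exact sum_congr rfl fun k _ => by
        rw [← add_mul, Complex.add_conj]; push_cast; ring
  have h2 : ∀ j, ∀ᶠ x in 𝓝 s,
      (0 : ℂ) + ∑ k, (starRingEnd ℂ) (pd j (Λ k) x) * κ x k = 0 := fun j => by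
    filter_upwards [eventually_eventually_nhds.2 h1,
      eventually_all.2 fun k => (hΛ k).eventually_analyticAt] with x hx ha
    rw [zero_add]
    exact (sep_conj (F := fun x => ∑ k, Λ k x * κ x k) (g := fun k x => κ x k)
      (DifferentiableAt.fun_sum fun k _ =>
        (ha k).differentiableAt.mul (hκa ha k).differentiableAt)
      (fun k => (ha k).differentiableAt) (fun k => (hκa ha k).differentiableAt) hx j).1
  have h3 : ∀ j, (fun k => (starRingEnd ℂ) (pd j (Λ k) s)) ⬝ᵥ κ s = 0 := fun j =>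
    (zero_add _).symm.trans (h2 j).self_of_nhds
  have h4 : ∀ j, (fun k => (starRingEnd ℂ) (pd j (Λ k) s)) ⬝ᵥ
      (fun k => pd m (fun x => κ x k) s) = 0 := fun j => by
    have := (sep_conj (F := fun _ => 0) (f := fun k => pd j (Λ k)) (g := fun k x => κ x k)
      (differentiableAt_const _) (fun k => (an_pd (hΛ k) j).differentiableAt)
      (fun k => (hκa hΛ k).differentiableAt) (h2 j) m).2
    simpa [pd, dotProduct] using this
  by_cases h0 : κ s = 0
  · simp [h0]
  refine Emb_cross (fun h5 => h0 (funext fun k => ?_)) (h3 0) (h3 1) (h4 0) (h4 1)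
  have h6 := congrArg (starRingEnd ℂ) (congrFun h5 k)
  rw [hκ]
  fin_cases k <;> simpa [cross_apply] using h6

end Pool.Agent.ZPT
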