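import Pool.Agent.P.MP_4fdccb_ag.S.Pt
import Pool.Agent.P.MP_4fdccb_ag.S.Chart
import Pool.Agent.P.MP_4fdccb_ag.S.Emb
import Pool.Agent.P.MP_4fdccb_ag.S.Fib

/-! The dichotomy between the nondegenerate and the fibred case. -/

set_option linter.unusedSectionVars false
set_option linter.unusedVariables false

namespace Pool.Agent.ZPT
open Finset MvPolynomial Filter Topology IntermediateField Matrix

section Rep
variable {k : Type} [Field k] [Algebra k ℂ] {F : IntermediateField k ℂ} {s : Fin 2 → F}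
  {D : Fin 2 → Derivation k F F} {Rep : ((Fin 2 → ℂ) → ℂ) → F → Prop}

theorem Dich_zero (h : RepOK F s D Rep) : Rep (fun _ => 0) 0 := by simpa using h.const 0

theorem Dich_one (h : RepOK F s D Rep) : Rep (fun _ => 1) 1 := by simpa using h.const 1

theorem Dich_sub (h : RepOK F s D Rep) {f g : (Fin 2 → ℂ) → ℂ} {α β : F} (hf : Rep f α)
    (hg : Rep g β) : Rep (fun x => f x - g x) (α - β) := by
  simpa [sub_eq_add_neg] using h.add hf (h.mul (h.const (-1)) hg)

theorem Dich_sum (h : RepOK F s D Rep) {β : Type} (S : Finset β) {f : β → (Fin 2 → ℂ) → ℂ}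
    {α : β → F} (hf : ∀ i, Rep (f i) (α i)) : Rep (fun x => ∑ i ∈ S, f i x) (∑ i ∈ S, α i) := by
  classical
  induction S using Finset.induction_on with
  | empty => simpa using Dich_zero h
  | insert a S ha ih => simpa only [sum_insert ha] using h.add (hf a) ih

theorem Dich_cross (h : RepOK F s D Rep) {f g : Fin 3 → (Fin 2 → ℂ) → ℂ} {α β : Fin 3 → F}
    (hf : ∀ i, Rep (f i) (α i)) (hg : ∀ i, Rep (g i) (β i)) (m : Fin 3) :
    Rep (fun x => ((fun i => f i x) ⨯₃ fun i => g i x) m) ((α ⨯₃ β) m) := by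
  fin_cases m
  · simpa [cross_apply] using Dich_sub h (h.mul (hf 1) (hg 2)) (h.mul (hf 2) (hg 1))
  · simpa [cross_apply] using Dich_sub h (h.mul (hf 2) (hg 0)) (h.mul (hf 0) (hg 2))
  · simpa [cross_apply] using Dich_sub h (h.mul (hf 0) (hg 1)) (h.mul (hf 1) (hg 0))

theorem Dich_cross_zero {u v : Fin 3 → F}
    (h : ((fun i => (u i : ℂ)) ⨯₃ fun i => (v i : ℂ)) = 0) : u ⨯₃ v = 0 := by
  funext m
  have := congrFun h m
  apply Subtype.ext
  fin_cases m <;> simpa [cross_apply] using this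

end Rep

theorem Dich_pd_sum {ι : Type} [Fintype ι] (c : ι → ℂ) {l : ι → (Fin 2 → ℂ) → ℂ} {x : Fin 2 → ℂ}
    (h : ∀ i, AnalyticAt ℂ (l i) x) (j : Fin 2) :
    pd j (fun x => ∑ i, c i * l i x) x = ∑ i, c i * pd j (l i) x := by
  have : HasFDerivAt (fun x => ∑ i, c i * l i x) (∑ i, c i • fderiv ℂ (l i) x) x :=
    HasFDerivAt.fun_sum fun i _ => (h i).differentiableAt.hasFDerivAt.const_mul (c i)
  unfold pd
  rw [this.fderiv]
  simp

theorem Dich_pd_exp {l z : (Fin 2 → ℂ) → ℂ} {x : Fin 2 → ℂ} (h : AnalyticAt ℂ l x)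
    (e : ∀ᶠ y in 𝓝 x, Complex.exp (l y) = z y) (j : Fin 2) : pd j z x = z x * pd j l x := by
  have h1 : HasFDerivAt z (Complex.exp (l x) • fderiv ℂ l x) x :=
    h.differentiableAt.hasFDerivAt.cexp.congr_of_eventuallyEq (e.mono fun _ h => h.symm)
  unfold pd
  rw [h1.fderiv, e.self_of_nhds]
  simp

/-- Logarithms in the chart. Hint: choose `z i` with `Rep (z i) (ξ i)`; `Rep` is closed under sums,
so `Rep (fun x => aeval (z · x) f) (aeval ξ f)` (induction on `f`), and by `uniq` with the constant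
zero a relation of `ξ` holds near `s`; use a finite generating set of `I` (noetherian).
`l i x = log (z i x / ξ i) + log (ξ i)` (`AnalyticAt.clog`, `1 ∈ slitPlane`); near `s`
`pd j (l i) = pd j (z i) * (z i)⁻¹`, and a representative `g` of `(ξ i)⁻¹` has `g * z i = 1`. -/
theorem logs {K k ι : Type} [Field K] [Field k] [Algebra K k] [Algebra K ℂ] [Algebra k ℂ]
    [IsScalarTower K k ℂ] [Fintype ι] {F : IntermediateField k ℂ} {s : Fin 2 → F}
    {D : Fin 2 → Derivation k F F} {Rep : ((Fin 2 → ℂ) → ℂ) → F → Prop} (h : RepOK F s D Rep)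
    {ξ : ι → F} (hnz : ∀ i, ξ i ≠ 0) {I : Ideal (MvPolynomial ι K)}
    (hI : ∀ f ∈ I, aeval ξ f = 0) : ∃ l : ι → (Fin 2 → ℂ) → ℂ,
      (∀ i, AnalyticAt ℂ (l i) fun j => s j) ∧
      (∀ᶠ x in 𝓝 fun j => (s j : ℂ), (fun i => Complex.exp (l i x)) ∈ Tor I) ∧
      ∀ i j, Rep (pd j (l i)) (D j (ξ i) / ξ i) := by
  choose z hz using fun i => h.ex (ξ i)
  have hp : ∀ f : MvPolynomial ι K, Rep (fun x => aeval (fun i => z i x) f) (aeval ξ f) := by
    intro f
    induction f using MvPolynomial.induction_on with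
    | C a =>
      simp only [aeval_C]
      rw [IsScalarTower.algebraMap_apply K k ℂ, IsScalarTower.algebraMap_apply K k F]
      exact h.const _
    | add p q hp hq => simpa only [map_add] using h.add hp hq
    | mul_X p i hp => simpa only [map_mul, aeval_X] using h.mul hp (hz i)
  have h0 : ∀ i, (ξ i : ℂ) ≠ 0 := fun i e => hnz i (Subtype.ext e)
  have hz0 : ∀ᶠ x in 𝓝 fun j => (s j : ℂ), ∀ i, z i x ≠ 0 :=
    eventually_all.2 fun i => (h.an (hz i)).continuousAt.eventually_ne (by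
      rw [h.val (hz i)]; exact h0 i)
  have he : ∀ᶠ x in 𝓝 fun j => (s j : ℂ), ∀ i,
      Complex.exp (Complex.log (z i x / ξ i) + Complex.log (ξ i)) = z i x :=
    hz0.mono fun x hx i => by
      rw [Complex.exp_add, Complex.exp_log (div_ne_zero (hx i) (h0 i)), Complex.exp_log (h0 i),
        div_mul_cancel₀ _ (h0 i)]
  have han : ∀ i, AnalyticAt ℂ (fun x => Complex.log (z i x / ξ i) + Complex.log (ξ i))
      fun j => (s j : ℂ) := fun i => by
    refine AnalyticAt.add (AnalyticAt.clog ((h.an (hz i)).div_const) ?_) analyticAt_const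
    rw [h.val (hz i), div_self (h0 i)]
    exact Complex.one_mem_slitPlane
  refine ⟨fun i x => Complex.log (z i x / ξ i) + Complex.log (ξ i), han, ?_, fun i j => ?_⟩
  · obtain ⟨S, hS⟩ := IsNoetherian.noetherian I
    have h1 : ∀ᶠ x in 𝓝 fun j => (s j : ℂ), ∀ f ∈ S, aeval (fun i => z i x) f = 0 :=
      (eventually_all_finset S).2 fun f hf => by
        have h2 := hp f
        rw [hI f (hS ▸ Submodule.subset_span hf)] at h2
        exact h.uniq h2 (Dich_zero h)
    filter_upwards [h1, he, hz0] with x h2 h3 h4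
    rw [funext h3]
    refine ⟨h4, fun f hf => ?_⟩
    rw [← hS] at hf
    exact (Ideal.span_le (I := RingHom.ker (aeval (R := K) fun i => z i x))).2 h2 hf
  · obtain ⟨g, hg⟩ := h.ex (ξ i)⁻¹
    have h1 := h.mul (hz i) hg
    rw [mul_inv_cancel₀ (hnz i)] at h1
    rw [div_eq_mul_inv]
    refine h.congr (h.mul (h.der j (hz i)) hg) ?_
    filter_upwards [h.uniq h1 (Dich_one h), (han i).eventually_analyticAt,
      he.eventually_nhds] with x h2 h3 h4
    rw [Dich_pd_exp h3 (h4.mono fun y hy => hy i) j]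
    linear_combination (pd j (fun x => Complex.log (z i x / ξ i) + Complex.log (ξ i)) x) * h2

variable {K : Type} [Field K] [NumberField K] [Algebra K ℂ] {ι : Type} [Fintype ι]
  {𝔓 : Ideal (MvPolynomial ι K)} {Ω : Type} [Field Ω] [Algebra K Ω] {ξ : ι → Ω}

theorem Dich_lin {R : Type} [CommRing R] (e : ℝ →+* R) (γ : Fin 3 → ℝ) (ψ : Fin 3 → ι → ℝ)
    (g : ι → R) : ∑ i, e ((∑ l, γ l • ψ l) i) * g i = ∑ l, e (γ l) * ∑ i, e (ψ l i) * g i := by
  simp only [Finset.sum_apply, Pi.smul_apply, smul_eq_mul, map_sum, map_mul, sum_mul, mul_sum,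
    mul_assoc]
  exact sum_comm

/-- the nondegenerate case -/
theorem Dich_ndat {Z : Set (ι → ℂ)} {ψ : Fin 3 → ι → ℝ} {l : ι → (Fin 2 → ℂ) → ℂ} {s : Fin 2 → ℂ}
    (han : ∀ i, AnalyticAt ℂ (l i) s) (hZ : ∀ᶠ x in 𝓝 s, (fun i => Complex.exp (l i x)) ∈ Z)
    (h : ∑ m, ((∑ i, ψ m i * l i s).re : ℂ) *
      ((fun m => pd 0 (fun x => ∑ i, ψ m i * l i x) s) ⨯₃
        fun m => pd 1 (fun x => ∑ i, ψ m i * l i x) s) m ≠ 0) :
    ∃ γ : Fin 3 → Fin 3 → ℝ, NDat Z fun k => ∑ l, γ k l • ψ l := by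
  obtain ⟨b, hb⟩ : ∃ b : Fin 3 → ℝ, ∀ m, b m = (∑ i, ψ m i * l i s).re := ⟨_, fun _ => rfl⟩
  have hb' : ∀ m, ∑ i, ψ m i * (l i s).re = b m := fun m => by
    rw [hb, Complex.re_sum]
    simp only [Complex.re_ofReal_mul]
  simp only [← hb, Dich_pd_sum _ han] at h
  obtain ⟨e, e', h1, h2, -, -, -, c, h3⟩ := perp b
  have r : ∀ γ : Fin 3 → ℝ, ∑ i, (∑ l, γ l • ψ l) i * (l i s).re = γ ⬝ᵥ b := fun γ => by
    have := Dich_lin (RingHom.id ℝ) γ ψ fun i => (l i s).re
    simp only [RingHom.id_apply, hb'] at this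
    exact this
  have r' : ∀ (γ : Fin 3 → ℝ) (j : Fin 2), ∑ i, ((∑ l, γ l • ψ l) i : ℝ) * pd j (l i) s =
      ∑ m, (γ m : ℂ) * ∑ i, ψ m i * pd j (l i) s := fun γ j =>
    Dich_lin Complex.ofRealHom γ ψ fun i => pd j (l i) s
  refine ⟨![e, e', b], l, s, han, hZ, (r e).trans h1, (r e').trans h2, ?_, ?_⟩
  · refine lt_of_lt_of_eq ?_ (r b).symm
    refine lt_of_le_of_ne (Finset.sum_nonneg fun m _ => mul_self_nonneg _) fun h4 => h ?_
    rw [dotProduct_self_eq_zero.1 h4.symm]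
    simp
  · intro h4
    apply h
    change (∑ i, ((∑ l, e l • ψ l) i : ℝ) * pd 0 (l i) s) *
        (∑ i, ((∑ l, e' l • ψ l) i : ℝ) * pd 1 (l i) s) =
      (∑ i, ((∑ l, e l • ψ l) i : ℝ) * pd 1 (l i) s) *
        (∑ i, ((∑ l, e' l • ψ l) i : ℝ) * pd 0 (l i) s) at h4
    rw [r', r', r', r'] at h4
    rw [h3]
    simp only [Fin.sum_univ_three, cross_apply, Pi.smul_apply, smul_eq_mul, cons_val_zero,
      cons_val_one, Matrix.cons_val] at h4 ⊢
    push_cast
    linear_combination (c : ℂ) * h4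

/-- Hint: `emb` for the entries of `ψ`, `exists_der` for `D 0, D 1`, `chart`, `logs`;
`Λ m x = ∑ i, ψ m i * l i x`, `κ` as in `stepA`. If `∑ re (Λ m x) * κ x m = 0` near `s`, then
`stepA` and `Rep` (`pd j (Λ m)` represents `ω j m`, `κ` represents `ω 0 ⨯₃ ω 1`, `der`, `val`)
give the hypothesis of `fib`; its hypothesis `hx` follows from `alg_of_ker` and `ker_of_alg`
(if both `D j` kill `x`, then `s₀ 1` is algebraic over `K[x]`, so `D 1` kills it); `FDat.alg` is
`alg_of_ker`, `FDat.sat` is `ker_of_alg`. Otherwise there is `s₁` near `s` (`Frequently.and_eventually`,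
`eventually_analyticAt`, `eventually_nhds`) with `b ⬝ κ s₁ ≠ 0`, `b = re (Λ s₁)`; `perp b` gives
`e, e'`; `γ = ![e, e', b]`, `cross_dot_cross`. -/
theorem dich (hg : Gn 𝔓 ξ) (htr : Algebra.trdeg K Ω = 2)
    (ha : ∀ a : ι → ℤ, a ≠ 0 → Transcendental K (∏ i, ξ i ^ a i)) {ψ : Fin 3 → ι → ℝ}
    (hψ : LinearIndependent ℝ ψ) :
    (∃ γ : Fin 3 → Fin 3 → ℝ, NDat (Tor 𝔓) fun k => ∑ l, γ k l • ψ l) ∨
      ∃ (k : ℕ) (M : Fin k → ι → ℤ), FDat K ξ ψ M := by
  obtain ⟨k, F, j, s₀, hc, hs, htop⟩ := emb hg.top htr fun p : Fin 3 × ι => (ψ p.1 p.2 : ℂ)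
  choose D hD using fun n : Fin 2 => exists_der hs fun m => if n = m then 1 else 0
  obtain ⟨Rep, h⟩ := chart F htop hs hD
  have hnz : ∀ i, (j ∘ ξ) i ≠ 0 := fun i => (map_ne_zero j).2 (hg.nz i)
  obtain ⟨l, han, hZ, hl⟩ := logs h hnz (I := 𝔓) fun f hf => by
    have := comp_aeval_apply ξ j f
    rw [(hg.ker f).2 hf, map_zero] at this
    exact this.symm
  by_cases h0 : ∀ᶠ x in 𝓝 fun n => (((j ∘ s₀) n : F) : ℂ), ∑ m, ((∑ i, ψ m i * l i x).re : ℂ) *
      ((fun m => pd 0 (fun x => ∑ i, ψ m i * l i x) x) ⨯₃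
        fun m => pd 1 (fun x => ∑ i, ψ m i * l i x) x) m = 0
  · right
    have hK : ∀ (δ : Derivation k F F) (c : K), δ (algebraMap K F c) = 0 := fun δ c => by
      rw [IsScalarTower.algebraMap_apply K k F, δ.map_algebraMap]
    have hj : ∀ a : ι → ℤ, ∏ i, (j ∘ ξ) i ^ a i = j (∏ i, ξ i ^ a i) := fun a => by
      simp only [map_prod, map_zpow₀, Function.comp]
    have hω : ∀ n m, Rep (pd n fun x => ∑ i, ψ m i * l i x) (∑ i, algebraMap k F
        (⟨ψ m i, hc (m, i)⟩ : k) * (D n ((j ∘ ξ) i) / (j ∘ ξ) i)) := fun n m => by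
      refine h.congr (Dich_sum h univ fun i => h.mul (h.const ⟨ψ m i, hc (m, i)⟩) (hl i n)) ?_
      filter_upwards [eventually_all.2 fun i => (han i).eventually_analyticAt] with x hx
      exact (Dich_pd_sum _ hx n).symm
    have hκ := Dich_cross h (hω 0) (hω 1)
    obtain ⟨δ, ⟨m, hm⟩, k', M, h3, hi, hsp, hM⟩ := fib htop hnz hs hD (fun a ha0 => by
        by_contra hn
        push Not at hn
        simp only [hj] at hn
        have h1 := alg_of_ker (D 0) j htr (hK _) (w := s₀ 0) (by simpa using hD 0 0 ▸ one_ne_zero)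
          (ha a ha0) (hn 0) (y := s₀ 1) (by simpa using hD 0 1)
        have h2 := ker_of_alg (D 1) j (hK _) (fun x hx => by rw [hx]; exact hn 1) h1
        have h3 := hD 1 1
        simp only [Function.comp, if_true] at h3
        exact one_ne_zero (h3.symm.trans h2)) F.val.toRingHom hψ
      (ψ' := fun m i => ⟨ψ m i, hc (m, i)⟩) (fun _ _ => rfl) (fun _ _ => rfl) fun n => by
        refine Dich_cross_zero ?_
        have h1 := stepA (Λ := fun m x => ∑ i, ψ m i * l i x)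
          (fun m => Finset.analyticAt_fun_sum _ fun i _ => analyticAt_const.mul (han i))
          (fun _ => rfl) h0 n
        rw [← funext fun m => h.val (hκ m), ← funext fun m => h.val (h.der n (hκ m))]
        exact h1
    simp only [hj] at hM
    have hM' : ∀ n, δ (j (∏ i, ξ i ^ M n i)) = 0 := fun n =>
      (hM _).2 (Submodule.subset_span ⟨n, rfl⟩)
    exact ⟨k', M, h3, hi, hsp,
      fun n n' => alg_of_ker δ j htr (hK _) hm (ha _ (hi.ne_zero n)) (hM' n) (hM' n'),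
      fun n a h1 => (hM a).1 (ker_of_alg δ j (hK _) (fun x hx => by rw [hx]; exact hM' n) h1)⟩
  · left
    obtain ⟨x, h1, h2, h3⟩ := ((not_eventually.1 h0).and_eventually
      ((eventually_all.2 fun i => (han i).eventually_analyticAt).and hZ.eventually_nhds)).exists
    exact Dich_ndat h2 h3 h1

end Pool.Agent.ZPT
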