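import Pool.Agent.P.MP_4fdccb_ag.S.Hilb
import Pool.Agent.P.MP_4fdccb_ag.S.Cov

/-! Bounded height in the nondegenerate case. -/

set_option linter.unusedSectionVars false
set_option linter.unusedVariables false

namespace Pool.Agent.ZPT
open Finset MvPolynomial Filter Height Real

variable {K : Type} [Field K] [NumberField K] [Algebra K ℂ] {ι : Type} [Fintype ι]
  {𝔓 : Ideal (MvPolynomial ι K)} [𝔓.IsPrime] {Ω : Type} [Field Ω] [Algebra K Ω] {ξ : ι → Ω}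

/-- local size of the monomials: `VV.near`, `le_exp_of_log`, `(sn_abs v).nat`;
`v (z i) ≤ exp (sz z v)` -/
theorem mon_loc {L : Type} [Field L] {z : ι → L} {a : Fin 3 → ι → ℤ} {η : ℝ} (h0 : 0 ≤ η)
    {v : AbsoluteValue L ℝ} (h : ∀ k, |log (v (∏ i, z i ^ a k i))| ≤ η * sz z v) (k : ℕ)
    (c : Option ι → ℕ) {A B : ℕ} (x : Fin A × Fin A × Fin B) :
    v (mon a k c z x) ≤ (∑ o, c o + 1) ^ B * exp (((2 * A + k * B) * η + B) * sz z v) := by
  have s0 := sz_nonneg z v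
  have e1 : 1 ≤ exp (η * sz z v) := one_le_exp (mul_nonneg h0 s0)
  have e2 : 1 ≤ exp (sz z v) := one_le_exp s0
  have c0 : (0 : ℝ) ≤ ∑ o, (c o : ℝ) := sum_nonneg fun _ _ => Nat.cast_nonneg _
  have h1 : ∀ k, v (∏ i, z i ^ a k i) ≤ exp (η * sz z v) := fun k => le_exp_of_log (h k)
  have h2 : ∀ i, v (z i) ≤ exp (sz z v) := fun i => le_exp_of_log
    (single_le_sum (f := fun i => |log (v (z i))|) (fun _ _ => abs_nonneg _) (mem_univ i))
  have h3 : v (lin c z) ≤ (∑ o, (c o : ℝ) + 1) * exp (sz z v) := by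
    refine ((sn_abs v).add _ _).trans ?_
    have a1 : v (c none : L) ≤ c none * exp (sz z v) :=
      ((sn_abs v).nat _).trans (le_mul_of_one_le_right (Nat.cast_nonneg _) e2)
    have a2 : v (∑ i, (c (some i) : L) * z i) ≤ ∑ i, (c (some i) : ℝ) * exp (sz z v) :=
      ((sn_abs v).sum _ _).trans
        (sum_le_sum fun i _ => (sn_abs v).mul_le ((sn_abs v).nat _) (h2 i))
    rw [Fintype.sum_option, ← sum_mul] at *
    nlinarith
  have h4 : v ((∏ i, z i ^ a 2 i) ^ k * lin c z) ≤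
      exp (η * sz z v) ^ k * ((∑ o, (c o : ℝ) + 1) * exp (sz z v)) :=
    (sn_abs v).mul_le ((sn_abs v).pow_le (h1 2) k) h3
  have h5 : 1 ≤ exp (η * sz z v) ^ k * ((∑ o, (c o : ℝ) + 1) * exp (sz z v)) :=
    one_le_mul_of_one_le_of_one_le (one_le_pow₀ e1)
      (one_le_mul_of_one_le_of_one_le (by linarith) e2)
  refine ((sn_abs v).mul_le ((sn_abs v).mul_le
    (((sn_abs v).pow_le (h1 0) _).trans (pow_le_pow_right₀ e1 x.1.2.le))
    (((sn_abs v).pow_le (h1 1) _).trans (pow_le_pow_right₀ e1 x.2.1.2.le)))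
    (((sn_abs v).pow_le h4 _).trans (pow_le_pow_right₀ h5 x.2.2.2.le))).trans (le_of_eq ?_)
  rw [show ((2 * A + k * B : ℝ) * η + B) * sz z v = A * (η * sz z v) + A * (η * sz z v) +
    B * (k * (η * sz z v)) + B * sz z v by ring]
  simp only [exp_add, exp_nat_mul, mul_pow, Nat.cast_sum]
  ring

/-- a large family in the span of a small family is dependent -/
theorem Hab_rel {M I J : Type} [AddCommGroup M] [Fintype I] [Fintype J] (f : I → M) (γ : J → M)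
    (hf : ∀ i, f i ∈ Submodule.span ℤ (Set.range γ)) (hc : Fintype.card J < Fintype.card I) :
    ∃ p : I → ℤ, p ≠ 0 ∧ ∑ i, p i • f i = 0 := by
  classical
  have h : ¬ LinearIndependent ℤ f := fun h =>
    absurd ((linearIndependent_le_span_aux' f h (Set.range γ)
      (Set.range_subset_iff.2 hf)).trans (Fintype.card_range_le γ)) (not_le.2 hc)
  obtain ⟨p, h1, i, h2⟩ := Fintype.not_linearIndependent_iff.1 h
  exact ⟨p, fun e => h2 (congrFun e i), h1⟩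

theorem Hab_gr {L : Type} [Field L] [Algebra K L] (hg : Gn 𝔓 ξ) {z : ι → L} (hz : OnL 𝔓 z)
    (a : Fin 3 → ι → ℤ) (c : Option ι → ℕ) {A B : ℕ} (p : Fin A × Fin A × Fin B → ℤ) :
    (∑ x, (p x : Ω) * mon a 0 c ξ x, ∑ x, (p x : L) * mon a 0 c z x) ∈ Gr K ξ z :=
  pr_sum fun x _ => pr_mul (pr_int _) (hg.mon hz a 0 c x)

/-- the height of one coordinate, from a relation -/
theorem Hab_one (hg : Gn 𝔓 ξ) {a : Fin 3 → ι → ℤ} {c : Option ι → ℕ} {A B I J : ℕ} {η : ℝ}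
    (h0 : 0 ≤ η) (i : ι)
    (hgb : ∀ p : Fin A × Fin A × Fin B → ℤ, p ≠ 0 →
      ¬ ∀ z ∈ Tor 𝔓, ∑ x, (p x : ℂ) * mon a 0 c z x = 0)
    {p : Fin I × Fin A × Fin A × Fin B → ℤ} (hp : p ≠ 0)
    (hr : ∑ y, p y • (ξ i ^ (J * (y.1 : ℕ)) * mon a 0 c ξ y.2) = 0) :
    ∃ T : ℝ, ∀ᶠ P in gen 𝔓,
      (∀ (v : AbsoluteValue P.L ℝ) k, |log (v (∏ i, P.z i ^ a k i))| ≤ η * sz P.z v) →
        J * logHeight₁ (P.z i) ≤ 4 * (2 * A * η + B) * P.H + T * P.D := by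
  obtain ⟨⟨m₀, x₀⟩, h1⟩ := Function.ne_iff.1 hp
  have h2 : ∑ x, (p (m₀, x) : Ω) * mon a 0 c ξ x ≠ 0 := fun e =>
    hgb (fun x => p (m₀, x)) (fun e' => h1 (congrFun e' x₀)) fun z hz =>
      hg.fn (L := ℂ) hz _ (e ▸ Hab_gr (L := ℂ) hg hz a c fun x => p (m₀, x))
  have c0 : (0 : ℝ) ≤ ∑ o, (c o : ℝ) := sum_nonneg fun _ _ => Nat.cast_nonneg _
  have p0 : (0 : ℝ) ≤ ∑ y, |(p y : ℝ)| := sum_nonneg fun _ _ => abs_nonneg _
  have c1 : (1 : ℝ) ≤ (∑ o, (c o : ℝ) + 1) ^ B := one_le_pow₀ (by linarith)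
  set C : ℝ := (∑ y, |(p y : ℝ)| + 1) * (∑ o, (c o : ℝ) + 1) ^ B with hC
  have c2 : 1 ≤ C := one_le_mul_of_one_le_of_one_le (by linarith) c1
  refine ⟨2 * log C + 1, ?_⟩
  filter_upwards [hg.ne h2] with P h3 h4
  have t0 : (0 : ℝ) ≤ 2 * A * η + B := by positivity
  have e : (∑ m : Fin I, Polynomial.monomial (m : ℕ)
      (∑ x, (p (m, x) : P.L) * mon a 0 c P.z x)).coeff m₀ =
      ∑ x, (p (m₀, x) : P.L) * mon a 0 c P.z x := by
    rw [Polynomial.finsetSum_coeff, sum_eq_single m₀]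
    · rw [Polynomial.coeff_monomial, if_pos rfl]
    · intro m _ hm
      rw [Polynomial.coeff_monomial, if_neg fun e => hm (Fin.ext e)]
    · simp
  have h5 := Hb.root₁ (p := ∑ m : Fin I, Polynomial.monomial (m : ℕ)
      (∑ x, (p (m, x) : P.L) * mon a 0 c P.z x)) (x := P.z i ^ J)
    (((hb_const c2).mul ((hg_sz P.z).smul t0).hb fun v => (exp_pos _).le).mono (fun v => ?_) le_rfl)
    (fun h => h3 _ (Hab_gr hg P.on a c fun x => p (m₀, x)) (by rw [← e, h]; rfl))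
    (hg.fn P.on _ ?_)
  · rw [logHeight₁_pow] at h5
    linarith
  · have h6 : ∀ x : Fin A × Fin A × Fin B, v (mon a 0 c P.z x) ≤
        (∑ o, (c o : ℝ) + 1) ^ B * exp ((2 * A * η + B) * sz P.z v) := fun x => by
      simpa using mon_loc h0 (h4 v) 0 c x
    have h8 : ∑ m : Fin I, ∑ x, |(p (m, x) : ℝ)| *
        ((∑ o, (c o : ℝ) + 1) ^ B * exp ((2 * A * η + B) * sz P.z v)) ≤
        C * exp ((2 * A * η + B) * sz P.z v) := by
      have hE := (exp_pos ((2 * A * η + B) * sz P.z v)).le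
      generalize exp ((2 * A * η + B) * sz P.z v) = E at hE ⊢
      have h9 : ∑ m : Fin I, ∑ x, |(p (m, x) : ℝ)| * ((∑ o, (c o : ℝ) + 1) ^ B * E) =
          (∑ y, |(p y : ℝ)|) * ((∑ o, (c o : ℝ) + 1) ^ B * E) := by
        rw [sum_mul, Fintype.sum_prod_type]
      rw [h9, hC, mul_assoc (∑ y, |(p y : ℝ)| + 1)]
      exact mul_le_mul_of_nonneg_right (le_add_of_nonneg_right zero_le_one) (by positivity)
    refine ((sn_abs v).pn.sum _ _).trans ((sum_le_sum fun m _ => ?_).trans h8)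
    rw [(sn_abs v).pn_monomial]
    exact ((sn_abs v).sum _ _).trans
      (sum_le_sum fun x _ => (sn_abs v).mul_le ((sn_abs v).int _) (h6 x))
  · have h7 : (0 : Ω) = ∑ m : Fin I, (∑ x, (p (m, x) : Ω) * mon a 0 c ξ x) *
        (ξ i ^ J) ^ (m : ℕ) := by
      rw [← hr, Fintype.sum_prod_type]
      refine sum_congr rfl fun m _ => ?_
      rw [sum_mul]
      refine sum_congr rfl fun x _ => ?_
      rw [zsmul_eq_mul, pow_mul]
      ring
    rw [h7, Polynomial.eval_finsetSum]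
    simp only [Polynomial.eval_monomial]
    exact pr_sum fun m _ => pr_mul (Hab_gr hg P.on a c fun x => p (m, x))
      (pr_pow (pr_pow (gr_X i) J) m)

theorem Hab_count {c : ℝ} (hc : 0 < c) {C κ I A q N₀ n : ℕ} (hA : 0 < A) (hq : 0 < q)
    (hI : C * (2 * κ + 2) ^ 2 / c ≤ I) (hN : c * q ^ 2 ≤ N₀) (hn : n + 1 ≤ (2 * κ + 2) * A * q) :
    C * (n + 1) ^ 2 < (I + 1) * (A * (A * N₀)) := by
  refine (Nat.mul_le_mul_left C (Nat.pow_le_pow_left hn 2)).trans_lt ?_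
  rw [div_le_iff₀ hc] at hI
  have a0 : (0 : ℝ) < A := by exact_mod_cast hA
  have q0 : (0 : ℝ) < q := by exact_mod_cast hq
  have h1 : (C : ℝ) * ((2 * κ + 2) * A * q) ^ 2 < (I + 1) * (A * (A * N₀)) := by
    have h2 : (C : ℝ) * (2 * κ + 2) ^ 2 * (A ^ 2 * q ^ 2) < (I + 1) * c * (A ^ 2 * q ^ 2) :=
      mul_lt_mul_of_pos_right (by linarith) (by positivity)
    have h3 : ((I : ℝ) + 1) * A ^ 2 * (c * q ^ 2) ≤ (I + 1) * A ^ 2 * N₀ :=
      mul_le_mul_of_nonneg_left hN (by positivity)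
    calc (C : ℝ) * ((2 * κ + 2) * A * q) ^ 2 = C * (2 * κ + 2) ^ 2 * (A ^ 2 * q ^ 2) := by ring
      _ < (I + 1) * c * (A ^ 2 * q ^ 2) := h2
      _ = (I + 1) * A ^ 2 * (c * q ^ 2) := by ring
      _ ≤ (I + 1) * A ^ 2 * N₀ := h3
      _ = (I + 1) * (A * (A * N₀)) := by ring
  exact_mod_cast h1

/-- Hint: `c, δ, ρ, q₀` from `hc`, `C` from `Gn.hilb`, `N = card ι`, `κ : ℕ` with
`|φ k i| + 1 ≤ κ` (so `natAbs (a k i) ≤ κ q`), `I₀ = ⌈C (2 κ + 2) ^ 2 / c⌉₊ + 1`,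
`ε = 1 / (64 I₀ (N + 1))`, `q ≥ max q₀ 1` with `1 / (2 ε) ≤ q`, `η = 2 q ε` (then
`|a k i - q φ' k i| ≤ η`), `N₀ = ⌈c q ^ 2⌉₊`, `A' = 16 (N + 1) (N₀ + 1)`, `A = I₀ A'`, `J = A' q`.
`gb` with `k = 0`. For each `i` the family `ξ i ^ (J m) * mon a 0 c ξ x`, `m : Fin (I₀ + 1)`,
`x : Fin A × Fin A × Fin N₀`, lies in `Lau ξ n` with `n + 1 ≤ (2 κ + 2) A q`, and has more than
`C (n + 1) ^ 2` members, so there is an integer relation `p ≠ 0` (a family in the span of `γ`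
with more than `card J` members is dependent: `linearIndependent_le_span_aux'` or
`LinearIndependent.fintype_card_le_finrank`). For `m` with `p m ≠ 0` the coefficient
`∑ x, p m x * mon ξ x` is nonzero: otherwise it vanishes on `Tor 𝔓` (`Gn.mon`, `Gn.fn` with
`L = ℂ`; membership in `Tor 𝔓` is `OnL 𝔓`), against `gb`. By `Gn.ne` the polynomial
`∑ m, monomial m (∑ x, p m x * mon z x)` is nonzero with root `z i ^ J`; `mon_loc`, `hg_sz`,
`Hb.root₁` give `J h (z i) ≤ 4 (2 A η + N₀) H + C' D`; sum over `i`. -/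
theorem hab (hg : Gn 𝔓 ξ) (htr : Algebra.trdeg K Ω = 2) {φ : Fin 3 → ι → ℝ}
    (hc : CovA (Tor 𝔓) φ) : ∃ ε > (0 : ℝ), ∃ h₁ : ℝ, ∀ᶠ p in gen 𝔓, ∀ φ' : Fin 3 → ι → ℝ,
      (∀ k i, |φ' k i - φ k i| ≤ ε) → (∀ k, VV p.z (φ' k)) → p.H ≤ h₁ * p.D := by
  obtain ⟨c, c0, δ, δ0, ρ, q₀, hc⟩ := hc
  obtain ⟨C, hC⟩ := hg.hilb htr
  obtain ⟨κ, hκ⟩ : ∃ κ : ℕ, ∀ k i, |φ k i| + 1 ≤ κ := by
    obtain ⟨κ, hκ⟩ := exists_nat_ge (‖φ‖ + 1)
    exact ⟨κ, fun k i => le_trans (add_le_add_left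
      ((norm_le_pi_norm (φ k) i).trans (norm_le_pi_norm φ k)) 1) hκ⟩
  obtain ⟨I, hI, I0⟩ : ∃ I : ℕ, C * (2 * κ + 2) ^ 2 / c ≤ I ∧ 0 < I :=
    ⟨⌈C * (2 * κ + 2) ^ 2 / c⌉₊ + 1, (Nat.le_ceil _).trans (by push_cast; linarith), by omega⟩
  set N := Fintype.card ι with hN
  have i0 : (0 : ℝ) < I := by exact_mod_cast I0
  set ε : ℝ := 1 / (64 * I * (N + 1)) with hε
  have ε0 : 0 < ε := by positivity
  obtain ⟨q, q1, q2, q3⟩ : ∃ q : ℕ, q₀ ≤ q ∧ 0 < q ∧ 1 / (2 * ε) ≤ q :=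
    ⟨q₀ + ⌈1 / (2 * ε)⌉₊ + 1, by omega, by omega, (Nat.le_ceil _).trans (by
      push_cast
      linarith [(Nat.cast_nonneg q₀ : (0 : ℝ) ≤ q₀)])⟩
  have q4 : (1 : ℝ) ≤ q := by exact_mod_cast q2
  have q5 : 1 / 2 ≤ q * ε := by
    rw [div_le_iff₀ (by positivity)] at q3
    linarith
  set a : Fin 3 → ι → ℤ := fun k i => round (q * φ k i) with ha
  set N₀ := ⌈c * q ^ 2⌉₊ with hN₀
  set A' := 16 * (N + 1) * (N₀ + 1) with hA'
  obtain ⟨c₀, hc₀⟩ := gb (exp_pos _) (hc q q1)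
  obtain ⟨cc, -, hcc⟩ := hc₀ 0 (I * A')
  have η0 : 0 ≤ 2 * q * ε := by positivity
  have a1 : ∀ k i, (a k i).natAbs ≤ κ * q := fun k i => by
    have b1 := abs_sub_round (q * φ k i)
    have b2 : |(a k i : ℝ)| ≤ |q * φ k i| + 1 / 2 := by
      have := abs_sub_abs_le_abs_sub (a k i : ℝ) (q * φ k i)
      rw [abs_sub_comm] at this
      linarith
    rw [abs_mul, abs_of_nonneg (by positivity : (0 : ℝ) ≤ q)] at b2
    have b3 := mul_le_mul_of_nonneg_left (hκ k i) (by positivity : (0 : ℝ) ≤ q)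
    have b4 : (((a k i).natAbs : ℕ) : ℝ) ≤ κ * q := by
      rw [Nat.cast_natAbs, Int.cast_abs]
      linarith
    exact_mod_cast b4
  have A1 : N₀ + 1 ≤ A' := Nat.le_mul_of_pos_left _ (by positivity)
  have A2 : A' ≤ I * A' := Nat.le_mul_of_pos_left _ I0
  have A3 : I * A' ≤ I * A' * q := Nat.le_mul_of_pos_right _ q2
  have key : ∀ i, ∃ T : ℝ, ∀ᶠ P in gen 𝔓,
      (∀ (v : AbsoluteValue P.L ℝ) k, |log (v (∏ i, P.z i ^ a k i))| ≤ 2 * q * ε * sz P.z v) →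
        (A' * q : ℕ) * logHeight₁ (P.z i) ≤
          4 * (2 * (I * A' : ℕ) * (2 * q * ε) + N₀) * P.H + T * P.D := fun i => by
    obtain ⟨J, _, γ, h1, h2⟩ :=
      hC (A' * q * I + (2 * (I * A') * (κ * q) + N₀ * (0 * (κ * q) + 1)))
    obtain ⟨p, hp, hr⟩ := Hab_rel (fun y : Fin (I + 1) × Fin (I * A') × Fin (I * A') × Fin N₀ =>
      ξ i ^ (A' * q * (y.1 : ℕ)) * mon a 0 cc ξ y.2) γ (fun y => h2 (lau_mul hg.nz
        (lau_le ξ (by rw [mul_one]; exact Nat.mul_le_mul_left _ (Nat.lt_succ_iff.1 y.1.2))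
          (lau_pow hg.nz (lau_X ξ i) _)) (lau_mon hg.nz a1 0 cc y.2))) (h1.trans_lt (by
      simp only [Fintype.card_prod, Fintype.card_fin]
      refine Hab_count c0 (by omega) q2 hI (Nat.le_ceil _) ?_
      nlinarith))
    exact Hab_one hg η0 i (fun p hp h => lt_irrefl _ (hcc N₀ p hp h).1) hp hr
  choose T hT using key
  have j0 : (0 : ℝ) < (A' * q : ℕ) := by
    have : 0 < A' * q := Nat.mul_pos (by omega) q2
    exact_mod_cast this
  refine ⟨ε, ε0, 2 * (∑ i, T i) / (A' * q : ℕ), ?_⟩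
  filter_upwards [eventually_all.2 hT] with P h1 φ' h2 h3
  have h4 : ∀ (v : AbsoluteValue P.L ℝ) k,
      |log (v (∏ i, P.z i ^ a k i))| ≤ 2 * q * ε * sz P.z v := fun v k => by
    refine (h3 k).near P.on.1 (t := q) (fun i => ?_) v
    have b1 := abs_sub_round (q * φ k i)
    have b2 : |q * φ k i - q * φ' k i| ≤ q * ε := by
      rw [← mul_sub, abs_mul, abs_of_nonneg (by positivity : (0 : ℝ) ≤ q), abs_sub_comm]
      exact mul_le_mul_of_nonneg_left (h2 k i) (by positivity)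
    have b3 := abs_sub_le (a k i : ℝ) (q * φ k i) (q * φ' k i)
    rw [abs_sub_comm] at b1
    linarith
  have h5 := sum_le_sum fun i (_ : i ∈ univ) => h1 i h4
  rw [← mul_sum, sum_add_distrib, sum_const, card_univ, nsmul_eq_mul, ← sum_mul, ← hN] at h5
  have h6 : (N : ℝ) * (4 * (2 * (I * A' : ℕ) * (2 * q * ε) + N₀)) ≤ (A' * q : ℕ) / 2 := by
    have b1 : 64 * I * (N + 1) * ε = 1 := by
      rw [hε]
      field_simp
    have b2 : (A' : ℝ) = 16 * (N + 1) * (N₀ + 1) := by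
      rw [hA']
      push_cast
      ring
    have b3 : (0 : ℝ) ≤ A' := Nat.cast_nonneg _
    have b4 : (0 : ℝ) ≤ N := Nat.cast_nonneg _
    have b5 : (0 : ℝ) ≤ N₀ := Nat.cast_nonneg _
    have b6 : (N : ℝ) * (16 * I * ε) ≤ 1 / 4 := by nlinarith [mul_pos i0 ε0]
    have b7 := mul_le_mul_of_nonneg_right b6 (mul_nonneg b3 (by linarith : (0 : ℝ) ≤ q))
    have b8 : (N : ℝ) * (4 * N₀) ≤ A' / 4 := by nlinarith
    have b9 : (A' : ℝ) ≤ A' * q := le_mul_of_one_le_right b3 q4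
    push_cast
    nlinarith
  have h7 := mul_le_mul_of_nonneg_right h6 P.H_nonneg
  rw [div_mul_eq_mul_div, le_div_iff₀ j0]
  nlinarith

end Pool.Agent.ZPT
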