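import Pool.Agent.P.MP_4fdccb_ag.Neg
import Pool.Agent.P.MP_4fdccb_ag.S.Norm

/-! Uniform local bounds and heights. -/

set_option linter.unusedSectionVars false
set_option linter.unusedVariables false

namespace Pool.Agent.ZPT
open Height NumberField Finset Real Module Filter Topology

variable {L : Type} [Field L]

/-- powers of a nonarchimedean absolute value -/
noncomputable def pw (v : AbsoluteValue L ℝ) (hv : IsNonarchimedean v) (n : ℕ) :
    AbsoluteValue L ℝ where
  toFun x := v x ^ (n + 1)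
  map_mul' x y := by rw [map_mul, mul_pow]
  nonneg' x := pow_nonneg (v.nonneg x) _
  eq_zero' x := by simp
  add_le' x y := (pow_le_pow_left₀ (v.nonneg _) (hv x y) _).trans (by
    have := pow_nonneg (v.nonneg x) (n + 1)
    have := pow_nonneg (v.nonneg y) (n + 1)
    rcases le_total (v x) (v y) with h | h
    · rw [max_eq_right h]; linarith
    · rw [max_eq_left h]; linarith)

theorem pw_apply (v : AbsoluteValue L ℝ) (hv : IsNonarchimedean v) (n : ℕ) (x : L) :
    pw v hv n x = v x ^ (n + 1) := rfl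

/-- the real vector `φ` is a relation between the logarithms of `z` at all places -/
def VV {ι : Type} [Fintype ι] (z : ι → L) (φ : ι → ℝ) : Prop :=
  ∀ v : AbsoluteValue L ℝ, ∑ i, φ i * log (v (z i)) = 0

/-- the local size of a point of the torus -/
noncomputable def sz {ι : Type} [Fintype ι] (z : ι → L) (v : AbsoluteValue L ℝ) : ℝ :=
  ∑ i, |log (v (z i))|

theorem sz_nonneg {ι : Type} [Fintype ι] (z : ι → L) (v : AbsoluteValue L ℝ) : 0 ≤ sz z v :=
  sum_nonneg fun _ _ => abs_nonneg _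

theorem log_mono {ι : Type} [Fintype ι] {z : ι → L} (hz : ∀ i, z i ≠ 0) (a : ι → ℤ)
    (v : AbsoluteValue L ℝ) : log (v (∏ i, z i ^ a i)) = ∑ i, a i * log (v (z i)) := by
  rw [map_prod, log_prod fun i _ => v.ne_zero (zpow_ne_zero _ (hz i))]
  simp [log_zpow]

theorem sum_le_sz {ι : Type} [Fintype ι] (z : ι → L) (v : AbsoluteValue L ℝ) {x : ι → ℝ} {η : ℝ}
    (h : ∀ i, |x i| ≤ η) : |∑ i, x i * log (v (z i))| ≤ η * sz z v := by
  rw [sz, mul_sum]
  exact (abs_sum_le_sum_abs _ _).trans (sum_le_sum fun i _ => by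
    rw [abs_mul]; exact mul_le_mul_of_nonneg_right (h i) (abs_nonneg _))

/-- a monomial whose exponent is close to a relation is locally small -/
theorem VV.near {ι : Type} [Fintype ι] {z : ι → L} (hz : ∀ i, z i ≠ 0) {φ : ι → ℝ} (h : VV z φ)
    {a : ι → ℤ} {t η : ℝ} (ha : ∀ i, |a i - t * φ i| ≤ η) (v : AbsoluteValue L ℝ) :
    |log (v (∏ i, z i ^ a i))| ≤ η * sz z v := by
  refine le_trans (le_of_eq ?_) (sum_le_sz z v ha)
  simp only [log_mono hz, sub_mul, sum_sub_distrib, mul_assoc, ← mul_sum, h v, mul_zero, sub_zero]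

theorem VV.comb {ι β : Type} [Fintype ι] {z : ι → L} (s : Finset β) {φ : β → ι → ℝ}
    (h : ∀ b ∈ s, VV z (φ b)) (c : β → ℝ) : VV z (∑ b ∈ s, c b • φ b) := fun v => by
  simp only [Finset.sum_apply, Pi.smul_apply, smul_eq_mul, sum_mul, mul_assoc]
  rw [sum_comm]
  exact sum_eq_zero fun b hb => by rw [← mul_sum, h b hb v, mul_zero]

theorem le_exp_of_log {v : AbsoluteValue L ℝ} {x : L} {t : ℝ} (h : |log (v x)| ≤ t) :
    v x ≤ exp t := (le_exp_log _).trans (exp_le_exp.2 ((le_abs_self _).trans h))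

variable [NumberField L]

/-- homogeneous local weights of total mass at most `X` -/
def Hg (g : AbsoluteValue L ℝ → ℝ) (X : ℝ) : Prop :=
  (∀ v, 0 ≤ g v) ∧ (∀ v hv n, g (pw v hv n) ≤ (n + 1) * g v) ∧
    ∀ W : Finset (FinitePlace L), ∑ σ : L →+* ℂ, g (place σ) + ∑ w ∈ W, g w.1 ≤ X

variable {g g' : AbsoluteValue L ℝ → ℝ} {X X' : ℝ}

theorem Hg.nonneg (h : Hg g X) : 0 ≤ X :=
  le_trans (by simpa using sum_nonneg fun σ _ => h.1 (place σ)) (h.2.2 ∅)

theorem hg_zero : Hg (fun _ : AbsoluteValue L ℝ => 0) 0 := ⟨by simp, by simp, by simp⟩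

theorem Hg.add (h : Hg g X) (h' : Hg g' X') : Hg (fun v => g v + g' v) (X + X') :=
  ⟨fun v => add_nonneg (h.1 v) (h'.1 v), fun v hv n => by
    have := h.2.1 v hv n; have := h'.2.1 v hv n; linarith, fun W => by
    have := h.2.2 W; have := h'.2.2 W; simp only [sum_add_distrib]; linarith⟩

theorem Hg.smul (h : Hg g X) {c : ℝ} (hc : 0 ≤ c) : Hg (fun v => c * g v) (c * X) :=
  ⟨fun v => mul_nonneg hc (h.1 v), fun v hv n => by
    have := mul_le_mul_of_nonneg_left (h.2.1 v hv n) hc; linarith, fun W => by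
    have := mul_le_mul_of_nonneg_left (h.2.2 W) hc; simp only [← mul_sum]; linarith⟩

theorem Hg.le (h : Hg g X) (h' : X ≤ X') : Hg g X' := ⟨h.1, h.2.1, fun W => (h.2.2 W).trans h'⟩

theorem hg_sum {β : Type} (s : Finset β) {g : β → AbsoluteValue L ℝ → ℝ} {X : β → ℝ}
    (h : ∀ b ∈ s, Hg (g b) (X b)) : Hg (fun v => ∑ b ∈ s, g b v) (∑ b ∈ s, X b) := by
  classical
  induction s using Finset.induction_on with
  | empty => simpa using hg_zero
  | insert a s ha ih =>
    simp only [sum_insert ha]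
    exact (h a (mem_insert_self _ _)).add (ih fun b hb => h b (mem_insert_of_mem hb))

theorem hg_pos (x : L) : Hg (fun v => log⁺ (v x)) (logHeight₁ x) :=
  ⟨fun _ => posLog_nonneg, fun v hv n => by simp [pw_apply, posLog_pow], fun W => by
    classical
    rw [ht_eq, finsum_eq_sum_of_support_subset _ (s := W ∪ (fin_supp x).toFinset) (by simp)]
    exact add_le_add le_rfl (sum_le_sum_of_subset_of_nonneg subset_union_left
      fun _ _ _ => posLog_nonneg)⟩

theorem hg_abs (x : L) : Hg (fun v => |log (v x)|) (2 * logHeight₁ x) := by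
  have := (hg_pos x).add (hg_pos x⁻¹)
  simp only [map_inv₀, logHeight₁_inv, ← two_mul] at this
  convert this using 2 with v
  rw [posLog_apply, posLog_apply, log_inv]
  rcases le_total 0 (log (v x)) with h | h
  · rw [abs_of_nonneg h, max_eq_right h, max_eq_left (by linarith), add_zero]
  · rw [abs_of_nonpos h, max_eq_left h, max_eq_right (by linarith), zero_add]

theorem hg_sz {ι : Type} [Fintype ι] (z : ι → L) : Hg (sz z) (2 * ∑ i, logHeight₁ (z i)) := by
  rw [mul_sum]; exact hg_sum univ fun i _ => hg_abs (z i)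

theorem Hg.na (h : Hg g X) {C : ℝ} {α : L} (h1 : ∀ v : AbsoluteValue L ℝ, v α ≤ C * exp (g v))
    (v : AbsoluteValue L ℝ) (hv : IsNonarchimedean v) : v α ≤ exp (g v) := by
  by_contra h2
  have h3 : 1 < v α / exp (g v) := (one_lt_div (exp_pos _)).2 (not_le.1 h2)
  obtain ⟨n, hn⟩ := ((tendsto_pow_atTop_atTop_of_one_lt h3).eventually_gt_atTop |C|).exists
  have h4 := (h1 (pw v hv n)).trans (mul_le_mul (le_abs_self C) (exp_le_exp.2 (h.2.1 v hv n))
    (exp_pos _).le (abs_nonneg _))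
  rw [pw_apply, ← Nat.cast_succ, exp_nat_mul, ← div_le_iff₀ (by positivity), ← div_pow] at h4
  exact absurd (hn.trans_le (pow_le_pow_right₀ h3.le n.le_succ)) (not_lt.2 h4)

theorem Hg.ht (h : Hg g X) {C : ℝ} (hC : 1 ≤ C) {α : L}
    (h1 : ∀ v : AbsoluteValue L ℝ, v α ≤ C * exp (g v)) :
    logHeight₁ α ≤ finrank ℚ L * log C + X := by
  have k : ∀ {a c y : ℝ}, 0 ≤ a → 1 ≤ c → 0 ≤ y → a ≤ c * exp y → log⁺ a ≤ log c + y :=
    fun {a c y} ha hc hy h => (posLog_le_posLog ha h).trans (by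
      have := one_le_exp hy
      rw [posLog_eq_log (by rw [abs_of_pos (by positivity)]; nlinarith), log_mul (by positivity)
        (by positivity), log_exp])
  have a1 := sum_le_sum fun (σ : L →+* ℂ) (_ : σ ∈ univ) =>
    k (norm_nonneg (σ α)) hC (h.1 _) (h1 (place σ))
  have a2 := sum_le_sum fun (w : FinitePlace L) (_ : w ∈ (fin_supp α).toFinset) =>
    k (apply_nonneg w.1 α) le_rfl (h.1 _) ((h.na h1 w.1 (FinitePlace.add_le w)).trans
      (one_mul _).ge)
  rw [sum_add_distrib, sum_const, card_univ, Embeddings.card, nsmul_eq_mul] at a1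
  simp only [log_one, zero_add] at a2
  have a3 := h.2.2 (fin_supp α).toFinset
  rw [ht_eq, finsum_eq_sum _ (fin_supp α)]
  exact (add_le_add a1 a2).trans (by linarith)

/-- the product formula -/
theorem Hg.prod_formula (h : Hg g X) {C ε : ℝ} {α : L} (h0 : α ≠ 0)
    (h1 : ∀ v : AbsoluteValue L ℝ, v α ≤ C * exp (g v))
    (h2 : ∀ σ : L →+* ℂ, ‖σ α‖ ≤ ε * exp (g (place σ))) : 0 ≤ finrank ℚ L * log ε + X := by
  classical
  set W := (fin_supp α).toFinset ∪ (fin_supp α⁻¹).toFinset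
  have e1 := ht_eq α
  have e2 := ht_eq α⁻¹
  rw [finsum_eq_sum_of_support_subset _ (s := W) (by simp [W])] at e1 e2
  rw [logHeight₁_inv] at e2
  have a1 : ∀ σ : L →+* ℂ, log⁺ ‖σ α‖ - log⁺ ‖σ α⁻¹‖ ≤ log ε + g (place σ) := fun σ => by
    have p0 := norm_pos_iff.2 ((map_ne_zero σ).2 h0)
    have p1 : 0 < ε := pos_of_mul_pos_left (p0.trans_le (h2 σ)) (exp_pos _).le
    rw [map_inv₀, norm_inv, posLog_sub_posLog_inv, ← log_exp (g _), ← log_mul p1.ne' (exp_pos _).ne']
    exact log_le_log p0 (h2 σ)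
  have a2 : ∀ w : FinitePlace L, log⁺ (w α) - log⁺ (w α⁻¹) ≤ g w.1 := fun w => by
    rw [map_inv₀, posLog_sub_posLog_inv]
    exact (log_le_iff_le_exp (w.1.pos h0)).2 (h.na h1 w.1 (FinitePlace.add_le w))
  have a3 := sum_le_sum fun σ (_ : σ ∈ univ) => a1 σ
  have a4 := sum_le_sum fun w (_ : w ∈ W) => a2 w
  rw [sum_add_distrib, sum_const, card_univ, Embeddings.card, nsmul_eq_mul, sum_sub_distrib] at a3
  rw [sum_sub_distrib] at a4
  have a5 := h.2.2 W
  linarith

/-- the local quantity `F` has global logarithmic size at most `Y` -/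
def Hb (F : AbsoluteValue L ℝ → ℝ) (Y : ℝ) : Prop :=
  ∃ g X C, Hg g X ∧ 1 ≤ C ∧ (∀ v, F v ≤ C * exp (g v)) ∧ finrank ℚ L * log C + X ≤ Y

variable {F F' : AbsoluteValue L ℝ → ℝ} {Y Y' : ℝ}

theorem Hb.mono (h : Hb F Y) (h1 : ∀ v, F' v ≤ F v) (h2 : Y ≤ Y') : Hb F' Y' :=
  let ⟨g, X, C, a, b, c, d⟩ := h
  ⟨g, X, C, a, b, fun v => (h1 v).trans (c v), d.trans h2⟩

theorem Hb.nonneg (h : Hb F Y) : 0 ≤ Y :=
  let ⟨_, _, _, a, b, _, d⟩ := h
  (add_nonneg (mul_nonneg (by positivity) (log_nonneg b)) a.nonneg).trans d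

theorem Hb.ht {α : L} (h : Hb (fun v => v α) Y) : logHeight₁ α ≤ Y :=
  let ⟨_, _, _, a, b, c, d⟩ := h
  (a.ht b c).trans d

theorem Hg.hb (h : Hg g X) : Hb (fun v => exp (g v)) X :=
  ⟨g, X, 1, h, le_rfl, fun v => (one_mul _).ge, by simp⟩

theorem hb_const {C : ℝ} (hC : 1 ≤ C) :
    Hb (fun _ : AbsoluteValue L ℝ => C) (finrank ℚ L * log C) :=
  ⟨_, 0, C, hg_zero, hC, fun v => by simp, by simp⟩

theorem hb_max (x : L) : Hb (fun v => max (v x) 1) (logHeight₁ x) :=
  (hg_pos x).hb.mono (fun v => by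
    rw [posLog_eq_log_max_one (v.nonneg x), exp_log (by positivity), max_comm]) le_rfl

theorem Hb.max (h : Hb F Y) : Hb (fun v => max (F v) 1) Y :=
  let ⟨g, X, C, a, b, c, d⟩ := h
  ⟨g, X, C, a, b, fun v => max_le (c v) (one_le_mul_of_one_le_of_one_le b (one_le_exp (a.1 v))), d⟩

theorem Hb.mul (h : Hb F Y) (h' : Hb F' Y') (h0 : ∀ v, 0 ≤ F' v) :
    Hb (fun v => F v * F' v) (Y + Y') := by
  obtain ⟨g, X, C, a, b, c, d⟩ := h
  obtain ⟨g', X', C', a', b', c', d'⟩ := h'
  refine ⟨_, _, C * C', a.add a', one_le_mul_of_one_le_of_one_le b b', fun v => ?_, ?_⟩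
  · rw [exp_add, mul_mul_mul_comm]
    exact mul_le_mul (c v) (c' v) (h0 v) (by positivity)
  · rw [log_mul (by positivity) (by positivity)]; linarith

theorem Hb.pow (h : Hb F Y) (h0 : ∀ v, 0 ≤ F v) (n : ℕ) : Hb (fun v => F v ^ n) (n * Y) := by
  induction n with
  | zero => simpa using hb_const (L := L) le_rfl
  | succ n ih => simpa [pow_succ, add_mul] using ih.mul h h0

theorem hb_prod {β : Type} (s : Finset β) {F : β → AbsoluteValue L ℝ → ℝ} {Y : β → ℝ}
    (h : ∀ b ∈ s, Hb (F b) (Y b)) (h0 : ∀ b ∈ s, ∀ v, 0 ≤ F b v) :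
    Hb (fun v => ∏ b ∈ s, F b v) (∑ b ∈ s, Y b) := by
  classical
  induction s using Finset.induction_on with
  | empty => simpa using hb_const (L := L) le_rfl
  | insert a s ha ih =>
    simp only [sum_insert ha, prod_insert ha]
    exact (h a (mem_insert_self _ _)).mul (ih (fun b hb => h b (mem_insert_of_mem hb))
      fun b hb => h0 b (mem_insert_of_mem hb))
      fun v => prod_nonneg fun b hb => h0 b (mem_insert_of_mem hb) v

/-- the height of a root of multiplicity `e` -/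
theorem Hb.root {p : Polynomial L} (h : Hb (fun v => pn v p) Y) (h0 : p ≠ 0) {x : L} {e : ℕ}
    (hx : (Polynomial.X - Polynomial.C x) ^ e ∣ p) :
    e * logHeight₁ x ≤ 2 * Y + e * finrank ℚ L := by
  obtain ⟨μ, rfl⟩ := hx
  have m0 := Polynomial.leadingCoeff_ne_zero.2 (right_ne_zero_of_mul h0)
  have h1 := (((hb_const (L := L) one_le_two).pow (by simp) e).mul h
    fun v => (sn_abs v).pn.nonneg _).mono (F' := fun v => v (μ.leadingCoeff * x ^ e))
    (fun v => by
      have := mult_loc v (Multiset.replicate e x) μ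
      simp only [Multiset.map_replicate, Multiset.prod_replicate, div_pow] at this
      rw [← mul_div_assoc, div_le_iff₀' (by positivity)] at this
      rwa [map_mul, map_pow]) le_rfl
  have h2 := h.mono (F' := fun v => v μ.leadingCoeff) (fun v => by
    have := (sn_abs v).pn_coeff ((Polynomial.X - Polynomial.C x) ^ e * μ)
      (Polynomial.natDegree ((Polynomial.X - Polynomial.C x) ^ e * μ))
    rwa [Polynomial.coeff_natDegree, Polynomial.leadingCoeff_monic_mul
      ((Polynomial.monic_X_sub_C x).pow e)] at this) le_rfl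
  have h3 := ht_div _ (x ^ e) m0
  have h4 : log 2 ≤ 1 := by have := log_two_lt_d9; linarith
  have h5 := mul_le_of_le_one_right (show (0 : ℝ) ≤ e * finrank ℚ L by positivity) h4
  rw [logHeight₁_pow] at h3
  have := h1.ht
  have := h2.ht
  linarith

theorem Hb.root₁ {p : Polynomial L} (h : Hb (fun v => pn v p) Y) (h0 : p ≠ 0) {x : L}
    (hx : p.eval x = 0) : logHeight₁ x ≤ 2 * Y + finrank ℚ L := by
  simpa using h.root h0 (e := 1) (by simpa using Polynomial.dvd_iff_isRoot.2 hx)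

end Pool.Agent.ZPT
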