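import Pool.Agent.P.MP_4fdccb_ag.S.Pt
import Pool.Agent.P.MP_4fdccb_ag.S.Bas

/-! Upper bound for the Hilbert function of a surface. -/

set_option linter.unusedSectionVars false
set_option linter.unusedVariables false

namespace Pool.Agent.ZPT
open Finset MvPolynomial Filter

variable {K : Type} [Field K] [NumberField K] [Algebra K ℂ] {ι : Type} [Fintype ι]
  {𝔓 : Ideal (MvPolynomial ι K)} {Ω L : Type} [Field Ω] [Algebra K Ω] [Field L] [Algebra K L]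
  {ξ : ι → Ω} {z : ι → L}

theorem lau_le (ξ : ι → Ω) {n n' : ℕ} (h : n ≤ n') : Lau ξ n ≤ Lau ξ n' := by
  exact Submodule.span_mono fun x ⟨a, h1, h2⟩ => ⟨a, fun i => (h1 i).trans h, h2⟩

theorem lau_mono (ξ : ι → Ω) {n : ℕ} {a : ι → ℤ} (h : ∀ i, (a i).natAbs ≤ n) :
    ∏ i, ξ i ^ a i ∈ Lau ξ n := Submodule.subset_span ⟨a, h, rfl⟩

theorem lau_mul (hz : ∀ i, ξ i ≠ 0) {n n' : ℕ} {α β : Ω} (h : α ∈ Lau ξ n) (h' : β ∈ Lau ξ n') :
    α * β ∈ Lau ξ (n + n') := by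
  have h1 := Submodule.mul_mem_mul h h'
  rw [Lau, Lau, Submodule.span_mul_span] at h1
  refine Submodule.span_le.2 ?_ h1
  rintro _ ⟨_, ⟨a, ha, rfl⟩, _, ⟨a', ha', rfl⟩, rfl⟩
  refine Submodule.subset_span ⟨a + a',
    fun i => (Int.natAbs_add_le _ _).trans (add_le_add (ha i) (ha' i)), ?_⟩
  simp only [← prod_mul_distrib, Pi.add_apply, zpow_add₀ (hz _)]

theorem lau_pow (hz : ∀ i, ξ i ≠ 0) {n : ℕ} {α : Ω} (h : α ∈ Lau ξ n) (m : ℕ) :
    α ^ m ∈ Lau ξ (m * n) := by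
  induction m with
  | zero => simpa using lau_mono ξ (n := 0) (a := 0) fun i => le_rfl
  | succ m ih =>
    rw [pow_succ, add_mul, one_mul]
    exact lau_mul hz ih h

theorem lau_X (ξ : ι → Ω) (i : ι) : ξ i ∈ Lau ξ 1 := by
  classical
  have h := lau_mono ξ (n := 1) (a := Pi.single i 1) fun j => by
    rcases eq_or_ne j i with rfl | hj
    · simp
    · simp [Pi.single_eq_of_ne hj]
  rwa [prod_eq_single i (fun j _ hj => by simp [Pi.single_eq_of_ne hj]) (by simp),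
    Pi.single_eq_same, zpow_one] at h

theorem Hilb_lin (ξ : ι → Ω) (c : Option ι → ℕ) : lin c ξ ∈ Lau ξ 1 := by
  have h1 : (1 : Ω) ∈ Lau ξ 1 := by
    simpa using lau_mono ξ (n := 1) (a := 0) fun i => Nat.zero_le _
  refine add_mem ?_ (sum_mem fun i _ => ?_)
  · simpa using nsmul_mem h1 (c none)
  · simpa using nsmul_mem (lau_X ξ i) (c (some i))

theorem lau_mon (hz : ∀ i, ξ i ≠ 0) {a : Fin 3 → ι → ℤ} {κ : ℕ} (ha : ∀ k i, (a k i).natAbs ≤ κ)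
    (k : ℕ) (c : Option ι → ℕ) {A B : ℕ} (x : Fin A × Fin A × Fin B) :
    mon a k c ξ x ∈ Lau ξ (2 * A * κ + B * (k * κ + 1)) := by
  refine lau_le ξ ?_ (lau_mul hz (lau_mul hz (lau_pow hz (lau_mono ξ (ha 0)) x.1)
    (lau_pow hz (lau_mono ξ (ha 1)) x.2.1))
    (lau_pow hz (lau_mul hz (lau_pow hz (lau_mono ξ (ha 2)) k) (Hilb_lin ξ c)) x.2.2))
  have h1 := Nat.mul_le_mul_right κ x.1.2.le
  have h2 := Nat.mul_le_mul_right κ x.2.1.2.le
  have h3 := Nat.mul_le_mul_right (k * κ + 1) x.2.2.2.le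
  have h4 : 2 * A * κ = A * κ + A * κ := by ring
  omega

theorem Gn.mon (hg : Gn 𝔓 ξ) (hz : OnL 𝔓 z) (a : Fin 3 → ι → ℤ) (k : ℕ) (c : Option ι → ℕ)
    {A B : ℕ} (x : Fin A × Fin A × Fin B) : (mon a k c ξ x, mon a k c z x) ∈ Gr K ξ z := by
  exact pr_mul (pr_mul (pr_pow (hg.mono hz _) _) (pr_pow (hg.mono hz _) _))
    (pr_pow (pr_mul (pr_pow (hg.mono hz _) k)
      (pr_add (pr_nat _) (pr_sum fun i _ => pr_mul (pr_nat _) (gr_X i)))) _)

theorem Hilb_span {τ : Type} [Fintype τ] (t : τ → Ω) {d m : ℕ} (b : Fin d → Ω) (G : Ω)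
    {P : MvPolynomial τ ℤ} (hP : P.totalDegree ≤ m) (k : Fin d) :
    aeval t P * b k / G ∈ Submodule.span ℤ (Set.range
      fun x : Fin d × (τ → Fin (m + 1)) => (∏ j, t j ^ (x.2 j : ℕ)) * b x.1 / G) := by
  rw [aeval_def, eval₂_eq', sum_mul, sum_div]
  refine sum_mem fun μ hμ => ?_
  have h1 : ∀ j, μ j < m + 1 := fun j => Nat.lt_succ_of_le
    ((monomial_le_degreeOf j hμ).trans ((degreeOf_le_totalDegree P j).trans hP))
  have h2 := Submodule.smul_mem _ (coeff μ P) (Submodule.subset_span (R := ℤ) (Set.mem_range_self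
    (f := fun x : Fin d × (τ → Fin (m + 1)) => (∏ j, t j ^ (x.2 j : ℕ)) * b x.1 / G)
    (k, fun j => ⟨μ j, h1 j⟩)))
  convert h2 using 1
  simp only [zsmul_eq_mul, eq_intCast]
  ring

/-- Hint: a transcendence basis `t : Fin 2 → Ω`, `exists_bas`, `Bas.sz` for the family of the
`ξ i` and their inverses, `SzOK.mono` with level `n' = card ι * (2 n + 2) + 1`;
`J = Fin d × (Fin 2 → Fin (c * n' + 1))`, `γ (k, μ) = (∏ j, t j ^ μ j) * b k / g ^ n'`. -/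
theorem Gn.hilb (hg : Gn 𝔓 ξ) (htr : Algebra.trdeg K Ω = 2) : ∃ C : ℕ, ∀ n : ℕ,
    ∃ (J : Type) (_ : Fintype J) (γ : J → Ω), Fintype.card J ≤ C * (n + 1) ^ 2 ∧
      Lau ξ n ≤ Submodule.span ℤ (Set.range γ) := by
  classical
  obtain ⟨s, hs⟩ := exists_isTranscendenceBasis K Ω
  have hc : Cardinal.mk s = 2 := hs.cardinalMk_eq_trdeg.trans htr
  have hf : Finite s := Cardinal.lt_aleph0_iff_finite.1 (hc ▸ Cardinal.natCast_lt_aleph0 (n := 2))
  have := Fintype.ofFinite s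
  have hc2 : Fintype.card s = 2 := by
    rw [Cardinal.mk_fintype] at hc
    exact_mod_cast hc
  obtain ⟨d, b, hb⟩ := exists_bas hg.top hs
  obtain ⟨g, c, ok, hy⟩ := hb.sz (Sum.elim ξ fun i => (ξ i)⁻¹)
  have g0 : aeval ((↑) : s → Ω) g ≠ 0 := fun h => ok.g0 (hb.inj g h)
  refine ⟨d * (c * (2 * Fintype.card ι + 1) + 1) ^ 2, fun n => ⟨Fin d × (s → Fin
    (c * (Fintype.card ι * (2 * n + 2) + 1) + 1)), inferInstance, fun x =>
      (∏ j : s, (j : Ω) ^ (x.2 j : ℕ)) * b x.1 /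
        aeval ((↑) : s → Ω) g ^ (Fintype.card ι * (2 * n + 2) + 1), ?_, ?_⟩⟩
  · rw [Fintype.card_prod, Fintype.card_fun, Fintype.card_fin, Fintype.card_fin, hc2, mul_assoc,
      ← mul_pow]
    refine Nat.mul_le_mul_left _ (Nat.pow_le_pow_left ?_ 2)
    nlinarith [Nat.zero_le (c * n), Nat.zero_le n]
  · refine Submodule.span_le.2 ?_
    rintro _ ⟨a, ha, rfl⟩
    obtain ⟨P, h1, h2⟩ := ok.mono (ξ := ξ) (fun i => hy (Sum.inl i)) (fun i => hy (Sum.inr i)) a ha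
    rw [mul_comm, ← eq_div_iff (pow_ne_zero _ g0), sum_div] at h1
    rw [h1]
    exact sum_mem fun k _ => Hilb_span _ b _ (h2 k).1 k

end Pool.Agent.ZPT
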