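import Pool.Agent.P.MP_4fdccb_ag.S.Hab
import Pool.Agent.P.MP_4fdccb_ag.S.Ps

/-! The nondegenerate case: points of bounded height. -/

set_option linter.unusedSectionVars false
set_option linter.unusedVariables false

namespace Pool.Agent.ZPT
open Finset MvPolynomial Filter Height Real

variable {K : Type} [Field K] [NumberField K] [Algebra K ℂ] {ι : Type} [Fintype ι]
  {𝔓 : Ideal (MvPolynomial ι K)} [𝔓.IsPrime] {Ω : Type} [Field Ω] [Algebra K Ω] {ξ : ι → Ω}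

/-- Hint: `log (k + 1) = o (k)`. -/
theorem exists_big {a b c : ℝ} (hc : 0 < c) : ∃ k : ℕ, 1 ≤ k ∧ a + b * log (k + 1) < c * k := by
  have h1 : Tendsto (fun k : ℕ => (k : ℝ) + 1) atTop atTop :=
    tendsto_atTop_add_const_right _ _ tendsto_natCast_atTop_atTop
  have h2 := (isLittleO_log_id_atTop.comp_tendsto h1).bound
    (show 0 < c / (4 * (|b| + 1)) by positivity)
  obtain ⟨k, ⟨h3, h4⟩, h5⟩ := ((h2.and (eventually_ge_atTop 1)).and
    (tendsto_natCast_atTop_atTop.eventually_gt_atTop (|a| * 2 / c))).exists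
  refine ⟨k, h4, ?_⟩
  have k1 : (1 : ℝ) ≤ k := by exact_mod_cast h4
  have l0 : 0 ≤ log ((k : ℝ) + 1) := log_nonneg (by linarith)
  simp only [Function.comp, id, norm_eq_abs] at h3
  rw [abs_of_nonneg l0, abs_of_nonneg (by linarith : (0 : ℝ) ≤ k + 1), div_mul_eq_mul_div,
    le_div_iff₀ (by positivity)] at h3
  rw [div_lt_iff₀ hc] at h5
  have h6 := mul_le_mul_of_nonneg_right (le_abs_self b) l0
  have h7 := le_abs_self a
  have h8 := mul_le_mul_of_nonneg_left k1 hc.le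
  nlinarith

theorem Ndf_le_exp (n : ℕ) : (n : ℝ) ≤ exp n := by
  have := add_one_le_exp (n : ℝ)
  linarith

theorem Ndf_card (k B : ℕ) : (Fintype.card (Fin (k * B) × Fin (k * B) × Fin B) : ℝ) ≤
    exp (2 * log (k + 1) + 3 * B) := by
  have h1 : (k : ℝ) ≤ exp (log (k + 1)) := by rw [exp_log (by positivity)]; linarith
  have h2 := Ndf_le_exp B
  have e : exp (2 * log (k + 1) + 3 * B) =
      exp (log (k + 1)) * exp B * (exp (log (k + 1)) * exp B * exp B) := by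
    simp only [← exp_add]
    congr 1
    ring
  simp only [Fintype.card_prod, Fintype.card_fin, Nat.cast_mul]
  rw [e]
  gcongr

theorem Ndf_coef {k B c₀ : ℕ} {c : Option ι → ℕ}
    (h : ∀ o, c o ≤ (c₀ * (k * B + 1) ^ 2) ^ Fintype.card ι) : (∑ o, (c o : ℝ)) + 1 ≤
      exp (Fintype.card ι + 1 + Fintype.card ι * (c₀ + 2 * (log (k + 1) + B))) := by
  set N := Fintype.card ι with hN
  set Θ : ℝ := N * (c₀ + 2 * (log (k + 1) + B)) with hΘ
  have l0 : 0 ≤ log ((k : ℝ) + 1) := log_nonneg (by linarith [Nat.cast_nonneg (α := ℝ) k])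
  have h1 : (k : ℝ) * B + 1 ≤ exp (log (k + 1) + B) := by
    rw [exp_add, exp_log (by positivity)]
    have := add_one_le_exp (B : ℝ)
    have h2 : (0 : ℝ) ≤ k := by positivity
    have h3 : (0 : ℝ) ≤ B := by positivity
    nlinarith
  have h2 : ∀ o, (c o : ℝ) ≤ exp Θ := fun o => by
    refine (Nat.cast_le.2 (h o)).trans ?_
    have h3 := Ndf_le_exp c₀
    rw [hΘ, exp_nat_mul, exp_add, show (2 : ℝ) = (2 : ℕ) by simp, exp_nat_mul]
    push_cast
    gcongr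
  have h3 : (∑ o, (c o : ℝ)) ≤ (N + 1) * exp Θ :=
    (sum_le_card_nsmul _ _ _ fun o _ => h2 o).trans (by simp [hN])
  have h4 : 1 ≤ exp Θ := one_le_exp (by positivity)
  have h5 := add_one_le_exp ((N : ℝ) + 1)
  rw [exp_add]
  nlinarith

theorem Ndf_sqrt {x a l : ℝ} (hl : 0 ≤ l) (ha : 0 ≤ a) (hx : x ≤ exp a) :
    √(x * (exp l + 1)) ≤ exp (a + l / 2 + 1) := by
  refine sqrt_le_iff.2 ⟨(exp_pos _).le, ?_⟩
  have h1 : exp l + 1 ≤ exp (l + 1) := by
    have := one_le_exp hl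
    have := add_one_le_exp (1 : ℝ)
    rw [exp_add]
    nlinarith
  rw [← exp_nat_mul]
  refine (mul_le_mul hx h1 (by positivity) (exp_pos _).le).trans ?_
  rw [← exp_add, exp_le_exp]
  push_cast
  linarith

theorem Ndf_low {x l : ℝ} {k N : ℕ} (h : l ≤ N * (k * x)) :
    exp (l - N) ≤ (exp x ^ k / 2) ^ N := by
  have h1 : exp (k * x - 1) ≤ exp x ^ k / 2 := by
    have := add_one_le_exp (1 : ℝ)
    rw [exp_sub, exp_nat_mul]
    gcongr
    linarith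
  refine le_trans ?_ (pow_le_pow_left₀ (exp_pos _).le h1 N)
  rw [← exp_nat_mul, exp_le_exp]
  linarith

theorem Ndf_abs {κ q : ℕ} (hq : 1 ≤ q) {t : ℝ} (h : |t| + 1 ≤ κ) :
    (round (q * t)).natAbs ≤ κ * q := by
  have h1 := abs_sub_round ((q : ℝ) * t)
  have h2 := abs_sub_abs_le_abs_sub (round ((q : ℝ) * t) : ℝ) (q * t)
  have q1 : (1 : ℝ) ≤ q := by exact_mod_cast hq
  rw [abs_sub_comm, abs_mul, abs_of_nonneg (by linarith : (0 : ℝ) ≤ q)] at h2
  have h3 : (((round ((q : ℝ) * t)).natAbs : ℕ) : ℝ) ≤ κ * q := by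
    rw [Nat.cast_natAbs, Int.cast_abs]
    nlinarith
  exact_mod_cast h3

/-- Hint: replace `h₁` by `|h₁| + 1`. `c, δ, ρ, q₀, C, N, κ` as in `hab`;
`C₃ = 8 (C + 1) (3 κ + 2) ^ 2`, `ε = δ c / (48 C₃ h₁)`, `q ≥ max q₀ 1` with `1 / (2 ε) ≤ q`,
`η = 2 q ε`, `N₀ = ⌈c q ^ 2⌉₊`, `B = C₃ q ^ 2`, `c₀` from `gb`, then `k` large (`exists_big`),
`A = k B`, `I = Fin A × Fin A × Fin B`, `λ = δ c k q ^ 3`, `u = exp λ`. All `mon a k c ξ x` lie in
`Lau ξ n`, `n + 1 ≤ (3 κ + 2) A q`, so `mon x = ∑ j, 𝒞 x j • γ j` with integers `𝒞` and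
`8 card J ≤ card I` (note `card J ≤ card I`). `siegel_span` gives `p` with
`∑ |p| ≤ card I * √(card I * (u + 1)) < (exp (δ q) ^ k / 2) ^ N₀`, so by `gb` (and `Gn.mon`,
`Gn.fn` over `ℂ`) `α = ∑ x, p x * mon ξ x ≠ 0`. At a generic point (`Gn.ne`, `Gn.regs` for `γ`)
`α₀ = ∑ x, p x * mon z x ≠ 0` and `mon z x = ∑ j, 𝒞 x j * γ₀ j` (`Gn.eq`). `Hg.prod_formula` with
`g v = ((2 A + k B) η + B) * sz z v` (`hg_sz`, `mon_loc`, also for `v = place σ`) and
`ε' = (∑ |p|) / u * card I * card I * (∑ c + 1) ^ B` gives `0 ≤ log ε' + 2 (3 A η + B) h₁`, where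
`6 A η h₁ = λ / 4` and `log ε' ≤ -λ / 2 + O (log (k + 1))`. -/
theorem ndf (hg : Gn 𝔓 ξ) (htr : Algebra.trdeg K Ω = 2) {φ : Fin 3 → ι → ℝ}
    (hc : CovA (Tor 𝔓) φ) (h₁ : ℝ) : ∃ ε > (0 : ℝ), ∀ᶠ p in gen 𝔓, p.H ≤ h₁ * p.D →
      ∀ φ' : Fin 3 → ι → ℝ, (∀ k i, |φ' k i - φ k i| ≤ ε) → ¬ ∀ k, VV p.z (φ' k) := by
  classical
  obtain ⟨c, c0, δ, δ0, ρ, q₀, hc⟩ := hc
  obtain ⟨C, hC⟩ := hg.hilb htr
  obtain ⟨κ, hκ⟩ : ∃ κ : ℕ, ∀ k i, |φ k i| + 1 ≤ κ := by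
    obtain ⟨κ, hκ⟩ := exists_nat_ge (∑ k, ∑ i, |φ k i| + 1)
    refine ⟨κ, fun k i => le_trans ?_ hκ⟩
    have h1 := single_le_sum (f := fun i => |φ k i|) (fun _ _ => abs_nonneg _) (mem_univ i)
    have h2 := single_le_sum (f := fun k => ∑ i, |φ k i|)
      (fun _ _ => sum_nonneg fun _ _ => abs_nonneg _) (mem_univ k)
    linarith
  obtain ⟨h, h0, hh⟩ : ∃ h : ℝ, 0 < h ∧ h₁ ≤ h :=
    ⟨|h₁| + 1, by positivity, by linarith [le_abs_self h₁]⟩
  obtain ⟨C₃, hC₃⟩ : ∃ C₃ : ℕ, C₃ = 8 * (C + 1) * (3 * κ + 2) ^ 2 := ⟨_, rfl⟩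
  have C₃0 : 0 < C₃ := by rw [hC₃]; positivity
  obtain ⟨ε, hε⟩ : ∃ ε : ℝ, ε = δ * c / (48 * C₃ * h) := ⟨_, rfl⟩
  have ε0 : 0 < ε := by rw [hε]; positivity
  refine ⟨ε, ε0, ?_⟩
  obtain ⟨q, ⟨q0, q1⟩, q2⟩ := (((eventually_ge_atTop q₀).and (eventually_ge_atTop 1)).and
    (tendsto_natCast_atTop_atTop.eventually_ge_atTop (1 / (2 * ε)))).exists
  have q1' : (1 : ℝ) ≤ q := by exact_mod_cast q1
  rw [div_le_iff₀ (by positivity)] at q2
  obtain ⟨c₀, hgb⟩ := gb (exp_pos _) (hc q q0)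
  obtain ⟨N₀, hN₀⟩ : ∃ N₀ : ℕ, N₀ = ⌈c * q ^ 2⌉₊ := ⟨_, rfl⟩
  obtain ⟨B, hB⟩ : ∃ B : ℕ, B = C₃ * q ^ 2 := ⟨_, rfl⟩
  obtain ⟨a, ha⟩ : ∃ a : Fin 3 → ι → ℤ, a = fun k i => round (q * φ k i) := ⟨_, rfl⟩
  rw [← hN₀, ← ha] at hgb
  have B0 : 0 < B := by rw [hB]; positivity
  obtain ⟨k, k1, hk⟩ := exists_big (a := 13 * B + 1 + B * (Fintype.card ι + 1 +
    Fintype.card ι * (c₀ + 2 * B)) + 2 * B * h + N₀) (b := 8 + 2 * B * Fintype.card ι)
    (show 0 < δ * c * q ^ 3 / 4 by positivity)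
  obtain ⟨cc, hcc, hgb⟩ := hgb k (k * B)
  obtain ⟨J, _, γ, hJ, hγ⟩ := hC (2 * (k * B) * (κ * q) + B * (k * (κ * q) + 1))
  have hmon := fun x : Fin (k * B) × Fin (k * B) × Fin B =>
    (Submodule.mem_span_range_iff_exists_fun ℤ).1 (hγ (lau_mon hg.nz (a := a) (κ := κ * q)
      (fun k i => by rw [ha]; exact Ndf_abs q1 (hκ k i)) k cc x))
  choose 𝒞 h𝒞 using hmon
  have hI : 8 * Fintype.card J ≤ Fintype.card (Fin (k * B) × Fin (k * B) × Fin B) := by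
    have h1 : B ≤ k * B * q := by
      rw [mul_right_comm]
      exact Nat.le_mul_of_pos_left _ (by positivity)
    have h2 : 2 * (k * B) * (κ * q) + B * (k * (κ * q) + 1) + 1 ≤ (3 * κ + 2) * (k * B * q) := by
      nlinarith
    have h3 := hJ.trans (Nat.mul_le_mul (Nat.le_succ C) (Nat.pow_le_pow_left h2 2))
    simp only [Fintype.card_prod, Fintype.card_fin]
    refine (Nat.mul_le_mul_left 8 h3).trans (le_of_eq ?_)
    rw [hB, hC₃, Nat.succ_eq_add_one]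
    ring
  obtain ⟨l, hl⟩ : ∃ l : ℝ, l = δ * c * q ^ 3 * k := ⟨_, rfl⟩
  have l0 : 0 ≤ l := by rw [hl]; positivity
  obtain ⟨p, p0, hp, hs⟩ := siegel_span (fun x j => (𝒞 x j : ℝ)) (exp_pos l)
    (by simp only [Fintype.card_prod, Fintype.card_fin]; positivity) hI
  have lg0 : 0 ≤ log ((k : ℝ) + 1) := log_nonneg (by linarith [Nat.cast_nonneg (α := ℝ) k])
  have hcard := Ndf_card k B
  have hS : ∑ x, |(p x : ℝ)| ≤ exp (4 * log (k + 1) + 6 * B + l / 2 + 1) := by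
    refine (sum_le_card_nsmul _ _ _ fun x _ => (hp x).trans
      (Ndf_sqrt l0 (by positivity) hcard)).trans ?_
    rw [card_univ, nsmul_eq_mul]
    refine (mul_le_mul_of_nonneg_right hcard (exp_pos _).le).trans (le_of_eq ?_)
    rw [← exp_add]
    congr 1
    ring
  have t1 : (0 : ℝ) ≤ B * (Fintype.card ι + 1 + Fintype.card ι * (c₀ + 2 * B)) := by positivity
  have t2 : (0 : ℝ) ≤ B * Fintype.card ι * log (k + 1) := by positivity
  have t3 : (0 : ℝ) ≤ B * h := by positivity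
  have t4 : (0 : ℝ) ≤ B := by positivity
  have t5 : (0 : ℝ) ≤ N₀ := by positivity
  have hα : ∑ x, (p x : Ω) * mon a k cc ξ x ≠ 0 := fun e => by
    have h1 := (hgb B p p0 fun z hz => hg.fn (L := ℂ) hz _
      (e ▸ pr_sum fun x _ => pr_mul (pr_int _) (hg.mon hz a k cc x))).2
    have h2 : l ≤ N₀ * (k * (δ * q)) := by
      have h3 : c * q ^ 2 ≤ N₀ := hN₀ ▸ Nat.le_ceil _
      refine le_trans (le_of_eq ?_) (mul_le_mul_of_nonneg_right h3 (by positivity))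
      rw [hl]
      ring
    have h3 := exp_le_exp.1 ((Ndf_low h2).trans (h1.trans hS))
    nlinarith
  filter_upwards [hg.ne hα, hg.regs γ] with P hP1 ⟨γ₀, hγ₀⟩ hH φ' hφ' hV
  have hα₀ := hP1 _ (pr_sum fun x _ => pr_mul (pr_int (p x)) (hg.mon P.on a k cc x))
  have e0 : ∀ x, mon a k cc P.z x = ∑ j, (𝒞 x j : P.L) * γ₀ j := fun x => by
    refine hg.eq P.on (hg.mon P.on a k cc x) ?_
    rw [← h𝒞]
    simp only [zsmul_eq_mul]
    exact pr_sum fun j _ => pr_mul (pr_int _) (hγ₀ j)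
  have η0 : 0 ≤ 2 * q * ε := by positivity
  have hloc : ∀ (v : AbsoluteValue P.L ℝ) (x : Fin (k * B) × Fin (k * B) × Fin B),
      v (mon a k cc P.z x) ≤ (∑ o, (cc o : ℝ) + 1) ^ B *
        exp (((2 * (k * B : ℕ) + k * B) * (2 * q * ε) + B) * sz P.z v) := fun v x => by
    rw [← Nat.cast_sum]
    exact mon_loc η0 (fun k => (hV k).near P.on.1 (t := q) (a := a k) (fun i => by
      have h1 := abs_sub_round ((q : ℝ) * φ k i)
      have h2 := abs_sub_le (a k i : ℝ) (q * φ k i) (q * φ' k i)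
      have h3 := hφ' k i
      rw [← mul_sub, abs_mul, abs_of_nonneg (by linarith : (0 : ℝ) ≤ q), abs_sub_comm (φ k i),
        abs_sub_comm (a k i : ℝ) (q * φ k i), ha] at h2
      rw [ha]
      nlinarith) v) k cc x
  have hG := (hg_sz P.z).smul
    (c := (2 * (k * B : ℕ) + k * B) * (2 * q * ε) + B) (by positivity)
  have hco := pow_le_pow_left₀ (by positivity) (Ndf_coef hcc) B
  rw [← exp_nat_mul] at hco
  have h1 := hG.prod_formula (C := (∑ x, |(p x : ℝ)|) * (∑ o, (cc o : ℝ) + 1) ^ B)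
    (ε := exp (8 * log (k + 1) + 12 * B - l / 2 + 1 + B * (Fintype.card ι + 1 +
      Fintype.card ι * (c₀ + 2 * (log (k + 1) + B))))) hα₀ (fun v => ?_) fun σ => ?_
  · rw [log_exp] at h1
    have h2 : P.H ≤ h * P.D := hH.trans (mul_le_mul_of_nonneg_right hh P.D_pos.le)
    have h3 : ((2 * (k * B : ℕ) + k * B) * (2 * q * ε) + B) * (2 * h) = l / 4 + 2 * B * h := by
      rw [hε, hl, hB]
      push_cast
      field_simp
      ring
    have h4 := mul_le_mul_of_nonneg_left h2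
      (show 0 ≤ ((2 * (k * B : ℕ) + k * B) * (2 * q * ε) + B) * 2 by positivity)
    have h5 : 0 ≤ P.D * (8 * log (k + 1) + 12 * B - l / 2 + 1 + B * (Fintype.card ι + 1 +
        Fintype.card ι * (c₀ + 2 * (log (k + 1) + B))) + (l / 4 + 2 * B * h)) := by
      rw [← h3]
      nlinarith
    have h6 := nonneg_of_mul_nonneg_right h5 P.D_pos
    nlinarith
  · rw [sum_mul, sum_mul]
    refine ((sn_abs v).sum _ _).trans (sum_le_sum fun x _ => ?_)
    rw [mul_assoc]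
    exact (sn_abs v).mul_le ((sn_abs v).int _) (hloc v x)
  · have h2 := hs fun j => σ (γ₀ j)
    have e1 : ∀ x, ∑ j, (((𝒞 x j : ℝ) : ℂ)) * σ (γ₀ j) = σ (mon a k cc P.z x) := fun x => by
      simp [e0]
    simp only [e1] at h2
    have h3 : ∑ x, ‖σ (mon a k cc P.z x)‖ ≤ _ :=
      sum_le_card_nsmul _ _ _ fun x _ => hloc (NumberField.place σ) x
    rw [card_univ, nsmul_eq_mul] at h3
    have h4 : (Fintype.card J : ℝ) ≤ exp (2 * log (k + 1) + 3 * B) :=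
      le_trans (by exact_mod_cast le_trans (Nat.le_mul_of_pos_left _ (by norm_num)) hI) hcard
    have e2 : σ (∑ x, (p x : P.L) * mon a k cc P.z x) = ∑ x, (p x : ℂ) * σ (mon a k cc P.z x) := by
      simp
    rw [e2]
    refine h2.trans ((mul_le_mul (mul_le_mul (div_le_div_of_nonneg_right hS (exp_pos _).le) h4
      (by positivity) (by positivity)) (h3.trans (mul_le_mul hcard
        (mul_le_mul_of_nonneg_right hco (exp_pos _).le) (by positivity) (exp_pos _).le))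
      (by positivity) (by positivity)).trans (le_of_eq ?_))
    simp only [← exp_sub, ← exp_add]
    congr 1
    ring

end Pool.Agent.ZPT
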