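import Pool.Agent.P.MP_4fdccb_ag.Main
import Pool.Agent.P.MP_4fdccb_ag.S.Hb

/-! Algebraic points, the generic filter, and specialisation of rational functions. -/

set_option linter.unusedSectionVars false
set_option linter.unusedVariables false

namespace Pool.Agent.ZPT
open Height NumberField Finset Real Module Filter MvPolynomial IntermediateField

variable {K : Type} [Field K] [NumberField K] [Algebra K ℂ] {ι : Type} [Fintype ι]

/-- an algebraic point of the torus part of the zero set -/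
structure Pt (𝔓 : Ideal (MvPolynomial ι K)) where
  L : Type
  [f : Field L]
  [nf : NumberField L]
  [al : Algebra K L]
  z : ι → L
  on : OnL 𝔓 z

variable {𝔓 : Ideal (MvPolynomial ι K)}

instance Pt.instF (p : Pt 𝔓) : Field p.L := p.f
instance Pt.instN (p : Pt 𝔓) : NumberField p.L := p.nf
instance Pt.instA (p : Pt 𝔓) : Algebra K p.L := p.al

/-- the degree of the field of a point -/
noncomputable abbrev Pt.D (p : Pt 𝔓) : ℝ := finrank ℚ p.L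

/-- the height of a point -/
noncomputable abbrev Pt.H (p : Pt 𝔓) : ℝ := ∑ i, logHeight₁ (p.z i)

theorem Pt.D_pos (p : Pt 𝔓) : 0 < p.D := rank_pos p.L

theorem Pt.H_nonneg (p : Pt 𝔓) : 0 ≤ p.H := sum_nonneg fun _ _ => zero_le_logHeight₁ _

/-- the filter of complements of proper closed subsets -/
def gen (𝔓 : Ideal (MvPolynomial ι K)) [hp : 𝔓.IsPrime] : Filter (Pt 𝔓) where
  sets := {S | ∃ G ∉ 𝔓, ∀ p : Pt 𝔓, aeval p.z G ≠ 0 → p ∈ S}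
  univ_sets := ⟨1, (Ideal.ne_top_iff_one _).1 hp.ne_top, fun _ _ => trivial⟩
  sets_of_superset := fun ⟨G, h1, h2⟩ h => ⟨G, h1, fun p hp => h (h2 p hp)⟩
  inter_sets := fun ⟨G, h1, h2⟩ ⟨G', h3, h4⟩ => ⟨G * G', fun h => (hp.mem_or_mem h).elim h1 h3,
    fun p h => by
      rw [map_mul, mul_ne_zero_iff] at h
      exact ⟨h2 p h.1, h4 p h.2⟩⟩

theorem ev_gen [𝔓.IsPrime] {P : Pt 𝔓 → Prop} :
    (∀ᶠ p in gen 𝔓, P p) ↔ ∃ G ∉ 𝔓, ∀ p : Pt 𝔓, aeval p.z G ≠ 0 → P p := Iff.rfl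

theorem gen_aeval [𝔓.IsPrime] {G : MvPolynomial ι K} (h : G ∉ 𝔓) :
    ∀ᶠ p in gen 𝔓, aeval p.z G ≠ 0 := ⟨G, h, fun _ h => h⟩

variable {Ω L : Type} [Field Ω] [Algebra K Ω] [Field L] [Algebra K L]

/-- `ξ` is a generic point -/
structure Gn (𝔓 : Ideal (MvPolynomial ι K)) (ξ : ι → Ω) : Prop where
  ker : ∀ g, aeval ξ g = 0 ↔ g ∈ 𝔓
  top : adjoin K (Set.range ξ) = ⊤
  nz : ∀ i, ξ i ≠ 0

theorem Gen.gn [DecidableEq ι] {ξ : ι → Ω} (h : Gen 𝔓 ξ) : Gn 𝔓 ξ := ⟨h.ker, h.top, h.nz⟩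

/-- pairs consisting of a rational function regular at `z` and its value at `z` -/
def Gr (K : Type) [Field K] [Algebra K Ω] [Algebra K L] (ξ : ι → Ω) (z : ι → L) :
    Subalgebra K (Ω × L) where
  carrier := {x | ∃ P G : MvPolynomial ι K, aeval z G ≠ 0 ∧ x.1 * aeval ξ G = aeval ξ P ∧
    x.2 * aeval z G = aeval z P}
  mul_mem' := fun ⟨P, G, a, b, c⟩ ⟨P', G', a', b', c'⟩ => ⟨P * P', G * G', by simp [a, a'],
    by simp only [map_mul, ← b, ← b', Prod.fst_mul]; ring,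
    by simp only [map_mul, ← c, ← c', Prod.snd_mul]; ring⟩
  add_mem' := fun ⟨P, G, a, b, c⟩ ⟨P', G', a', b', c'⟩ => ⟨P * G' + P' * G, G * G', by simp [a, a'],
    by simp only [map_mul, map_add, ← b, ← b', Prod.fst_add]; ring,
    by simp only [map_mul, map_add, ← c, ← c', Prod.snd_add]; ring⟩
  algebraMap_mem' c := ⟨C c, 1, by simp, by simp, by simp⟩

section Sub
variable {A B σ : Type} [CommRing A] [CommRing B] [SetLike σ (A × B)] [SubringClass σ (A × B)]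
  {S : σ} {a a' : A} {b b' : B}

theorem pr_add (h : (a, b) ∈ S) (h' : (a', b') ∈ S) : (a + a', b + b') ∈ S := add_mem h h'
theorem pr_sub (h : (a, b) ∈ S) (h' : (a', b') ∈ S) : (a - a', b - b') ∈ S := sub_mem h h'
theorem pr_mul (h : (a, b) ∈ S) (h' : (a', b') ∈ S) : (a * a', b * b') ∈ S := mul_mem h h'
theorem pr_pow (h : (a, b) ∈ S) (n : ℕ) : (a ^ n, b ^ n) ∈ S := pow_mem h n
theorem pr_int (n : ℤ) : ((n : A), (n : B)) ∈ S := intCast_mem S n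
theorem pr_nat (n : ℕ) : ((n : A), (n : B)) ∈ S := natCast_mem S n

theorem pr_sum {β : Type} {s : Finset β} {f : β → A} {g : β → B} (h : ∀ i ∈ s, (f i, g i) ∈ S) :
    (∑ i ∈ s, f i, ∑ i ∈ s, g i) ∈ S := by
  rw [prod_mk_sum]; exact sum_mem h

theorem pr_prod {β : Type} {s : Finset β} {f : β → A} {g : β → B} (h : ∀ i ∈ s, (f i, g i) ∈ S) :
    (∏ i ∈ s, f i, ∏ i ∈ s, g i) ∈ S := by
  rw [prod_mk_prod]; exact prod_mem h

theorem pr_aeval {τ : Type} {x : τ → A} {y : τ → B} (h : ∀ i, (x i, y i) ∈ S)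
    (p : MvPolynomial τ ℤ) : (aeval x p, aeval y p) ∈ S := by
  induction p using MvPolynomial.induction_on with
  | C c => simpa using pr_int c
  | add p q hp hq => simpa using pr_add hp hq
  | mul_X p i hp => simpa using pr_mul hp (h i)

theorem pr_eval₂ {τ : Type} {x : τ → A} {y : τ → B} (h : ∀ i, (x i, y i) ∈ S) (h' : (a, b) ∈ S)
    (m : Polynomial (MvPolynomial τ ℤ)) :
    (m.eval₂ (aeval x : _ →ₐ[ℤ] A) a, m.eval₂ (aeval y : _ →ₐ[ℤ] B) b) ∈ S := by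
  rw [Polynomial.eval₂_eq_sum_range, Polynomial.eval₂_eq_sum_range]
  exact pr_sum fun i _ => pr_mul (pr_aeval h _) (pr_pow h' i)

theorem pr_det {n : Type} [Fintype n] [DecidableEq n] {M : Matrix n n A} {M' : Matrix n n B}
    (h : ∀ i j, (M i j, M' i j) ∈ S) : (M.det, M'.det) ∈ S := by
  rw [Matrix.det_apply', Matrix.det_apply']
  exact pr_sum fun σ _ => pr_mul (pr_int _) (pr_prod fun i _ => h _ _)

theorem pr_eq (h0 : ∀ b, (0, b) ∈ S → b = 0) (h : (a, b) ∈ S) (h' : (a, b') ∈ S) : b = b' :=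
  sub_eq_zero.1 (h0 _ (by simpa using pr_sub h h'))

end Sub

variable {ξ : ι → Ω} {z : ι → L} {α : Ω} {β β' : L}

theorem gr_aeval {τ : Type} {x : τ → Ω} {y : τ → L} (h : ∀ i, (x i, y i) ∈ Gr K ξ z)
    (p : MvPolynomial τ K) : (aeval x p, aeval y p) ∈ Gr K ξ z := by
  induction p using MvPolynomial.induction_on with
  | C c => simpa using (Gr K ξ z).algebraMap_mem c
  | add p q hp hq => simpa using pr_add hp hq
  | mul_X p i hp => simpa using pr_mul hp (h i)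

theorem gr_X (i : ι) : (ξ i, z i) ∈ Gr K ξ z := ⟨X i, 1, by simp, by simp, by simp⟩

theorem Gn.fn (hg : Gn 𝔓 ξ) (hz : OnL 𝔓 z) (β : L) (h : (0, β) ∈ Gr K ξ z) : β = 0 := by
  obtain ⟨P, G, a, b, c⟩ := h
  rw [hz.2 P ((hg.ker P).1 (by simpa using b.symm))] at c
  exact (mul_eq_zero.1 c).resolve_right a

theorem Gn.eq (hg : Gn 𝔓 ξ) (hz : OnL 𝔓 z) (h : (α, β) ∈ Gr K ξ z) (h' : (α, β') ∈ Gr K ξ z) :
    β = β' := pr_eq (hg.fn hz) h h'

theorem Gn.inv (hg : Gn 𝔓 ξ) (hz : OnL 𝔓 z) (h : (α, β) ∈ Gr K ξ z) (h0 : β ≠ 0) :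
    (α⁻¹, β⁻¹) ∈ Gr K ξ z := by
  have a0 : α ≠ 0 := fun e => h0 (hg.fn hz β (e ▸ h))
  obtain ⟨P, G, a, b, c⟩ := h
  exact ⟨G, P, c ▸ mul_ne_zero h0 a, by rw [← b]; exact inv_mul_cancel_left₀ a0 _,
    by rw [← c]; exact inv_mul_cancel_left₀ h0 _⟩

theorem Gn.zpow (hg : Gn 𝔓 ξ) (hz : OnL 𝔓 z) (h : (α, β) ∈ Gr K ξ z) (h0 : β ≠ 0) (n : ℤ) :
    (α ^ n, β ^ n) ∈ Gr K ξ z := by
  obtain ⟨m, rfl | rfl⟩ := n.eq_nat_or_neg
  · simpa using pr_pow h m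
  · simpa using pr_pow (hg.inv hz h h0) m

theorem Gn.mono (hg : Gn 𝔓 ξ) (hz : OnL 𝔓 z) (a : ι → ℤ) :
    (∏ i, ξ i ^ a i, ∏ i, z i ^ a i) ∈ Gr K ξ z :=
  pr_prod fun i _ => hg.zpow hz (gr_X i) (hz.1 i) _

variable [𝔓.IsPrime]

theorem Gn.reg (hg : Gn 𝔓 ξ) (α : Ω) : ∀ᶠ p in gen 𝔓, ∃ β, (α, β) ∈ Gr K ξ p.z := by
  obtain ⟨P, G, h⟩ := (mem_adjoin_range_iff K ξ α).1 (hg.top ▸ mem_top)
  by_cases h0 : aeval ξ G = 0
  · exact .of_forall fun p => ⟨0, by rw [h, h0, div_zero]; exact zero_mem _⟩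
  · exact (gen_aeval (mt (hg.ker G).2 h0)).mono fun p hp =>
      ⟨aeval p.z P / aeval p.z G, P, G, hp, by rw [h, div_mul_cancel₀ _ h0], div_mul_cancel₀ _ hp⟩

theorem Gn.regs (hg : Gn 𝔓 ξ) {J : Type} [Finite J] (γ : J → Ω) :
    ∀ᶠ p in gen 𝔓, ∃ β : J → p.L, ∀ j, (γ j, β j) ∈ Gr K ξ p.z :=
  (eventually_all.2 fun j => hg.reg (γ j)).mono fun _ h => Classical.skolem.1 h

theorem Gn.ne (hg : Gn 𝔓 ξ) (h : α ≠ 0) : ∀ᶠ p in gen 𝔓, ∀ β, (α, β) ∈ Gr K ξ p.z → β ≠ 0 :=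
  (hg.reg α⁻¹).mono fun p ⟨β', h1⟩ β h2 h3 => by
    have h4 := pr_mul h2 h1
    rw [mul_inv_cancel₀ h, h3, zero_mul] at h4
    exact one_ne_zero (hg.eq p.on (one_mem _) h4)

/-- the height of the value of an element algebraic over `t` -/
theorem Gn.ht_alg (hg : Gn 𝔓 ξ) {τ : Type} [Fintype τ] {t : τ → Ω} {x : Ω}
    (hx : IsAlgebraic (Algebra.adjoin K (Set.range t)) x) : ∃ C : ℝ, 0 ≤ C ∧ ∀ᶠ p in gen 𝔓,
      ∀ (t₀ : τ → p.L) (x₀ : p.L), (∀ j, (t j, t₀ j) ∈ Gr K ξ p.z) → (x, x₀) ∈ Gr K ξ p.z →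
        logHeight₁ x₀ ≤ C * (∑ j, logHeight₁ (t₀ j) + p.D) := by
  obtain ⟨m, m0, hm⟩ := hx
  choose P hP using fun j => (show (m.coeff j : Ω) ∈ (aeval t : MvPolynomial τ K →ₐ[K] Ω).range from
    Algebra.adjoin_range_eq_range_aeval K t ▸ (m.coeff j).2)
  choose C c0 hC using fun j => ht_aeval (P j)
  set s := range (m.natDegree + 1)
  have s1 : (1 : ℝ) ≤ #s := by simp [s]
  have c1 := sum_nonneg fun j (_ : j ∈ s) => c0 j
  have c2 := log_nonneg s1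
  refine ⟨2 * (log #s + ∑ j ∈ s, C j) + 1, by positivity, ?_⟩
  filter_upwards [hg.ne (α := (m.coeff m.natDegree : Ω)) fun h => m0
    (Polynomial.leadingCoeff_eq_zero.1 (Subtype.ext h))] with p h1 t₀ x₀ h2 h3
  have g1 : ∀ j, ((m.coeff j : Ω), aeval t₀ (P j)) ∈ Gr K ξ p.z := fun j => hP j ▸ gr_aeval h2 _
  have e : ∀ j ∈ s, (∑ j ∈ s, Polynomial.monomial j (aeval t₀ (P j))).coeff j = aeval t₀ (P j) :=
    fun j hj => by simp [Polynomial.coeff_monomial, hj]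
  have h4 := Hb.root₁ (p := ∑ j ∈ s, Polynomial.monomial j (aeval t₀ (P j))) (x := x₀)
    (((hb_const s1).mul (hb_prod s (fun j _ => hb_max (aeval t₀ (P j))) fun _ _ _ => by positivity)
      fun v => prod_nonneg fun _ _ => by positivity).mono (fun v => ?_) le_rfl)
    (fun h => h1 _ (g1 _) (by rw [← e _ (self_mem_range_succ _), h]; rfl)) (hg.fn p.on _ ?_)
  · have h5 := sum_le_sum fun j (_ : j ∈ s) => hC j p.L t₀
    have h6 := sum_nonneg fun j (_ : j ∈ univ) => zero_le_logHeight₁ (t₀ j)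
    have := p.D_pos
    rw [← sum_mul] at h5
    nlinarith
  · refine ((sn_abs v).pn.sum _ _).trans ((sum_le_card_nsmul _ _ _ fun j hj => ?_).trans
      (nsmul_eq_mul _ _).le)
    rw [(sn_abs v).pn_monomial, ← mul_prod_erase _ _ hj]
    exact (le_max_left _ 1).trans (le_mul_of_one_le_right (by positivity)
      (Finset.one_le_prod fun _ _ => le_max_right _ _))
  · rw [← hm, Polynomial.aeval_eq_sum_range, Polynomial.eval_finsetSum]
    simp only [Polynomial.eval_monomial, Subalgebra.smul_def, smul_eq_mul]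
    exact pr_sum fun j _ => pr_mul (g1 j) (pr_pow h3 j)

theorem Gn.ht_alg₁ (hg : Gn 𝔓 ξ) {t x : Ω} (hx : IsAlgebraic (Algebra.adjoin K {t}) x) :
    ∃ C : ℝ, 0 ≤ C ∧ ∀ᶠ p in gen 𝔓, ∀ t₀ x₀ : p.L, (t, t₀) ∈ Gr K ξ p.z → (x, x₀) ∈ Gr K ξ p.z →
      logHeight₁ x₀ ≤ C * (logHeight₁ t₀ + p.D) := by
  obtain ⟨C, c0, h⟩ := hg.ht_alg (t := fun _ : Unit => t) (x := x) (by rwa [Set.range_const])
  exact ⟨C, c0, h.mono fun p h t₀ x₀ h1 h2 => by simpa using h (fun _ => t₀) x₀ (fun _ => h1) h2⟩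

section Base
variable {B : Type} [Fintype B] {𝔮 : Ideal (MvPolynomial B K)} {M : B → ι → ℤ}

theorem Gn.onq (hg : Gn 𝔓 ξ) (hk : ∀ g, aeval (fun j => ∏ i, ξ i ^ M j i) g = 0 ↔ g ∈ 𝔮)
    (hz : OnL 𝔓 z) : OnL 𝔮 fun j => ∏ i, z i ^ M j i :=
  ⟨fun j => prod_ne_zero_iff.2 fun i _ => zpow_ne_zero _ (hz.1 i), fun f hf =>
    hg.fn hz _ ((hk f).2 hf ▸ gr_aeval (fun j => hg.mono hz (M j)) f)⟩

/-- the image of a point under a monomial map -/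
abbrev Gn.bs (hg : Gn 𝔓 ξ) (hk : ∀ g, aeval (fun j => ∏ i, ξ i ^ M j i) g = 0 ↔ g ∈ 𝔮)
    (p : Pt 𝔓) : Pt 𝔮 := { L := p.L, z := fun j => ∏ i, p.z i ^ M j i, on := hg.onq hk p.on }

theorem Gn.tendsto [𝔮.IsPrime] (hg : Gn 𝔓 ξ)
    (hk : ∀ g, aeval (fun j => ∏ i, ξ i ^ M j i) g = 0 ↔ g ∈ 𝔮) :
    Tendsto (hg.bs hk) (gen 𝔓) (gen 𝔮) := fun _ ⟨G, h1, h2⟩ =>
  (hg.ne (mt (hk G).1 h1)).mono fun p hp =>
    h2 _ (hp _ (gr_aeval (fun j => hg.mono p.on (M j)) G))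

end Base

end Pool.Agent.ZPT
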