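import Pool.Agent.P.MP_4fdccb_ag.S.Alg

/-! Residues of logarithmic derivatives. -/

set_option linter.unusedSectionVars false
set_option linter.unusedVariables false

namespace Pool.Agent.ZPT
open Finset IntermediateField

section Val
open WithZero Polynomial
variable {E F : Type} [Field E] [CharZero E] [Field F] [Algebra E F]
  {v : Valuation F (WithZero (Multiplicative ℤ))}

theorem Ros_aeval (h1 : ∀ e : E, e ≠ 0 → v (algebraMap E F e) = 1) {g : F} (hg : v g ≤ 1)
    (p : E[X]) : v (aeval g p) ≤ 1 := by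
  induction p using Polynomial.induction_on' with
  | add p q hp hq => exact (map_add (aeval g) p q).symm ▸ v.map_add_le hp hq
  | monomial n a =>
    rw [aeval_monomial, map_mul, map_pow]
    refine mul_le_one' ?_ (pow_le_one' hg n)
    rcases eq_or_ne a 0 with rfl | ha
    · simp
    · exact (h1 a ha).le

theorem Ros_sep (h1 : ∀ e : E, e ≠ 0 → v (algebraMap E F e) = 1) {g : F} (hg : v g ≤ 1) :
    ∀ (n : ℕ) (p : E[X]), p.natDegree = n → p ≠ 0 → v (aeval g p) < 1 →
      ∃ q : E[X], v (aeval g q) < 1 ∧ v (aeval g (derivative q)) = 1 := by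
  intro n
  induction n using Nat.strong_induction_on with
  | _ n ih =>
    intro p hn p0 hp
    have h0 : p.natDegree ≠ 0 := fun h => by
      obtain ⟨a, rfl⟩ := natDegree_eq_zero.1 h
      rw [aeval_C, h1 a (by simpa using p0)] at hp
      exact lt_irrefl _ hp
    rcases (Ros_aeval h1 hg (derivative p)).lt_or_eq with h | h
    · exact ih _ (hn ▸ natDegree_derivative_lt h0) _ rfl
        (fun h2 => h0 (natDegree_eq_zero_of_derivative_eq_zero h2)) h
    · exact ⟨p, hp, h⟩

theorem Ros_val (D : Derivation E F F) (h1 : ∀ e : E, e ≠ 0 → v (algebraMap E F e) = 1) {g π : F}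
    (hg : v g ≤ 1) (hg0 : D g ≠ 0) (hmax : ∀ u, v u ≤ 1 → v (D u) ≤ v (D g)) {p : E[X]}
    (p0 : p ≠ 0) (hp : v (aeval g p) < 1) (hπ : v π = exp (-1)) {ι : Type} [Fintype ι]
    (ξ : ι → F) (φ : ι → E) (hξ : ∀ i, ξ i ≠ 0)
    (h : ∑ i, algebraMap E F (φ i) * (D (ξ i) / ξ i) = 0) :
    ∑ i, φ i * ((-log (v (ξ i)) : ℤ) : E) = 0 := by
  have π0 : π ≠ 0 := v.ne_zero_iff.1 (hπ ▸ exp_ne_zero)
  have π1 : v π < 1 := by
    rw [hπ, ← exp_zero, exp_lt_exp]
    norm_num
  have M0 : 0 < v (D g) := zero_lt_iff.2 (v.ne_zero_iff.2 hg0)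
  obtain ⟨q, q1, q2⟩ := Ros_sep h1 hg _ p rfl p0 hp
  have hM : v (D g) ≤ v (D π) := by
    have g1 : v (aeval g q / π) ≤ 1 := by
      rw [map_div₀, hπ, exp_neg, div_inv_eq_mul, ← lt_mul_exp_iff_le one_ne_zero, one_mul]
      simpa using mul_lt_mul_of_pos_right q1 (exp_pos (a := (1 : ℤ)))
    have e := D.leibniz π (aeval g q / π)
    rw [mul_div_cancel₀ _ π0, D.map_aeval, smul_eq_mul, smul_eq_mul, smul_eq_mul] at e
    have e2 : v (D g) = v (π * D (aeval g q / π) + aeval g q / π * D π) := by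
      rw [← e, map_mul, q2, one_mul]
    by_contra hlt
    refine e2.not_gt (v.map_add_lt ?_ ?_) <;> rw [map_mul]
    · exact (mul_le_mul_right (hmax _ g1) _).trans_lt (mul_lt_of_lt_one_left M0 π1)
    · exact (mul_le_of_le_one_left' g1).trans_lt (not_le.1 hlt)
  have key : ∀ i, v (D (ξ i) / ξ i - ((-log (v (ξ i)) : ℤ) : F) * (D π / π)) ≤ v (D π) := by
    intro i
    obtain ⟨n, hn⟩ : ∃ n : ℤ, n = -log (v (ξ i)) := ⟨_, rfl⟩
    have hu : v (ξ i * π ^ (-n)) = 1 := by
      rw [map_mul, map_zpow₀, hπ, ← exp_zsmul, ← exp_log (v.ne_zero_iff.2 (hξ i)), ← exp_add, hn]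
      simp
    have e : D (ξ i) / ξ i - (n : F) * (D π / π) = D (ξ i * π ^ (-n)) / (ξ i * π ^ (-n)) := by
      have := hξ i
      have := zpow_ne_zero (-n) π0
      rw [D.leibniz, D.leibniz_zpow, zpow_sub_one₀ π0]
      simp only [smul_eq_mul, zsmul_eq_mul, Int.cast_neg]
      field_simp
      ring
    rw [← hn, e, map_div₀, hu, div_one]
    exact (hmax _ hu.le).trans hM
  by_contra hc
  have e : algebraMap E F (∑ i, φ i * ((-log (v (ξ i)) : ℤ) : E)) * (D π / π) =
      -∑ i, algebraMap E F (φ i) *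
        (D (ξ i) / ξ i - ((-log (v (ξ i)) : ℤ) : F) * (D π / π)) := by
    simp only [mul_sub, Finset.sum_sub_distrib, h, zero_sub, neg_neg, map_sum, map_mul,
      map_intCast, Finset.sum_mul, mul_assoc]
  have h2 : v (D π) / v π ≤ v (D π) := by
    rw [← map_div₀, ← one_mul (v _), ← h1 _ hc, ← map_mul, e, v.map_neg]
    refine v.map_sum_le fun i _ => ?_
    rw [map_mul]
    refine (mul_le_of_le_one_left' ?_).trans (key i)
    simpa using Ros_aeval h1 hg (C (φ i))
  rw [div_le_iff₀ (zero_lt_iff.2 (v.ne_zero_iff.2 π0))] at h2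
  exact (mul_lt_of_lt_one_right (M0.trans_le hM) π1).not_ge h2

open IntermediateField.algebraAdjoinAdjoin IsDedekindDomain in
theorem Ros_exists (D : Derivation E F F) {x : F} (hx : D x ≠ 0) (htr : Transcendental E x)
    [FiniteDimensional E⟮x⟯ F] : ∃ (v : Valuation F (WithZero (Multiplicative ℤ))) (g π : F)
      (p : E[X]), (∀ e : E, e ≠ 0 → v (algebraMap E F e) = 1) ∧ v x < 1 ∧ v g ≤ 1 ∧ D g ≠ 0 ∧
      (∀ u, v u ≤ 1 → v (D u) ≤ v (D g)) ∧ p ≠ 0 ∧ v (aeval g p) < 1 ∧ v π = exp (-1) := by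
  let e := algEquivOfTranscendental E x htr
  have : IsPrincipalIdealRing (Algebra.adjoin E {x}) :=
    IsPrincipalIdealRing.of_surjective e.toRingEquiv.toRingHom e.surjective
  have := integralClosure.isDedekindDomain (Algebra.adjoin E {x}) E⟮x⟯ F
  have hfin := IsIntegralClosure.finite (Algebra.adjoin E {x}) E⟮x⟯ F
    (integralClosure (Algebra.adjoin E {x}) F)
  have : IsFractionRing (integralClosure (Algebra.adjoin E {x}) F) F :=
    integralClosure.isFractionRing_of_finite_extension E⟮x⟯ F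
  let ev : Algebra.adjoin E {x} →ₐ[E] E := (aeval 0).comp e.symm.toAlgHom
  have hmx := RingHom.ker_isMaximal_of_surjective ev fun a => ⟨_, ev.commutes a⟩
  obtain ⟨Q, hQ, hc⟩ := Ideal.exists_ideal_over_maximal_of_isIntegral
    (S := integralClosure (Algebra.adjoin E {x}) F) (RingHom.ker ev) fun c h => by
      have h3 := congrArg Subtype.val (RingHom.mem_ker.1 h)
      have h2 : c = 0 := Subtype.ext h3
      simp [h2]
  have hQ' : ∀ c, algebraMap _ _ c ∈ Q ↔ ev c = 0 := fun c => by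
    rw [← Ideal.mem_comap, hc, RingHom.mem_ker]
  have x0 : x ≠ 0 := fun h => hx (by simp [h])
  have hxQ := (hQ' ⟨x, Algebra.self_mem_adjoin_singleton E x⟩).2 (by simp [ev, e])
  let P : HeightOneSpectrum (integralClosure (Algebra.adjoin E {x}) F) :=
    ⟨Q, hQ.isPrime, fun h => by
      rw [h, Ideal.mem_bot] at hxQ
      exact x0 (congrArg Subtype.val hxQ)⟩
  have hA : ∀ a : integralClosure (Algebra.adjoin E {x}) F, P.valuation F a ≤ 1 :=
    P.valuation_le_one
  have hlt : ∀ c : Algebra.adjoin E {x}, ev c = 0 → P.valuation F c < 1 := fun c h =>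
    (P.valuation_lt_one_iff_mem (K := F) _).2 ((hQ' c).2 h)
  have h1 : ∀ a : E, a ≠ 0 → P.valuation F (algebraMap E F a) = 1 := fun a ha =>
    (P.valuation_eq_one_iff_notMem (K := F)
      (r := algebraMap _ _ (algebraMap E (Algebra.adjoin E {x}) a))).2 fun h =>
        ha ((ev.commutes a).symm.trans ((hQ' _).1 h))
  have hx1 : P.valuation F x < 1 := hlt ⟨x, Algebra.self_mem_adjoin_singleton E x⟩
    ((hQ' _).1 hxQ)
  obtain ⟨B, hB⟩ : ∃ B : ℤ, ∀ a : integralClosure (Algebra.adjoin E {x}) F,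
      P.valuation F (D a) ≤ exp B := by
    obtain ⟨S, hS⟩ := hfin.fg_top
    obtain ⟨B, hB⟩ := ((S.finite_toSet.image fun a => log (P.valuation F (D a.1))).insert
      (log (P.valuation F (D x)))).bddAbove
    refine ⟨B, fun a => ?_⟩
    have ha : a ∈ Submodule.span (Algebra.adjoin E {x}) (S : Set _) := hS ▸ Submodule.mem_top
    induction ha using Submodule.span_induction with
    | mem a ha => exact le_exp_of_log_le (hB (Or.inr ⟨a, ha, rfl⟩))
    | zero => simp
    | add a b _ _ ha hb => simpa using (P.valuation F).map_add_le ha hb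
    | smul c a _ ha =>
      obtain ⟨q, hq⟩ := Algebra.adjoin_mem_exists_aeval E x c.2
      rw [show ((c • a : integralClosure (Algebra.adjoin E {x}) F) : F) = aeval x q * a from
        hq ▸ rfl, D.leibniz, D.map_aeval]
      simp only [smul_eq_mul]
      refine (P.valuation F).map_add_le ?_ ?_ <;> rw [map_mul]
      · exact (mul_le_of_le_one_left' (Ros_aeval h1 hx1.le q)).trans ha
      · rw [map_mul]
        exact (mul_le_of_le_one_left' (hA a)).trans ((mul_le_of_le_one_left'
          (Ros_aeval h1 hx1.le _)).trans (le_exp_of_log_le (hB (Or.inl rfl))))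
  obtain ⟨_, ⟨g, hg, rfl⟩, hmax⟩ := Int.exists_greatest_of_bdd
    (P := fun n => ∃ a : integralClosure (Algebra.adjoin E {x}) F, D a ≠ 0 ∧
      n = log (P.valuation F (D a)))
    ⟨B, by
      rintro _ ⟨a, ha, rfl⟩
      exact (log_le_iff_le_exp ((P.valuation F).ne_zero_iff.2 ha)).2 (hB a)⟩
    ⟨_, algebraMap (Algebra.adjoin E {x}) _ ⟨x, Algebra.self_mem_adjoin_singleton E x⟩, hx, rfl⟩
  have hm : ∀ a : integralClosure (Algebra.adjoin E {x}) F,
      P.valuation F (D a) ≤ P.valuation F (D g) := fun a => by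
    by_cases ha : D a = 0
    · simp [ha]
    · exact (log_le_log ((P.valuation F).ne_zero_iff.2 ha)
        ((P.valuation F).ne_zero_iff.2 hg)).1 (hmax _ ⟨a, ha, rfl⟩)
  obtain ⟨π, hπ⟩ := P.valuation_exists_uniformizer F
  obtain ⟨R, hR, hR0⟩ := g.2
  refine ⟨P.valuation F, g, π, R.map ev.toRingHom, h1, hx1, hA g, hg, fun u hu => ?_,
    (hR.map _).ne_zero, ?_, hπ⟩
  · obtain ⟨a, b, hab⟩ := P.exists_primeCompl_mul_eq_of_integer u hu
    have hb : P.valuation F (b.1 : F) = 1 := (P.valuation_eq_one_iff_notMem (K := F)).2 b.2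
    have e1 : (b.1 : F) * D u = D a - u * D b.1 := by
      rw [show (a : F) = u * b.1 from hab.symm, D.leibniz]
      simp
    rw [← one_mul (P.valuation F (D u)), ← hb, ← map_mul, e1]
    refine (P.valuation F).map_sub_le (hm a) ?_
    rw [map_mul]
    exact (mul_le_of_le_one_left' hu).trans (hm b.1)
  · rw [← neg_neg (aeval _ _), Valuation.map_neg, ← zero_sub, ← hR0, aeval_def, eval₂_map,
      eval₂_eq_sum_range, eval₂_eq_sum_range, ← Finset.sum_sub_distrib]
    refine (P.valuation F).map_sum_lt one_ne_zero fun i _ => ?_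
    rw [← sub_mul, map_mul, map_pow]
    exact (mul_le_of_le_one_right' (pow_le_one' (hA g) i)).trans_lt
      (hlt (R.coeff i - algebraMap E _ (ev (R.coeff i))) (by simp))

end Val

/-- The residue lemma of Rosenlicht. Hint: `x` is transcendental over `E` (`ker_alg`). Let
`A₀ = Algebra.adjoin E {x}` (a principal ideal domain, `Polynomial.algEquivOfTranscendental`, with
fraction field `E⟮x⟯`, `open IntermediateField.algebraAdjoinAdjoin`), `A = integralClosure A₀ F`:
Dedekind, finite over `A₀`, fraction field `F` (`IsIntegralClosure.isDedekindDomain`, `.finite`,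
`.isFractionRing_of_finite_extension`). Take a maximal ideal of `A` over `(x)`, its valuation `v`
(`IsDedekindDomain.HeightOneSpectrum.valuation`), `ord α = -log (v α)`, a uniformiser `π`.
(1) nonzero elements of `E` have `v = 1`. (2) for `v g ≤ 1` there is `p ∈ E[T]` with
`v (p g) < 1` and `v (p' g) = 1`: `g` is algebraic over `E[x]`; divide a relation by the largest
power of `x`, set `x = 0`, and take `p ≠ 0` of minimal degree with `v (p g) < 1`.
(3) `v (δ g)` is bounded on `v g ≤ 1`: on `A` by finiteness over `A₀`, and `g = a / b` with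
`v b = 1`. (4) let `g` maximise `v (δ g)` among `v g ≤ 1` (values in `ℤᵐ⁰`, bounded, not all zero
as `δ x ≠ 0`); `p g = π g₁` gives `p' g * δ g = g₁ δ π + π δ g₁`, hence the maximum is `v (δ π)`,
`δ π ≠ 0`. (5) `ξ i = π ^ ord * u` with `v u = 1`, so `δ ξ / ξ = ord * δ π / π + δ u / u`; the
relation gives `v (∑ φ i * ord) * v (δ π) / v π ≤ v (δ π)`, so the constant `∑ φ i * ord` has
`v < 1` and vanishes. -/
theorem rosenlicht {k E F : Type} [CommRing k] [Field E] [CharZero E] [Field F] [Algebra k F]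
    [Algebra E F] (δ : Derivation k F F) (hE : ∀ e : E, δ (algebraMap E F e) = 0) {x : F}
    (hx : δ x ≠ 0) [FiniteDimensional E⟮x⟯ F] : ∃ ord : F → ℤ,
      (∀ α β, α ≠ 0 → β ≠ 0 → ord (α * β) = ord α + ord β) ∧ ord x ≠ 0 ∧
      ∀ {ι : Type} [Fintype ι] (ξ : ι → F) (φ : ι → E), (∀ i, ξ i ≠ 0) →
        ∑ i, algebraMap E F (φ i) * (δ (ξ i) / ξ i) = 0 → ∑ i, φ i * ord (ξ i) = 0 := by
  have : CharZero F := charZero_of_injective_algebraMap (algebraMap E F).injective
  obtain ⟨D, hD⟩ : ∃ D : Derivation E F F, ∀ y, D y = δ y :=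
    ⟨Derivation.mk'
      { toFun := δ
        map_add' := map_add δ
        map_smul' := fun e y => by simp [Algebra.smul_def, hE] } δ.leibniz, fun _ => rfl⟩
  simp only [← hD] at hx ⊢
  obtain ⟨v, g, π, p, h1, h2, h3, h4, h5, h6, h7, h8⟩ := Ros_exists D hx fun ⟨p, p0, hp⟩ =>
    hx (ker_alg D (algebraMap E F) (algebraMap E F).injective D.map_algebraMap p0 hp)
  refine ⟨fun α => -WithZero.log (v α), fun α β hα hβ => ?_, fun h => ?_,
    fun ξ φ hξ h => Ros_val D h1 h3 h4 h5 h6 h7 h8 ξ φ hξ h⟩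
  · simp only [map_mul, WithZero.log_mul (v.ne_zero_iff.2 hα) (v.ne_zero_iff.2 hβ), neg_add]
  · have x0 : x ≠ 0 := fun h => hx (by simp [h])
    rw [← WithZero.exp_log (v.ne_zero_iff.2 x0), neg_eq_zero.1 h] at h2
    exact lt_irrefl _ h2

/-- Hint: `E` is the kernel of `δ` as an intermediate field; with `x = ∏ i, ξ i ^ a i` the pair
`![r, x]` is a transcendence basis (`basis_pair`, `ker_of_alg` with the identity), so the `ξ i` are
algebraic over `E⟮x⟯` and generate `F`; `n i = ord (ξ i)`, `ord x = ∑ i, a i * n i`. -/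
theorem ros_vec {k F ι : Type} [Field k] [CharZero k] [Field F] [Algebra k F] [Fintype ι]
    {ξ : ι → F} (htop : adjoin k (Set.range ξ) = ⊤) (hnz : ∀ i, ξ i ≠ 0)
    (htr : Algebra.trdeg k F = 2) (δ : Derivation k F F) {r : F} (hr : δ r = 0)
    (hr' : Transcendental k r) {a : ι → ℤ} (ha : δ (∏ i, ξ i ^ a i) ≠ 0) :
    ∃ n : ι → ℤ, ∑ i, a i * n i ≠ 0 ∧ ∀ φ : ι → F, (∀ i, δ (φ i) = 0) →
      ∑ i, φ i * (δ (ξ i) / ξ i) = 0 → ∑ i, φ i * n i = 0 := by
  have : CharZero F := charZero_of_injective_algebraMap (algebraMap k F).injective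
  let E : IntermediateField k F :=
    { carrier := {y | δ y = 0}
      mul_mem' := fun {a b} ha hb => by
        simp only [Set.mem_setOf_eq] at *
        simp [ha, hb]
      add_mem' := fun {a b} ha hb => by
        simp only [Set.mem_setOf_eq] at *
        simp [ha, hb]
      algebraMap_mem' := δ.map_algebraMap
      inv_mem' := fun a ha => by
        simp only [Set.mem_setOf_eq] at *
        simp [δ.leibniz_inv, ha] }
  obtain ⟨x, hx⟩ : ∃ x, x = ∏ i, ξ i ^ a i := ⟨_, rfl⟩
  rw [← hx] at ha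
  have hb := (basis_pair htr hr' fun h => ha (ker_of_alg δ (AlgHom.id k F) δ.map_algebraMap
    (fun y hy => by rw [Set.mem_singleton_iff.1 hy]; exact hr) h)).isAlgebraic
  have hle : Algebra.adjoin k (Set.range ![r, x]) ≤ (E⟮x⟯.restrictScalars k).toSubalgebra := by
    refine Algebra.adjoin_le ?_
    rintro _ ⟨i, rfl⟩
    fin_cases i
    · exact E⟮x⟯.algebraMap_mem ⟨r, hr⟩
    · exact mem_adjoin_simple_self E x
  have hal : ∀ y : F, IsAlgebraic E⟮x⟯ y := fun y =>
    (hb.isAlgebraic y).tower_top_of_subalgebra_le hle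
  have : FiniteDimensional E⟮x⟯ F := by
    have h1 := finiteDimensional_adjoin (K := E⟮x⟯) (S := Set.range ξ) fun y _ => (hal y).isIntegral
    have h2 : adjoin E⟮x⟯ (Set.range ξ) = ⊤ := eq_top_iff.2 fun y _ =>
      (adjoin_le_iff (T := ((adjoin E⟮x⟯ (Set.range ξ)).restrictScalars E).restrictScalars k)).2
        (subset_adjoin E⟮x⟯ _) (htop ▸ mem_top)
    rw [h2] at h1
    exact topEquiv.toLinearEquiv.finiteDimensional
  obtain ⟨ord, h1, h2, h3⟩ := rosenlicht (E := E) δ (fun e => e.2) ha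
  refine ⟨fun i => ord (ξ i), fun h => h2 ?_, fun φ hφ h => ?_⟩
  · let f : Fˣ →* Multiplicative ℤ := MonoidHom.mk' (fun u => Multiplicative.ofAdd (ord u))
      fun u w => congrArg Multiplicative.ofAdd (h1 u w u.ne_zero w.ne_zero)
    have e := congrArg Multiplicative.toAdd (map_prod f (fun i => Units.mk0 _ (hnz i) ^ a i) univ)
    simp only [map_zpow, toAdd_prod, toAdd_zpow] at e
    simp only [f, MonoidHom.mk'_apply, toAdd_ofAdd, Units.coe_prod, Units.val_zpow_eq_zpow_val,
      Units.val_mk0, smul_eq_mul] at e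
    rw [hx, e, h]
  · simpa using congrArg (algebraMap E F) (h3 ξ (fun i => ⟨φ i, hφ i⟩) hnz h)

end Pool.Agent.ZPT
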