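import Pool.Agent.P.MP_4fdccb_ag.S.Pt

/-! Taylor expansion along a derivation. -/

set_option linter.unusedSectionVars false
set_option linter.unusedVariables false

namespace Pool.Agent.ZPT
open Finset Filter PowerSeries

variable {K : Type} [Field K] [NumberField K] [Algebra K ℂ] {ι : Type} [Fintype ι]
  {𝔓 : Ideal (MvPolynomial ι K)} {Ω L : Type} [Field Ω] [Algebra K Ω] [Field L] [Algebra K L]
  {ξ : ι → Ω} {z : ι → L}

/-- the largest subring of `R` that is stable under a derivation -/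
theorem Tay_sub {A : Type} [CommRing A] (D : A →+ A) (hD : ∀ x y, D (x * y) = x * D y + y * D x)
    (R : Subring A) : ∃ S : Subring A, ∀ x, x ∈ S ↔ ∀ n, D^[n] x ∈ R := by
  have h1 : D 1 = 0 := by simpa using hD 1 1
  have hm : ∀ n x y, (∀ n, D^[n] x ∈ R) → (∀ n, D^[n] y ∈ R) → D^[n] (x * y) ∈ R := by
    intro n
    induction n with
    | zero => exact fun x y hx hy => mul_mem (hx 0) (hy 0)
    | succ n ih =>
      intro x y hx hy
      rw [Function.iterate_succ_apply, hD, iterate_map_add]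
      exact add_mem (ih _ _ hx fun k => hy (k + 1)) (ih _ _ hy fun k => hx (k + 1))
  refine ⟨{ carrier := {x | ∀ n, D^[n] x ∈ R}
            mul_mem' := fun hx hy n => hm n _ _ hx hy
            one_mem' := fun n => ?_
            add_mem' := fun hx hy n => ?_
            zero_mem' := fun n => ?_
            neg_mem' := fun hx n => ?_ }, fun x => Iff.rfl⟩
  · cases n with
    | zero => exact one_mem R
    | succ n => rw [Function.iterate_succ_apply, h1, iterate_map_zero]; exact zero_mem R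
  · rw [iterate_map_add]; exact add_mem (hx n) (hy n)
  · rw [iterate_map_zero]; exact zero_mem R
  · rw [iterate_map_neg]; exact neg_mem (hx n)

/-- regular functions are stable under a derivation that is regular on the coordinates -/
theorem Tay_reg (hg : Gn 𝔓 ξ) (hz : OnL 𝔓 z) (δ : Derivation K Ω Ω) {b : ι → L}
    (hb : ∀ i, (δ (ξ i), b i) ∈ Gr K ξ z) {α : Ω} {β : L} (h : (α, β) ∈ Gr K ξ z) :
    ∃ β', (δ α, β') ∈ Gr K ξ z := by
  have hp : ∀ P : MvPolynomial ι K, ∃ β', (δ (MvPolynomial.aeval ξ P), β') ∈ Gr K ξ z := by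
    intro P
    induction P using MvPolynomial.induction_on with
    | C c => exact ⟨0, by rw [MvPolynomial.aeval_C, δ.map_algebraMap]; exact zero_mem _⟩
    | add p q hp hq =>
      obtain ⟨u, hu⟩ := hp
      obtain ⟨w, hw⟩ := hq
      exact ⟨u + w, by simpa using pr_add hu hw⟩
    | mul_X p i hp =>
      obtain ⟨u, hu⟩ := hp
      exact ⟨_, by simpa using pr_add (pr_mul (gr_aeval gr_X p) (hb i)) (pr_mul (gr_X i) hu)⟩
  obtain ⟨P, G, a, c, d⟩ := id h
  obtain ⟨u, hu⟩ := hp P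
  obtain ⟨w, hw⟩ := hp G
  have g1 := gr_aeval (gr_X (K := K) (ξ := ξ) (z := z)) G
  have g0 : MvPolynomial.aeval ξ G ≠ 0 := fun e => a (hg.fn hz _ (e ▸ g1))
  have e : δ α = (δ (MvPolynomial.aeval ξ P) - α * δ (MvPolynomial.aeval ξ G)) *
      (MvPolynomial.aeval ξ G)⁻¹ := by
    rw [← c, Derivation.leibniz, smul_eq_mul, smul_eq_mul, add_sub_cancel_left,
      mul_comm _ (δ α), mul_inv_cancel_right₀ g0]
  exact ⟨_, e ▸ pr_mul (pr_sub hu (pr_mul h hw)) (hg.inv hz g1 a)⟩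

theorem Tay_core [CharZero L] (hg : Gn 𝔓 ξ) (hz : OnL 𝔓 z) (δ : Derivation K Ω Ω) {b : ι → L}
    (hb : ∀ i, (δ (ξ i), b i) ∈ Gr K ξ z) :
    ∃ S : Subring (Ω × L⟦X⟧), (∀ f, (0, f) ∈ S → f = 0) ∧
      (∀ α f, (α, f) ∈ S → (δ α, d⁄dX L f) ∈ S) ∧
      ∀ α β, (α, β) ∈ Gr K ξ z ↔ ∃ f, (α, f) ∈ S ∧ constantCoeff f = β := by
  let D : Ω × L⟦X⟧ →+ Ω × L⟦X⟧ :=
    AddMonoidHom.prodMap δ.toLinearMap.toAddMonoidHom (d⁄dX L).toLinearMap.toAddMonoidHom
  have hD : ∀ x, D x = (δ x.1, d⁄dX L x.2) := fun _ => rfl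
  have hn : ∀ n x, D^[n] x = (δ^[n] x.1, (d⁄dX L)^[n] x.2) := fun n => by
    induction n with
    | zero => exact fun _ => rfl
    | succ n ih => exact fun x => ih (D x)
  obtain ⟨S, hS⟩ := Tay_sub D (fun x y => by
    simp only [hD, Prod.fst_mul, Prod.snd_mul, Derivation.leibniz, smul_eq_mul]; rfl)
    ((Gr K ξ z).toSubring.comap (RingHom.prodMap (RingHom.id Ω) constantCoeff))
  have hS' : ∀ α f, (α, f) ∈ S ↔ ∀ n, (δ^[n] α, (n.factorial : L) * coeff n f) ∈ Gr K ξ z :=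
    fun α f => (hS _).trans (forall_congr' fun n => by
      rw [hn, ← constantCoeff_iterate_derivative]; rfl)
  have hf : ∀ n : ℕ, (n.factorial : L) ≠ 0 := fun n => Nat.cast_ne_zero.2 n.factorial_ne_zero
  refine ⟨S, fun f h => PowerSeries.ext fun n => ?_, fun α f h => (hS _).2 fun n => (hS _).1 h (n + 1),
    fun α β => ⟨fun h => ?_, fun ⟨f, h, e⟩ => by simpa [e] using (hS' _ _).1 h 0⟩⟩
  · have h1 := (hS' _ _).1 h n
    rw [iterate_map_zero] at h1
    exact (mul_eq_zero.1 (hg.fn hz _ h1)).resolve_left (hf n)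
  · have h1 : ∀ n, ∃ β', (δ^[n] α, β') ∈ Gr K ξ z := fun n => by
      induction n with
      | zero => exact ⟨β, h⟩
      | succ n ih =>
        obtain ⟨u, hu⟩ := ih
        rw [Function.iterate_succ_apply']
        exact Tay_reg hg hz δ hb hu
    choose ev hev using h1
    refine ⟨mk fun n => ev n / n.factorial, (hS' _ _).2 fun n => ?_, ?_⟩
    · rw [coeff_mk, mul_div_cancel₀ _ (hf n)]; exact hev n
    · simpa using hg.eq hz (hev 0) h

/-- Taylor expansion along a derivation. Hint: use `Gn.regs` for the `δ (ξ i)`. Let `Reg α` mean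
that `α` has a value and `ev α` be this value (zero otherwise; unique by `Gn.eq`). `Reg` is stable
under `δ`: first for `aeval ξ P` (induction on `P`), then for quotients: `α G = P` gives
`δ α = (δ P - α δ G) * G⁻¹`, `Gn.inv`. Put `T α = mk fun n => ev (δ^[n] α) / n!`; then
`d⁄dX (T α) = T (δ α)`, `T` is additive on `Reg`, and multiplicative on `Reg` by induction on the
index of the coefficient (for all pairs at once, through `coeff_derivative` and the Leibniz rules).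
`S` is the set of pairs `(α, T α)` with `Reg α`. -/
theorem Gn.tay [𝔓.IsPrime] (hg : Gn 𝔓 ξ) (δ : Derivation K Ω Ω) : ∀ᶠ p in gen 𝔓,
    ∃ S : Subring (Ω × p.L⟦X⟧), (∀ f, (0, f) ∈ S → f = 0) ∧
      (∀ α f, (α, f) ∈ S → (δ α, d⁄dX p.L f) ∈ S) ∧
      ∀ α β, (α, β) ∈ Gr K ξ p.z ↔ ∃ f, (α, f) ∈ S ∧ constantCoeff f = β :=
  (hg.regs fun i => δ (ξ i)).mono fun p ⟨_, hb⟩ => Tay_core hg p.on δ hb

/-- The expansion of an element with constant derivative (`pr_eq`, `pr_nat`,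
`PowerSeries.derivative.ext`). -/
theorem tay_lin [CharZero L] {S : Subring (Ω × L⟦X⟧)} (h0 : ∀ f, (0, f) ∈ S → f = 0)
    {δ : Derivation K Ω Ω} (h1 : ∀ α f, (α, f) ∈ S → (δ α, d⁄dX L f) ∈ S) {α : Ω} {f : L⟦X⟧}
    (h : (α, f) ∈ S) {n : ℕ} (hn : δ α = n) :
    f = C (constantCoeff f) + (n : L⟦X⟧) * X := by
  have h2 : d⁄dX L f = n := pr_eq h0 (hn ▸ h1 _ _ h) (pr_nat n)
  refine derivative.ext ?_ (by simp)
  rw [h2, map_add, derivative_C, zero_add, ← nsmul_eq_mul, map_nsmul, derivative_X, nsmul_one]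

theorem Tay_wr {k F : Type} [CommRing k] [Field F] [Algebra k F] (δ : Derivation k F F) {r : ℕ}
    (f : Fin r → F) (n : ℕ) : ∀ (S : Finset (Fin r)) (γ : Fin r → F), #S = n →
      (∀ m ∉ S, γ m = 0) → γ ≠ 0 → (∀ j < n, ∑ m, γ m * δ^[j] (f m) = 0) →
      ∃ c : Fin r → F, c ≠ 0 ∧ (∀ m, δ (c m) = 0) ∧ ∑ m, c m * f m = 0 := by
  induction n with
  | zero =>
    intro S γ hS h0 h1 _
    exact absurd (funext fun m => h0 m (by simp [card_eq_zero.1 hS])) h1
  | succ n ih =>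
    intro S γ hS h0 h1 h2
    obtain ⟨a, ha⟩ := Function.ne_iff.1 h1
    have ha' : γ a ≠ 0 := ha
    have haS : a ∈ S := by_contra fun h => ha' (h0 a h)
    have h3 : ∀ j < n + 1, ∑ m, (γ a)⁻¹ * γ m * δ^[j] (f m) = 0 := fun j hj => by
      simp only [mul_assoc, ← mul_sum, h2 j hj, mul_zero]
    by_cases h4 : (fun m => δ ((γ a)⁻¹ * γ m)) = 0
    · refine ⟨fun m => (γ a)⁻¹ * γ m, fun e => ?_, congrFun h4, h3 0 n.succ_pos⟩
      exact mul_ne_zero (inv_ne_zero ha') ha' (congrFun e a)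
    · refine ih (S.erase a) _ (by rw [card_erase_of_mem haS, hS]; rfl) (fun m hm => ?_) h4
        fun j hj => ?_
      · by_cases e : m = a
        · rw [e, inv_mul_cancel₀ ha', Derivation.map_one_eq_zero]
        · rw [h0 m fun h => hm (mem_erase.2 ⟨e, h⟩), mul_zero, map_zero]
      · have h5 := congrArg δ (h3 j (by omega))
        have h6 := h3 (j + 1) (by omega)
        simp only [Function.iterate_succ_apply'] at h6
        rw [map_sum, map_zero, sum_congr rfl fun m _ => δ.leibniz _ _, sum_add_distrib] at h5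
        simp only [smul_eq_mul] at h5
        rw [h6, zero_add] at h5
        rw [← h5]
        exact sum_congr rfl fun m _ => mul_comm _ _

/-- The Wronskian criterion. Hint: prove for a finite set `S` of indices, by induction on its
cardinality: if `γ` is supported in `S`, nonzero, and `∑ m, γ m * δ^[j] (f m) = 0` for all
`j < #S`, then there is a nonzero constant relation. Normalise `γ m₁ = 1`; if all `δ (γ m)` vanish
use `j = 0`; otherwise differentiate the equations and use `δ ∘ γ` on `S.erase m₁`.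
Conclude with `Matrix.exists_mulVec_eq_zero_iff`. -/
theorem wronskian {k F : Type} [CommRing k] [Field F] [Algebra k F] (δ : Derivation k F F) {r : ℕ}
    (f : Fin r → F) (h : ∀ c : Fin r → F, (∀ m, δ (c m) = 0) → ∑ m, c m * f m = 0 → c = 0) :
    (Matrix.of fun j m : Fin r => δ^[j] (f m)).det ≠ 0 := by
  intro h0
  obtain ⟨γ, h1, h2⟩ := Matrix.exists_mulVec_eq_zero_iff.2 h0
  obtain ⟨c, c0, c1, c2⟩ := Tay_wr δ f r univ γ (by simp) (by simp) h1 fun j hj => by
    have := congrFun h2 ⟨j, hj⟩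
    simp only [Matrix.mulVec, dotProduct, Matrix.of_apply, Pi.zero_apply] at this
    rw [← this]
    exact sum_congr rfl fun m _ => mul_comm _ _
  exact c0 (h c c1 c2)

theorem Tay_hom {R R' : Type} [CommRing R] [CommRing R'] (φ : R →+* R')
    {g : MvPolynomial Unit ℤ →+* R} {g' : MvPolynomial Unit ℤ →+* R'}
    (h : φ (g (.X ())) = g' (.X ())) (y : R) (q : Polynomial (MvPolynomial Unit ℤ)) :
    φ (q.eval₂ g y) = q.eval₂ g' (φ y) := by
  rw [Polynomial.hom_eval₂]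
  congr 1
  exact MvPolynomial.ringHom_ext' (Subsingleton.elim _ _) fun _ => h

theorem Tay_bd {R τ : Type} [CommRing R] {N : R → ℝ} (h : SN N) (ψ : MvPolynomial τ ℤ →+* R)
    {ρ : ℝ} (hρ : 1 ≤ ρ) (hx : ∀ i, N (ψ (.X i)) ≤ ρ) (p : MvPolynomial τ ℤ) {e : ℕ}
    (he : p.totalDegree ≤ e) : N (ψ p) ≤ nz p * ρ ^ e := by
  have : ψ = (MvPolynomial.aeval fun i => ψ (.X i) : _ →ₐ[ℤ] R) :=
    MvPolynomial.ringHom_ext' (Subsingleton.elim _ _) fun _ => by simp
  rw [this]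
  exact h.aeval _ hρ hx p he

/-- universal second order expansion -/
theorem Tay_exp (m : Polynomial (MvPolynomial Unit ℤ)) : ∃ H₁ H₂ : MvPolynomial (Fin 4) ℤ,
    ∀ (R : Type) [CommRing R] (ψ : MvPolynomial (Fin 4) ℤ →+* R) (g g' : MvPolynomial Unit ℤ →+* R)
      (x y w : R), g (.X ()) = ψ (.X 0) + x → g' (.X ()) = ψ (.X 0) → ψ (.X 1) = x →
      ψ (.X 2) = y → ψ (.X 3) = w → m.eval₂ g (y + w) = m.eval₂ g' y +
        (Polynomial.derivative m).eval₂ g' y * w + (x * ψ H₁ + w * (w * ψ H₂)) := by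
  let V : Fin 4 → MvPolynomial (Fin 4) ℤ := MvPolynomial.X
  let a := MvPolynomial.eval₂Hom (Int.castRingHom _) fun _ : Unit => V 0 + V 1
  let a' := MvPolynomial.eval₂Hom (Int.castRingHom _) fun _ : Unit => V 0
  have ha : a (.X ()) = V 0 + V 1 := MvPolynomial.eval₂Hom_X' _ _ _
  have ha' : a' (.X ()) = V 0 := MvPolynomial.eval₂Hom_X' _ _ _
  obtain ⟨H₂, h2⟩ := Polynomial.binomExpansion (m.map a') (V 2) (V 3)
  obtain ⟨H₁, h1⟩ : V 1 ∣ m.eval₂ a (V 2 + V 3) - m.eval₂ a' (V 2 + V 3) := by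
    rw [← Ideal.mem_span_singleton, ← Ideal.Quotient.eq, Polynomial.hom_eval₂,
      Tay_hom _ (g := a') (g' := (Ideal.Quotient.mk _).comp a)]
    rw [RingHom.comp_apply, ha, ha', map_add,
      Ideal.Quotient.eq_zero_iff_mem.2 (Ideal.mem_span_singleton_self (V 1)), add_zero]
  rw [Polynomial.derivative_map, Polynomial.eval_map, Polynomial.eval_map, Polynomial.eval_map]
    at h2
  refine ⟨H₁, H₂, fun R _ ψ g g' x y w e0 e1 e2 e3 e4 => ?_⟩
  have h3 := congrArg ψ ((sub_eq_iff_eq_add.1 h1).trans (congrArg (V 1 * H₁ + ·) h2))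
  have k1 := Tay_hom ψ (g := a) (g' := g) (by rw [ha, map_add, e0, e2])
  have k2 := Tay_hom ψ (g := a') (g' := g') (by rw [ha', e1])
  simp only [map_add, map_mul, map_pow, k1, k2, V, e2, e3, e4] at h3
  rw [h3]
  ring

/-- Bounds of Eisenstein type for an algebraic power series. Hint: in
`U = MvPolynomial (Fin 4) ℤ` with variables `T, X, Y, W` there are `H₁ H₂` with
`m (T + X, Y + W) = m (T, Y) + m' (T, Y) * W + X * H₁ + W * (W * H₂)` (induction on `m`, or
`Polynomial.binomExpansion` after mapping, and `X ∣ aeval (T + X) p - aeval T p`). Substitute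
`(C t₀, X, C x₀, w)` with `w = f - C x₀`; `m (t₀, x₀) = 0` (constant coefficient), so
`w = -C Δ⁻¹ * (X * H₁ + w * (w * H₂))`. Induction on `k` with `SN.tn_mul` (levels `k + 1, k` for
`X * H₁` and `k, k` for `w * (w * H₂)`), `SN.aeval` for `tn v r k`, `SN.tn_C`, `SN.tn_X`;
`A = 2 * max 1 (max (nz H₁) (nz H₂))`, note `τ ≤ 1`. -/
theorem hensel (m : Polynomial (MvPolynomial Unit ℤ)) : ∃ (A : ℝ) (e : ℕ), 1 ≤ A ∧
    ∀ (L : Type) [Field L] (t₀ x₀ Δ : L) (f : L⟦X⟧), constantCoeff f = x₀ →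
      m.eval₂ (MvPolynomial.aeval fun _ : Unit => C t₀ + X : _ →ₐ[ℤ] L⟦X⟧) f = 0 →
      (Polynomial.derivative m).eval₂ (MvPolynomial.aeval fun _ : Unit => t₀ : _ →ₐ[ℤ] L) x₀ = Δ →
      Δ ≠ 0 →
      ∀ (v : AbsoluteValue L ℝ) (τ r : ℝ), 0 ≤ τ → 0 ≤ r → r ≤ τ ^ 2 →
        τ * (A * (max (v t₀) 1 * max (v x₀) 1) ^ e * max (v Δ⁻¹) 1) ≤ 1 →
        ∀ k, tn v r k (f - C x₀) ≤ τ := by
  obtain ⟨H₁, H₂, hH⟩ := Tay_exp m
  set B := max 1 (max (nz H₁) (nz H₂)) with hB
  have B1 : 1 ≤ B := le_max_left _ _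
  refine ⟨2 * B, max H₁.totalDegree H₂.totalDegree, by linarith,
    fun L _ t₀ x₀ Δ f hf hm hΔ Δ0 v τ r τ0 r0 hr hτ k => ?_⟩
  set e := max H₁.totalDegree H₂.totalDegree
  set ρ := max (v t₀) 1 * max (v x₀) 1 with hρ
  set M := max (v Δ⁻¹) 1
  set w := f - C x₀ with hw
  have ρ1 : 1 ≤ ρ := one_le_mul_of_one_le_of_one_le (le_max_right _ _) (le_max_right _ _)
  have ρe : 1 ≤ ρ ^ e := one_le_pow₀ ρ1
  have M1 : 1 ≤ M := le_max_right _ _
  have τ1 : τ ≤ 1 := le_trans (le_mul_of_one_le_right τ0 (one_le_mul_of_one_le_of_one_le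
    (one_le_mul_of_one_le_of_one_le (by linarith) ρe) M1)) hτ
  have r1 : r ≤ 1 := hr.trans (pow_le_one₀ τ0 τ1)
  have w0 : coeff 0 w = 0 := by simp [hw, hf]
  have e0 : m.eval₂ (MvPolynomial.aeval fun _ : Unit => t₀ : _ →ₐ[ℤ] L) x₀ = 0 := by
    have := congrArg constantCoeff hm
    rwa [Tay_hom (R := L⟦X⟧) _ (g' := (MvPolynomial.aeval fun _ : Unit => t₀ : _ →ₐ[ℤ] L))
      (by simp), hf, map_zero] at this
  let ψ := MvPolynomial.eval₂Hom (Int.castRingHom L⟦X⟧) ![C t₀, X, C x₀, w]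
  have hψ : ∀ i, ψ (.X i) = ![C t₀, X, C x₀, w] i := MvPolynomial.eval₂Hom_X' _ _
  have h1 := hH L⟦X⟧ ψ (MvPolynomial.aeval fun _ : Unit => C t₀ + X : _ →ₐ[ℤ] L⟦X⟧)
    ((C : L →+* L⟦X⟧).comp (MvPolynomial.aeval fun _ : Unit => t₀ : _ →ₐ[ℤ] L)) X (C x₀) w
    (by simp [hψ]) (by simp [hψ]) (hψ 1) (hψ 2) (hψ 3)
  rw [show C x₀ + w = f by rw [hw]; ring, hm, ← Polynomial.hom_eval₂, ← Polynomial.hom_eval₂, e0,
    hΔ, map_zero, zero_add] at h1
  set G₁ := ψ H₁
  set G₂ := ψ H₂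
  have h2 : w = -(C Δ⁻¹ * (X * G₁ + w * (w * G₂))) := by
    rw [← neg_eq_iff_add_eq_zero.2 h1.symm, mul_neg, neg_neg, ← mul_assoc, ← map_mul,
      inv_mul_cancel₀ Δ0, map_one, one_mul]
  have hv := sn_abs v
  induction k with
  | zero => simpa [tn] using τ0
  | succ k ih =>
    have hk := hv.tn r0 k
    have hk' := hv.tn r0 (k + 1)
    have hx : ∀ i, tn v r k (ψ (.X i)) ≤ ρ := fun i => by
      rw [hψ]
      fin_cases i
      · exact (hv.tn_C r0 k _).trans ((le_max_left _ 1).trans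
          (le_mul_of_one_le_right (by positivity) (le_max_right _ _)))
      · exact (hv.tn_X r0 k).trans (r1.trans ρ1)
      · exact (hv.tn_C r0 k _).trans ((le_max_left _ 1).trans
          (le_mul_of_one_le_left (by positivity) (le_max_right _ _)))
      · exact ih.trans (τ1.trans ρ1)
    have g1 : tn v r k G₁ ≤ B * ρ ^ e := (Tay_bd hk ψ ρ1 hx H₁ (le_max_left _ _)).trans
      (mul_le_mul_of_nonneg_right ((le_max_left _ _).trans (le_max_right _ _)) (by positivity))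
    have g2 : tn v r k G₂ ≤ B * ρ ^ e := (Tay_bd hk ψ ρ1 hx H₂ (le_max_right _ _)).trans
      (mul_le_mul_of_nonneg_right ((le_max_right _ _).trans (le_max_right _ _)) (by positivity))
    have g3 : tn v r (k + 1) (X * G₁) ≤ τ ^ 2 * (B * ρ ^ e) :=
      (hv.tn_mul r0 (k₁ := k + 1) (k₂ := k) fun a b hab ha _ => by
        have : a ≠ 0 := fun e => ha (by simp [e])
        omega).trans (mul_le_mul ((hv.tn_X r0 _).trans hr) g1 (hk.nonneg _) (by positivity))
    have g4 : tn v r (k + 1) (w * (w * G₂)) ≤ τ * (τ * (B * ρ ^ e)) :=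
      (hv.tn_mul r0 (k₁ := k) (k₂ := k) fun a b hab ha hb => by
        have : a ≠ 0 := fun e => ha (e ▸ w0)
        have : b ≠ 0 := fun e => hb (by
          rw [e, coeff_zero_eq_constantCoeff, map_mul, ← coeff_zero_eq_constantCoeff, w0, zero_mul])
        omega).trans (mul_le_mul ih (hk.mul_le ih g2) (hk.nonneg _) τ0)
    rw [h2, hk'.neg]
    refine (hk'.mul_le ((hv.tn_C r0 _ _).trans (le_max_left _ 1 : _ ≤ M))
      ((hk'.add _ _).trans (add_le_add g3 g4))).trans ?_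
    calc _ = τ * (τ * (2 * B * ρ ^ e * M)) := by ring
      _ ≤ τ := mul_le_of_le_one_right τ0 hτ

end Pool.Agent.ZPT
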