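import Pool.Agent.P.MP_4fdccb_ag.S.Ndf
import Pool.Agent.P.MP_4fdccb_ag.S.Dich
import Pool.Agent.P.MP_4fdccb_ag.S.Case1
import Pool.Agent.P.MP_4fdccb_ag.S.Case2

/-! The theorem on surfaces. -/

set_option linter.unusedSectionVars false
set_option linter.unusedVariables false

namespace Pool.Agent.ZPT
open Finset MvPolynomial Filter Height Real Matrix Topology

variable {K : Type} [Field K] [NumberField K] [Algebra K ℂ] {ι : Type} [Fintype ι] [DecidableEq ι]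
  {𝔓 : Ideal (MvPolynomial ι K)} [𝔓.IsPrime]

theorem ortho {L : Type} [Field L] {z : ι → L} (hz : ∀ i, z i ≠ 0) {a : Fin 3 → ι → ℤ}
    (ha : LinearIndependent ℤ a) (h : ∀ k, ∏ i, z i ^ a k i = 1) : ∃ ψ : Fin 3 → ι → ℝ,
      (∀ l l', ψ l ⬝ᵥ ψ l' = if l = l' then 1 else 0) ∧ ∀ l, VV z (ψ l) := by
  let f : Fin 3 → EuclideanSpace ℝ ι := fun k => WithLp.toLp 2 (algebraMap ℤ ℝ ∘ a k)
  have h1 : LinearIndependent ℝ f := LinearIndependent.of_comp (WithLp.linearEquiv 2 ℝ _).toLinearMap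
    (linearIndependent_algebraMap_comp_iff.2 ha)
  refine ⟨fun l => (InnerProductSpace.gramSchmidtNormed ℝ f l).ofLp, fun l l' => ?_, fun l => ?_⟩
  · rw [← orthonormal_iff_ite.1 (InnerProductSpace.gramSchmidtNormed_orthonormal h1) l l']
    simp [PiLp.inner_apply, dotProduct, mul_comm]
  · obtain ⟨c, hc⟩ := (Submodule.mem_span_range_iff_exists_fun ℝ).1
      (show InnerProductSpace.gramSchmidtNormed ℝ f l ∈ Submodule.span ℝ (Set.range f) by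
        rw [← InnerProductSpace.span_gramSchmidt, ← InnerProductSpace.span_gramSchmidtNormed_range]
        exact Submodule.subset_span ⟨l, rfl⟩)
    have := VV.comb (z := z) univ (φ := fun k => algebraMap ℤ ℝ ∘ a k) (fun k _ v => by
      simpa [h k] using (log_mono hz (a k) v).symm) c
    beta_reduce
    rw [← hc]
    simpa [f] using this

theorem ortho_ind {ψ : Fin 3 → ι → ℝ} (h : ∀ l l', ψ l ⬝ᵥ ψ l' = if l = l' then 1 else 0) :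
    LinearIndependent ℝ ψ := Fintype.linearIndependent_iff.2 fun c hc l => by
  simpa [sum_dotProduct, h] using congrArg (· ⬝ᵥ ψ l) hc

variable {Ω : Type} [Field Ω] [Algebra K Ω] {ξ : ι → Ω}

theorem Gn.trans (hg : Gn 𝔓 ξ) {a : ι → ℤ}
    (ha : ((fun z : ι → ℂ => ∏ i, z i ^ a i) '' Tor 𝔓).Infinite) :
    Transcendental K (∏ i, ξ i ^ a i) := by
  rintro ⟨f, f0, hf⟩
  refine ha ((f.rootSet_finite ℂ).subset ?_)
  rintro _ ⟨z, hz, rfl⟩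
  have := Polynomial.aeval_mem_adjoin_singleton K (p := f) (∏ i, ξ i ^ a i, ∏ i, z i ^ a i)
  have := Algebra.adjoin_le (Set.singleton_subset_iff.2 (hg.mono hz a)) this
  rw [Polynomial.aeval_prod_apply, hf] at this
  exact (Polynomial.mem_rootSet_of_ne f0).2 (hg.fn hz _ this)

theorem loc_nd (hg : Gn 𝔓 ξ) (htr : Algebra.trdeg K Ω = 2) {ψ : Fin 3 → ι → ℝ}
    {γ : Fin 3 → Fin 3 → ℝ} (h : NDat (Tor 𝔓) fun k => ∑ l, γ k l • ψ l) :
    ∃ ε > (0 : ℝ), ∀ᶠ p in gen 𝔓, ∀ ψ' : Fin 3 → ι → ℝ, (∀ l i, |ψ' l i - ψ l i| ≤ ε) →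
      ¬ ∀ l, VV p.z (ψ' l) := by
  obtain ⟨ε₁, e1, h₁, h1⟩ := hab hg htr (cov h)
  obtain ⟨ε₂, e2, h2⟩ := ndf hg htr (cov h) h₁
  refine ⟨min ε₁ ε₂ / (3 * (‖γ‖ + 1)), by positivity, ?_⟩
  filter_upwards [h1, h2] with p h1 h2 ψ' h3 h4
  have h5 : ∀ k i, |(∑ l, γ k l • ψ' l) i - (∑ l, γ k l • ψ l) i| ≤ min ε₁ ε₂ := fun k i => by
    simp only [Finset.sum_apply, Pi.smul_apply, smul_eq_mul, ← sum_sub_distrib, ← mul_sub]
    refine (abs_sum_le_sum_abs _ _).trans ((sum_le_card_nsmul _ _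
      ((‖γ‖ + 1) * (min ε₁ ε₂ / (3 * (‖γ‖ + 1)))) fun l _ => ?_).trans (le_of_eq ?_))
    · rw [abs_mul]
      exact mul_le_mul (((norm_le_pi_norm (γ k) l).trans (norm_le_pi_norm γ k)).trans (by simp))
        (h3 l i) (abs_nonneg _) (by positivity)
    · simp; field_simp
  have h6 := fun k => VV.comb univ (fun l _ => h4 l) (γ k)
  exact h2 (h1 _ (fun k i => (h5 k i).trans (min_le_left _ _)) h6) _
    (fun k i => (h5 k i).trans (min_le_right _ _)) h6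

theorem base_gen (hg : Gn 𝔓 ξ) (htr : Algebra.trdeg K Ω = 2)
    (ha : ∀ a : ι → ℤ, a ≠ 0 → ((fun z : ι → ℂ => ∏ i, z i ^ a i) '' Tor 𝔓).Infinite)
    {ψ : Fin 3 → ι → ℝ} {k : ℕ} {M : Fin k → ι → ℤ} (h : FDat K ξ ψ M)
    {𝔮 : Ideal (MvPolynomial (Fin k) K)}
    (hk : ∀ g, aeval (fun j => ∏ i, ξ i ^ M j i) g = 0 ↔ g ∈ 𝔮) :
    Algebra.trdeg K (MvPolynomial (Fin k) K ⧸ 𝔮) = 1 ∧
      ∃ (E : Type) (_ : Field E) (_ : Algebra K E) (q : Fin k → E), Gen 𝔮 q := by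
  let q₀ : Fin k → Ω := fun j => ∏ i, ξ i ^ M j i
  let E := IntermediateField.adjoin K (Set.range q₀)
  obtain ⟨q, q1, q2⟩ : ∃ q : Fin k → E, algebraMap E Ω ∘ q = q₀ ∧
    IntermediateField.adjoin K (Set.range q) = ⊤ := restr q₀
  have q3 : ∀ g, aeval q g = 0 ↔ g ∈ 𝔮 := fun g => by rw [← aeval_up (Ω := Ω), q1, hk]
  let j₀ : Fin k := ⟨0, by have := h.k3; omega⟩
  have t1 : Algebra.Transcendental K E := ⟨q j₀, fun h1 => hg.trans (ha _ (h.ind.ne_zero j₀)) (by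
    have := h1.algebraMap (A := Ω)
    rwa [show algebraMap E Ω (q j₀) = _ from congrFun q1 j₀] at this)⟩
  have t2 : Algebra.Transcendental E Ω := by
    rw [Algebra.transcendental_iff_not_isAlgebraic]
    intro h1
    have : Algebra.IsAlgebraic (Algebra.adjoin K {q₀ j₀}) Ω := ⟨fun x =>
      (IntermediateField.isAlgebraic_adjoin_iff.1 (h1.isAlgebraic x)).adjoin_of_forall_isAlgebraic
        (by rintro _ ⟨⟨j, rfl⟩, -⟩; exact h.alg j₀ j)⟩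
    have := Algebra.IsAlgebraic.trdeg_le_cardinalMk K ({q₀ j₀} : Set Ω)
    rw [htr, Cardinal.mk_singleton] at this
    norm_num at this
  have t3 : Algebra.trdeg K E = 1 := by
    refine le_antisymm (Cardinal.add_one_le_add_one_iff.1 ?_)
      (Cardinal.one_le_iff_pos.2 (trdeg_pos K E))
    rw [one_add_one_eq_two, ← htr, ← trdeg_add_eq K E (A := Ω)]
    exact add_le_add le_rfl (Cardinal.one_le_iff_pos.2 (trdeg_pos E Ω))
  refine ⟨(tr_eq q3 q2).symm.trans t3, E, inferInstance, inferInstance, q, q3, q2, t3.le,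
    fun j hj => prod_ne_zero_iff.2 (fun i _ => zpow_ne_zero (M j i) (hg.nz i))
      (by simpa [hj] using (congrFun q1 j).symm), fun a a0 => (ha (∑ j, a j • M j) fun e =>
        a0 (funext (Fintype.linearIndependent_iff.1 h.ind a e))).mono ?_⟩
  rintro _ ⟨z, hz, rfl⟩
  refine ⟨_, hg.onq hk hz, ?_⟩
  simp only [← prod_zpow, ← _root_.zpow_mul, Finset.sum_apply, Pi.smul_apply, smul_eq_mul]
  rw [Finset.prod_comm]
  exact prod_congr rfl fun i _ => by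
    rw [zpow_sum' (hz.1 i)]; exact prod_congr rfl fun j _ => by rw [mul_comm]

theorem loc_fib (hg : Gn 𝔓 ξ) (htr : Algebra.trdeg K Ω = 2)
    (ha : ∀ a : ι → ℤ, a ≠ 0 → ((fun z : ι → ℂ => ∏ i, z i ^ a i) '' Tor 𝔓).Infinite)
    {ψ : Fin 3 → ι → ℝ} (hψ : LinearIndependent ℝ ψ) {k : ℕ} {M : Fin k → ι → ℤ}
    (h : FDat K ξ ψ M) (hb : ∀ 𝔮 : Ideal (MvPolynomial (Fin k) K), 𝔮.IsPrime →
      Algebra.trdeg K (MvPolynomial (Fin k) K ⧸ 𝔮) = 1 →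
      (∀ z ∈ Tor 𝔓, (fun j => ∏ i, z i ^ M j i) ∈ Tor 𝔮) →
      ∀ u w : Fin k → ℝ, LinearIndependent ℝ ![u, w] →
      {Q ∈ Tor 𝔮 | u ⬝ᵥ Lg Q = 0 ∧ w ⬝ᵥ Lg Q = 0}.Finite) :
    ∃ ε > (0 : ℝ), ∀ᶠ p in gen 𝔓, ∀ ψ' : Fin 3 → ι → ℝ, LinearIndependent ℝ ψ' →
      (∀ l i, |ψ' l i - ψ l i| ≤ ε) → ¬ ∀ l, VV p.z (ψ' l) := by
  let 𝔮 := RingHom.ker (aeval fun j => ∏ i, ξ i ^ M j i : MvPolynomial (Fin k) K →ₐ[K] Ω)
  have hp : 𝔮.IsPrime := RingHom.ker_isPrime _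
  have hk : ∀ g, aeval (fun j => ∏ i, ξ i ^ M j i) g = 0 ↔ g ∈ 𝔮 := fun g => Iff.rfl
  obtain ⟨t1, E, _, _, q, hq⟩ := base_gen hg htr ha h hk
  let j₀ : Fin k := ⟨0, by have := h.k3; omega⟩
  have ht := hg.trans (ha _ (h.ind.ne_zero j₀))
  choose β hβ using fun l => (Submodule.mem_span_range_iff_exists_fun ℝ).1 (h.spn l)
  have b1 : ∀ l i, ∑ j, β l j * M j i = ψ l i := fun l i => by simp [← hβ l]
  have b2 : LinearIndependent ℝ β := LinearIndependent.of_comp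
    (Fintype.linearCombination ℝ fun j i => (M j i : ℝ)) (by
      convert hψ using 1
      exact funext hβ)
  obtain ⟨ε₂, e2, h₀, h2⟩ := case2 hq hg htr hk j₀ ht (h.alg j₀)
    (linearIndependent_algebraMap_comp_iff.2 h.ind) (h.sat j₀) (b2.ne_zero 0)
  obtain ⟨ε₁, e1, h1⟩ := case1 hg htr hk j₀ ht (h.alg j₀)
    (hb 𝔮 hp t1 fun z hz => hg.onq hk hz) b2 h₀
  refine ⟨min ε₁ ε₂, lt_min e1 e2, ?_⟩
  filter_upwards [h1, h2] with p h1 h2 ψ' h3 h4 h5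
  simp only [b1] at h1 h2
  rcases le_total (logHeight₁ (∏ i, p.z i ^ M j₀ i)) (h₀ * p.D) with h6 | h6
  · exact h1 h6 ψ' (fun l i => (h4 l i).trans (min_le_left _ _)) h5
  · refine h2 h6 (ψ' 0) (ψ' 1) ?_ (fun i => (h4 0 i).trans (min_le_right _ _)) (h5 0) (h5 1)
    convert h3.comp ![0, 1] (by decide) using 1
    ext l : 1
    fin_cases l <;> rfl

theorem surf (hZ : (Tor 𝔓).Nonempty) (hdim : Algebra.trdeg K (MvPolynomial ι K ⧸ 𝔓) = 2)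
    (ha : ∀ a : ι → ℤ, a ≠ 0 → ((fun z : ι → ℂ => ∏ i, z i ^ a i) '' Tor 𝔓).Infinite)
    (hb : ∀ (k : ℕ) (M : Fin k → ι → ℤ) (𝔮 : Ideal (MvPolynomial (Fin k) K)), 3 ≤ k →
      LinearIndependent ℤ M → 𝔮.IsPrime → Algebra.trdeg K (MvPolynomial (Fin k) K ⧸ 𝔮) = 1 →
      (∀ z ∈ Tor 𝔓, (fun j => ∏ i, z i ^ M j i) ∈ Tor 𝔮) →
      ∀ u w : Fin k → ℝ, LinearIndependent ℝ ![u, w] →
      {Q ∈ Tor 𝔮 | u ⬝ᵥ Lg Q = 0 ∧ w ⬝ᵥ Lg Q = 0}.Finite) :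
    ∃ G : MvPolynomial ι K, (∃ z ∈ Tor 𝔓, aeval z G ≠ 0) ∧ ∀ z ∈ Tor 𝔓,
      ∀ a : Fin 3 → ι → ℤ, LinearIndependent ℤ a → (∀ k, ∏ i, z i ^ a k i = 1) →
        aeval z G = 0 := by
  obtain ⟨Ω, _, _, ξ, z1, z2⟩ := gen_pt 𝔓
  have hg : Gn 𝔓 ξ := ⟨z1, z2, fun i hi => by
    obtain ⟨w, hw⟩ := hZ
    exact hw.1 i (by simpa using hw.2 (X i) ((z1 _).1 (by simpa using hi)))⟩
  have htr := (tr_eq z1 z2).trans hdim
  let W := {ψ : Fin 3 → ι → ℝ | ∀ l l', ψ l ⬝ᵥ ψ l' = if l = l' then 1 else 0}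
  have hW : IsCompact W := (isCompact_closedBall 0 1).of_isClosed_subset (by
    simp only [W, Set.ofPred_forall]
    exact isClosed_iInter fun l => isClosed_iInter fun l' =>
      isClosed_eq (by fun_prop) continuous_const) fun ψ h => mem_closedBall_zero_iff.2
    ((pi_norm_le_iff_of_nonneg zero_le_one).2 fun l =>
      (pi_norm_le_iff_of_nonneg zero_le_one).2 fun i => abs_le_one_iff_mul_self_le_one.2
        ((single_le_sum (f := fun i => ψ l i * ψ l i) (fun _ _ => mul_self_nonneg _)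
          (mem_univ i)).trans ((h l l).trans (if_pos rfl)).le))
  have h1 : ∀ᶠ x : Pt 𝔓 × (Fin 3 → ι → ℝ) in gen 𝔓 ×ˢ 𝓝ˢ W,
      LinearIndependent ℝ x.2 → ¬ ∀ l, VV x.1.z (x.2 l) :=
    hW.mem_prod_nhdsSet_of_forall fun ψ hψ => by
      obtain ⟨ε, e0, h⟩ : ∃ ε > (0 : ℝ), ∀ᶠ p in gen 𝔓, ∀ ψ' : Fin 3 → ι → ℝ,
          LinearIndependent ℝ ψ' → (∀ l i, |ψ' l i - ψ l i| ≤ ε) → ¬ ∀ l, VV p.z (ψ' l) := by
        rcases dich hg htr (fun a h => hg.trans (ha a h)) (ortho_ind hψ) with ⟨γ, h⟩ | ⟨k, M, h⟩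
        · obtain ⟨ε, e0, h⟩ := loc_nd hg htr h
          exact ⟨ε, e0, h.mono fun p h ψ' _ => h ψ'⟩
        · exact loc_fib hg htr ha (ortho_ind hψ) h fun 𝔮 => hb k M 𝔮 h.k3 h.ind
      refine mem_of_superset (prod_mem_prod h (Metric.closedBall_mem_nhds ψ e0))
        fun x hx h1 => hx.1 _ h1 fun l i => ?_
      exact ((norm_le_pi_norm ((x.2 - ψ) l) i).trans (norm_le_pi_norm _ l)).trans
        (mem_closedBall_iff_norm.1 hx.2)
  obtain ⟨S, ⟨G, g1, g2⟩, U, hU, h2⟩ := mem_prod_iff.1 h1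
  refine ⟨G, null hZ g1 fun L _ _ _ z hz a a1 a2 => ?_⟩
  by_contra h3
  obtain ⟨ψ, h4, h5⟩ := ortho hz.1 a1 a2
  exact h2 (Set.mk_mem_prod (g2 { L := L, z := z, on := hz } h3) (subset_of_mem_nhdsSet hU h4))
    (ortho_ind h4) h5

end Pool.Agent.ZPT
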